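import Pool.Agent.Helper20.TB.Wj

/-!
# Project OB (MP_0f6f3f_an), layer TB, block TB-W3: the Hilbert–Schmidt norm

`hs A = ∑_ij A_ij²` `= ∑_i ‖row_i‖²`, `row_i = toLp (A i) : EuclideanSpace ℝ m`, `(op A x) i = ⟪row_i, x⟫`.
PROOFS. `op_sq_le`: Cauchy-Schwarz for each `i`. `hs_le_card`: `hs A = ∑_j ‖op A e_j‖² ≤ card m ‖op A‖²`. `hs_perp`: for `x ≠ 0`, `x' = x / ‖x‖`: `v, x'` orthonormal: `⟪row_i, v⟫² + ⟪row_i, x'⟫² ≤ ‖row_i‖²` (Bessel: `Orthonormal.sum_inner_products_le`, or `‖row - ⟪row,v⟫v - ⟪row,x'⟫x'‖² ≥ 0`), sum over `i`.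
`hs_orth`: `hs (U A) = tr (Aᵀ Uᵀ U A) = hs A`, `hs Aᵀ = hs A`.
`pc_of_hs`: `h := hs A > 0`, `‖op A v‖² ≥ (1 - η²/2) h ≥ (1 - η²/2) ‖op A‖² ≥ (1 - η)² ‖op A‖²` (`0 ≤ η ≤ 1`: `(3/2) η² ≤ 2 η`); for `x ⊥ v`: `‖op A x‖² ≤ (h - ‖op A v‖²) ‖x‖² ≤ (η²/2) h ‖x‖²`, `h ≤ ‖op A v‖² / (1 - η²/2) ≤ 2 ‖op A‖²`.
-/

set_option autoImplicit false

open Matrix

namespace Pool.Agent.Helper20.TB

variable {m : Type} [Fintype m] [DecidableEq m]

private theorem row_apply56 (A : Matrix m m ℝ) (x : EuclideanSpace ℝ m) (i : m) :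
    (op A x) i = inner ℝ (WithLp.toLp 2 (A i) : EuclideanSpace ℝ m) x := by
  unfold op
  rw [Matrix.ofLp_toEuclideanCLM, Matrix.mulVec, dotProduct, PiLp.inner_apply]
  refine Finset.sum_congr rfl fun j _ => ?_
  simp [mul_comm]

private theorem hs_rows56 (A : Matrix m m ℝ) :
    hs A = ∑ i, ‖(WithLp.toLp 2 (A i) : EuclideanSpace ℝ m)‖ ^ 2 := by
  unfold hs
  refine Finset.sum_congr rfl fun i _ => ?_
  rw [EuclideanSpace.real_norm_sq_eq]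

private theorem op_norm_sq56 (A : Matrix m m ℝ) (x : EuclideanSpace ℝ m) :
    ‖op A x‖ ^ 2 = ∑ i, inner ℝ (WithLp.toLp 2 (A i) : EuclideanSpace ℝ m) x ^ 2 := by
  rw [EuclideanSpace.real_norm_sq_eq]
  exact Finset.sum_congr rfl fun i _ => by rw [row_apply56]

private theorem cs_sq56 {E : Type*} [NormedAddCommGroup E] [InnerProductSpace ℝ E] (x y : E) :
    inner ℝ x y ^ 2 ≤ ‖x‖ ^ 2 * ‖y‖ ^ 2 := by
  have h := abs_real_inner_le_norm x y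
  have h2 := mul_self_le_mul_self (abs_nonneg _) h
  rw [abs_mul_abs_self] at h2
  nlinarith

theorem op_sq_le (A : Matrix m m ℝ) (x : EuclideanSpace ℝ m) : ‖op A x‖ ^ 2 ≤ hs A * ‖x‖ ^ 2 := by
  rw [op_norm_sq56, hs_rows56, Finset.sum_mul]
  exact Finset.sum_le_sum fun i _ => cs_sq56 _ _

theorem hs_nonneg (A : Matrix m m ℝ) : 0 ≤ hs A :=
  Finset.sum_nonneg fun _ _ => Finset.sum_nonneg fun _ _ => sq_nonneg _

theorem norm_op_sq_le (A : Matrix m m ℝ) : ‖op A‖ ^ 2 ≤ hs A := by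
  have h0 := hs_nonneg A
  have h : ‖op A‖ ≤ √(hs A) := by
    refine ContinuousLinearMap.opNorm_le_bound _ (Real.sqrt_nonneg _) fun x => ?_
    refine abs_le_of_sq_le_sq' ?_ (by positivity) |>.2
    rw [mul_pow, Real.sq_sqrt h0]
    exact op_sq_le A x
  calc ‖op A‖ ^ 2 ≤ √(hs A) ^ 2 := pow_le_pow_left₀ (norm_nonneg _) h 2
    _ = hs A := Real.sq_sqrt h0

theorem hs_le_card (A : Matrix m m ℝ) : hs A ≤ Fintype.card m * ‖op A‖ ^ 2 := by
  have h1 : hs A = ∑ j, ‖op A (EuclideanSpace.single j (1 : ℝ))‖ ^ 2 := by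
    unfold hs
    rw [Finset.sum_comm]
    refine Finset.sum_congr rfl fun j _ => ?_
    rw [EuclideanSpace.real_norm_sq_eq]
    refine Finset.sum_congr rfl fun i _ => ?_
    rw [row_apply56, EuclideanSpace.inner_single_right]
    simp
  rw [h1]
  calc ∑ j, ‖op A (EuclideanSpace.single j (1 : ℝ))‖ ^ 2 ≤ ∑ _j : m, ‖op A‖ ^ 2 := by
        refine Finset.sum_le_sum fun j _ => ?_
        refine pow_le_pow_left₀ (norm_nonneg _) ?_ 2
        have h2 := (op A).le_opNorm (EuclideanSpace.single j (1 : ℝ))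
        simpa using h2
    _ = Fintype.card m * ‖op A‖ ^ 2 := by
        rw [Finset.sum_const, nsmul_eq_mul, Finset.card_univ]

theorem hs_perp (A : Matrix m m ℝ) {v x : EuclideanSpace ℝ m} (hv : ‖v‖ = 1) (hx : inner ℝ v x = 0) :
    ‖op A v‖ ^ 2 * ‖x‖ ^ 2 + ‖op A x‖ ^ 2 ≤ hs A * ‖x‖ ^ 2 := by
  rw [op_norm_sq56, op_norm_sq56, hs_rows56, Finset.sum_mul, Finset.sum_mul, ← Finset.sum_add_distrib]
  refine Finset.sum_le_sum fun i _ => ?_
  generalize (WithLp.toLp 2 (A i) : EuclideanSpace ℝ m) = r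
  have h1 : inner ℝ (r - inner ℝ r v • v) x = inner ℝ r x := by
    rw [inner_sub_left, inner_smul_left, hx, mul_zero, sub_zero]
  have h2 : ‖r - inner ℝ r v • v‖ ^ 2 = ‖r‖ ^ 2 - inner ℝ r v ^ 2 := by
    rw [norm_sub_sq_real, inner_smul_right, norm_smul, hv, mul_one, Real.norm_eq_abs, sq_abs]
    ring
  have h3 := cs_sq56 (r - inner ℝ r v • v) x
  rw [h1, h2] at h3
  linarith

private theorem hs_trace56 (A : Matrix m m ℝ) : hs A = (Aᵀ * A).trace := by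
  unfold hs
  rw [Finset.sum_comm]
  simp only [Matrix.trace, Matrix.diag, Matrix.mul_apply, Matrix.transpose_apply]
  exact Finset.sum_congr rfl fun i _ => Finset.sum_congr rfl fun j _ => by ring

private theorem hs_trace'56 (A : Matrix m m ℝ) : hs A = (A * Aᵀ).trace := by
  unfold hs
  simp only [Matrix.trace, Matrix.diag, Matrix.mul_apply, Matrix.transpose_apply]
  exact Finset.sum_congr rfl fun i _ => Finset.sum_congr rfl fun j _ => by ring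

theorem hs_orth_left {U : Matrix m m ℝ} (hU : Uᵀ * U = 1) (A : Matrix m m ℝ) : hs (U * A) = hs A := by
  rw [hs_trace56, hs_trace56, Matrix.transpose_mul, Matrix.mul_assoc, ← Matrix.mul_assoc Uᵀ, hU, Matrix.one_mul]

theorem hs_orth_right {U : Matrix m m ℝ} (hU : U * Uᵀ = 1) (A : Matrix m m ℝ) : hs (A * U) = hs A := by
  rw [hs_trace'56, hs_trace'56, Matrix.transpose_mul, Matrix.mul_assoc, ← Matrix.mul_assoc U, hU, Matrix.one_mul]

theorem hs_smul (c : ℝ) (A : Matrix m m ℝ) : hs (c • A) = c ^ 2 * hs A := by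
  unfold hs
  rw [Finset.mul_sum]
  refine Finset.sum_congr rfl fun i _ => ?_
  rw [Finset.mul_sum]
  refine Finset.sum_congr rfl fun j _ => ?_
  rw [Matrix.smul_apply, smul_eq_mul, mul_pow]

theorem hs_neg (A : Matrix m m ℝ) : hs (-A) = hs A := by
  unfold hs
  simp

theorem pc_of_hs (A : Matrix m m ℝ) {v : EuclideanSpace ℝ m} {η : ℝ} (hA : 0 < hs A) (hv : ‖v‖ = 1) (hη0 : 0 ≤ η) (hη1 : η ≤ 1)
    (h : 1 - ‖op A v‖ ^ 2 / hs A ≤ η ^ 2 / 2) : PC (op A) v η := by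
  have h1 : hs A - ‖op A v‖ ^ 2 ≤ η ^ 2 / 2 * hs A := by
    have h2 := mul_le_mul_of_nonneg_right h hA.le
    have h3 : (1 - ‖op A v‖ ^ 2 / hs A) * hs A = hs A - ‖op A v‖ ^ 2 := by
      field_simp
    linarith
  have h4 := norm_op_sq_le A
  have h5 : ‖op A v‖ ≤ ‖op A‖ := by
    have := (op A).le_opNorm v
    rwa [hv, mul_one] at this
  have h6 : ‖op A v‖ ^ 2 ≤ ‖op A‖ ^ 2 := pow_le_pow_left₀ (norm_nonneg _) h5 2
  have h7 : η ^ 2 ≤ 1 := by nlinarith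
  have h8 : η ^ 2 ≤ η := by nlinarith
  have h9 : hs A ≤ 2 * ‖op A‖ ^ 2 := by nlinarith
  refine ⟨hv, ?_, fun x hx => ?_⟩
  · refine abs_le_of_sq_le_sq' ?_ (norm_nonneg _) |>.2
    have h10 : 0 ≤ ‖op A‖ ^ 2 := sq_nonneg _
    nlinarith
  · refine abs_le_of_sq_le_sq' ?_ (by positivity) |>.2
    have h11 := hs_perp A hv hx
    have h12 : 0 ≤ ‖x‖ ^ 2 := sq_nonneg _
    calc ‖op A x‖ ^ 2 ≤ (hs A - ‖op A v‖ ^ 2) * ‖x‖ ^ 2 := by linarith
      _ ≤ (η ^ 2 / 2 * hs A) * ‖x‖ ^ 2 := mul_le_mul_of_nonneg_right h1 h12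
      _ ≤ (η ^ 2 / 2 * (2 * ‖op A‖ ^ 2)) * ‖x‖ ^ 2 := by gcongr
      _ = (η * ‖op A‖ * ‖x‖) ^ 2 := by ring

end Pool.Agent.Helper20.TB
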