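import Pool.Agent.Helper20.TB.Kap

/-!
# Project OB (MP_0f6f3f_an), layer TB, block TB-K2: the inequality for unitaries

PROOF. (1) It suffices (continuity: `norm_mulop_app` in `Helper78/BM/Act.lean` gives `‖mulop w x‖ ≤ ‖x‖`; let `ε → 0` in `exists_con`, twice; all the vectors have norm at most `1 + ε`) to prove: if `c`, `c'` are contractions of finite support, `y = ∑ c g • dl g`, `y' = ∑ c' g • dl g`, then
`‖inner (mulop w y) (U (mulop w' y'))‖ ≤ C ‖ind ℂ W (U (dl 1))‖`. (2) `mulop w y = ∑_{g ∈ supp c} (w g c g) • dl g` (`mulop_app`), the same for `y'`; `inner (dl g) (U (dl h)) = (U (dl h)) g = (U (dl 1)) (g h⁻¹)` (`CommR.apply_dl`, `cf U = U (dl 1)`). So the inner product is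
`∑_{g, h} conj (w g c g) w' h c' h (U δ₁)(g h⁻¹) = ∑_{k ∈ T} conj (S k) (U δ₁)(k)`, `S k = ∑_{g ∈ supp c} (w g c g) conj (w' (k⁻¹ g) c' (k⁻¹ g))`, `T = {g h⁻¹ : g ∈ supp c, h ∈ supp c'}`, and `S k ≠ 0` implies `k ∈ W` (second part of `TBI`). Cauchy-Schwarz: `≤ (∑_{k ∈ T} ‖S k‖²)^(1/2) (∑_{k ∈ T ∩ W} ‖(U δ₁) k‖²)^(1/2)`,
the first factor is at most `C` (third part of `TBI`), the second one at most `‖ind ℂ W (U (dl 1))‖` (`ind_apply`, `lv_hasSum`).
-/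

set_option autoImplicit false
set_option linter.unusedSectionVars false

open MeasureTheory Filter Topology
open scoped ComplexConjugate

namespace Pool.Agent.Helper20.TB

open Pool.Agent.Helper84.NI Pool.Agent.Helper84.GN Pool.Agent.Helper84.GVN

variable {G : Type} [Group G]

private theorem mulop_dl_h12 {w : G → ℝ} (hw : ∀ g, |w g| ≤ 1) (g : G) :
    mulop (fun γ => (w γ : ℂ)) (dl g : L2 G) = (w g : ℂ) • (dl g : L2 G) := by
  classical
  refine l2_ext fun γ => ?_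
  rw [Pool.Agent.Helper78.BM.mulop_app (C := 1) (fun γ => by rw [Complex.norm_real]; exact hw γ)]
  change (w γ : ℂ) * (dl g : L2 G) γ = (w g : ℂ) * (dl g : L2 G) γ
  rw [dl_apply]
  split_ifs with h
  · rw [h]
  · rw [mul_zero, mul_zero]

private theorem mulop_sum_h12 {w : G → ℝ} (hw : ∀ g, |w g| ≤ 1) (c : G →₀ ℂ) :
    mulop (fun γ => (w γ : ℂ)) (∑ g ∈ c.support, c g • (dl g : L2 G)) = ∑ g ∈ c.support, ((w g : ℂ) * c g) • (dl g : L2 G) := by
  rw [map_sum]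
  refine Finset.sum_congr rfl fun g _ => ?_
  rw [map_smul, mulop_dl_h12 hw, smul_smul, mul_comm]

/-- The inequality for vectors of finite support. -/
private theorem tbi_fin_h12 {w w' : G → ℝ} {W : Set G} {C : ℝ} (hT : TBI w w' W C) (hw : ∀ g, |w g| ≤ 1) (hw' : ∀ g, |w' g| ≤ 1)
    {U : L2 G ≃ₗᵢ[ℂ] L2 G} (hU : CommR U) {c c' : G →₀ ℂ} (hc : Con c) (hc' : Con c') :
    ‖(inner ℂ (mulop (fun γ => (w γ : ℂ)) (∑ g ∈ c.support, c g • (dl g : L2 G)))
      (U (mulop (fun γ => (w' γ : ℂ)) (∑ g ∈ c'.support, c' g • (dl g : L2 G)))) : ℂ)‖ ≤ C * ‖ind ℂ W (U (dl 1))‖ := by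
  classical
  set z : L2 G := ind ℂ W (U (dl 1)) with hz
  have hza : ∀ k, z k = if k ∈ W then U (dl 1) k else 0 := fun k => by
    rw [hz, ind_apply]
  set T : Finset G := (c.support ×ˢ c'.support).image fun p => p.1 * p.2⁻¹ with hTd
  have e1 : (inner ℂ (mulop (fun γ => (w γ : ℂ)) (∑ g ∈ c.support, c g • (dl g : L2 G)))
      (U (mulop (fun γ => (w' γ : ℂ)) (∑ g ∈ c'.support, c' g • (dl g : L2 G)))) : ℂ) =
      ∑ g ∈ c.support, ∑ h ∈ c'.support, conj ((w g : ℂ) * c g) * (((w' h : ℂ) * c' h) * z (g * h⁻¹)) := by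
    rw [mulop_sum_h12 hw, mulop_sum_h12 hw', map_sum, sum_inner]
    refine Finset.sum_congr rfl fun g _ => ?_
    rw [inner_sum]
    refine Finset.sum_congr rfl fun h _ => ?_
    rw [map_smul, inner_smul_left, inner_smul_right, inner_dl_left, hU.apply_dl h g]
    change conj ((w g : ℂ) * c g) * (((w' h : ℂ) * c' h) * U (dl 1) (g * h⁻¹)) = _
    rw [hza]
    by_cases h1 : w g = 0
    · rw [h1]
      simp
    · by_cases h2 : w' h = 0
      · rw [h2]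
        simp
      · rw [if_pos (hT.2.1 g h h1 h2)]
  have e2 : ∀ g ∈ c.support, ∑ h ∈ c'.support, conj ((w g : ℂ) * c g) * (((w' h : ℂ) * c' h) * z (g * h⁻¹)) =
      ∑ k ∈ T, conj ((w g : ℂ) * c g) * (((w' (k⁻¹ * g) : ℂ) * c' (k⁻¹ * g)) * z k) := by
    intro g hg
    have a1 : ∑ h ∈ c'.support, conj ((w g : ℂ) * c g) * (((w' h : ℂ) * c' h) * z (g * h⁻¹)) =
        ∑ k ∈ c'.support.image (fun h => g * h⁻¹), conj ((w g : ℂ) * c g) * (((w' (k⁻¹ * g) : ℂ) * c' (k⁻¹ * g)) * z k) := by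
      rw [Finset.sum_image fun a _ b _ hab => inv_injective (mul_left_cancel hab)]
      refine Finset.sum_congr rfl fun h _ => ?_
      have a2 : (g * h⁻¹)⁻¹ * g = h := by group
      rw [a2]
    rw [a1]
    refine Finset.sum_subset ?_ ?_
    · intro k hk
      obtain ⟨h, hh, rfl⟩ := Finset.mem_image.1 hk
      exact Finset.mem_image.2 ⟨(g, h), Finset.mem_product.2 ⟨hg, hh⟩, rfl⟩
    · intro k _ hk
      have a3 : k⁻¹ * g ∉ c'.support := by
        intro h1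
        refine hk (Finset.mem_image.2 ⟨k⁻¹ * g, h1, ?_⟩)
        group
      rw [Finsupp.notMem_support_iff.1 a3]
      simp
  have e3 : ∑ g ∈ c.support, ∑ h ∈ c'.support, conj ((w g : ℂ) * c g) * (((w' h : ℂ) * c' h) * z (g * h⁻¹)) =
      ∑ k ∈ T, conj (∑ g ∈ c.support, ((w g : ℂ) * c g) * conj ((w' (k⁻¹ * g) : ℂ) * c' (k⁻¹ * g))) * z k := by
    rw [Finset.sum_congr rfl e2, Finset.sum_comm]
    refine Finset.sum_congr rfl fun k _ => ?_
    rw [map_sum, Finset.sum_mul]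
    refine Finset.sum_congr rfl fun g _ => ?_
    rw [map_mul (starRingEnd ℂ) ((w g : ℂ) * c g), Complex.conj_conj]
    ring
  rw [e1, e3]
  refine (cs_fin T _ _).trans ?_
  have h1 : √(∑ k ∈ T, ‖z k‖ ^ 2) ≤ ‖z‖ := by
    rw [← Real.sqrt_sq (norm_nonneg z)]
    exact Real.sqrt_le_sqrt (sum_le_hasSum T (fun _ _ => by positivity) (hasSum_sq z))
  have h2 : √(∑ k ∈ T, ‖conj (∑ g ∈ c.support, ((w g : ℂ) * c g) * conj ((w' (k⁻¹ * g) : ℂ) * c' (k⁻¹ * g)))‖ ^ 2) ≤ C := by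
    rw [← Real.sqrt_sq hT.1]
    refine Real.sqrt_le_sqrt ?_
    simp only [RCLike.norm_conj]
    exact hT.2.2 c c' hc hc' T
  calc _ ≤ ‖z‖ * C := mul_le_mul h1 h2 (Real.sqrt_nonneg _) (norm_nonneg _)
    _ = _ := mul_comm _ _

theorem tbi_unitary {w w' : G → ℝ} {W : Set G} {C : ℝ} (hT : TBI w w' W C) (hw : ∀ g, |w g| ≤ 1) (hw' : ∀ g, |w' g| ≤ 1)
    {u u' U : L2 G ≃ₗᵢ[ℂ] L2 G} (hu : CommR u) (hu' : CommR u') (hU : CommR U) (h h' : G) :
    ‖(inner ℂ (mulop (fun γ => (w γ : ℂ)) (u (dl h))) (U (mulop (fun γ => (w' γ : ℂ)) (u' (dl h')))) : ℂ)‖ ≤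
      C * ‖ind ℂ W (U (dl 1))‖ := by
  have hM : ∀ (w : G → ℝ), (∀ g, |w g| ≤ 1) → ∀ x : L2 G, ‖mulop (fun γ => (w γ : ℂ)) x‖ ≤ ‖x‖ := fun w hw x => by
    have := Pool.Agent.Helper78.BM.norm_mulop_app (f := fun γ => (w γ : ℂ)) zero_le_one (fun γ => by
      rw [Complex.norm_real]
      exact hw γ) x
    rwa [one_mul] at this
  refine le_of_forall_pos_le_add fun δ hδ => ?_
  set ε : ℝ := min 1 (δ / 3) with hε
  have hε0 : 0 < ε := lt_min one_pos (by positivity)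
  have hε1 : ε ≤ 1 := min_le_left _ _
  have hε2 : 3 * ε ≤ δ := by
    have := min_le_right 1 (δ / 3)
    rw [← hε] at this
    linarith
  obtain ⟨c, hc, hcu⟩ := exists_con hu h hε0
  obtain ⟨c', hc', hcu'⟩ := exists_con hu' h' hε0
  set y : L2 G := ∑ g ∈ c.support, c g • (dl g : L2 G) with hy
  set y' : L2 G := ∑ g ∈ c'.support, c' g • (dl g : L2 G) with hy'
  have h0 := tbi_fin_h12 hT hw hw' hU hc hc'
  rw [← hy, ← hy'] at h0
  have hyn : ‖y‖ ≤ 1 + ε := by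
    calc ‖y‖ = ‖(y - u (dl h)) + u (dl h)‖ := by rw [sub_add_cancel]
      _ ≤ ‖y - u (dl h)‖ + ‖u (dl h)‖ := norm_add_le _ _
      _ ≤ ε + 1 := add_le_add hcu (by rw [LinearIsometryEquiv.norm_map, norm_dl])
      _ = 1 + ε := add_comm _ _
  have e1 : (inner ℂ (mulop (fun γ => (w γ : ℂ)) (u (dl h))) (U (mulop (fun γ => (w' γ : ℂ)) (u' (dl h')))) : ℂ) =
      inner ℂ (mulop (fun γ => (w γ : ℂ)) y) (U (mulop (fun γ => (w' γ : ℂ)) y')) -
      (inner ℂ (mulop (fun γ => (w γ : ℂ)) (y - u (dl h))) (U (mulop (fun γ => (w' γ : ℂ)) (u' (dl h')))) +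
        inner ℂ (mulop (fun γ => (w γ : ℂ)) y) (U (mulop (fun γ => (w' γ : ℂ)) (y' - u' (dl h'))))) := by
    rw [map_sub, map_sub, map_sub, inner_sub_left, inner_sub_right]
    ring
  have h1 : ‖(inner ℂ (mulop (fun γ => (w γ : ℂ)) (y - u (dl h))) (U (mulop (fun γ => (w' γ : ℂ)) (u' (dl h')))) : ℂ)‖ ≤ ε * 1 := by
    refine (norm_inner_le_norm _ _).trans (mul_le_mul ((hM w hw _).trans hcu) ?_ (norm_nonneg _) hε0.le)
    rw [LinearIsometryEquiv.norm_map]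
    refine (hM w' hw' _).trans ?_
    rw [LinearIsometryEquiv.norm_map, norm_dl]
  have h2 : ‖(inner ℂ (mulop (fun γ => (w γ : ℂ)) y) (U (mulop (fun γ => (w' γ : ℂ)) (y' - u' (dl h')))) : ℂ)‖ ≤ (1 + ε) * ε := by
    refine (norm_inner_le_norm _ _).trans (mul_le_mul ((hM w hw _).trans hyn) ?_ (norm_nonneg _) (by positivity))
    rw [LinearIsometryEquiv.norm_map]
    exact (hM w' hw' _).trans hcu'
  rw [e1]
  refine (norm_sub_le _ _).trans ?_
  have h3 := norm_add_le (inner ℂ (mulop (fun γ => (w γ : ℂ)) (y - u (dl h))) (U (mulop (fun γ => (w' γ : ℂ)) (u' (dl h')))) : ℂ)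
    (inner ℂ (mulop (fun γ => (w γ : ℂ)) y) (U (mulop (fun γ => (w' γ : ℂ)) (y' - u' (dl h')))) : ℂ)
  nlinarith [h0, h1, h2, h3, mul_le_mul_of_nonneg_left hε1 hε0.le]

end Pool.Agent.Helper20.TB
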