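import Pool.Agent.Helper20.TB.Core

/-!
# Project TB (MP_0f6f3f_an): the pairing

`w`, `w'` weights on `G`. `TBI w w' W C`: for all contractions `c`, `c'` of finite support the vector `∑_{g, h} w(g) c(g) conj (w'(h) c'(h)) δ_{g h⁻¹}` has norm at most `C`, and `g h⁻¹ ∈ W` if
`w g ≠ 0`, `w' h ≠ 0`. `pair_main`: this follows if the `r` with `w(g) w(g r) ≠ 0`, `w'(h) w'(h r) ≠ 0` for some `g`, `h` are in `R1`, in `R1⁻¹` or in a finite set, and the kernels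
`w(g) w(g r) 1_{R1}(r)`, `w'(h) w'(h s) 1_{R1}(s⁻¹)` have finite Bessel norm: the square of the norm is `∑_r conj a(r) a'(r)`, with `a(r) = ∑_g conj ζ(g) ζ(g r)`.
-/

set_option autoImplicit false

open scoped ComplexConjugate

namespace Pool.Agent.Helper20.TB

variable {G : Type} [Group G]

/-- The inequality for contractions of finite support. -/
def TBI (w w' : G → ℝ) (W : Set G) (C : ℝ) : Prop := 0 ≤ C ∧ (∀ g h, w g ≠ 0 → w' h ≠ 0 → g * h⁻¹ ∈ W) ∧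
  ∀ c c' : G →₀ ℂ, Con c → Con c' → ∀ T : Finset G,
    ∑ k ∈ T, ‖∑ g ∈ c.support, ((w g : ℂ) * c g) * conj ((w' (k⁻¹ * g) : ℂ) * c' (k⁻¹ * g))‖ ^ 2 ≤ C ^ 2

/-- The kernel of a weight. -/
noncomputable def kw (w : G → ℝ) (g r : G) : ℂ := ((w g * w (g * r) : ℝ) : ℂ)

theorem norm_cfr_le {c : G →₀ ℂ} (hc : Con c) {F : G → G → ℂ} (hF : ∀ g r, ‖F g r‖ ≤ 1) (r : G) : ‖cfr c F r‖ ≤ 1 := by
  have h1 := bn_prod (G := G) (a := fun g => F g r) (b := fun _ => 1) (A := 1) (B := 1) (fun g => hF g r) (fun _ => by simp)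
  have h2 := h1.2 c hc (fun _ => 1) (fun _ => by simp) {r} fun _ => 1
  simp only [Finset.sum_singleton, one_mul, mul_one, norm_one, one_pow, Real.sqrt_one] at h2
  exact h2

/-- `|a(r⁻¹)| = |a(r)|`. -/
theorem norm_cfr_inv (c : G →₀ ℂ) (w : G → ℝ) (r : G) : ‖cfr c (kw w) r⁻¹‖ = ‖cfr c (kw w) r‖ := by
  have h1 : cfr c (kw w) r⁻¹ = conj (cfr c (kw w) r) := by
    unfold cfr
    have h2 := sum_shift c (fun g => ((w g * w (g * r) : ℝ) : ℂ)) r
    rw [map_sum]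
    refine Eq.trans ?_ (h2.trans ?_)
    · refine Finset.sum_congr rfl fun g _ => ?_
      unfold kw
      rw [inv_mul_cancel_right, mul_comm (w g)]
      ring
    · refine Finset.sum_congr rfl fun g _ => ?_
      unfold kw
      rw [map_mul (starRingEnd ℂ), map_mul (starRingEnd ℂ), Complex.conj_conj, Complex.conj_ofReal]
  rw [h1, RCLike.norm_conj]

/-- Bessel norm and sums of squares. -/
theorem BN.sum_sq_le {F : G → G → ℂ} {C : ℝ} (h : BN F C) {c : G →₀ ℂ} (hc : Con c) (T : Finset G) :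
    ∑ r ∈ T, ‖cfr c F r‖ ^ 2 ≤ C ^ 2 := by
  have h1 := h.2 c hc (fun _ => 1) (fun _ => by simp) T fun r => conj (cfr c F r)
  simp only [one_mul] at h1
  have h2 : ∑ r ∈ T, conj (cfr c F r) * cfr c F r = ((∑ r ∈ T, ‖cfr c F r‖ ^ 2 : ℝ) : ℂ) := by
    push_cast
    refine Finset.sum_congr rfl fun r _ => ?_
    rw [← Complex.normSq_eq_conj_mul_self, Complex.normSq_eq_norm_sq]
    push_cast
    rfl
  have h0 : 0 ≤ ∑ r ∈ T, ‖cfr c F r‖ ^ 2 := Finset.sum_nonneg fun _ _ => by positivity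
  rw [h2, Complex.norm_real, Real.norm_of_nonneg h0] at h1
  simp only [RCLike.norm_conj] at h1
  set S := ∑ r ∈ T, ‖cfr c F r‖ ^ 2 with hS
  have h3 : √S * √S = S := Real.mul_self_sqrt h0
  have h4 : √S ≤ C := by
    by_contra hcon
    push Not at hcon
    have h5 : 0 < √S := lt_of_le_of_lt h.1 hcon
    nlinarith
  nlinarith [Real.sqrt_nonneg S, h.1]

/-- The norm is a sum over `r`. -/
theorem pair_identity (c c' : G →₀ ℂ) (w w' : G → ℝ) (T : Finset G) : ∃ T1 : Finset G,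
    ∑ k ∈ T, ‖∑ g ∈ c.support, ((w g : ℂ) * c g) * conj ((w' (k⁻¹ * g) : ℂ) * c' (k⁻¹ * g))‖ ^ 2 ≤
      ∑ r ∈ T1, ‖cfr c (kw w) r‖ * ‖cfr c' (kw w') r‖ := by
  classical
  set A := c.support with hA
  set B := c'.support with hB
  set ζ : G → ℂ := fun g => (w g : ℂ) * c g with hζ
  set ζ' : G → ℂ := fun g => (w' g : ℂ) * c' g with hζ'
  have hζ0 : ∀ g, g ∉ A → ζ g = 0 := fun g hg => by
    simp only [hζ]
    rw [Finsupp.notMem_support_iff.1 hg, mul_zero]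
  have hζ'0 : ∀ g, g ∉ B → ζ' g = 0 := fun g hg => by
    simp only [hζ']
    rw [Finsupp.notMem_support_iff.1 hg, mul_zero]
  set S : G → ℂ := fun k => ∑ g ∈ A, ζ g * conj (ζ' (k⁻¹ * g)) with hS
  set T0 : Finset G := (A ×ˢ B).image fun p => p.1 * p.2⁻¹ with hT0
  have hS0 : ∀ k, k ∉ T0 → S k = 0 := by
    intro k hk
    refine Finset.sum_eq_zero fun g hg => ?_
    rw [hζ'0 (k⁻¹ * g) fun hgB => hk ?_, map_zero, mul_zero]
    rw [hT0, Finset.mem_image]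
    refine ⟨(g, k⁻¹ * g), Finset.mem_product.2 ⟨hg, hgB⟩, ?_⟩
    simp
  set T1 : Finset G := (A ×ˢ A).image fun p => p.1⁻¹ * p.2 with hT1
  refine ⟨T1, ?_⟩
  -- the sum over `T` is at most the sum over `T0`
  have h1 : ∑ k ∈ T, ‖S k‖ ^ 2 ≤ ∑ k ∈ T0, ‖S k‖ ^ 2 := by
    calc ∑ k ∈ T, ‖S k‖ ^ 2 ≤ ∑ k ∈ T ∪ T0, ‖S k‖ ^ 2 :=
          Finset.sum_le_sum_of_subset_of_nonneg Finset.subset_union_left fun _ _ _ => by positivity
      _ = ∑ k ∈ T0, ‖S k‖ ^ 2 := by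
          refine (Finset.sum_subset Finset.subset_union_right fun k _ hk => ?_).symm
          rw [hS0 k hk, norm_zero]
          norm_num
  -- the inner sums
  have h2 : ∀ g ∈ A, ∀ g', ∑ k ∈ T0, conj (ζ' (k⁻¹ * g)) * ζ' (k⁻¹ * g') = cfr c' (kw w') (g⁻¹ * g') := by
    intro g hg g'
    have e1 : ∑ k ∈ T0, conj (ζ' (k⁻¹ * g)) * ζ' (k⁻¹ * g') = ∑' k, conj (ζ' (k⁻¹ * g)) * ζ' (k⁻¹ * g') := by
      refine (tsum_eq_sum fun k hk => ?_).symm
      rw [hζ'0 (k⁻¹ * g) fun hgB => hk ?_, map_zero, zero_mul]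
      rw [hT0, Finset.mem_image]
      refine ⟨(g, k⁻¹ * g), Finset.mem_product.2 ⟨hg, hgB⟩, ?_⟩
      simp
    have e2 : cfr c' (kw w') (g⁻¹ * g') = ∑' h, conj (ζ' h) * ζ' (h * (g⁻¹ * g')) := by
      unfold cfr
      rw [tsum_eq_sum (s := c'.support) fun h hh => by rw [hζ'0 h hh, map_zero, zero_mul]]
      refine Finset.sum_congr rfl fun h _ => ?_
      simp only [hζ', kw]
      rw [map_mul (starRingEnd ℂ), Complex.conj_ofReal]
      push_cast
      ring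
    rw [e1, e2, ← ((Equiv.inv G).trans (Equiv.mulRight g)).tsum_eq fun h => conj (ζ' h) * ζ' (h * (g⁻¹ * g'))]
    refine tsum_congr fun k => ?_
    simp only [Equiv.trans_apply, Equiv.inv_apply, Equiv.coe_mulRight]
    rw [show k⁻¹ * g * (g⁻¹ * g') = k⁻¹ * g' by group]
  -- the double sum
  have h3 : ((∑ k ∈ T0, ‖S k‖ ^ 2 : ℝ) : ℂ) = ∑ g ∈ A, ∑ g' ∈ A, ζ g * conj (ζ g') * cfr c' (kw w') (g⁻¹ * g') := by
    push_cast
    have e1 : ∀ k, ((‖S k‖ : ℂ)) ^ 2 = ∑ g ∈ A, ∑ g' ∈ A, ζ g * conj (ζ g') * (conj (ζ' (k⁻¹ * g)) * ζ' (k⁻¹ * g')) := by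
      intro k
      have e2 : ((‖S k‖ : ℂ)) ^ 2 = S k * conj (S k) := by
        rw [Complex.mul_conj, Complex.normSq_eq_norm_sq]
        push_cast
        rfl
      rw [e2]
      simp only [hS]
      rw [map_sum, Finset.sum_mul]
      refine Finset.sum_congr rfl fun g _ => ?_
      rw [Finset.mul_sum]
      refine Finset.sum_congr rfl fun g' _ => ?_
      rw [map_mul (starRingEnd ℂ) (ζ g'), Complex.conj_conj]
      ring
    simp only [e1]
    rw [Finset.sum_comm]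
    refine Finset.sum_congr rfl fun g hg => ?_
    rw [Finset.sum_comm]
    refine Finset.sum_congr rfl fun g' _ => ?_
    rw [← Finset.mul_sum, h2 g hg g']
  -- regroup over `r`
  have h4 : ∑ g ∈ A, ∑ g' ∈ A, ζ g * conj (ζ g') * cfr c' (kw w') (g⁻¹ * g') =
      ∑ r ∈ T1, conj (cfr c (kw w) r) * cfr c' (kw w') r := by
    have e1 : ∀ r, conj (cfr c (kw w) r) = ∑ g ∈ A, ζ g * conj (ζ (g * r)) := by
      intro r
      unfold cfr
      rw [map_sum]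
      refine Finset.sum_congr rfl fun g _ => ?_
      simp only [hζ, kw]
      rw [map_mul (starRingEnd ℂ), map_mul (starRingEnd ℂ), Complex.conj_conj, Complex.conj_ofReal, map_mul (starRingEnd ℂ),
        Complex.conj_ofReal]
      push_cast
      ring
    have e2 : ∑ r ∈ T1, conj (cfr c (kw w) r) * cfr c' (kw w') r =
        ∑ g ∈ A, ∑ r ∈ T1, ζ g * conj (ζ (g * r)) * cfr c' (kw w') r := by
      rw [Finset.sum_comm]
      refine Finset.sum_congr rfl fun r _ => ?_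
      rw [e1, Finset.sum_mul]
    rw [e2]
    refine Finset.sum_congr rfl fun g hg => ?_
    have e3 : ∑ g' ∈ A, ζ g * conj (ζ g') * cfr c' (kw w') (g⁻¹ * g') =
        ∑' g', ζ g * conj (ζ g') * cfr c' (kw w') (g⁻¹ * g') :=
      (tsum_eq_sum fun g' hg' => by rw [hζ0 g' hg', map_zero, mul_zero, zero_mul]).symm
    have e4 : ∑ r ∈ T1, ζ g * conj (ζ (g * r)) * cfr c' (kw w') r = ∑' r, ζ g * conj (ζ (g * r)) * cfr c' (kw w') r := by
      refine (tsum_eq_sum fun r hr => ?_).symm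
      rw [hζ0 (g * r) fun hgr => hr ?_, map_zero, mul_zero, zero_mul]
      rw [hT1, Finset.mem_image]
      refine ⟨(g, g * r), Finset.mem_product.2 ⟨hg, hgr⟩, ?_⟩
      simp
    rw [e3, e4, ← (Equiv.mulLeft g).tsum_eq]
    refine tsum_congr fun r => ?_
    simp only [Equiv.coe_mulLeft, inv_mul_cancel_left]
  have h5 : ((∑ k ∈ T0, ‖S k‖ ^ 2 : ℝ) : ℂ) = ∑ r ∈ T1, conj (cfr c (kw w) r) * cfr c' (kw w') r := h3.trans h4
  have h0 : 0 ≤ ∑ k ∈ T0, ‖S k‖ ^ 2 := Finset.sum_nonneg fun _ _ => by positivity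
  refine h1.trans ?_
  calc ∑ k ∈ T0, ‖S k‖ ^ 2 = ‖((∑ k ∈ T0, ‖S k‖ ^ 2 : ℝ) : ℂ)‖ := by rw [Complex.norm_real, Real.norm_of_nonneg h0]
    _ = ‖∑ r ∈ T1, conj (cfr c (kw w) r) * cfr c' (kw w') r‖ := by rw [h5]
    _ ≤ ∑ r ∈ T1, ‖conj (cfr c (kw w) r) * cfr c' (kw w') r‖ := norm_sum_le _ _
    _ = _ := Finset.sum_congr rfl fun r _ => by rw [norm_mul, RCLike.norm_conj]

open Classical in
/-- The kernel of a weight, restricted to `r ∈ R1`. -/
noncomputable def kR (w : G → ℝ) (R1 : Set G) (g r : G) : ℂ := if r ∈ R1 then kw w g r else 0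

open Classical in
theorem sum_kR (c : G →₀ ℂ) (w : G → ℝ) (R1 : Set G) (r : G) : cfr c (kR w R1) r = if r ∈ R1 then cfr c (kw w) r else 0 := by
  unfold cfr kR
  split_ifs with h
  · rfl
  · simp

theorem pair_main {w w' : G → ℝ} (hw : ∀ g, |w g| ≤ 1) (hw' : ∀ g, |w' g| ≤ 1) {W : Set G} (R1 : Set G) (R0 : Finset G) {C1 C2 : ℝ}
    (hW : ∀ g h, w g ≠ 0 → w' h ≠ 0 → g * h⁻¹ ∈ W)
    (hcl : ∀ r g h, w g ≠ 0 → w (g * r) ≠ 0 → w' h ≠ 0 → w' (h * r) ≠ 0 → r ∈ R1 ∨ r⁻¹ ∈ R1 ∨ r ∈ R0)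
    (h1 : BN (kR w R1) C1) (h2 : BN (kR w' {r | r⁻¹ ∈ R1}) C2) : TBI w w' W (2 * C1 * C2 + R0.card + 1) := by
  classical
  have hC : 0 ≤ 2 * C1 * C2 + R0.card := by
    have := h1.1
    have := h2.1
    positivity
  refine ⟨by linarith, hW, fun c c' hc hc' T => ?_⟩
  obtain ⟨T1, hT1⟩ := pair_identity c c' w w' T
  refine hT1.trans ?_
  have hk : ∀ g r, ‖kw w g r‖ ≤ 1 := fun g r => by
    unfold kw
    rw [Complex.norm_real, Real.norm_eq_abs, abs_mul]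
    exact mul_le_one₀ (hw _) (abs_nonneg _) (hw _)
  have hk' : ∀ g r, ‖kw w' g r‖ ≤ 1 := fun g r => by
    unfold kw
    rw [Complex.norm_real, Real.norm_eq_abs, abs_mul]
    exact mul_le_one₀ (hw' _) (abs_nonneg _) (hw' _)
  set a : G → ℝ := fun r => ‖cfr c (kw w) r‖ with ha
  set b : G → ℝ := fun r => ‖cfr c' (kw w') r‖ with hb
  have ha0 : ∀ r, 0 ≤ a r := fun r => norm_nonneg _
  have hb0 : ∀ r, 0 ≤ b r := fun r => norm_nonneg _
  have ha1 : ∀ r, a r ≤ 1 := fun r => norm_cfr_le hc hk r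
  have hb1 : ∀ r, b r ≤ 1 := fun r => norm_cfr_le hc' hk' r
  have hai : ∀ r, a r⁻¹ = a r := fun r => norm_cfr_inv c w r
  have hbi : ∀ r, b r⁻¹ = b r := fun r => norm_cfr_inv c' w' r
  -- if the product is not zero, then `r` is in one of the three classes
  have hcl' : ∀ r, a r * b r ≠ 0 → r ∈ R1 ∨ r⁻¹ ∈ R1 ∨ r ∈ R0 := by
    intro r hr
    have e1 : cfr c (kw w) r ≠ 0 := fun h => hr (by simp only [ha, h, norm_zero, zero_mul])
    have e2 : cfr c' (kw w') r ≠ 0 := fun h => hr (by simp only [hb, h, norm_zero, mul_zero])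
    obtain ⟨g, _, hg⟩ := Finset.exists_ne_zero_of_sum_ne_zero e1
    obtain ⟨h, _, hh⟩ := Finset.exists_ne_zero_of_sum_ne_zero e2
    have e3 : kw w g r ≠ 0 := left_ne_zero_of_mul hg
    have e4 : kw w' h r ≠ 0 := left_ne_zero_of_mul hh
    unfold kw at e3 e4
    have e5 : w g * w (g * r) ≠ 0 := fun h0 => e3 (by rw [h0, Complex.ofReal_zero])
    have e6 : w' h * w' (h * r) ≠ 0 := fun h0 => e4 (by rw [h0, Complex.ofReal_zero])
    exact hcl r g h (left_ne_zero_of_mul e5) (right_ne_zero_of_mul e5) (left_ne_zero_of_mul e6) (right_ne_zero_of_mul e6)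
  -- sums of squares
  have hA : ∀ T : Finset G, ∑ r ∈ T.filter (· ∈ R1), a r ^ 2 ≤ C1 ^ 2 := by
    intro T
    refine le_trans (le_of_eq ?_) (h1.sum_sq_le hc (T.filter (· ∈ R1)))
    refine Finset.sum_congr rfl fun r hr => ?_
    rw [sum_kR, if_pos (Finset.mem_filter.1 hr).2]
  have hB : ∀ T : Finset G, ∑ r ∈ T.filter (fun r => r⁻¹ ∈ R1), b r ^ 2 ≤ C2 ^ 2 := by
    intro T
    refine le_trans (le_of_eq ?_) (h2.sum_sq_le hc' (T.filter fun r => r⁻¹ ∈ R1))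
    refine Finset.sum_congr rfl fun r hr => ?_
    have h3 : r ∈ {r | r⁻¹ ∈ R1} := (Finset.mem_filter.1 hr).2
    rw [sum_kR, if_pos h3]
  have hinv : ∀ (T : Finset G) (f : G → ℝ), (∀ r, f r⁻¹ = f r) →
      ∑ r ∈ T.filter (fun r => r⁻¹ ∈ R1), f r = ∑ r ∈ (T.image fun r => r⁻¹).filter (· ∈ R1), f r := by
    intro T f hf
    refine Finset.sum_bij' (fun r _ => r⁻¹) (fun r _ => r⁻¹) ?_ ?_ ?_ ?_ ?_
    · intro r hr
      rw [Finset.mem_filter] at hr ⊢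
      exact ⟨Finset.mem_image_of_mem _ hr.1, hr.2⟩
    · intro r hr
      rw [Finset.mem_filter, Finset.mem_image] at hr
      obtain ⟨⟨s, hs, rfl⟩, h3⟩ := hr
      rw [Finset.mem_filter, inv_inv]
      exact ⟨hs, h3⟩
    · intro r _
      exact inv_inv r
    · intro r _
      exact inv_inv r
    · intro r _
      exact (hf r).symm
  have hinv' : ∀ (T : Finset G) (f : G → ℝ), (∀ r, f r⁻¹ = f r) →
      ∑ r ∈ T.filter (· ∈ R1), f r = ∑ r ∈ (T.image fun r => r⁻¹).filter (fun r => r⁻¹ ∈ R1), f r := by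
    intro T f hf
    have h3 := hinv (T.image fun r => r⁻¹) f hf
    rw [h3, Finset.image_image]
    simp
  have hA' : ∀ T : Finset G, ∑ r ∈ T.filter (fun r => r⁻¹ ∈ R1), a r ^ 2 ≤ C1 ^ 2 := fun T => by
    rw [hinv T (fun r => a r ^ 2) fun r => by rw [hai]]
    exact hA _
  have hB' : ∀ T : Finset G, ∑ r ∈ T.filter (· ∈ R1), b r ^ 2 ≤ C2 ^ 2 := fun T => by
    rw [hinv' T (fun r => b r ^ 2) fun r => by rw [hbi]]
    exact hB _
  have hcs : ∀ s : Finset G, ∑ r ∈ s, a r ^ 2 ≤ C1 ^ 2 → ∑ r ∈ s, b r ^ 2 ≤ C2 ^ 2 → ∑ r ∈ s, a r * b r ≤ C1 * C2 := by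
    intro s e1 e2
    refine (Real.sum_mul_le_sqrt_mul_sqrt s a b).trans ?_
    have e3 : √(∑ r ∈ s, a r ^ 2) ≤ C1 := by
      rw [← Real.sqrt_sq h1.1]
      exact Real.sqrt_le_sqrt e1
    have e4 : √(∑ r ∈ s, b r ^ 2) ≤ C2 := by
      rw [← Real.sqrt_sq h2.1]
      exact Real.sqrt_le_sqrt e2
    exact mul_le_mul e3 e4 (Real.sqrt_nonneg _) h1.1
  have k1 := hcs (T1.filter (· ∈ R1)) (hA T1) (hB' T1)
  have k2 := hcs (T1.filter fun r => r⁻¹ ∈ R1) (hA' T1) (hB T1)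
  have k3 : ∑ r ∈ T1.filter (· ∈ R0), a r * b r ≤ R0.card := by
    calc ∑ r ∈ T1.filter (· ∈ R0), a r * b r ≤ ∑ r ∈ T1.filter (· ∈ R0), (1 : ℝ) :=
          Finset.sum_le_sum fun r _ => mul_le_one₀ (ha1 r) (hb0 r) (hb1 r)
      _ = ((T1.filter (· ∈ R0)).card : ℝ) := by simp
      _ ≤ R0.card := by
          have : (T1.filter (· ∈ R0)).card ≤ R0.card := Finset.card_le_card fun r hr => (Finset.mem_filter.1 hr).2
          exact_mod_cast this
  have k4 : ∑ r ∈ T1, a r * b r ≤ ∑ r ∈ T1.filter (· ∈ R1), a r * b r + ∑ r ∈ T1.filter (fun r => r⁻¹ ∈ R1), a r * b r +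
      ∑ r ∈ T1.filter (· ∈ R0), a r * b r := by
    rw [Finset.sum_filter, Finset.sum_filter, Finset.sum_filter, ← Finset.sum_add_distrib, ← Finset.sum_add_distrib]
    refine Finset.sum_le_sum fun r _ => ?_
    have h0 : 0 ≤ a r * b r := mul_nonneg (ha0 r) (hb0 r)
    by_cases hr : a r * b r = 0
    · rw [hr]
      simp
    · rcases hcl' r hr with h3 | h3 | h3
      · rw [if_pos h3]
        split_ifs <;> linarith
      · rw [if_pos h3]
        split_ifs <;> linarith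
      · rw [if_pos h3]
        split_ifs <;> linarith
  have k5 : ∑ r ∈ T1, a r * b r ≤ 2 * C1 * C2 + R0.card := by linarith
  nlinarith

end Pool.Agent.Helper20.TB
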