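import Pool.Agent.Helper20.TB.Op1

/-!
# Project OB (MP_0f6f3f_an), layer TB, block TB-O2: the consequences of the configuration

PROOF. `‖J x‖ = ‖x‖` (`Js`, `JJ`). Write `k = ⟪vT, J vS⟫`, `k1 = ⟪vT1, J vS1⟫`, `U x = T (J (S† x))` (`= ± T1 (J (S1† x))` by `rel`). By `pc_vec` (for `T, v`; `S, v'`; `T1, v`; `S1, v'`): `vT = α v + x`, `|α| ≥ 1 - η`, `‖x‖ ≤ η`, ...; so `|k| ≥ (1 - η)² κ - 3 η ≥ κ / 2`, the same for `k1`, and `|k| ≤ |⟪v, J vS⟫| + η`, so `kv`.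
(1) RANK ONE: for all `x, y`: `|⟪x, U y⟫ - ‖T‖ ‖S‖ ⟪uT, x⟫ ⟪uS, y⟫ k| ≤ 7 η ‖T‖ ‖S‖ ‖x‖ ‖y‖`: `⟪x, U y⟫ = ⟪T† x, J S† y⟫`, `T† x = ⟪uT, x⟫ ‖T‖ vT + T† x'`, `x' = x - ⟪uT, x⟫ uT ⊥ uT`, `‖T† x'‖ ≤ 3 η ‖T‖ ‖x‖` (`pc_le`), the same for `S`. The same for `T1, S1, k1` and `± U`.
(2) `x = uT1`, `y = uS1` in the version for `T1, S1`: `(|k1| - 7 η) ‖T1‖ ‖S1‖ ≤ |⟪uT1, U uS1⟫| ≤ ‖T‖ ‖S‖`, so `‖T1‖ ‖S1‖ ≤ (4 / κ) ‖T‖ ‖S‖`, and conversely `‖T‖ ‖S‖ ≤ (4 / κ) ‖T1‖ ‖S1‖`.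
(3) `uT = a uT1 + z`, `z ⊥ uT1`: test `x = z`, `y = uS`: from (1) for `T, S`: `|⟪z, U uS⟫| ≥ ‖T‖ ‖S‖ |k| ‖z‖² - 7 η ‖T‖ ‖S‖ ‖z‖` (`⟪uT, z⟫ = ‖z‖²`), from (1) for `T1, S1`: `|⟪z, U uS⟫| ≤ 7 η ‖T1‖ ‖S1‖ ‖z‖` (`⟪uT1, z⟫ = 0`). So `|k| ‖z‖ ≤ 7 η (1 + 4 / κ)`, `‖z‖ ≤ 70 η / κ² ≤ 1 / 100`. The same for `uS = a' uS1 + z'` (test `x = uT`, `y = z'`).
(4) `p = R† vT = ‖T‖⁻¹ R† T† uT = ± ‖T‖⁻¹ T1† uT` (`Tu`, `eT`), `T1† uT = a ‖T1‖ vT1 + T1† z`, `‖T1† z‖ ≤ 3 η ‖T1‖ ‖z‖`, `|a| ≥ 99 / 100`. So `‖p‖ ≥ ‖T1‖ / (2 ‖T‖)`, `‖p‖ ≤ ‖T1‖ / ‖T‖`, and `‖p - ⟪v, p⟫ v‖ ≤ (‖T1‖ / ‖T‖) (η + 3 η) ≤ 8 η ‖p‖ ≤ (κ / 8) ‖p‖` (the map `x ↦ x - ⟪v, x⟫ v` is linear of norm `≤ 1`, `pc_vec` for `T1`). The same for `p'`.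
(5) `p = β v + x`, `‖x‖ ≤ 8 η ‖p‖`, `|β| ≥ (1 - 8 η) ‖p‖`, the same for `p'`: `|⟪p, J p'⟫| ≥ ((1 - 8 η)² κ - 17 η) ‖p‖ ‖p'‖ ≥ (κ / 2) ‖p‖ ‖p'‖`.
-/

set_option autoImplicit false

namespace Pool.Agent.Helper20.TB

variable {V : Type} [NormedAddCommGroup V] [InnerProductSpace ℝ V]

theorem nJ62 {J : V →L[ℝ] V} (JJ : ∀ x, J (J x) = x) (Js : ∀ x y, inner ℝ (J x) y = inner ℝ x (J y)) (x : V) :
    ‖J x‖ = ‖x‖ := by
  have h : ‖J x‖ ^ 2 = ‖x‖ ^ 2 := by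
    rw [← real_inner_self_eq_norm_sq, ← real_inner_self_eq_norm_sq, Js, JJ]
  exact (sq_eq_sq₀ (norm_nonneg _) (norm_nonneg _)).1 h

theorem proj62 {u : V} (hu : ‖u‖ = 1) (x : V) : inner ℝ u (x - inner ℝ u x • u) = 0 := by
  rw [inner_sub_right, inner_smul_right, real_inner_self_eq_norm_sq, hu]
  ring

theorem projn62 {u : V} (hu : ‖u‖ = 1) (x : V) : ‖x - inner ℝ u x • u‖ ^ 2 = ‖x‖ ^ 2 - inner ℝ u x ^ 2 := by
  rw [← real_inner_self_eq_norm_sq, inner_sub_left, inner_smul_left, proj62 hu, inner_sub_right, inner_smul_right,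
    real_inner_self_eq_norm_sq, real_inner_comm u x]
  simp
  ring

theorem projle62 {u : V} (hu : ‖u‖ = 1) (x : V) : ‖x - inner ℝ u x • u‖ ≤ ‖x‖ := by
  have h := projn62 hu x
  have h2 : ‖x - inner ℝ u x • u‖ ^ 2 ≤ ‖x‖ ^ 2 := by
    rw [h]
    nlinarith [sq_nonneg (inner ℝ u x : ℝ)]
  exact le_of_sq_le_sq h2 (norm_nonneg _)

theorem in62 {u : V} (hu : ‖u‖ = 1) (x : V) : |inner ℝ u x| ≤ ‖x‖ := by
  have := abs_real_inner_le_norm u x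
  rw [hu, one_mul] at this
  exact this

/-- the form `⟪p, J p'⟫` for `p` near `v`, `p'` near `v'` -/
theorem bil62 {J : V →L[ℝ] V} (hJ : ∀ x, ‖J x‖ = ‖x‖) {v v' p p' : V} {ε κ : ℝ} (hv : ‖v‖ = 1) (hv' : ‖v'‖ = 1)
    (hκ : κ ≤ |inner ℝ v (J v')|) (hκ1 : κ ≤ 1) (hε : 0 ≤ ε) (hεκ : ε ≤ κ / 10)
    (hp : ‖p - inner ℝ v p • v‖ ≤ ε * ‖p‖) (hp' : ‖p' - inner ℝ v' p' • v'‖ ≤ ε * ‖p'‖) :
    κ / 2 * (‖p‖ * ‖p'‖) ≤ |inner ℝ p (J p')| := by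
  set β : ℝ := inner ℝ v p with hβ
  set β' : ℝ := inner ℝ v' p' with hβ'
  set x := p - β • v with hx
  set x' := p' - β' • v' with hx'
  have hκ0 : 0 ≤ κ := by linarith
  have e1 : p = β • v + x := by rw [hx]; abel
  have e1' : p' = β' • v' + x' := by rw [hx']; abel
  have hb : |β| ≤ ‖p‖ := in62 hv p
  have hb' : |β'| ≤ ‖p'‖ := in62 hv' p'
  have hb2 : (1 - ε) * ‖p‖ ≤ |β| := by
    have h1 : ‖p‖ ≤ ‖β • v‖ + ‖x‖ := by
      conv_lhs => rw [e1]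
      exact norm_add_le _ _
    rw [norm_smul, hv, mul_one, Real.norm_eq_abs] at h1
    linarith
  have hb2' : (1 - ε) * ‖p'‖ ≤ |β'| := by
    have h1 : ‖p'‖ ≤ ‖β' • v'‖ + ‖x'‖ := by
      conv_lhs => rw [e1']
      exact norm_add_le _ _
    rw [norm_smul, hv', mul_one, Real.norm_eq_abs] at h1
    linarith
  have e2 : inner ℝ p (J p') = β * β' * inner ℝ v (J v') + (β * inner ℝ v (J x') + β' * inner ℝ x (J v') +
      inner ℝ x (J x')) := by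
    conv_lhs => rw [e1, e1']
    rw [map_add, map_smul, inner_add_left, inner_add_right, inner_add_right, inner_smul_left, inner_smul_left,
      inner_smul_right, inner_smul_right]
    simp only [conj_trivial]
    ring
  have a1 : |inner ℝ v (J x')| ≤ ε * ‖p'‖ := by
    have := in62 hv (J x')
    rw [hJ] at this
    exact this.trans hp'
  have a2 : |inner ℝ x (J v')| ≤ ε * ‖p‖ := by
    have := abs_real_inner_le_norm x (J v')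
    rw [hJ, hv', mul_one] at this
    exact this.trans hp
  have a3 : |inner ℝ x (J x')| ≤ (ε * ‖p‖) * (ε * ‖p'‖) := by
    have := abs_real_inner_le_norm x (J x')
    rw [hJ] at this
    exact this.trans (mul_le_mul hp hp' (norm_nonneg _) (by positivity))
  have hP := norm_nonneg p
  have hP' := norm_nonneg p'
  have b1 : |β * inner ℝ v (J x')| ≤ ‖p‖ * (ε * ‖p'‖) := by
    rw [abs_mul]
    exact mul_le_mul hb a1 (abs_nonneg _) hP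
  have b2 : |β' * inner ℝ x (J v')| ≤ ‖p'‖ * (ε * ‖p‖) := by
    rw [abs_mul]
    exact mul_le_mul hb' a2 (abs_nonneg _) hP'
  have b3 : ((1 - ε) * ‖p‖) * ((1 - ε) * ‖p'‖) * κ ≤ |β * β' * inner ℝ v (J v')| := by
    rw [abs_mul, abs_mul]
    refine mul_le_mul (mul_le_mul hb2 hb2' ?_ (abs_nonneg _)) hκ hκ0 (by positivity)
    exact mul_nonneg (by linarith) hP'
  have b4 : |β * β' * inner ℝ v (J v')| ≤ |inner ℝ p (J p')| + |β * inner ℝ v (J x') + β' * inner ℝ x (J v') +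
      inner ℝ x (J x')| := by
    have : β * β' * inner ℝ v (J v') = inner ℝ p (J p') - (β * inner ℝ v (J x') + β' * inner ℝ x (J v') +
      inner ℝ x (J x')) := by
      rw [e2]
      ring
    rw [this]
    exact abs_sub _ _
  have b5 : |β * inner ℝ v (J x') + β' * inner ℝ x (J v') + inner ℝ x (J x')| ≤
      ‖p‖ * (ε * ‖p'‖) + ‖p'‖ * (ε * ‖p‖) + (ε * ‖p‖) * (ε * ‖p'‖) :=
    (abs_add_le _ _).trans (add_le_add ((abs_add_le _ _).trans (add_le_add b1 b2)) a3)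
  have hε1 : ε ≤ 1 / 10 := by linarith
  have hPP : 0 ≤ ‖p‖ * ‖p'‖ := mul_nonneg hP hP'
  have b6 : κ / 2 ≤ (1 - ε) ^ 2 * κ - (2 * ε + ε ^ 2) := by
    have : ε ^ 2 ≤ ε / 10 := by nlinarith
    have h2 : (1 - 2 * ε) * κ ≤ (1 - ε) ^ 2 * κ := mul_le_mul_of_nonneg_right (by nlinarith) hκ0
    nlinarith
  have b7 : κ / 2 * (‖p‖ * ‖p'‖) ≤ ((1 - ε) ^ 2 * κ - (2 * ε + ε ^ 2)) * (‖p‖ * ‖p'‖) :=
    mul_le_mul_of_nonneg_right b6 hPP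
  linarith

variable [CompleteSpace V]

theorem ad62 {T : V →L[ℝ] V} {u w : V} (h : TS T u w) (x : V) :
    ContinuousLinearMap.adjoint T x = (inner ℝ u x * ‖T‖) • w + ContinuousLinearMap.adjoint T (x - inner ℝ u x • u) := by
  rw [map_sub, map_smul, h.Tu, smul_smul]
  abel

/-- rank one -/
theorem rank62 {J T S : V →L[ℝ] V} (hJ : ∀ x, ‖J x‖ = ‖x‖) {uT vT uS vS : V} {η : ℝ} (hη0 : 0 ≤ η) (hη : η ≤ 1 / 10)
    (tT : TS T uT vT) (tS : TS S uS vS)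
    (hT : ∀ x, inner ℝ uT x = 0 → ‖ContinuousLinearMap.adjoint T x‖ ≤ 3 * η * ‖T‖ * ‖x‖)
    (hS : ∀ x, inner ℝ uS x = 0 → ‖ContinuousLinearMap.adjoint S x‖ ≤ 3 * η * ‖S‖ * ‖x‖) (x y : V) :
    |inner ℝ x (T (J (ContinuousLinearMap.adjoint S y))) -
      ‖T‖ * ‖S‖ * inner ℝ uT x * inner ℝ uS y * inner ℝ vT (J vS)| ≤ 7 * η * (‖T‖ * ‖S‖) * (‖x‖ * ‖y‖) := by
  set x1 := x - inner ℝ uT x • uT with hx1
  set y1 := y - inner ℝ uS y • uS with hy1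
  set a : ℝ := inner ℝ uT x * ‖T‖ with ha
  set b : ℝ := inner ℝ uS y * ‖S‖ with hb
  set p := ContinuousLinearMap.adjoint T x1 with hp
  set q := ContinuousLinearMap.adjoint S y1 with hq
  have nT := norm_nonneg T
  have nS := norm_nonneg S
  have nx := norm_nonneg x
  have ny := norm_nonneg y
  have hp1 : ‖p‖ ≤ 3 * η * ‖T‖ * ‖x‖ :=
    (hT x1 (proj62 tT.nu x)).trans (mul_le_mul_of_nonneg_left (projle62 tT.nu x) (by positivity))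
  have hq1 : ‖q‖ ≤ 3 * η * ‖S‖ * ‖y‖ :=
    (hS y1 (proj62 tS.nu y)).trans (mul_le_mul_of_nonneg_left (projle62 tS.nu y) (by positivity))
  have ha1 : |a| ≤ ‖x‖ * ‖T‖ := by
    rw [ha, abs_mul, abs_of_nonneg nT]
    exact mul_le_mul_of_nonneg_right (in62 tT.nu x) nT
  have hb1 : |b| ≤ ‖y‖ * ‖S‖ := by
    rw [hb, abs_mul, abs_of_nonneg nS]
    exact mul_le_mul_of_nonneg_right (in62 tS.nu y) nS
  have e1 : inner ℝ x (T (J (ContinuousLinearMap.adjoint S y))) - ‖T‖ * ‖S‖ * inner ℝ uT x * inner ℝ uS y *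
      inner ℝ vT (J vS) = a * inner ℝ vT (J q) + b * inner ℝ p (J vS) + inner ℝ p (J q) := by
    rw [← ContinuousLinearMap.adjoint_inner_left, ad62 tT x, ad62 tS y, ← ha, ← hb, ← hx1, ← hy1, ← hp, ← hq,
      map_add, map_smul, inner_add_left, inner_add_right, inner_add_right, inner_smul_left, inner_smul_left,
      inner_smul_right, inner_smul_right]
    simp only [conj_trivial]
    rw [ha, hb]
    ring
  rw [e1]
  have c1 : |inner ℝ vT (J q)| ≤ 3 * η * ‖S‖ * ‖y‖ := by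
    have := in62 tT.nv (J q)
    rw [hJ] at this
    exact this.trans hq1
  have c2 : |inner ℝ p (J vS)| ≤ 3 * η * ‖T‖ * ‖x‖ := by
    have := abs_real_inner_le_norm p (J vS)
    rw [hJ, tS.nv, mul_one] at this
    exact this.trans hp1
  have c3 : |inner ℝ p (J q)| ≤ (3 * η * ‖T‖ * ‖x‖) * (3 * η * ‖S‖ * ‖y‖) := by
    have := abs_real_inner_le_norm p (J q)
    rw [hJ] at this
    exact this.trans (mul_le_mul hp1 hq1 (norm_nonneg _) (by positivity))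
  have d1 : |a * inner ℝ vT (J q)| ≤ (‖x‖ * ‖T‖) * (3 * η * ‖S‖ * ‖y‖) := by
    rw [abs_mul]
    exact mul_le_mul ha1 c1 (abs_nonneg _) (by positivity)
  have d2 : |b * inner ℝ p (J vS)| ≤ (‖y‖ * ‖S‖) * (3 * η * ‖T‖ * ‖x‖) := by
    rw [abs_mul]
    exact mul_le_mul hb1 c2 (abs_nonneg _) (by positivity)
  refine ((abs_add_le _ _).trans (add_le_add ((abs_add_le _ _).trans (add_le_add d1 d2)) c3)).trans ?_
  have hM : 0 ≤ ‖T‖ * ‖S‖ * (‖x‖ * ‖y‖) := by positivity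
  have h1 : (‖x‖ * ‖T‖) * (3 * η * ‖S‖ * ‖y‖) + (‖y‖ * ‖S‖) * (3 * η * ‖T‖ * ‖x‖) +
      (3 * η * ‖T‖ * ‖x‖) * (3 * η * ‖S‖ * ‖y‖) = (6 * η + 9 * η ^ 2) * (‖T‖ * ‖S‖ * (‖x‖ * ‖y‖)) := by ring
  have h2 : 7 * η * (‖T‖ * ‖S‖) * (‖x‖ * ‖y‖) = 7 * η * (‖T‖ * ‖S‖ * (‖x‖ * ‖y‖)) := by ring
  rw [h1, h2]
  exact mul_le_mul_of_nonneg_right (by nlinarith) hM

theorem up62 {J T S : V →L[ℝ] V} (hJ : ∀ x, ‖J x‖ = ‖x‖) {x y : V} (hx : ‖x‖ = 1) (hy : ‖y‖ = 1) :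
    |inner ℝ x (T (J (ContinuousLinearMap.adjoint S y)))| ≤ ‖T‖ * ‖S‖ := by
  refine (in62 hx _).trans ((T.le_opNorm _).trans ?_)
  refine mul_le_mul_of_nonneg_left ?_ (norm_nonneg _)
  rw [hJ]
  refine ((ContinuousLinearMap.adjoint S).le_opNorm y).trans (le_of_eq ?_)
  rw [hy, mul_one, LinearIsometryEquiv.norm_map]

/-- step (4) -/
theorem stepP62 {T R T1 : V →L[ℝ] V} {v uT vT uT1 vT1 : V} {η : ℝ} (hη0 : 0 ≤ η) (hη : η ≤ 1 / 10)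
    (tT : TS T uT vT) (tT1 : TS T1 uT1 vT1) (hv : ‖v‖ = 1) (hvT1 : ‖vT1 - inner ℝ v vT1 • v‖ ≤ η)
    (hA : ∀ x, inner ℝ uT1 x = 0 → ‖ContinuousLinearMap.adjoint T1 x‖ ≤ 3 * η * ‖T1‖ * ‖x‖)
    (eT : (∀ x, T1 x = T (R x)) ∨ ∀ x, T1 x = -T (R x)) (hz : ‖uT - inner ℝ uT1 uT • uT1‖ ≤ 1 / 100) :
    ‖T1‖ / ‖T‖ / 2 ≤ ‖ContinuousLinearMap.adjoint R vT‖ ∧ ‖ContinuousLinearMap.adjoint R vT‖ ≤ ‖T1‖ / ‖T‖ ∧
      ‖ContinuousLinearMap.adjoint R vT - inner ℝ v (ContinuousLinearMap.adjoint R vT) • v‖ ≤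
        8 * η * ‖ContinuousLinearMap.adjoint R vT‖ := by
  obtain ⟨c, hc, hcT⟩ : ∃ c : ℝ, |c| = 1 ∧ ∀ x, T1 x = c • T (R x) := by
    rcases eT with h | h
    · exact ⟨1, abs_one, fun x => by rw [h, one_smul]⟩
    · exact ⟨-1, by rw [abs_neg, abs_one], fun x => by rw [h, neg_smul, one_smul]⟩
  have hTp := tT.pos
  have hT1p := tT1.pos
  set p := ContinuousLinearMap.adjoint R vT with hp
  have hT1p' : ContinuousLinearMap.adjoint T1 uT = (c * ‖T‖) • p := by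
    refine ext_inner_right ℝ fun y => ?_
    rw [ContinuousLinearMap.adjoint_inner_left, hcT, inner_smul_right, ← ContinuousLinearMap.adjoint_inner_left,
      tT.Tu, inner_smul_left, inner_smul_left, hp, ContinuousLinearMap.adjoint_inner_left]
    simp only [conj_trivial]
    ring
  set a : ℝ := inner ℝ uT1 uT with ha
  set z := uT - a • uT1 with hzd
  have hz0 : inner ℝ uT1 z = 0 := proj62 tT1.nu uT
  have hzn : ‖z‖ ^ 2 = 1 - a ^ 2 := by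
    have := projn62 tT1.nu uT
    rw [tT.nu] at this
    rw [this]
    ring
  have ha1 : |a| ≤ 1 := by
    have := in62 tT1.nu uT
    rw [tT.nu] at this
    exact this
  have ha2 : 99 / 100 ≤ |a| := by
    have h1 : ‖z‖ ^ 2 ≤ (1 / 100) ^ 2 := pow_le_pow_left₀ (norm_nonneg _) hz 2
    have h2 : |a| ^ 2 = a ^ 2 := sq_abs a
    nlinarith [abs_nonneg a]
  have hAz := hA z hz0
  have e1 : ContinuousLinearMap.adjoint T1 uT = (a * ‖T1‖) • vT1 + ContinuousLinearMap.adjoint T1 z := ad62 tT1 uT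
  set q := ContinuousLinearMap.adjoint T1 z with hq
  have hq1 : ‖q‖ ≤ 3 / 100 * η * ‖T1‖ := by
    refine hAz.trans ?_
    have : 3 * η * ‖T1‖ * ‖z‖ ≤ 3 * η * ‖T1‖ * (1 / 100) := mul_le_mul_of_nonneg_left hz (by positivity)
    linarith
  have np : ‖T‖ * ‖p‖ = ‖(a * ‖T1‖) • vT1 + q‖ := by
    rw [← e1, hT1p', norm_smul, Real.norm_eq_abs, abs_mul, hc, one_mul, abs_of_pos hTp]
  have nvT1 : ‖(a * ‖T1‖) • vT1‖ = |a| * ‖T1‖ := by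
    rw [norm_smul, tT1.nv, mul_one, Real.norm_eq_abs, abs_mul, abs_of_pos hT1p]
  have low : 1 / 2 * ‖T1‖ ≤ ‖T‖ * ‖p‖ := by
    rw [np]
    have h1 : ‖(a * ‖T1‖) • vT1‖ ≤ ‖(a * ‖T1‖) • vT1 + q‖ + ‖q‖ := by
      have h2 : (a * ‖T1‖) • vT1 = ((a * ‖T1‖) • vT1 + q) - q := by abel
      conv_lhs => rw [h2]
      exact norm_sub_le _ _
    rw [nvT1] at h1
    have h3 : 99 / 100 * ‖T1‖ ≤ |a| * ‖T1‖ := mul_le_mul_of_nonneg_right ha2 hT1p.le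
    have h4 : 3 / 100 * η * ‖T1‖ ≤ 3 / 100 * (1 / 10) * ‖T1‖ := by
      apply mul_le_mul_of_nonneg_right _ hT1p.le
      linarith
    linarith
  refine ⟨?_, ?_, ?_⟩
  · rw [div_div, div_le_iff₀ (by positivity)]
    linarith
  · rw [le_div_iff₀ hTp, mul_comm]
    have h1 : ‖T‖ * ‖p‖ = ‖ContinuousLinearMap.adjoint T1 uT‖ := by rw [np, e1]
    rw [h1]
    refine ((ContinuousLinearMap.adjoint T1).le_opNorm uT).trans (le_of_eq ?_)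
    rw [tT.nu, mul_one, LinearIsometryEquiv.norm_map]
  · -- the projection
    have h1 : ‖T‖ * ‖p - inner ℝ v p • v‖ =
        ‖((a * ‖T1‖) • (vT1 - inner ℝ v vT1 • v)) + (q - inner ℝ v q • v)‖ := by
      have h2 : ((a * ‖T1‖) • (vT1 - inner ℝ v vT1 • v)) + (q - inner ℝ v q • v) =
          (c * ‖T‖) • (p - inner ℝ v p • v) := by
        have h3 : (c * ‖T‖) • p = (a * ‖T1‖) • vT1 + q := by rw [← hT1p', e1]
        have h4 : (c * ‖T‖) * inner ℝ v p = (a * ‖T1‖) * inner ℝ v vT1 + inner ℝ v q := by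
          rw [← inner_smul_right, h3, inner_add_right, inner_smul_right]
        rw [smul_sub (c * ‖T‖) p, h3, smul_smul (c * ‖T‖), h4]
        module
      rw [h2, norm_smul, Real.norm_eq_abs, abs_mul, hc, one_mul, abs_of_pos hTp]
    have h2 : ‖T‖ * ‖p - inner ℝ v p • v‖ ≤ ‖T1‖ * η + 3 / 100 * η * ‖T1‖ := by
      rw [h1]
      refine (norm_add_le _ _).trans (add_le_add ?_ ((projle62 hv q).trans hq1))
      rw [norm_smul, Real.norm_eq_abs, abs_mul, abs_of_pos hT1p]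
      refine mul_le_mul ?_ hvT1 (norm_nonneg _) hT1p.le
      calc |a| * ‖T1‖ ≤ 1 * ‖T1‖ := mul_le_mul_of_nonneg_right ha1 hT1p.le
        _ = ‖T1‖ := one_mul _
    have h3 : ‖T‖ * ‖p - inner ℝ v p • v‖ ≤ ‖T‖ * (8 * η * ‖p‖) := by
      have h4 : 8 * η * (1 / 2 * ‖T1‖) ≤ 8 * η * (‖T‖ * ‖p‖) := mul_le_mul_of_nonneg_left low (by positivity)
      have h5 : 0 ≤ η * ‖T1‖ := mul_nonneg hη0 hT1p.le
      linarith
    exact le_of_mul_le_mul_left h3 hTp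

/-- step (3) for the left vectors -/
theorem stepZ62 {J T S T1 S1 : V →L[ℝ] V} {uT vT uS vS uT1 vT1 uS1 vS1 : V} {η κ : ℝ}
    (hκ : 0 < κ) (hκ1 : κ ≤ 1) (hη0 : 0 ≤ η) (hη : η ≤ κ ^ 4 / 1000000) (tT : TS T uT vT) (tS : TS S uS vS)
    (tT1 : TS T1 uT1 vT1)
    (r0 : ∀ x y, |inner ℝ x (T (J (ContinuousLinearMap.adjoint S y))) -
      ‖T‖ * ‖S‖ * inner ℝ uT x * inner ℝ uS y * inner ℝ vT (J vS)| ≤ 7 * η * (‖T‖ * ‖S‖) * (‖x‖ * ‖y‖))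
    (r1 : ∀ x y, |inner ℝ x (T1 (J (ContinuousLinearMap.adjoint S1 y))) -
      ‖T1‖ * ‖S1‖ * inner ℝ uT1 x * inner ℝ uS1 y * inner ℝ vT1 (J vS1)| ≤ 7 * η * (‖T1‖ * ‖S1‖) * (‖x‖ * ‖y‖))
    (rel : ∀ x y, |inner ℝ x (T1 (J (ContinuousLinearMap.adjoint S1 y)))| =
      |inner ℝ x (T (J (ContinuousLinearMap.adjoint S y)))|)
    (hk : κ / 2 ≤ |inner ℝ vT (J vS)|) (hl : ‖T1‖ * ‖S1‖ ≤ 4 / κ * (‖T‖ * ‖S‖)) :
    ‖uT - inner ℝ uT1 uT • uT1‖ ≤ 1 / 100 := by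
  set z := uT - inner ℝ uT1 uT • uT1 with hz
  have hz0 : inner ℝ uT1 z = 0 := proj62 tT1.nu uT
  have hzz : inner ℝ uT z = ‖z‖ ^ 2 := by
    have h1 : uT = inner ℝ uT1 uT • uT1 + z := by rw [hz]; abel
    conv_lhs => rw [h1]
    rw [inner_add_left, inner_smul_left, hz0, mul_zero, zero_add, real_inner_self_eq_norm_sq]
  have hSS : inner ℝ uS uS = (1 : ℝ) := by rw [real_inner_self_eq_norm_sq, tS.nu, one_pow]
  have a0 := r0 z uS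
  have a1 := r1 z uS
  rw [hzz, hSS, tS.nu, mul_one, mul_one] at a0
  rw [hz0, tS.nu, mul_one] at a1
  simp only [mul_zero, zero_mul, sub_zero] at a1
  rw [rel] at a1
  set M := ‖T‖ * ‖S‖ with hM
  have hM0 : 0 < M := mul_pos tT.pos tS.pos
  have nz := norm_nonneg z
  have b0 : M * ‖z‖ ^ 2 * |inner ℝ vT (J vS)| ≤ 7 * η * M * ‖z‖ + 7 * η * (‖T1‖ * ‖S1‖) * ‖z‖ := by
    have h1 : |M * ‖z‖ ^ 2 * inner ℝ vT (J vS)| = M * ‖z‖ ^ 2 * |inner ℝ vT (J vS)| := by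
      rw [abs_mul, abs_of_nonneg (by positivity : 0 ≤ M * ‖z‖ ^ 2)]
    rw [← h1]
    have h2 : M * ‖z‖ ^ 2 * inner ℝ vT (J vS) = inner ℝ z (T (J (ContinuousLinearMap.adjoint S uS))) -
        (inner ℝ z (T (J (ContinuousLinearMap.adjoint S uS))) - M * ‖z‖ ^ 2 * inner ℝ vT (J vS)) := by ring
    rw [h2]
    refine (abs_sub _ _).trans ?_
    linarith
  have b1 : 7 * η * (‖T1‖ * ‖S1‖) * ‖z‖ ≤ 7 * η * (4 / κ * M) * ‖z‖ := by gcongr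
  have b2 : M * ‖z‖ ^ 2 * (κ / 2) ≤ M * ‖z‖ ^ 2 * |inner ℝ vT (J vS)| := mul_le_mul_of_nonneg_left hk (by positivity)
  have b3 : (M * ‖z‖) * (‖z‖ * (κ / 2)) ≤ (M * ‖z‖) * (7 * η * (1 + 4 / κ)) := by
    have e1 : (M * ‖z‖) * (‖z‖ * (κ / 2)) = M * ‖z‖ ^ 2 * (κ / 2) := by ring
    have e2 : (M * ‖z‖) * (7 * η * (1 + 4 / κ)) = 7 * η * M * ‖z‖ + 7 * η * (4 / κ * M) * ‖z‖ := by ring
    rw [e1, e2]
    linarith
  rcases nz.eq_or_lt with h0 | h0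
  · rw [← h0]
    norm_num
  · have b4 := le_of_mul_le_mul_left b3 (mul_pos hM0 h0)
    have b5 : 7 * η * (1 + 4 / κ) ≤ 1 / 100 * (κ / 2) := by
      have h1 : 1 + 4 / κ ≤ 5 / κ := by
        have e1 : 1 ≤ 1 / κ := by
          rw [le_div_iff₀ hκ]
          linarith
        have e2 : 5 / κ = 1 / κ + 4 / κ := by ring
        rw [e2]
        linarith
      have h2 : 7 * η * (1 + 4 / κ) ≤ 7 * (κ ^ 4 / 1000000) * (5 / κ) := by gcongr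
      have h3 : 7 * (κ ^ 4 / 1000000) * (5 / κ) = 35 / 1000000 * κ ^ 3 := by
        field_simp
        ring
      have h4 : κ ^ 3 ≤ κ := by
        have : κ ^ 3 = κ * κ ^ 2 := by ring
        rw [this]
        have h5 : κ ^ 2 ≤ 1 := pow_le_one₀ hκ.le hκ1
        nlinarith
      rw [h3] at h2
      linarith
    have b6 : ‖z‖ * (κ / 2) ≤ 1 / 100 * (κ / 2) := b4.trans b5
    exact le_of_mul_le_mul_right b6 (by linarith)

theorem partI {J T S R T1 S1 : V →L[ℝ] V} {v v' uT vT uS vS uT1 vT1 uS1 vS1 : V} {η κ : ℝ}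
    (h : Cfg J T S R T1 S1 v v' uT vT uS vS uT1 vT1 uS1 vS1 η κ) :
    Cons J T S R T1 S1 v v' vT vS vT1 vS1 (ContinuousLinearMap.adjoint R vT) (ContinuousLinearMap.adjoint R vS) κ := by
  have hJ := nJ62 h.JJ h.Js
  have κ0 := h.κ0
  have κ1 := h.κ1
  have η0 := h.η0
  have hκ4 : κ ^ 4 ≤ κ := by
    have e1 : κ ^ 4 = κ * κ ^ 3 := by ring
    have e2 : κ ^ 3 ≤ 1 := pow_le_one₀ κ0.le κ1
    rw [e1]
    nlinarith
  have hη : η ≤ κ / 1000000 := by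
    have := h.ηκ
    linarith
  have hη1 : η ≤ 1 / 10 := by linarith
  obtain ⟨t1, -⟩ := pc_vec h.pT h.tT η0 hη1
  obtain ⟨s1, -⟩ := pc_vec h.pS h.tS η0 hη1
  obtain ⟨t2, -⟩ := pc_vec h.pT1 h.tT1 η0 hη1
  obtain ⟨s2, -⟩ := pc_vec h.pS1 h.tS1 η0 hη1
  have lT := (pc_le h.pT h.tT η0 hη1).2
  have lS := (pc_le h.pS h.tS η0 hη1).2
  have lT1 := (pc_le h.pT1 h.tT1 η0 hη1).2
  have lS1 := (pc_le h.pS1 h.tS1 η0 hη1).2
  have hv := h.pT.unit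
  have hv' := h.pS.unit
  -- `k`, `k1`
  have k0 : κ / 2 ≤ |inner ℝ vT (J vS)| := by
    have := bil62 hJ hv hv' h.op κ1 η0 (by linarith) (p := vT) (p' := vS) (by rw [h.tT.nv, mul_one]; exact t1)
      (by rw [h.tS.nv, mul_one]; exact s1)
    rw [h.tT.nv, h.tS.nv, mul_one, mul_one] at this
    exact this
  have k1 : κ / 2 ≤ |inner ℝ vT1 (J vS1)| := by
    have := bil62 hJ hv hv' h.op κ1 η0 (by linarith) (p := vT1) (p' := vS1) (by rw [h.tT1.nv, mul_one]; exact t2)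
      (by rw [h.tS1.nv, mul_one]; exact s2)
    rw [h.tT1.nv, h.tS1.nv, mul_one, mul_one] at this
    exact this
  have kv : |inner ℝ vT (J vS)| / 2 ≤ |inner ℝ v (J vS)| := by
    have e1 : inner ℝ vT (J vS) = inner ℝ v vT * inner ℝ v (J vS) +
        inner ℝ (vT - inner ℝ v vT • v) (J vS) := by
      rw [inner_sub_left, inner_smul_left]
      simp only [conj_trivial]
      ring
    have e2 : |inner ℝ v vT * inner ℝ v (J vS)| ≤ |inner ℝ v (J vS)| := by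
      rw [abs_mul]
      have := in62 hv vT
      rw [h.tT.nv] at this
      calc |inner ℝ v vT| * |inner ℝ v (J vS)| ≤ 1 * |inner ℝ v (J vS)| :=
            mul_le_mul_of_nonneg_right this (abs_nonneg _)
        _ = _ := one_mul _
    have e3 : |inner ℝ (vT - inner ℝ v vT • v) (J vS)| ≤ η := by
      have := abs_real_inner_le_norm (vT - inner ℝ v vT • v) (J vS)
      rw [hJ, h.tS.nv, mul_one] at this
      exact this.trans t1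
    have e4 : |inner ℝ vT (J vS)| ≤ |inner ℝ v (J vS)| + η := by
      rw [e1]
      exact (abs_add_le _ _).trans (add_le_add e2 e3)
    linarith
  have r0 := rank62 hJ η0 hη1 h.tT h.tS lT lS
  have r1 := rank62 hJ η0 hη1 h.tT1 h.tS1 lT1 lS1
  have rel : ∀ x y, |inner ℝ x (T1 (J (ContinuousLinearMap.adjoint S1 y)))| =
      |inner ℝ x (T (J (ContinuousLinearMap.adjoint S y)))| := by
    intro x y
    rcases h.rel with h1 | h1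
    · rw [h1]
    · rw [h1, inner_neg_right, abs_neg]
  have pT := h.tT.pos
  have pS := h.tS.pos
  have pT1 := h.tT1.pos
  have pS1 := h.tS1.pos
  -- the products of the norms
  have gen : ∀ {A B : V →L[ℝ] V} {uA vA uB vB : V}, TS A uA vA → TS B uB vB → κ / 2 ≤ |inner ℝ vA (J vB)| →
      |inner ℝ uA (A (J (ContinuousLinearMap.adjoint B uB))) -
        ‖A‖ * ‖B‖ * inner ℝ uA uA * inner ℝ uB uB * inner ℝ vA (J vB)| ≤ 7 * η * (‖A‖ * ‖B‖) * (‖uA‖ * ‖uB‖) →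
      κ / 4 * (‖A‖ * ‖B‖) ≤ |inner ℝ uA (A (J (ContinuousLinearMap.adjoint B uB)))| := by
    intro A B uA vA uB vB hA hB hk hr
    have e1 : inner ℝ uA uA = (1 : ℝ) := by rw [real_inner_self_eq_norm_sq, hA.nu, one_pow]
    have e2 : inner ℝ uB uB = (1 : ℝ) := by rw [real_inner_self_eq_norm_sq, hB.nu, one_pow]
    rw [e1, e2, hA.nu, hB.nu, mul_one, mul_one, mul_one, mul_one] at hr
    have hAB : 0 < ‖A‖ * ‖B‖ := mul_pos hA.pos hB.pos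
    have e3 : |‖A‖ * ‖B‖ * inner ℝ vA (J vB)| = ‖A‖ * ‖B‖ * |inner ℝ vA (J vB)| := by
      rw [abs_mul, abs_of_pos hAB]
    have e4 : |‖A‖ * ‖B‖ * inner ℝ vA (J vB)| ≤ |inner ℝ uA (A (J (ContinuousLinearMap.adjoint B uB)))| +
        7 * η * (‖A‖ * ‖B‖) := by
      have e5 : ‖A‖ * ‖B‖ * inner ℝ vA (J vB) = inner ℝ uA (A (J (ContinuousLinearMap.adjoint B uB))) -
        (inner ℝ uA (A (J (ContinuousLinearMap.adjoint B uB))) - ‖A‖ * ‖B‖ * inner ℝ vA (J vB)) := by ring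
      rw [e5]
      exact (abs_sub _ _).trans (by linarith)
    rw [e3] at e4
    have e6 : ‖A‖ * ‖B‖ * (κ / 2) ≤ ‖A‖ * ‖B‖ * |inner ℝ vA (J vB)| := mul_le_mul_of_nonneg_left hk hAB.le
    have e7 : 7 * η * (‖A‖ * ‖B‖) ≤ κ / 4 * (‖A‖ * ‖B‖) := mul_le_mul_of_nonneg_right (by linarith) hAB.le
    linarith
  have lm1 : κ / 4 * (‖T1‖ * ‖S1‖) ≤ ‖T‖ * ‖S‖ := by
    have e1 := gen h.tT1 h.tS1 k1 (r1 uT1 uS1)
    rw [rel] at e1
    exact e1.trans (up62 hJ h.tT1.nu h.tS1.nu)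
  have lm2 : κ / 4 * (‖T‖ * ‖S‖) ≤ ‖T1‖ * ‖S1‖ := by
    have e1 := gen h.tT h.tS k0 (r0 uT uS)
    rw [← rel] at e1
    exact e1.trans (up62 hJ h.tT.nu h.tS.nu)
  have lm : ‖T1‖ * ‖S1‖ ≤ 4 / κ * (‖T‖ * ‖S‖) := by
    rw [div_mul_eq_mul_div, le_div_iff₀ κ0]
    linarith
  have zT := stepZ62 κ0 κ1 η0 h.ηκ h.tT h.tS h.tT1 r0 r1 rel k0 lm
  have zS : ‖uS - inner ℝ uS1 uS • uS1‖ ≤ 1 / 100 := by
    -- transpose
    have sw : ∀ (A B : V →L[ℝ] V) (x y : V), inner ℝ y (A (J (ContinuousLinearMap.adjoint B x))) =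
        inner ℝ x (B (J (ContinuousLinearMap.adjoint A y))) := by
      intro A B x y
      rw [← ContinuousLinearMap.adjoint_inner_left A, ← h.Js, real_inner_comm, ContinuousLinearMap.adjoint_inner_left]
    have r0' : ∀ x y, |inner ℝ x (S (J (ContinuousLinearMap.adjoint T y))) -
        ‖S‖ * ‖T‖ * inner ℝ uS x * inner ℝ uT y * inner ℝ vS (J vT)| ≤ 7 * η * (‖S‖ * ‖T‖) * (‖x‖ * ‖y‖) :=
      rank62 hJ η0 hη1 h.tS h.tT lS lT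
    have r1' : ∀ x y, |inner ℝ x (S1 (J (ContinuousLinearMap.adjoint T1 y))) -
        ‖S1‖ * ‖T1‖ * inner ℝ uS1 x * inner ℝ uT1 y * inner ℝ vS1 (J vT1)| ≤
        7 * η * (‖S1‖ * ‖T1‖) * (‖x‖ * ‖y‖) := rank62 hJ η0 hη1 h.tS1 h.tT1 lS1 lT1
    refine stepZ62 κ0 κ1 η0 h.ηκ h.tS h.tT h.tS1 r0' r1' ?_ ?_ ?_
    · intro x y
      rw [← sw T1 S1 x y, ← sw T S x y, rel]
    · rw [← h.Js, real_inner_comm]
      exact k0
    · rw [mul_comm ‖S1‖, mul_comm ‖S‖]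
      exact lm
  obtain ⟨p1, p2, p3⟩ := stepP62 η0 hη1 h.tT h.tT1 hv t2 lT1 h.eT zT
  obtain ⟨q1, q2, q3⟩ := stepP62 η0 hη1 h.tS h.tS1 hv' s2 lS1 h.eS zS
  refine ⟨k0, k1, kv, lm, p1, p2, q1, q2, p3.trans ?_, q3.trans ?_, ?_⟩
  · exact mul_le_mul_of_nonneg_right (by linarith) (norm_nonneg _)
  · exact mul_le_mul_of_nonneg_right (by linarith) (norm_nonneg _)
  · exact bil62 hJ hv hv' h.op κ1 (by linarith : 0 ≤ 8 * η) (by linarith) p3 q3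

end Pool.Agent.Helper20.TB
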