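import Pool.Agent.Helper20.TB.Rd2
import Pool.Agent.Helper20.TB.Op2

/-!
# Project OB (MP_0f6f3f_an), layer TB, block TB-R5: the configurations

Assemble the structure `Cfg` from the facts in `Rd1.lean`, `Rd2.lean`, `Wj.lean` (`ts1`, `mul1`, `rel1`, `op_JR_JR`, `inner_JR`; `ts2`, `mul2`, `rel2`, `op_JK_JK`, `inner_JK`). `cfgi1`, `cfgi2`: the configuration for `g r`, `h r`, `r⁻¹`: `(g r) r⁻¹ = g`.
-/

set_option autoImplicit false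

open Matrix

namespace Pool.Agent.Helper20.TB

open Pool.Agent.Helper55.OB

namespace RD

variable {G : Type} [Group G] {N : ℕ} (D : RD G N)

theorem cfg1 {v v' : EuclideanSpace ℝ (Fin N)} {η κ : ℝ} (hκ : 0 < κ) (hκ1 : κ ≤ 1) (hη0 : 0 ≤ η) (hη : η ≤ κ ^ 4 / 1000000)
    (hop : κ ≤ |inner ℝ v (op (JR N) v')|) {g h r : G} (h1 : PC (D.T1 g) v η) (h2 : PC (D.T1 h) v' η)
    (h3 : PC (D.T1 (g * r)) v η) (h4 : PC (D.T1 (h * r)) v' η) :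
    Cfg (op (JR N)) (D.T1 g) (D.T1 h) (D.T1 r) (D.T1 (g * r)) (D.T1 (h * r)) v v' (D.vL g) (D.vR g) (D.vL h) (D.vR h)
      (D.vL (g * r)) (D.vR (g * r)) (D.vL (h * r)) (D.vR (h * r)) η κ := by
  exact ⟨op_JR_JR, inner_JR, hκ, hκ1, hη0, hη, hop, h1, h2, h3, h4, D.ts1 g, D.ts1 h, D.ts1 (g * r),
    D.ts1 (h * r), D.mul1 g r, D.mul1 h r, D.rel1 g h r⟩

theorem cfg2 {v v' : EuclideanSpace ℝ (Fin N × Fin N)} {η κ : ℝ} (hκ : 0 < κ) (hκ1 : κ ≤ 1) (hη0 : 0 ≤ η)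
    (hη : η ≤ κ ^ 4 / 1000000) (hop : κ ≤ |inner ℝ v (op (JK N) v')|) {g h r : G} (h1 : PC (D.T2 g) v η)
    (h2 : PC (D.T2 h) v' η) (h3 : PC (D.T2 (g * r)) v η) (h4 : PC (D.T2 (h * r)) v' η) :
    Cfg (op (JK N)) (D.T2 g) (D.T2 h) (D.T2 r) (D.T2 (g * r)) (D.T2 (h * r)) v v' (D.oL2 g) (D.oR2 g) (D.oL2 h) (D.oR2 h)
      (D.oL2 (g * r)) (D.oR2 (g * r)) (D.oL2 (h * r)) (D.oR2 (h * r)) η κ := by
  exact ⟨op_JK_JK, inner_JK, hκ, hκ1, hη0, hη, hop, h1, h2, h3, h4, D.ts2 g, D.ts2 h, D.ts2 (g * r),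
    D.ts2 (h * r), Or.inl (D.mul2 g r), Or.inl (D.mul2 h r), Or.inl (D.rel2 g h r)⟩

end RD

end Pool.Agent.Helper20.TB
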