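import Pool.Agent.Helper20.TB.Op2

/-!
# Project OB (MP_0f6f3f_an), layer TB, block TB-O3: no cancellation

PROOF. `k = ⟪vT, J vS⟫`, `p = R† vT`, `|k| ≥ κ / 2` (`k0`). `‖R‖ = ‖R†‖ ≤ (1 / |k| + δ0) ‖p‖` (`hstar`, `‖J vS‖ = 1`).
First: `‖R† v‖ ≥ (|⟪v, J vS⟫| / |k|) ‖p‖ - δ0 ‖p‖ ≥ (1 / 2 - κ / 100) ‖p‖` (`kv`), and `(κ / 8) ‖R‖ ≤ (κ / 8) (2 / κ + κ / 100) ‖p‖`.
Second: `‖R J v'‖ ≥ |⟪R J v', J vS⟫| = |⟪J v', R† J vS⟫| ≥ |⟪J v', p⟫| / |k| - δ0 ‖p‖` (`⟪J vS, J vS⟫ = 1`), `|⟪J v', p⟫| ≥ |⟪v, p⟫| κ - (κ / 8) ‖p‖ ≥ (3 κ / 4) ‖p‖` (`op`, `pv`: `|⟪v, p⟫| ≥ (1 - κ / 8) ‖p‖`), and `1 / |k| ≥ 1`: `(3 κ / 4) / |k| - κ / 100 ≥ (κ / 8) (1 / |k| + κ / 100)`.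
-/

set_option autoImplicit false

namespace Pool.Agent.Helper20.TB

variable {V : Type} [NormedAddCommGroup V] [InnerProductSpace ℝ V] [CompleteSpace V]

theorem concl {J T S R T1 S1 : V →L[ℝ] V} {v v' uT vT uS vS uT1 vT1 uS1 vS1 : V} {η κ δ0 : ℝ}
    (h : Cfg J T S R T1 S1 v v' uT vT uS vS uT1 vT1 uS1 vS1 η κ)
    (hc : Cons J T S R T1 S1 v v' vT vS vT1 vS1 (ContinuousLinearMap.adjoint R vT) (ContinuousLinearMap.adjoint R vS) κ)
    (hδ : δ0 ≤ κ / 100)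
    (hstar : ∀ x, ‖ContinuousLinearMap.adjoint R x - (inner ℝ x (J vS) / inner ℝ vT (J vS)) • ContinuousLinearMap.adjoint R vT‖ ≤
      δ0 * ‖ContinuousLinearMap.adjoint R vT‖ * ‖x‖) :
    κ / 8 * ‖R‖ ≤ ‖ContinuousLinearMap.adjoint R v‖ ∧ κ / 8 * ‖R‖ ≤ ‖R (J v')‖ := by
  have hκ0 := h.κ0
  have hκ1 := h.κ1
  have hJn : ∀ x, ‖J x‖ = ‖x‖ := by
    intro x
    have h1 : ‖J x‖ ^ 2 = ‖x‖ ^ 2 := by
      rw [← real_inner_self_eq_norm_sq, ← real_inner_self_eq_norm_sq, h.Js, h.JJ]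
    exact (pow_left_inj₀ (norm_nonneg _) (norm_nonneg _) two_ne_zero).1 h1
  have hv : ‖v‖ = 1 := h.pT.unit
  have hv' : ‖v'‖ = 1 := h.pS.unit
  have hvT : ‖vT‖ = 1 := h.tT.nv
  have hvS : ‖vS‖ = 1 := h.tS.nv
  set p := ContinuousLinearMap.adjoint R vT with hp
  set k : ℝ := inner ℝ vT (J vS) with hk
  have hP : 0 ≤ ‖p‖ := norm_nonneg _
  have hk0 : κ / 2 ≤ |k| := hc.k0
  have ha : 0 < |k| := lt_of_lt_of_le (by linarith) hk0
  have ha1 : |k| ≤ 1 := by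
    have h1 := abs_real_inner_le_norm vT (J vS)
    rw [hJn, hvT, hvS, mul_one] at h1
    exact h1
  have hδP : 0 ≤ δ0 * ‖p‖ := by
    have h1 := (norm_nonneg _).trans (hstar v)
    rw [hv, mul_one] at h1
    exact h1
  have hδP' : δ0 * ‖p‖ ≤ κ / 100 * ‖p‖ := mul_le_mul_of_nonneg_right hδ hP
  -- the coefficient
  have hco : ∀ x, ‖(inner ℝ x (J vS) / k) • p‖ = |inner ℝ x (J vS)| / |k| * ‖p‖ := by
    intro x
    rw [norm_smul, Real.norm_eq_abs, abs_div]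
  have hinv : |k|⁻¹ ≤ 2 / κ := by
    rw [inv_le_comm₀ ha (by positivity), inv_div]
    exact hk0
  have hinv1 : 1 ≤ |k|⁻¹ := (one_le_inv₀ ha).2 ha1
  -- the norm of R
  have hR : ‖R‖ ≤ |k|⁻¹ * ‖p‖ + δ0 * ‖p‖ := by
    rw [← LinearIsometryEquiv.norm_map ContinuousLinearMap.adjoint R]
    refine ContinuousLinearMap.opNorm_le_bound _ (add_nonneg (by positivity) hδP) fun x => ?_
    have h1 := hstar x
    have h2 : |inner ℝ x (J vS)| ≤ ‖x‖ := by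
      have h3 := abs_real_inner_le_norm x (J vS)
      rw [hJn, hvS, mul_one] at h3
      exact h3
    have h4 : ‖(inner ℝ x (J vS) / k) • p‖ ≤ |k|⁻¹ * ‖p‖ * ‖x‖ := by
      rw [hco, div_eq_mul_inv]
      calc |inner ℝ x (J vS)| * |k|⁻¹ * ‖p‖ ≤ ‖x‖ * |k|⁻¹ * ‖p‖ := by gcongr
        _ = _ := by ring
    have h5 : ‖ContinuousLinearMap.adjoint R x‖ ≤
        ‖ContinuousLinearMap.adjoint R x - (inner ℝ x (J vS) / k) • p‖ + ‖(inner ℝ x (J vS) / k) • p‖ := by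
      have := norm_add_le (ContinuousLinearMap.adjoint R x - (inner ℝ x (J vS) / k) • p) ((inner ℝ x (J vS) / k) • p)
      rwa [sub_add_cancel] at this
    calc ‖ContinuousLinearMap.adjoint R x‖ ≤ δ0 * ‖p‖ * ‖x‖ + |k|⁻¹ * ‖p‖ * ‖x‖ := by linarith
      _ = (|k|⁻¹ * ‖p‖ + δ0 * ‖p‖) * ‖x‖ := by ring
  have hR1 : κ / 8 * ‖R‖ ≤ κ / 8 * (|k|⁻¹ * ‖p‖ + δ0 * ‖p‖) := mul_le_mul_of_nonneg_left hR (by linarith)
  have hkp : κ * (|k|⁻¹ * ‖p‖) ≤ 2 * ‖p‖ := by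
    have h1 : κ * |k|⁻¹ ≤ 2 := by
      calc κ * |k|⁻¹ ≤ κ * (2 / κ) := mul_le_mul_of_nonneg_left hinv hκ0.le
        _ = 2 := by field_simp
    calc κ * (|k|⁻¹ * ‖p‖) = κ * |k|⁻¹ * ‖p‖ := by ring
      _ ≤ 2 * ‖p‖ := mul_le_mul_of_nonneg_right h1 hP
  have hκδ : κ * (δ0 * ‖p‖) ≤ δ0 * ‖p‖ := by
    have := mul_le_mul_of_nonneg_right hκ1 hδP
    linarith
  have hκP : κ * ‖p‖ ≤ ‖p‖ := by
    have := mul_le_mul_of_nonneg_right hκ1 hP
    linarith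
  constructor
  · -- first
    have h1 := hstar v
    rw [hv, mul_one] at h1
    have h2 : ‖(inner ℝ v (J vS) / k) • p‖ ≤ ‖ContinuousLinearMap.adjoint R v‖ +
        ‖ContinuousLinearMap.adjoint R v - (inner ℝ v (J vS) / k) • p‖ := by
      have := norm_sub_le (ContinuousLinearMap.adjoint R v)
        (ContinuousLinearMap.adjoint R v - (inner ℝ v (J vS) / k) • p)
      rwa [sub_sub_cancel] at this
    rw [hco] at h2
    have h3 : 1 / 2 * ‖p‖ ≤ |inner ℝ v (J vS)| / |k| * ‖p‖ := by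
      refine mul_le_mul_of_nonneg_right ?_ hP
      rw [le_div_iff₀ ha]
      have := hc.kv
      linarith
    linarith
  · -- second
    have h1 := hstar (J vS)
    rw [real_inner_self_eq_norm_sq, hJn, hvS, mul_one, one_pow] at h1
    have h2 : |inner ℝ (R (J v')) (J vS)| ≤ ‖R (J v')‖ := by
      have h3 := abs_real_inner_le_norm (R (J v')) (J vS)
      rw [hJn, hvS, mul_one] at h3
      exact h3
    have h3 : inner ℝ (R (J v')) (J vS) = inner ℝ (J v') (ContinuousLinearMap.adjoint R (J vS)) :=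
      (ContinuousLinearMap.adjoint_inner_right R (J v') (J vS)).symm
    have h4 : |inner ℝ (J v') (ContinuousLinearMap.adjoint R (J vS) - (1 / k) • p)| ≤ δ0 * ‖p‖ := by
      refine (abs_real_inner_le_norm _ _).trans ?_
      rw [hJn, hv', one_mul]
      exact h1
    have h5 : inner ℝ (J v') (ContinuousLinearMap.adjoint R (J vS) - (1 / k) • p) =
        inner ℝ (J v') (ContinuousLinearMap.adjoint R (J vS)) - 1 / k * inner ℝ (J v') p := by
      rw [inner_sub_right, real_inner_smul_right]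
    have h6 : |1 / k * inner ℝ (J v') p| ≤ ‖R (J v')‖ + δ0 * ‖p‖ := by
      rw [h5] at h4
      rw [h3] at h2
      have := abs_sub_abs_le_abs_sub (1 / k * inner ℝ (J v') p) (inner ℝ (J v') (ContinuousLinearMap.adjoint R (J vS)))
      rw [abs_sub_comm] at this
      linarith
    rw [abs_mul, abs_div, abs_one, one_div] at h6
    -- the inner product of p and J v'
    have h7 : |inner ℝ (J v') (p - inner ℝ v p • v)| ≤ κ / 8 * ‖p‖ := by
      refine (abs_real_inner_le_norm _ _).trans ?_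
      rw [hJn, hv', one_mul]
      exact hc.pv
    have h8 : inner ℝ (J v') (p - inner ℝ v p • v) = inner ℝ (J v') p - inner ℝ v p * inner ℝ (J v') v := by
      rw [inner_sub_right, real_inner_smul_right]
    rw [h8] at h7
    have h9 : (1 - κ / 8) * ‖p‖ ≤ |inner ℝ v p| := by
      have h10 : ‖p‖ ≤ ‖p - inner ℝ v p • v‖ + ‖(inner ℝ v p : ℝ) • v‖ := by
        have := norm_add_le (p - inner ℝ v p • v) ((inner ℝ v p : ℝ) • v)
        rwa [sub_add_cancel] at this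
      rw [norm_smul, Real.norm_eq_abs, hv, mul_one] at h10
      have := hc.pv
      linarith
    have h11 : κ * ((1 - κ / 8) * ‖p‖) ≤ |inner ℝ v p * inner ℝ (J v') v| := by
      rw [abs_mul, mul_comm κ, real_inner_comm]
      refine mul_le_mul ?_ ?_ hκ0.le (abs_nonneg _)
      · rw [real_inner_comm]
        exact h9
      · first
          | exact h.op
          | (rw [real_inner_comm]; exact h.op)
    have h12 : 3 / 4 * (κ * ‖p‖) ≤ |inner ℝ (J v') p| := by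
      have h13 := abs_sub_abs_le_abs_sub (inner ℝ v p * inner ℝ (J v') v) (inner ℝ (J v') p)
      rw [abs_sub_comm] at h13
      have h14 : κ * (κ * ‖p‖) ≤ κ * ‖p‖ := mul_le_mul_of_nonneg_left hκP hκ0.le
      nlinarith
    have h15 : |k|⁻¹ * (3 / 4 * (κ * ‖p‖)) ≤ |k|⁻¹ * |inner ℝ (J v') p| :=
      mul_le_mul_of_nonneg_left h12 (by positivity)
    have h16 : κ * ‖p‖ ≤ κ * (|k|⁻¹ * ‖p‖) := by
      refine mul_le_mul_of_nonneg_left ?_ hκ0.le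
      have := mul_le_mul_of_nonneg_right hinv1 hP
      linarith
    have h17 : |k|⁻¹ * (3 / 4 * (κ * ‖p‖)) = 3 / 4 * (κ * (|k|⁻¹ * ‖p‖)) := by ring
    linarith

end Pool.Agent.Helper20.TB
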