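import Pool.Agent.Helper20.TB.Op2

/-!
# Project OB (MP_0f6f3f_an), layer TB, block TB-S1: the first node

PROOF. `‖J x‖ = ‖x‖`. (1) For `d` with `⟪d, J vT⟫ = 0`: `d = T† y`, `y = J T J d` (`fT`), `‖y‖ = ‖T J d‖ ≤ K ‖d‖` (`⟪vT, J d⟫ = 0`), so `R† d = R† T† y = ± T1† y` (`eT`) `= c1 vT1 + e1`, `c1 = ± ⟪uT1, y⟫ ‖T1‖`, `e1 = ± T1† y'`, `y' = y - ⟪uT1, y⟫ uT1`, `‖e1‖ ≤ K ‖y'‖ ≤ K² ‖d‖` (`nT1`). The same with `S`: if also `⟪d, J vS⟫ = 0` then `R† d = c2 vS1 + e2`,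
`‖e2‖ ≤ K² ‖d‖`. The inner product with `J vT1`: `0 + ⟪e1, J vT1⟫ = c2 ⟪vS1, J vT1⟫ + ⟪e2, J vT1⟫` (`iT1`), `|⟪vS1, J vT1⟫| = |⟪vT1, J vS1⟫| ≥ κ / 2` (`k1`): `|c2| ≤ (4 / κ) K² ‖d‖`, `‖R† d‖ ≤ (5 / κ) K² ‖d‖`.
(2) `k = ⟪vT, J vS⟫`, `x = α vT + α' vS + d`, `α = ⟪x, J vS⟫ / k`, `α' = ⟪x, J vT⟫ / k`: then `⟪d, J vS⟫ = 0`, `⟪d, J vT⟫ = 0` (`iT`, `iS`), `‖d‖ ≤ (1 + 4 / κ) ‖x‖ ≤ (5 / κ) ‖x‖`. `R† x - α R† vT = α' R† vS + R† d`, `‖R† vS‖ ≤ ‖S1‖ / ‖S‖` (`q2`), `|α'| ≤ (2 / κ) ‖x‖`.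
-/

set_option autoImplicit false

namespace Pool.Agent.Helper20.TB

variable {V : Type} [NormedAddCommGroup V] [InnerProductSpace ℝ V] [CompleteSpace V]

/-- `R† d` for `d = T† y` -/
theorem dec62 {J T R T1 : V →L[ℝ] V} {uT vT uT1 vT1 : V} {K : ℝ} (hK : 1 ≤ K) (hJ : ∀ x, ‖J x‖ = ‖x‖)
    (Js : ∀ x y, inner ℝ (J x) y = inner ℝ x (J y)) (tT : TS T uT vT) (tT1 : TS T1 uT1 vT1)
    (eT : (∀ x, T1 x = T (R x)) ∨ ∀ x, T1 x = -T (R x))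
    (fT : ∀ x, ContinuousLinearMap.adjoint T (J (T (J x))) = x) (nT : ∀ x, inner ℝ vT x = 0 → ‖T x‖ ≤ K * ‖x‖)
    (nT1 : ∀ x, inner ℝ uT1 x = 0 → ‖ContinuousLinearMap.adjoint T1 x‖ ≤ K * ‖x‖) {d : V}
    (hd : inner ℝ d (J vT) = 0) :
    ∃ (c : ℝ) (e : V), ContinuousLinearMap.adjoint R d = c • vT1 + e ∧ ‖e‖ ≤ K ^ 2 * ‖d‖ := by
  obtain ⟨c, hc, hcT⟩ : ∃ c : ℝ, |c| = 1 ∧ ∀ x, T1 x = c • T (R x) := by
    rcases eT with h | h
    · exact ⟨1, abs_one, fun x => by rw [h, one_smul]⟩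
    · exact ⟨-1, by rw [abs_neg, abs_one], fun x => by rw [h, neg_smul, one_smul]⟩
  have hcc : c * c = 1 := by
    have : |c| * |c| = 1 := by rw [hc, one_mul]
    rwa [← abs_mul, abs_of_nonneg (mul_self_nonneg c)] at this
  set y := J (T (J d)) with hy
  have hyd : ContinuousLinearMap.adjoint T y = d := fT d
  have hyn : ‖y‖ ≤ K * ‖d‖ := by
    rw [hy, hJ]
    have h1 := nT (J d) (by rw [← Js, real_inner_comm]; exact hd)
    rw [hJ] at h1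
    exact h1
  have hR : ContinuousLinearMap.adjoint R d = c • ContinuousLinearMap.adjoint T1 y := by
    refine ext_inner_right ℝ fun w => ?_
    rw [ContinuousLinearMap.adjoint_inner_left, ← hyd, ContinuousLinearMap.adjoint_inner_left, inner_smul_left,
      ContinuousLinearMap.adjoint_inner_left, hcT, inner_smul_right]
    simp only [conj_trivial]
    rw [← mul_assoc, hcc, one_mul]
  refine ⟨c * (inner ℝ uT1 y * ‖T1‖), c • ContinuousLinearMap.adjoint T1 (y - inner ℝ uT1 y • uT1), ?_, ?_⟩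
  · rw [hR, ad62 tT1 y, smul_add, smul_smul]
  · rw [norm_smul, Real.norm_eq_abs, hc, one_mul]
    refine (nT1 _ (proj62 tT1.nu y)).trans ?_
    have h1 := projle62 tT1.nu y
    have h2 : K * ‖y - inner ℝ uT1 y • uT1‖ ≤ K * (K * ‖d‖) := mul_le_mul_of_nonneg_left (h1.trans hyn) (by linarith)
    calc _ ≤ K * (K * ‖d‖) := h2
      _ = K ^ 2 * ‖d‖ := by ring

theorem star1 {J T S R T1 S1 : V →L[ℝ] V} {v v' uT vT uS vS uT1 vT1 uS1 vS1 : V} {η κ K : ℝ}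
    (h : Cfg J T S R T1 S1 v v' uT vT uS vS uT1 vT1 uS1 vS1 η κ)
    (hc : Cons J T S R T1 S1 v v' vT vS vT1 vS1 (ContinuousLinearMap.adjoint R vT) (ContinuousLinearMap.adjoint R vS) κ)
    (hK : 1 ≤ K) (iT : inner ℝ vT (J vT) = 0) (iS : inner ℝ vS (J vS) = 0) (iT1 : inner ℝ vT1 (J vT1) = 0)
    (fT : ∀ x, ContinuousLinearMap.adjoint T (J (T (J x))) = x) (fS : ∀ x, ContinuousLinearMap.adjoint S (J (S (J x))) = x)
    (nT : ∀ x, inner ℝ vT x = 0 → ‖T x‖ ≤ K * ‖x‖) (nS : ∀ x, inner ℝ vS x = 0 → ‖S x‖ ≤ K * ‖x‖)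
    (nT1 : ∀ x, inner ℝ uT1 x = 0 → ‖ContinuousLinearMap.adjoint T1 x‖ ≤ K * ‖x‖)
    (nS1 : ∀ x, inner ℝ uS1 x = 0 → ‖ContinuousLinearMap.adjoint S1 x‖ ≤ K * ‖x‖) (x : V) :
    ‖ContinuousLinearMap.adjoint R x - (inner ℝ x (J vS) / inner ℝ vT (J vS)) • ContinuousLinearMap.adjoint R vT‖ ≤
      (2 / κ * (‖S1‖ / ‖S‖) + 25 * K ^ 2 / κ ^ 2) * ‖x‖ := by
  have hJ := nJ62 h.JJ h.Js
  have κ0 := h.κ0
  have κ1 := h.κ1
  have hK2 : 0 ≤ K ^ 2 := sq_nonneg K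
  -- (1)
  have step1 : ∀ d : V, inner ℝ d (J vT) = 0 → inner ℝ d (J vS) = 0 →
      ‖ContinuousLinearMap.adjoint R d‖ ≤ 5 / κ * K ^ 2 * ‖d‖ := by
    intro d hd hd'
    obtain ⟨c1, e1, f1, g1⟩ := dec62 hK hJ h.Js h.tT h.tT1 h.eT fT nT nT1 hd
    obtain ⟨c2, e2, f2, g2⟩ := dec62 hK hJ h.Js h.tS h.tS1 h.eS fS nS nS1 hd'
    have i1 : inner ℝ (ContinuousLinearMap.adjoint R d) (J vT1) = inner ℝ e1 (J vT1) := by
      rw [f1, inner_add_left, inner_smul_left, iT1, mul_zero, zero_add]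
    have i2 : inner ℝ (ContinuousLinearMap.adjoint R d) (J vT1) = c2 * inner ℝ vS1 (J vT1) + inner ℝ e2 (J vT1) := by
      rw [f2, inner_add_left, inner_smul_left]
      simp only [conj_trivial]
    have n1 : |inner ℝ e1 (J vT1)| ≤ K ^ 2 * ‖d‖ := by
      have := abs_real_inner_le_norm e1 (J vT1)
      rw [hJ, h.tT1.nv, mul_one] at this
      exact this.trans g1
    have n2 : |inner ℝ e2 (J vT1)| ≤ K ^ 2 * ‖d‖ := by
      have := abs_real_inner_le_norm e2 (J vT1)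
      rw [hJ, h.tT1.nv, mul_one] at this
      exact this.trans g2
    have n3 : |c2 * inner ℝ vS1 (J vT1)| ≤ 2 * (K ^ 2 * ‖d‖) := by
      have e : c2 * inner ℝ vS1 (J vT1) = inner ℝ e1 (J vT1) - inner ℝ e2 (J vT1) := by linarith
      rw [e]
      exact (abs_sub _ _).trans (by linarith)
    have n4 : κ / 2 ≤ |inner ℝ vS1 (J vT1)| := by
      rw [← h.Js, real_inner_comm]
      exact hc.k1
    have n5 : |c2| * (κ / 2) ≤ 2 * (K ^ 2 * ‖d‖) := by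
      rw [abs_mul] at n3
      exact (mul_le_mul_of_nonneg_left n4 (abs_nonneg _)).trans n3
    have n6 : |c2| ≤ 4 / κ * (K ^ 2 * ‖d‖) := by
      rw [div_mul_eq_mul_div, le_div_iff₀ κ0]
      linarith
    have n7 : ‖ContinuousLinearMap.adjoint R d‖ ≤ |c2| + ‖e2‖ := by
      rw [f2]
      refine (norm_add_le _ _).trans (le_of_eq ?_)
      rw [norm_smul, h.tS1.nv, mul_one, Real.norm_eq_abs]
    have hKd : 0 ≤ K ^ 2 * ‖d‖ := mul_nonneg hK2 (norm_nonneg _)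
    have n8 : K ^ 2 * ‖d‖ ≤ 1 / κ * (K ^ 2 * ‖d‖) := by
      have : 1 ≤ 1 / κ := by
        rw [le_div_iff₀ κ0]
        linarith
      nlinarith
    have n9 : 5 / κ * K ^ 2 * ‖d‖ = 4 / κ * (K ^ 2 * ‖d‖) + 1 / κ * (K ^ 2 * ‖d‖) := by ring
    rw [n9]
    linarith
  -- (2)
  set k : ℝ := inner ℝ vT (J vS) with hk
  have k0 : κ / 2 ≤ |k| := hc.k0
  have kne : k ≠ 0 := by
    intro h0
    rw [h0, abs_zero] at k0
    linarith
  have hk' : inner ℝ vS (J vT) = k := by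
    rw [← h.Js, real_inner_comm]
  set α : ℝ := inner ℝ x (J vS) / k with hα
  set α' : ℝ := inner ℝ x (J vT) / k with hα'
  have bd : ∀ w : V, ‖w‖ = 1 → |inner ℝ x (J w) / k| ≤ 2 / κ * ‖x‖ := by
    intro w hw
    rw [abs_div, div_le_iff₀ (by linarith : 0 < |k|)]
    have h1 := abs_real_inner_le_norm x (J w)
    rw [hJ, hw, mul_one] at h1
    have h2 : 2 / κ * ‖x‖ * (κ / 2) ≤ 2 / κ * ‖x‖ * |k| :=
      mul_le_mul_of_nonneg_left k0 (by positivity)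
    have h3 : 2 / κ * ‖x‖ * (κ / 2) = ‖x‖ := by
      field_simp
    linarith
  have a1 : |α| ≤ 2 / κ * ‖x‖ := bd vS h.tS.nv
  have a2 : |α'| ≤ 2 / κ * ‖x‖ := bd vT h.tT.nv
  obtain ⟨d, hd⟩ : ∃ d, d = x - α • vT - α' • vS := ⟨_, rfl⟩
  have d1 : inner ℝ d (J vS) = 0 := by
    rw [hd, inner_sub_left, inner_sub_left, inner_smul_left, inner_smul_left, iS]
    simp only [conj_trivial]
    rw [mul_zero, sub_zero, ← hk, hα]
    field_simp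
    ring
  have d2 : inner ℝ d (J vT) = 0 := by
    rw [hd, inner_sub_left, inner_sub_left, inner_smul_left, inner_smul_left, iT, hk']
    simp only [conj_trivial]
    rw [hα']
    field_simp
    ring
  have dn : ‖d‖ ≤ 5 / κ * ‖x‖ := by
    rw [hd]
    refine (norm_sub_le _ _).trans ((add_le_add (norm_sub_le _ _) le_rfl).trans ?_)
    rw [norm_smul, norm_smul, h.tT.nv, h.tS.nv, mul_one, mul_one, Real.norm_eq_abs, Real.norm_eq_abs]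
    have h1 : ‖x‖ ≤ 1 / κ * ‖x‖ := by
      have : 1 ≤ 1 / κ := by
        rw [le_div_iff₀ κ0]
        linarith
      nlinarith [norm_nonneg x]
    have h2 : 5 / κ * ‖x‖ = 1 / κ * ‖x‖ + 2 / κ * ‖x‖ + 2 / κ * ‖x‖ := by ring
    rw [h2]
    linarith
  have hx : ContinuousLinearMap.adjoint R x - α • ContinuousLinearMap.adjoint R vT =
      α' • ContinuousLinearMap.adjoint R vS + ContinuousLinearMap.adjoint R d := by
    rw [hd, map_sub, map_sub, map_smul, map_smul]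
    abel
  rw [hx]
  have b1 := step1 d d2 d1
  have b2 : ‖α' • ContinuousLinearMap.adjoint R vS‖ ≤ 2 / κ * ‖x‖ * (‖S1‖ / ‖S‖) := by
    rw [norm_smul, Real.norm_eq_abs]
    exact mul_le_mul a2 hc.q2 (norm_nonneg _) (by positivity)
  have b3 : 5 / κ * K ^ 2 * ‖d‖ ≤ 5 / κ * K ^ 2 * (5 / κ * ‖x‖) := mul_le_mul_of_nonneg_left dn (by positivity)
  have b4 : (2 / κ * (‖S1‖ / ‖S‖) + 25 * K ^ 2 / κ ^ 2) * ‖x‖ =
      2 / κ * ‖x‖ * (‖S1‖ / ‖S‖) + 5 / κ * K ^ 2 * (5 / κ * ‖x‖) := by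
    field_simp
    ring
  rw [b4]
  exact (norm_add_le _ _).trans (by linarith)

end Pool.Agent.Helper20.TB
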