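import Pool.Agent.Helper20.TB.Cf
import Pool.Agent.Helper20.TB.Op3
import Pool.Agent.Helper20.TB.Star1

/-!
# Project OB (MP_0f6f3f_an), layer TB, block TB-C1: the classification of the elements r, first node

`s1 ≤ K` for `g, h, g r, h r`. PROOF of `half1` (the case `‖S1‖/‖S‖ ≤ ‖T1‖/‖T‖`, i.e. `s0 (h r) / s0 h ≤ s0 (g r) / s0 g`): `cfg1`, `partI`; `lam = s0 (g r) / s0 g`, `mu = s0 (h r) / s0 h` (`norm_T1`), `lam mu ≤ 4 / κ` (`lm`), so `mu ≤ 2 / κ`. `star1` (its hypotheses: `iso1`; `fT`: `form1` with `op_JR_JR`; `nT`: `T1_le`, `s1 ≤ K`; `nT1`: `T1a_le`): with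
`E = 4 / κ² + 25 K² / κ² ≤ 29 K² / κ²`, `q = J vS / ⟪vT, J vS⟫`, `p = R† vT`: `‖R† x - ⟪x, q⟫ p‖ ≤ E ‖x‖`, so `‖R‖ = ‖R†‖ ≤ (2 / κ) ‖p‖ + E ≤ (2 / κ) lam + E`. (a) If `s0 r > L = E + (2 / κ)(200 E / κ)` then `lam > 200 E / κ`, `‖p‖ ≥ lam / 2 ≥ 100 E / κ`, so `E ≤ (κ / 100) ‖p‖` and `concl` (with `δ0 = κ / 100`) gives the first two conditions of `Rp1` with `c = κ / 8` (`norm_T1`: `‖R‖ = s0 r`).
(b) `s1 r ≤ E`: in the plane of the left singular vectors `vL r, c1 r` (orthonormal: `kLᵀ kL = 1`) choose a unit vector `x = α vL + β c1` with `⟪x, q⟫ = 0`: `‖R† x‖ ≤ E`, and `R† x = α s0 vR + β s1 a1` (`T1_adj_vL`, `T1_adj_c1`, `inner_a`), `‖R† x‖² = α² s0² + β² s1² ≥ s1²`. So `r ∈ Rp1 v v' (κ/8) E`.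
PROOF of `class1`: `r` or `r⁻¹` is in the first case: for `r⁻¹` use `g r`, `h r` in place of `g`, `h` (`(g r) r⁻¹ = g`), the quotients are inverted; `s0_inv`.
-/

set_option autoImplicit false

open Matrix

namespace Pool.Agent.Helper20.TB

open Pool.Agent.Helper55.OB

namespace RD

variable {G : Type} [Group G] {N : ℕ} (D : RD G N)

private theorem inner_c77 (g : G) : inner ℝ (D.vL g) (D.c1 g) = 0 := by
  have h1 := D.ts1 g
  have h2 : ‖D.T1 g‖ * inner ℝ (D.vL g) (D.c1 g) = 0 := by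
    rw [← real_inner_smul_left, ← h1.Tv, ← ContinuousLinearMap.adjoint_inner_right, D.T1_adj_c1, real_inner_smul_right,
      D.inner_a, mul_zero]
  rcases mul_eq_zero.1 h2 with h | h
  · exact absurd h h1.pos.ne'
  · exact h

private theorem s1_le77 {E : ℝ} (hE : 0 ≤ E) (r : G) (w : EuclideanSpace ℝ (Fin N))
    (h : ∀ x, inner ℝ x w = 0 → ‖ContinuousLinearMap.adjoint (D.T1 r) x‖ ≤ E * ‖x‖) : D.s1 r ≤ E := by
  obtain ⟨a, ha⟩ : ∃ a : ℝ, a = inner ℝ (D.vL r) w := ⟨_, rfl⟩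
  obtain ⟨b, hb⟩ : ∃ b : ℝ, b = inner ℝ (D.c1 r) w := ⟨_, rfl⟩
  have hs1 := D.s1_pos r
  have hs0 := D.s0_pos r
  have hs10 := D.s1_le_s0 r
  by_cases hab : a ^ 2 + b ^ 2 = 0
  · have hb0 : b = 0 := by nlinarith [sq_nonneg a, sq_nonneg b]
    have h1 := h (D.c1 r) (by rw [← hb, hb0])
    rw [D.T1_adj_c1, norm_smul, D.norm_a1, D.norm_c1, mul_one, mul_one, Real.norm_eq_abs, abs_of_pos hs1] at h1
    exact h1
  have hpos : 0 < a ^ 2 + b ^ 2 := lt_of_le_of_ne (by positivity) (Ne.symm hab)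
  have h1 := h (b • D.vL r - a • D.c1 r) (by
    rw [inner_sub_left, real_inner_smul_left, real_inner_smul_left, ← ha, ← hb]
    ring)
  rw [map_sub, map_smul, map_smul, D.T1_adj_vL, D.T1_adj_c1] at h1
  have h2 : ‖b • D.vL r - a • D.c1 r‖ ^ 2 = a ^ 2 + b ^ 2 := by
    rw [norm_sub_sq_real, norm_smul, norm_smul, D.norm_vL, D.norm_c1, real_inner_smul_left, real_inner_smul_right,
      inner_c77 D r, mul_one, mul_one, Real.norm_eq_abs, Real.norm_eq_abs, sq_abs, sq_abs]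
    ring
  have h3 : ‖b • D.s0 r • D.vR r - a • D.s1 r • D.a1 r‖ ^ 2 = b ^ 2 * D.s0 r ^ 2 + a ^ 2 * D.s1 r ^ 2 := by
    rw [norm_sub_sq_real, norm_smul, norm_smul, norm_smul, norm_smul, D.norm_vR, D.norm_a1, real_inner_smul_left,
      real_inner_smul_left, real_inner_smul_right, real_inner_smul_right, D.inner_a, mul_one, mul_one, mul_pow, mul_pow,
      Real.norm_eq_abs, Real.norm_eq_abs, Real.norm_eq_abs, Real.norm_eq_abs, sq_abs, sq_abs, sq_abs, sq_abs]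
    ring
  have h4 : ‖b • D.s0 r • D.vR r - a • D.s1 r • D.a1 r‖ ^ 2 ≤ E ^ 2 * (a ^ 2 + b ^ 2) := by
    rw [← h2, ← mul_pow]
    exact pow_le_pow_left₀ (norm_nonneg _) h1 2
  rw [h3] at h4
  have h5 : D.s1 r ^ 2 ≤ D.s0 r ^ 2 := pow_le_pow_left₀ hs1.le hs10 2
  have h6 : D.s1 r ^ 2 * (a ^ 2 + b ^ 2) ≤ E ^ 2 * (a ^ 2 + b ^ 2) := by
    nlinarith [mul_le_mul_of_nonneg_left h5 (sq_nonneg b)]
  have h7 : D.s1 r ^ 2 ≤ E ^ 2 := le_of_mul_le_mul_right h6 hpos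
  exact (sq_le_sq₀ hs1.le hE).1 h7

theorem half1 {κ K : ℝ} (hκ : 0 < κ) (hκ1 : κ ≤ 1) (hK : 1 ≤ K) : ∃ K' L : ℝ, ∀ (v v' : EuclideanSpace ℝ (Fin N)) (η : ℝ), 0 ≤ η →
    η ≤ κ ^ 4 / 1000000 → κ ≤ |inner ℝ v (op (JR N) v')| → ∀ g h r : G, PC (D.T1 g) v η → PC (D.T1 h) v' η →
    PC (D.T1 (g * r)) v η → PC (D.T1 (h * r)) v' η → D.s1 g ≤ K → D.s1 h ≤ K → D.s1 (g * r) ≤ K → D.s1 (h * r) ≤ K →
    D.s0 (h * r) / D.s0 h ≤ D.s0 (g * r) / D.s0 g → r ∈ D.Rp1 v v' (κ / 8) K' ∨ D.s0 r ≤ L := by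
  refine ⟨29 * K ^ 2 / κ ^ 2, 29 * K ^ 2 / κ ^ 2 + 2 / κ * (200 * (29 * K ^ 2 / κ ^ 2) / κ), ?_⟩
  intro v v' η hη0 hη hop g h r h1 h2 h3 h4 k1 k2 k3 k4 hle
  obtain ⟨E, hE⟩ : ∃ E : ℝ, E = 29 * K ^ 2 / κ ^ 2 := ⟨_, rfl⟩
  rw [← hE]
  have hE0 : 0 < E := by rw [hE]; positivity
  have hcfg := D.cfg1 hκ hκ1 hη0 hη hop h1 h2 h3 h4
  have hcons := partI hcfg
  have hst := star1 hcfg hcons hK (D.iso1 g) (D.iso1 h) (D.iso1 (g * r))
    (fun x => by rw [D.form1, op_JR_JR]) (fun x => by rw [D.form1, op_JR_JR])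
    (fun x hx => (D.T1_le g hx).trans (mul_le_mul_of_nonneg_right k1 (norm_nonneg _)))
    (fun x hx => (D.T1_le h hx).trans (mul_le_mul_of_nonneg_right k2 (norm_nonneg _)))
    (fun x hx => (D.T1a_le (g * r) hx).trans (mul_le_mul_of_nonneg_right k3 (norm_nonneg _)))
    (fun x hx => (D.T1a_le (h * r) hx).trans (mul_le_mul_of_nonneg_right k4 (norm_nonneg _)))
  have hlm := hcons.lm
  have hp1 := hcons.p1
  have hp2 := hcons.p2
  have hk0 := hcons.k0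
  rw [D.norm_T1, D.norm_T1] at hst hp1 hp2
  rw [D.norm_T1, D.norm_T1, D.norm_T1, D.norm_T1] at hlm
  obtain ⟨lam, hlam⟩ : ∃ x : ℝ, x = D.s0 (g * r) / D.s0 g := ⟨_, rfl⟩
  obtain ⟨mu, hmu⟩ : ∃ x : ℝ, x = D.s0 (h * r) / D.s0 h := ⟨_, rfl⟩
  rw [← hlam] at hp1 hp2 hle
  rw [← hmu] at hst hle
  have hg0 := D.s0_pos g
  have hh0 := D.s0_pos h
  have hmu0 : 0 < mu := by rw [hmu]; exact div_pos (D.s0_pos _) hh0
  have hlm' : lam * mu ≤ 4 / κ := by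
    rw [hlam, hmu, div_mul_div_comm, div_le_iff₀ (mul_pos hg0 hh0)]
    exact hlm
  have hmu2 : mu ≤ 2 / κ := by
    refine (sq_le_sq₀ hmu0.le (by positivity)).1 ?_
    have e1 : mu ^ 2 ≤ lam * mu := by nlinarith
    have e2 : 4 / κ ≤ (2 / κ) ^ 2 := by
      rw [div_pow, div_le_div_iff₀ hκ (by positivity)]
      nlinarith [mul_pos hκ hκ]
    linarith
  have hEb : 2 / κ * mu + 25 * K ^ 2 / κ ^ 2 ≤ E := by
    have e1 : 2 / κ * mu ≤ 2 / κ * (2 / κ) := mul_le_mul_of_nonneg_left hmu2 (by positivity)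
    have e2 : 2 / κ * (2 / κ) ≤ 4 * K ^ 2 / κ ^ 2 := by
      rw [div_mul_div_comm, ← pow_two κ, div_le_div_iff_of_pos_right (by positivity)]
      nlinarith
    have e3 : 4 * K ^ 2 / κ ^ 2 + 25 * K ^ 2 / κ ^ 2 = E := by
      rw [hE, ← add_div]
      congr 1
      ring
    linarith
  have hst2 : ∀ x, ‖ContinuousLinearMap.adjoint (D.T1 r) x - (inner ℝ x (op (JR N) (D.vR h)) /
      inner ℝ (D.vR g) (op (JR N) (D.vR h))) • ContinuousLinearMap.adjoint (D.T1 r) (D.vR g)‖ ≤ E * ‖x‖ := fun x =>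
    (hst x).trans (mul_le_mul_of_nonneg_right hEb (norm_nonneg _))
  obtain ⟨p, hp⟩ : ∃ p, p = ContinuousLinearMap.adjoint (D.T1 r) (D.vR g) := ⟨_, rfl⟩
  by_cases hL : D.s0 r ≤ E + 2 / κ * (200 * E / κ)
  · exact Or.inr hL
  push Not at hL
  left
  have hR : D.s0 r ≤ 2 / κ * lam + E := by
    rw [← D.norm_T1 r, ← LinearIsometryEquiv.norm_map ContinuousLinearMap.adjoint (D.T1 r)]
    refine ContinuousLinearMap.opNorm_le_bound _ ?_ fun x => ?_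
    · have : 0 ≤ lam := hmu0.le.trans hle
      positivity
    have e1 := hst2 x
    rw [← hp] at e1 hp2
    have e2 : ‖ContinuousLinearMap.adjoint (D.T1 r) x‖ ≤ E * ‖x‖ + ‖(inner ℝ x (op (JR N) (D.vR h)) /
      inner ℝ (D.vR g) (op (JR N) (D.vR h))) • p‖ := by
      have := norm_add_le (ContinuousLinearMap.adjoint (D.T1 r) x - (inner ℝ x (op (JR N) (D.vR h)) /
        inner ℝ (D.vR g) (op (JR N) (D.vR h))) • p) ((inner ℝ x (op (JR N) (D.vR h)) /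
        inner ℝ (D.vR g) (op (JR N) (D.vR h))) • p)
      rw [sub_add_cancel] at this
      linarith
    have e3 : ‖(inner ℝ x (op (JR N) (D.vR h)) / inner ℝ (D.vR g) (op (JR N) (D.vR h)) : ℝ) • p‖ ≤
        2 / κ * ‖x‖ * lam := by
      rw [norm_smul, norm_div, Real.norm_eq_abs, Real.norm_eq_abs]
      refine mul_le_mul ?_ hp2 (norm_nonneg _) (by positivity)
      rw [div_le_iff₀ (lt_of_lt_of_le (by positivity) hk0)]
      have e4 : |inner ℝ x (op (JR N) (D.vR h))| ≤ ‖x‖ := by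
        refine (abs_real_inner_le_norm _ _).trans ?_
        rw [norm_JR, D.norm_vR, mul_one]
      have e5 : 2 / κ * ‖x‖ * (κ / 2) ≤ 2 / κ * ‖x‖ * |inner ℝ (D.vR g) (op (JR N) (D.vR h))| :=
        mul_le_mul_of_nonneg_left hk0 (by positivity)
      have e6 : 2 / κ * ‖x‖ * (κ / 2) = ‖x‖ := by field_simp
      linarith
    nlinarith
  have hlam1 : 200 * E / κ < lam := by
    have e1 : 2 / κ * (200 * E / κ) < 2 / κ * lam := by linarith
    exact lt_of_mul_lt_mul_left e1 (by positivity)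
  have hEp : E ≤ κ / 100 * ‖p‖ := by
    rw [← hp] at hp1
    have e1 : 100 * E / κ ≤ ‖p‖ := by
      have : 200 * E / κ = 2 * (100 * E / κ) := by ring
      linarith
    have e2 : κ / 100 * (100 * E / κ) = E := by field_simp
    have e3 := mul_le_mul_of_nonneg_left e1 (by positivity : 0 ≤ κ / 100)
    linarith
  have hcl := concl (δ0 := κ / 100) hcfg hcons le_rfl fun x => (hst2 x).trans (by
    rw [← hp]
    exact mul_le_mul_of_nonneg_right hEp (norm_nonneg _))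
  rw [D.norm_T1] at hcl
  refine ⟨hcl.1, hcl.2, ?_⟩
  refine s1_le77 D hE0.le r (op (JR N) (D.vR h)) fun x hx => ?_
  have e1 := hst2 x
  rw [hx, zero_div, zero_smul, sub_zero] at e1
  exact e1

theorem class1 {κ K : ℝ} (hκ : 0 < κ) (hκ1 : κ ≤ 1) (hK : 1 ≤ K) : ∃ K' L : ℝ, ∀ (v v' : EuclideanSpace ℝ (Fin N)) (η : ℝ), 0 ≤ η →
    η ≤ κ ^ 4 / 1000000 → κ ≤ |inner ℝ v (op (JR N) v')| → ∀ g h r : G, PC (D.T1 g) v η → PC (D.T1 h) v' η →
    PC (D.T1 (g * r)) v η → PC (D.T1 (h * r)) v' η → D.s1 g ≤ K → D.s1 h ≤ K → D.s1 (g * r) ≤ K → D.s1 (h * r) ≤ K →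
    r ∈ D.Rp1 v v' (κ / 8) K' ∨ r⁻¹ ∈ D.Rp1 v v' (κ / 8) K' ∨ D.s0 r ≤ L := by
  obtain ⟨K', L, H⟩ := D.half1 hκ hκ1 hK
  refine ⟨K', L, ?_⟩
  intro v v' η hη0 hη hop g h r h1 h2 h3 h4 k1 k2 k3 k4
  by_cases hle : D.s0 (h * r) / D.s0 h ≤ D.s0 (g * r) / D.s0 g
  · rcases H v v' η hη0 hη hop g h r h1 h2 h3 h4 k1 k2 k3 k4 hle with h5 | h5
    · exact Or.inl h5
    · exact Or.inr (Or.inr h5)
  push Not at hle
  have h5 := H v v' η hη0 hη hop (g * r) (h * r) r⁻¹ h3 h4 (by rwa [mul_inv_cancel_right]) (by rwa [mul_inv_cancel_right])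
    k3 k4 (by rwa [mul_inv_cancel_right]) (by rwa [mul_inv_cancel_right]) (by
      rw [mul_inv_cancel_right, mul_inv_cancel_right]
      have e1 := D.s0_pos g
      have e2 := D.s0_pos h
      have e3 := D.s0_pos (g * r)
      have e4 := D.s0_pos (h * r)
      rw [div_lt_div_iff₀ e1 e2] at hle
      rw [div_le_div_iff₀ e4 e3]
      nlinarith)
  rw [D.s0_inv] at h5
  exact Or.inr h5

end RD

end Pool.Agent.Helper20.TB
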