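import Pool.Agent.Helper20.TB.Star2
import Pool.Agent.Helper20.TB.Op3

/-!
# Project OB (MP_0f6f3f_an), layer TB, block TB-C2: the classification of the elements r, second node

PROOF of `half2` (the case `mu ≤ lam`, `lam = ‖T2 (g r)‖ / ‖T2 g‖`, `mu = ‖T2 (h r)‖ / ‖T2 h‖`, `norm_T2`): `cfg2`, `partI`, `lam mu ≤ 4 / κ` (`lm`), `mu ≤ 2 / κ`, `√mu ≤ 2 / κ`. `p = T2(r)† oR2 g`, `lam / 2 ≤ ‖p‖ ≤ lam`. `star2`: `‖T2(r)† X - .. p‖ ≤ M (1 + √lam + 2/κ)(1 + 2/κ) ‖X‖ ≤ M2 (1 + √lam) ‖X‖`. `star2_n`: `s0 r ≤ M (1 + √lam + 2/κ) ≤ M2 (1 + √lam)`.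
If `s0 r > L` (`L` large) then `√lam ≥ s0 r / M2 - 1` is large, so `M2 (1 + √lam) ≤ (κ / 100)(lam / 2) ≤ (κ / 100) ‖p‖` and `concl` gives the first two conditions of `Rp2` (`‖T2 r‖ = s0 r s1 r`). Third: `s0 r s1 r = ‖T2 r‖ ≥ ‖p‖ ≥ lam / 2` (`‖oR2 g‖ = 1`), `s0 r ≤ 2 M2 √lam` (`√lam ≥ 1`), so `s0 r² ≤ 4 M2² lam ≤ 8 M2² s0 r s1 r`, `s0 r ≤ 8 M2² s1 r`.
`class2`: as `class1`: for `r⁻¹` use `g r`, `h r` in place of `g`, `h`; `s0_inv`.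
-/

set_option autoImplicit false

open Matrix

namespace Pool.Agent.Helper20.TB

open Pool.Agent.Helper55.OB

namespace RD

variable {G : Type} [Group G] {N : ℕ} (D : RD G N)

theorem half2 {κ K : ℝ} (hκ : 0 < κ) (hκ1 : κ ≤ 1) (hK : 1 ≤ K) : ∃ K' L : ℝ, ∀ (v v' : EuclideanSpace ℝ (Fin N × Fin N)) (η : ℝ),
    0 ≤ η → η ≤ κ ^ 4 / 1000000 → κ ≤ |inner ℝ v (op (JK N) v')| → ∀ g h r : G, PC (D.T2 g) v η → PC (D.T2 h) v' η →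
    PC (D.T2 (g * r)) v η → PC (D.T2 (h * r)) v' η → D.s0 g ≤ K * D.s1 g → D.s0 h ≤ K * D.s1 h →
    D.s0 (g * r) ≤ K * D.s1 (g * r) → D.s0 (h * r) ≤ K * D.s1 (h * r) →
    ‖D.T2 (h * r)‖ / ‖D.T2 h‖ ≤ ‖D.T2 (g * r)‖ / ‖D.T2 g‖ → r ∈ D.Rp2 v v' (κ / 8) K' ∨ D.s0 r ≤ L := by
  obtain ⟨Ma, hMa, ha⟩ := D.star2_n hκ hκ1 hK
  obtain ⟨Mb, hMb, hb⟩ := D.star2 hκ hκ1 hK
  obtain ⟨M, hM⟩ : ∃ M : ℝ, M = max Ma Mb := ⟨_, rfl⟩
  have hMa' : Ma ≤ M := by rw [hM]; exact le_max_left _ _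
  have hMb' : Mb ≤ M := by rw [hM]; exact le_max_right _ _
  have hM0 : 0 < M := lt_of_lt_of_le hMa hMa'
  obtain ⟨q, hq⟩ : ∃ q : ℝ, q = 1 + 2 / κ := ⟨_, rfl⟩
  have h2κ : 0 < 2 / κ := by positivity
  have h2κ1 : 2 ≤ 2 / κ := by
    rw [le_div_iff₀ hκ]
    linarith
  have hq1 : 1 ≤ q := by rw [hq]; linarith
  obtain ⟨M2, hM2⟩ : ∃ M2 : ℝ, M2 = M * q ^ 2 := ⟨_, rfl⟩
  have hM20 : 0 < M2 := by rw [hM2]; positivity
  refine ⟨8 * M2 ^ 2, M2 * (1 + (400 * M2 / κ + 1)), fun v v' η hη0 hη hop g h r pg ph pgr phr ng nh ngr nhr hle => ?_⟩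
  have H : D.H2 v v' η κ K g h r := ⟨D.cfg2 hκ hκ1 hη0 hη hop pg ph pgr phr, ng, nh, ngr, nhr⟩
  have hc := partI H.cf
  have hstar := hb v v' η g h r H
  have hs0 := ha v v' η g h r H
  obtain ⟨lam, hlam⟩ : ∃ lam : ℝ, lam = ‖D.T2 (g * r)‖ / ‖D.T2 g‖ := ⟨_, rfl⟩
  obtain ⟨mu, hmu⟩ : ∃ mu : ℝ, mu = ‖D.T2 (h * r)‖ / ‖D.T2 h‖ := ⟨_, rfl⟩
  have hTg : 0 < ‖D.T2 g‖ := H.cf.tT.pos
  have hTh : 0 < ‖D.T2 h‖ := H.cf.tS.pos
  have hTgr : 0 < ‖D.T2 (g * r)‖ := H.cf.tT1.pos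
  have hThr : 0 < ‖D.T2 (h * r)‖ := H.cf.tS1.pos
  have hlam0 : 0 < lam := by rw [hlam]; exact div_pos hTgr hTg
  have hmu0 : 0 < mu := by rw [hmu]; exact div_pos hThr hTh
  have hlm : lam * mu ≤ 4 / κ := by
    rw [hlam, hmu, div_mul_div_comm, div_le_iff₀ (mul_pos hTg hTh)]
    exact hc.lm
  rw [← hlam, ← hmu] at hle hs0
  simp only [← hlam, ← hmu] at hstar
  have hp1 := hc.p1
  rw [← hlam] at hp1
  have hmu2 : mu ≤ 2 / κ := by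
    have h1 : mu ^ 2 ≤ (2 / κ) ^ 2 := by
      have h2 : mu * mu ≤ lam * mu := mul_le_mul_of_nonneg_right hle hmu0.le
      have h3 : 4 / κ ≤ (2 / κ) ^ 2 := by
        rw [div_pow, div_le_div_iff₀ hκ (by positivity)]
        nlinarith
      nlinarith
    exact (pow_le_pow_iff_left₀ hmu0.le h2κ.le two_ne_zero).1 h1
  have hsmu : √mu ≤ 2 / κ := by
    rw [Real.sqrt_le_left h2κ.le]
    nlinarith
  obtain ⟨y, hy⟩ : ∃ y : ℝ, y = √lam := ⟨_, rfl⟩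
  have hy0 : 0 ≤ y := by rw [hy]; exact Real.sqrt_nonneg _
  have hyy : y ^ 2 = lam := by rw [hy]; exact Real.sq_sqrt hlam0.le
  rw [← hy] at hs0
  simp only [← hy] at hstar
  have hsmu0 : 0 ≤ √mu := Real.sqrt_nonneg _
  have hf1 : 1 + y + √mu ≤ q * (1 + y) := by
    rw [hq]
    nlinarith
  have hf2 : 1 + √mu ≤ q := by
    rw [hq]
    linarith
  have hs0' : D.s0 r ≤ M2 * (1 + y) := by
    refine hs0.trans ?_
    have h1 : Ma * (1 + y + √mu) ≤ M * (q * (1 + y)) := mul_le_mul hMa' hf1 (by positivity) hM0.le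
    have h2 : M * (q * (1 + y)) ≤ M2 * (1 + y) := by
      rw [hM2]
      have : q ≤ q ^ 2 := by nlinarith
      have h3 := mul_le_mul_of_nonneg_left this (mul_nonneg hM0.le (by positivity : 0 ≤ 1 + y))
      linarith
    exact h1.trans h2
  by_cases hL : D.s0 r ≤ M2 * (1 + (400 * M2 / κ + 1))
  · exact Or.inr hL
  left
  rw [not_le] at hL
  have hyL : 400 * M2 / κ + 1 < y := by
    have h1 := hL.trans_le hs0'
    have h2 := lt_of_mul_lt_mul_left h1 hM20.le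
    linarith
  have hQ : 0 < 400 * M2 / κ := by positivity
  have hy1 : 1 ≤ y := by linarith
  have hkey : M2 * (1 + y) ≤ κ / 100 * (lam / 2) := by
    have h1 : 400 * M2 / κ ≤ y := by linarith
    rw [div_le_iff₀ hκ] at h1
    have h2 : M2 * (1 + y) ≤ M2 * (2 * y) := mul_le_mul_of_nonneg_left (by linarith) hM20.le
    have h3 : 400 * M2 * y ≤ y * κ * y := mul_le_mul_of_nonneg_right h1 hy0
    rw [← hyy]
    nlinarith
  have hkey2 : M2 * (1 + y) ≤ κ / 100 * ‖ContinuousLinearMap.adjoint (D.T2 r) (D.oR2 g)‖ :=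
    hkey.trans (mul_le_mul_of_nonneg_left hp1 (by positivity))
  have hst : ∀ x, ‖ContinuousLinearMap.adjoint (D.T2 r) x - (inner ℝ x (op (JK N) (D.oR2 h)) / inner ℝ (D.oR2 g) (op (JK N) (D.oR2 h))) •
      ContinuousLinearMap.adjoint (D.T2 r) (D.oR2 g)‖ ≤ κ / 100 * ‖ContinuousLinearMap.adjoint (D.T2 r) (D.oR2 g)‖ * ‖x‖ := by
    intro x
    refine (hstar x).trans (mul_le_mul_of_nonneg_right ?_ (norm_nonneg _))
    refine le_trans ?_ hkey2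
    have h1 : Mb * (1 + y + √mu) ≤ M * (q * (1 + y)) := mul_le_mul hMb' hf1 (by positivity) hM0.le
    have h2 : Mb * (1 + y + √mu) * (1 + √mu) ≤ M * (q * (1 + y)) * q := mul_le_mul h1 hf2 (by positivity) (by positivity)
    refine h2.trans (le_of_eq ?_)
    rw [hM2]
    ring
  obtain ⟨c1, c2⟩ := concl H.cf hc le_rfl hst
  rw [D.norm_T2] at c1 c2
  refine ⟨c1, c2, ?_⟩
  have hpl : ‖ContinuousLinearMap.adjoint (D.T2 r) (D.oR2 g)‖ ≤ D.s0 r * D.s1 r := by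
    refine (ContinuousLinearMap.le_opNorm _ _).trans ?_
    rw [H.cf.tT.nv, mul_one, LinearIsometryEquiv.norm_map, D.norm_T2]
  have hs0p := D.s0_pos r
  have hs1p := D.s1_pos r
  have h1 : D.s0 r ≤ 2 * M2 * y := by nlinarith
  have h2 : D.s0 r ^ 2 ≤ (2 * M2 * y) ^ 2 := pow_le_pow_left₀ hs0p.le h1 2
  have h3 : lam ≤ 2 * (D.s0 r * D.s1 r) := by linarith
  have h4 : D.s0 r * D.s0 r ≤ D.s0 r * (8 * M2 ^ 2 * D.s1 r) := by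
    have h5 : (2 * M2 * y) ^ 2 = 4 * M2 ^ 2 * lam := by rw [← hyy]; ring
    rw [h5] at h2
    have h6 : 4 * M2 ^ 2 * lam ≤ 4 * M2 ^ 2 * (2 * (D.s0 r * D.s1 r)) := mul_le_mul_of_nonneg_left h3 (by positivity)
    nlinarith
  exact le_of_mul_le_mul_left h4 hs0p

theorem class2 {κ K : ℝ} (hκ : 0 < κ) (hκ1 : κ ≤ 1) (hK : 1 ≤ K) : ∃ K' L : ℝ, ∀ (v v' : EuclideanSpace ℝ (Fin N × Fin N)) (η : ℝ),
    0 ≤ η → η ≤ κ ^ 4 / 1000000 → κ ≤ |inner ℝ v (op (JK N) v')| → ∀ g h r : G, PC (D.T2 g) v η → PC (D.T2 h) v' η →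
    PC (D.T2 (g * r)) v η → PC (D.T2 (h * r)) v' η → D.s0 g ≤ K * D.s1 g → D.s0 h ≤ K * D.s1 h →
    D.s0 (g * r) ≤ K * D.s1 (g * r) → D.s0 (h * r) ≤ K * D.s1 (h * r) →
    r ∈ D.Rp2 v v' (κ / 8) K' ∨ r⁻¹ ∈ D.Rp2 v v' (κ / 8) K' ∨ D.s0 r ≤ L := by
  obtain ⟨K', L, hKL⟩ := D.half2 hκ hκ1 hK
  refine ⟨K', L, fun v v' η hη0 hη hop g h r pg ph pgr phr ng nh ngr nhr => ?_⟩
  rcases le_total (‖D.T2 (h * r)‖ / ‖D.T2 h‖) (‖D.T2 (g * r)‖ / ‖D.T2 g‖) with hle | hle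
  · rcases hKL v v' η hη0 hη hop g h r pg ph pgr phr ng nh ngr nhr hle with h1 | h1
    · exact Or.inl h1
    · exact Or.inr (Or.inr h1)
  · have e1 : g * r * r⁻¹ = g := mul_inv_cancel_right g r
    have e2 : h * r * r⁻¹ = h := mul_inv_cancel_right h r
    have hTg : 0 < ‖D.T2 g‖ := (D.ts2 g).pos
    have hTh : 0 < ‖D.T2 h‖ := (D.ts2 h).pos
    have hTgr : 0 < ‖D.T2 (g * r)‖ := (D.ts2 (g * r)).pos
    have hThr : 0 < ‖D.T2 (h * r)‖ := (D.ts2 (h * r)).pos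
    have h2 := hKL v v' η hη0 hη hop (g * r) (h * r) r⁻¹ pgr phr (by rwa [e1]) (by rwa [e2]) ngr nhr (by rwa [e1]) (by rwa [e2])
      (by
        rw [e1, e2, div_le_div_iff₀ hThr hTgr]
        rw [div_le_div_iff₀ hTg hTh] at hle
        linarith)
    rcases h2 with h1 | h1
    · exact Or.inr (Or.inl h1)
    · refine Or.inr (Or.inr ?_)
      rwa [D.s0_inv] at h1

end RD

end Pool.Agent.Helper20.TB
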