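import Mathlib

/-!
# Project TB (MP_0f6f3f_an), core: the Bessel norm of kernels on a group

`G` a group, `c : G →₀ ℂ` with `Con c` (the operator `λ(c)` of `ℓ²(G)` is a contraction). For a kernel `F : G → G → ℂ` the numbers
`a(r) = ∑_g e(g) F(g, r) conj (c g) c(g r)`, `‖e‖ ≤ 1`, satisfy `(∑_r ‖a(r)‖²)^(1/2) ≤ B` for all such `c`, `e` if `BN F B`.
Products `a(g) b(r)` of bounded functions have this property (Bessel's inequality), and so have all smooth functions of bilinear expressions: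
`bn_schwartz`: `F(g, r) = Ψ(q(g, r))`, `q` bilinear in bounded functions `x(g)`, `y(r)`, `Ψ` a Schwartz function (Fourier inversion and power series on
small cells).
-/

set_option autoImplicit false

open MeasureTheory Filter Topology
open scoped ComplexConjugate FourierTransform SchwartzMap

namespace Pool.Agent.Helper20.TB

section Basic

variable {G : Type} [Group G]

/-- The operator `λ(c)*` is a contraction. -/
def Con (c : G →₀ ℂ) : Prop :=
  ∀ (ξ : G →₀ ℂ) (T : Finset G), ∑ s ∈ T, ‖∑ g ∈ c.support, conj (c g) * ξ (g * s)‖ ^ 2 ≤ ∑ g ∈ ξ.support, ‖ξ g‖ ^ 2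

/-- The coefficient `a(r)`. -/
noncomputable def cfr (c : G →₀ ℂ) (F : G → G → ℂ) (r : G) : ℂ := ∑ g ∈ c.support, F g r * (conj (c g) * c (g * r))

/-- The kernel `F` has Bessel norm at most `B`. -/
def BN (F : G → G → ℂ) (B : ℝ) : Prop := 0 ≤ B ∧
  ∀ (c : G →₀ ℂ), Con c → ∀ (e : G → ℂ), (∀ g, ‖e g‖ ≤ 1) → ∀ (T : Finset G) (w : G → ℂ),
    ‖∑ r ∈ T, w r * cfr c (fun g r => e g * F g r) r‖ ≤ B * √(∑ r ∈ T, ‖w r‖ ^ 2)

theorem Con.sum_le {c : G →₀ ℂ} (hc : Con c) : ∑ g ∈ c.support, ‖c g‖ ^ 2 ≤ 1 := by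
  have h := hc c {1}
  rw [Finset.sum_singleton] at h
  have e1 : ∑ g ∈ c.support, conj (c g) * c (g * 1) = ((∑ g ∈ c.support, ‖c g‖ ^ 2 : ℝ) : ℂ) := by
    push_cast
    refine Finset.sum_congr rfl fun g _ => ?_
    rw [mul_one, ← Complex.normSq_eq_conj_mul_self, Complex.normSq_eq_norm_sq]
    push_cast
    rfl
  have h0 : 0 ≤ ∑ g ∈ c.support, ‖c g‖ ^ 2 := Finset.sum_nonneg fun _ _ => by positivity
  rw [e1, Complex.norm_real, Real.norm_of_nonneg h0] at h
  nlinarith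

theorem sum_shift (c : G →₀ ℂ) (f : G → ℂ) (r : G) :
    ∑ g ∈ c.support, conj (c g) * (f (g * r⁻¹) * c (g * r⁻¹)) = ∑ g ∈ c.support, f g * (c g * conj (c (g * r))) := by
  have h1 : ∑ g ∈ c.support, conj (c g) * (f (g * r⁻¹) * c (g * r⁻¹)) = ∑' g, conj (c g) * (f (g * r⁻¹) * c (g * r⁻¹)) :=
    (tsum_eq_sum fun g hg => by rw [Finsupp.notMem_support_iff.1 hg, map_zero, zero_mul]).symm
  have h2 : ∑ g ∈ c.support, f g * (c g * conj (c (g * r))) = ∑' g, f g * (c g * conj (c (g * r))) :=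
    (tsum_eq_sum fun g hg => by rw [Finsupp.notMem_support_iff.1 hg, zero_mul, mul_zero]).symm
  rw [h1, h2, ← (Equiv.mulRight r).tsum_eq]
  refine tsum_congr fun g => ?_
  simp only [Equiv.coe_mulRight, mul_inv_cancel_right]
  ring

/-- **Bessel's inequality.** -/
theorem bessel {c : G →₀ ℂ} (hc : Con c) {e : G → ℂ} {A : ℝ} (he : ∀ g, ‖e g‖ ≤ A) (T : Finset G) :
    ∑ r ∈ T, ‖∑ g ∈ c.support, e g * (conj (c g) * c (g * r))‖ ^ 2 ≤ A ^ 2 := by
  classical
  have hA : 0 ≤ A := (norm_nonneg _).trans (he 1)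
  let ξ : G →₀ ℂ := Finsupp.onFinset c.support (fun g => conj (e g) * c g) fun g hg => by
    rw [Finsupp.mem_support_iff]
    rintro h
    exact hg (by rw [h, mul_zero])
  have hξ : ∀ g, ξ g = conj (e g) * c g := fun g => rfl
  have h := hc ξ (T.image fun r => r⁻¹)
  rw [Finset.sum_image fun a _ b _ hab => inv_injective hab] at h
  have h1 : ∀ r, ∑ g ∈ c.support, conj (c g) * ξ (g * r⁻¹) = conj (∑ g ∈ c.support, e g * (conj (c g) * c (g * r))) := by
    intro r
    rw [map_sum]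
    have h2 := sum_shift c (fun g => conj (e g)) r
    simp only [hξ]
    rw [h2]
    refine Finset.sum_congr rfl fun g _ => ?_
    rw [map_mul (starRingEnd ℂ), map_mul (starRingEnd ℂ), Complex.conj_conj]
  have h3 : ∑ g ∈ ξ.support, ‖ξ g‖ ^ 2 ≤ A ^ 2 := by
    calc ∑ g ∈ ξ.support, ‖ξ g‖ ^ 2 ≤ ∑ g ∈ c.support, ‖ξ g‖ ^ 2 :=
          Finset.sum_le_sum_of_subset_of_nonneg Finsupp.support_onFinset_subset fun _ _ _ => by positivity
      _ ≤ ∑ g ∈ c.support, A ^ 2 * ‖c g‖ ^ 2 := by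
          refine Finset.sum_le_sum fun g _ => ?_
          rw [hξ, norm_mul, RCLike.norm_conj, mul_pow]
          gcongr
          exact he g
      _ = A ^ 2 * ∑ g ∈ c.support, ‖c g‖ ^ 2 := by rw [Finset.mul_sum]
      _ ≤ A ^ 2 * 1 := mul_le_mul_of_nonneg_left hc.sum_le (by positivity)
      _ = A ^ 2 := mul_one _
  refine le_trans (le_of_eq ?_) (h.trans h3)
  refine Finset.sum_congr rfl fun r _ => ?_
  rw [h1, RCLike.norm_conj]

omit [Group G] in
theorem cs_fin (T : Finset G) (w a : G → ℂ) :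
    ‖∑ r ∈ T, w r * a r‖ ≤ √(∑ r ∈ T, ‖a r‖ ^ 2) * √(∑ r ∈ T, ‖w r‖ ^ 2) := by
  calc ‖∑ r ∈ T, w r * a r‖ ≤ ∑ r ∈ T, ‖a r‖ * ‖w r‖ := by
        refine (norm_sum_le _ _).trans (le_of_eq (Finset.sum_congr rfl fun r _ => ?_))
        rw [norm_mul, mul_comm]
    _ ≤ _ := Real.sum_mul_le_sqrt_mul_sqrt T _ _

/-- Products have finite Bessel norm. -/
theorem bn_prod {a b : G → ℂ} {A B : ℝ} (ha : ∀ g, ‖a g‖ ≤ A) (hb : ∀ r, ‖b r‖ ≤ B) : BN (fun g r => a g * b r) (A * B) := by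
  have hA : 0 ≤ A := (norm_nonneg _).trans (ha 1)
  have hB : 0 ≤ B := (norm_nonneg _).trans (hb 1)
  refine ⟨mul_nonneg hA hB, fun c hc e he T w => ?_⟩
  have e1 : ∑ r ∈ T, w r * cfr c (fun g r => e g * (a g * b r)) r =
      ∑ r ∈ T, (w r * b r) * ∑ g ∈ c.support, (e g * a g) * (conj (c g) * c (g * r)) := by
    refine Finset.sum_congr rfl fun r _ => ?_
    unfold cfr
    rw [mul_assoc]
    congr 1
    rw [Finset.mul_sum]
    refine Finset.sum_congr rfl fun g _ => ?_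
    ring
  rw [e1]
  refine (cs_fin T _ _).trans ?_
  have h1 : √(∑ r ∈ T, ‖∑ g ∈ c.support, (e g * a g) * (conj (c g) * c (g * r))‖ ^ 2) ≤ A := by
    rw [← Real.sqrt_sq hA]
    refine Real.sqrt_le_sqrt (bessel hc (fun g => ?_) T)
    rw [norm_mul]
    calc ‖e g‖ * ‖a g‖ ≤ 1 * A := mul_le_mul (he g) (ha g) (norm_nonneg _) zero_le_one
      _ = A := one_mul _
  have h2 : √(∑ r ∈ T, ‖w r * b r‖ ^ 2) ≤ B * √(∑ r ∈ T, ‖w r‖ ^ 2) := by
    rw [← Real.sqrt_sq hB, ← Real.sqrt_mul (sq_nonneg B), Finset.mul_sum]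
    refine Real.sqrt_le_sqrt (Finset.sum_le_sum fun r _ => ?_)
    rw [norm_mul, mul_pow, mul_comm]
    gcongr
    exact hb r
  calc _ ≤ A * (B * √(∑ r ∈ T, ‖w r‖ ^ 2)) := mul_le_mul h1 h2 (Real.sqrt_nonneg _) hA
    _ = _ := by ring

theorem BN.apply_le {F : G → G → ℂ} {B : ℝ} (h : BN F B) {c : G →₀ ℂ} (hc : Con c) {e : G → ℂ} {A : ℝ} (he : ∀ g, ‖e g‖ ≤ A)
    (T : Finset G) (w : G → ℂ) : ‖∑ r ∈ T, w r * cfr c (fun g r => e g * F g r) r‖ ≤ A * B * √(∑ r ∈ T, ‖w r‖ ^ 2) := by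
  have hA : 0 ≤ A := (norm_nonneg _).trans (he 1)
  rcases hA.eq_or_lt with h0 | h0
  · have h1 : ∀ g, e g = 0 := fun g => norm_le_zero_iff.1 (by rw [h0]; exact he g)
    have h2 : ∑ r ∈ T, w r * cfr c (fun g r => e g * F g r) r = 0 :=
      Finset.sum_eq_zero fun r _ => by
        unfold cfr
        rw [Finset.sum_eq_zero fun g _ => by simp only [h1 g, zero_mul], mul_zero]
    rw [h2, norm_zero, ← h0, zero_mul, zero_mul]
  · have h1 := h.2 c hc (fun g => (A : ℂ)⁻¹ * e g) (fun g => by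
      rw [norm_mul, norm_inv, Complex.norm_real, Real.norm_of_nonneg hA, inv_mul_le_iff₀ h0, mul_one]
      exact he g) T w
    have h2 : ∑ r ∈ T, w r * cfr c (fun g r => e g * F g r) r =
        (A : ℂ) * ∑ r ∈ T, w r * cfr c (fun g r => (A : ℂ)⁻¹ * e g * F g r) r := by
      rw [Finset.mul_sum]
      refine Finset.sum_congr rfl fun r _ => ?_
      unfold cfr
      rw [Finset.mul_sum, Finset.mul_sum, Finset.mul_sum]
      refine Finset.sum_congr rfl fun g _ => ?_
      have h3 : (A : ℂ) ≠ 0 := by exact_mod_cast h0.ne'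
      field_simp
    rw [h2, norm_mul, Complex.norm_real, Real.norm_of_nonneg hA, mul_assoc]
    exact mul_le_mul_of_nonneg_left h1 hA

/-- Multiplication by products. -/
theorem BN.mul {F : G → G → ℂ} {C : ℝ} (h : BN F C) {a b : G → ℂ} {A B : ℝ} (ha : ∀ g, ‖a g‖ ≤ A) (hb : ∀ r, ‖b r‖ ≤ B) :
    BN (fun g r => a g * b r * F g r) (A * B * C) := by
  have hA : 0 ≤ A := (norm_nonneg _).trans (ha 1)
  have hB : 0 ≤ B := (norm_nonneg _).trans (hb 1)
  refine ⟨mul_nonneg (mul_nonneg hA hB) h.1, fun c hc e he T w => ?_⟩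
  have e1 : ∑ r ∈ T, w r * cfr c (fun g r => e g * (a g * b r * F g r)) r =
      ∑ r ∈ T, (w r * b r) * cfr c (fun g r => (e g * a g) * F g r) r := by
    refine Finset.sum_congr rfl fun r _ => ?_
    unfold cfr
    rw [mul_assoc]
    congr 1
    rw [Finset.mul_sum]
    refine Finset.sum_congr rfl fun g _ => ?_
    ring
  rw [e1]
  have h1 := h.apply_le hc (e := fun g => e g * a g) (A := A) (fun g => by
    rw [norm_mul]
    calc ‖e g‖ * ‖a g‖ ≤ 1 * A := mul_le_mul (he g) (ha g) (norm_nonneg _) zero_le_one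
      _ = A := one_mul _) T (fun r => w r * b r)
  refine h1.trans ?_
  have h2 : √(∑ r ∈ T, ‖w r * b r‖ ^ 2) ≤ B * √(∑ r ∈ T, ‖w r‖ ^ 2) := by
    rw [← Real.sqrt_sq hB, ← Real.sqrt_mul (sq_nonneg B), Finset.mul_sum]
    refine Real.sqrt_le_sqrt (Finset.sum_le_sum fun r _ => ?_)
    rw [norm_mul, mul_pow, mul_comm]
    gcongr
    exact hb r
  calc _ ≤ A * C * (B * √(∑ r ∈ T, ‖w r‖ ^ 2)) := mul_le_mul_of_nonneg_left h2 (mul_nonneg hA h.1)
    _ = _ := by ring

theorem BN.mono {F : G → G → ℂ} {C C' : ℝ} (h : BN F C) (hC : C ≤ C') : BN F C' :=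
  ⟨h.1.trans hC, fun c hc e he T w => (h.2 c hc e he T w).trans (mul_le_mul_of_nonneg_right hC (Real.sqrt_nonneg _))⟩

theorem cfr_add (c : G →₀ ℂ) (e : G → ℂ) (F F' : G → G → ℂ) (r : G) :
    cfr c (fun g r => e g * (F g r + F' g r)) r = cfr c (fun g r => e g * F g r) r + cfr c (fun g r => e g * F' g r) r := by
  unfold cfr
  rw [← Finset.sum_add_distrib]
  exact Finset.sum_congr rfl fun g _ => by ring

theorem BN.add {F F' : G → G → ℂ} {C C' : ℝ} (h : BN F C) (h' : BN F' C') : BN (fun g r => F g r + F' g r) (C + C') := by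
  refine ⟨add_nonneg h.1 h'.1, fun c hc e he T w => ?_⟩
  have e1 : ∑ r ∈ T, w r * cfr c (fun g r => e g * (F g r + F' g r)) r =
      ∑ r ∈ T, w r * cfr c (fun g r => e g * F g r) r + ∑ r ∈ T, w r * cfr c (fun g r => e g * F' g r) r := by
    rw [← Finset.sum_add_distrib]
    refine Finset.sum_congr rfl fun r _ => ?_
    rw [cfr_add]
    ring
  rw [e1, add_mul]
  exact (norm_add_le _ _).trans (add_le_add (h.2 c hc e he T w) (h'.2 c hc e he T w))

theorem bn_zero : BN (fun _ _ : G => (0 : ℂ)) 0 := by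
  refine ⟨le_rfl, fun c _ e _ T w => ?_⟩
  have h : ∑ r ∈ T, w r * cfr c (fun g _ => e g * 0) r = 0 := Finset.sum_eq_zero fun r _ => by
    unfold cfr
    rw [Finset.sum_eq_zero fun g _ => by simp only [mul_zero, zero_mul], mul_zero]
  rw [h, norm_zero, zero_mul]

theorem bn_sum {ι : Type} (s : Finset ι) {F : ι → G → G → ℂ} {C : ι → ℝ} (h : ∀ i ∈ s, BN (F i) (C i)) :
    BN (fun g r => ∑ i ∈ s, F i g r) (∑ i ∈ s, C i) := by
  classical
  induction s using Finset.induction_on with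
  | empty => simpa using bn_zero
  | insert i s hi ih =>
    simp only [Finset.sum_insert hi]
    exact (h i (Finset.mem_insert_self _ _)).add (ih fun j hj => h j (Finset.mem_insert_of_mem hj))

/-- Pointwise limits. -/
theorem bn_lim {F : ℕ → G → G → ℂ} {F' : G → G → ℂ} {C : ℝ} (h : ∀ n, BN (F n) C)
    (hF : ∀ g r, Tendsto (fun n => F n g r) atTop (𝓝 (F' g r))) : BN F' C := by
  refine ⟨(h 0).1, fun c hc e he T w => ?_⟩
  have h1 : Tendsto (fun n => ‖∑ r ∈ T, w r * cfr c (fun g r => e g * F n g r) r‖) atTop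
      (𝓝 ‖∑ r ∈ T, w r * cfr c (fun g r => e g * F' g r) r‖) := by
    refine Tendsto.norm (tendsto_finsetSum _ fun r _ => Tendsto.const_mul _ ?_)
    unfold cfr
    exact tendsto_finsetSum _ fun g _ => ((hF g r).const_mul _).mul_const _
  exact le_of_tendsto' h1 fun n => (h n).2 c hc e he T w

/-- Integrals. -/
theorem bn_integral {Ω : Type} [MeasurableSpace Ω] {μ : Measure Ω} {F : Ω → G → G → ℂ} {C : Ω → ℝ} (h : ∀ ω, BN (F ω) (C ω))
    (hF : ∀ g r, Integrable (fun ω => F ω g r) μ) (hC : Integrable C μ) : BN (fun g r => ∫ ω, F ω g r ∂μ) (∫ ω, C ω ∂μ) := by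
  refine ⟨integral_nonneg fun ω => (h ω).1, fun c hc e he T w => ?_⟩
  have hi : ∀ r g, Integrable (fun ω => e g * F ω g r * (conj (c g) * c (g * r))) μ := fun r g =>
    ((hF g r).const_mul _).mul_const _
  have e1 : ∑ r ∈ T, w r * cfr c (fun g r => e g * ∫ ω, F ω g r ∂μ) r =
      ∫ ω, ∑ r ∈ T, w r * cfr c (fun g r => e g * F ω g r) r ∂μ := by
    rw [integral_finsetSum _ fun r _ => ?_]
    · refine Finset.sum_congr rfl fun r _ => ?_
      rw [integral_const_mul]
      congr 1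
      unfold cfr
      rw [integral_finsetSum _ fun g _ => hi r g]
      refine Finset.sum_congr rfl fun g _ => ?_
      rw [integral_mul_const, integral_const_mul]
    · refine Integrable.const_mul ?_ _
      unfold cfr
      exact integrable_finsetSum _ fun g _ => hi r g
  rw [e1, ← integral_mul_const]
  exact norm_integral_le_of_norm_le (hC.mul_const _) (ae_of_all _ fun ω => (h ω).2 c hc e he T w)

/-! ### Exponentials -/

theorem bn_one : BN (fun _ _ : G => (1 : ℂ)) 1 := by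
  have h := bn_prod (G := G) (a := fun _ => 1) (b := fun _ => 1) (A := 1) (B := 1) (fun _ => by simp) (fun _ => by simp)
  simpa using h

theorem bn_const_mul {F : G → G → ℂ} {C : ℝ} (h : BN F C) (z : ℂ) : BN (fun g r => z * F g r) (‖z‖ * C) := by
  have h1 := h.mul (a := fun _ => z) (b := fun _ => 1) (A := ‖z‖) (B := 1) (fun _ => le_rfl) (fun _ => by simp)
  simpa using h1

theorem bn_pow {ι : Type} (s : Finset ι) {x y : ι → G → ℂ} {a : ι → ℝ} (hx : ∀ i ∈ s, ∀ g, ‖x i g‖ ≤ 1)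
    (hy : ∀ i ∈ s, ∀ r, ‖y i r‖ ≤ a i) (k : ℕ) :
    BN (fun g r => (∑ i ∈ s, x i g * y i r) ^ k) ((∑ i ∈ s, a i) ^ k) := by
  induction k with
  | zero => simpa using bn_one
  | succ k ih =>
    have h1 : BN (fun g r => ∑ i ∈ s, x i g * y i r * (∑ i ∈ s, x i g * y i r) ^ k)
        (∑ i ∈ s, 1 * a i * (∑ i ∈ s, a i) ^ k) :=
      bn_sum s fun i hi => ih.mul (hx i hi) (hy i hi)
    have h2 : ∑ i ∈ s, 1 * a i * (∑ i ∈ s, a i) ^ k = (∑ i ∈ s, a i) ^ (k + 1) := by
      rw [← Finset.sum_mul, pow_succ', ← Finset.mul_sum, one_mul]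
    rw [h2] at h1
    convert! h1 using 3 with g r
    rw [← Finset.sum_mul, pow_succ']

theorem bn_exp {ι : Type} (s : Finset ι) {x y : ι → G → ℂ} {a : ι → ℝ} (hx : ∀ i ∈ s, ∀ g, ‖x i g‖ ≤ 1)
    (hy : ∀ i ∈ s, ∀ r, ‖y i r‖ ≤ a i) :
    BN (fun g r => Complex.exp (∑ i ∈ s, x i g * y i r)) (Real.exp (∑ i ∈ s, a i)) := by
  have ha : 0 ≤ ∑ i ∈ s, a i := Finset.sum_nonneg fun i hi => (norm_nonneg _).trans (hy i hi 1)
  have h1 : ∀ n : ℕ, BN (fun g r => ∑ k ∈ Finset.range n, ((k.factorial : ℂ))⁻¹ * (∑ i ∈ s, x i g * y i r) ^ k)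
      (Real.exp (∑ i ∈ s, a i)) := by
    intro n
    refine BN.mono (bn_sum _ fun k _ => bn_const_mul (bn_pow s hx hy k) _) ?_
    refine le_trans (le_of_eq ?_) (Real.sum_le_exp_of_nonneg ha n)
    refine Finset.sum_congr rfl fun k _ => ?_
    rw [norm_inv, Complex.norm_natCast, inv_mul_eq_div]
  refine bn_lim h1 fun g r => ?_
  have h2 := (NormedSpace.expSeries_div_hasSum_exp (∑ i ∈ s, x i g * y i r : ℂ)).tendsto_sum_nat
  rw [← Complex.exp_eq_exp_ℂ] at h2
  refine h2.congr fun n => Finset.sum_congr rfl fun k _ => ?_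
  rw [div_eq_inv_mul]

end Basic

/-! ### Oscillating kernels -/

section Osc

variable {G : Type} [Group G] {m n p : Type} [Fintype m] [Fintype n] [Fintype p]

/-- The bilinear form with the coefficients `∑_k ξ_k B k i j`. -/
noncomputable def bl (B : p → m → n → ℝ) (ξ : p → ℝ) (x : m → ℝ) (y : n → ℝ) : ℝ :=
  ∑ i, x i * ∑ j, (∑ k, ξ k * B k i j) * y j

/-- The sum of the absolute values of the coefficients. -/
noncomputable def bs (B : p → m → n → ℝ) : ℝ := ∑ i, ∑ j, ∑ k, |B k i j|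

theorem bl_add (B : p → m → n → ℝ) (ξ : p → ℝ) (x : m → ℝ) (y y' : n → ℝ) :
    bl B ξ x (fun j => y j + y' j) = bl B ξ x y + bl B ξ x y' := by
  unfold bl
  rw [← Finset.sum_add_distrib]
  refine Finset.sum_congr rfl fun i _ => ?_
  rw [← mul_add, ← Finset.sum_add_distrib]
  congr 1
  exact Finset.sum_congr rfl fun j _ => by ring

theorem bn_osc (B : p → m → n → ℝ) (ξ : p → ℝ) (N : ℕ) (hN : 1 ≤ N) (hξ : ∀ k, |ξ k| ≤ N)
    {x : G → m → ℝ} {y : G → n → ℝ} (hx : ∀ g i, |x g i| ≤ 1) (hy : ∀ r j, |y r j| ≤ 1) :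
    BN (fun g r => Complex.exp (((2 * Real.pi * bl B ξ (x g) (y r) : ℝ) : ℂ) * Complex.I))
      ((2 * (N : ℝ) + 1) ^ Fintype.card n * Real.exp (2 * Real.pi * bs B)) := by
  classical
  have hN0 : (0 : ℝ) < N := by exact_mod_cast hN
  set f : G → n → ℤ := fun r j => ⌊y r j * N⌋ with hf
  set S : Finset (n → ℤ) := Fintype.piFinset fun _ => Finset.Icc (-(N : ℤ)) N with hS
  have hmem : ∀ r, f r ∈ S := by
    intro r
    rw [hS, Fintype.mem_piFinset]
    intro j
    rw [Finset.mem_Icc]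
    have h1 := abs_le.1 (hy r j)
    constructor
    · rw [hf, Int.le_floor]
      push_cast
      nlinarith
    · have h2 : (⌊y r j * N⌋ : ℝ) ≤ y r j * N := Int.floor_le _
      have h3 : y r j * N ≤ N := by nlinarith
      exact_mod_cast h2.trans h3
  -- the remainder
  have hrem : ∀ r j, |y r j - f r j / N| ≤ 1 / N := by
    intro r j
    have h1 := Int.floor_le (y r j * N)
    have h2 := Int.lt_floor_add_one (y r j * N)
    have h3 : y r j - f r j / N = (y r j * N - f r j) / N := by field_simp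
    rw [h3, abs_div, abs_of_pos hN0]
    gcongr
    rw [abs_le]
    constructor <;> simp only [hf] <;> linarith
  set yy : (n → ℤ) → m → G → ℂ := fun κ i r =>
    if f r = κ then ((2 * Real.pi * ∑ j, (∑ k, ξ k * B k i j) * (y r j - κ j / N) : ℝ) : ℂ) * Complex.I else 0 with hyy
  have hyb : ∀ κ i r, ‖yy κ i r‖ ≤ 2 * Real.pi * ∑ j, ∑ k, |B k i j| := by
    intro κ i r
    have hnn : 0 ≤ 2 * Real.pi * ∑ j, ∑ k, |B k i j| :=
      mul_nonneg (by positivity) (Finset.sum_nonneg fun j _ => Finset.sum_nonneg fun k _ => abs_nonneg _)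
    simp only [hyy]
    split_ifs with h
    · rw [norm_mul, Complex.norm_I, mul_one, Complex.norm_real, Real.norm_eq_abs, abs_mul, abs_of_pos (by positivity : 0 < 2 * Real.pi)]
      refine mul_le_mul_of_nonneg_left ?_ (by positivity)
      refine (Finset.abs_sum_le_sum_abs _ _).trans (Finset.sum_le_sum fun j _ => ?_)
      rw [abs_mul]
      have h1 : |∑ k, ξ k * B k i j| ≤ N * ∑ k, |B k i j| := by
        rw [Finset.mul_sum]
        refine (Finset.abs_sum_le_sum_abs _ _).trans (Finset.sum_le_sum fun k _ => ?_)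
        rw [abs_mul]
        exact mul_le_mul_of_nonneg_right (hξ k) (abs_nonneg _)
      have h2 : |y r j - κ j / N| ≤ 1 / N := by
        rw [← h]
        exact hrem r j
      have hB : 0 ≤ ∑ k, |B k i j| := Finset.sum_nonneg fun k _ => abs_nonneg _
      calc |∑ k, ξ k * B k i j| * |y r j - κ j / N| ≤ (N * ∑ k, |B k i j|) * (1 / N) :=
            mul_le_mul h1 h2 (abs_nonneg _) (by positivity)
        _ = ∑ k, |B k i j| := by field_simp
    · rw [norm_zero]
      exact hnn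
  -- one cell
  have hcell : ∀ κ, BN (fun g r => Complex.exp (((2 * Real.pi * bl B ξ (x g) (fun j => κ j / N) : ℝ) : ℂ) * Complex.I) *
      (if f r = κ then 1 else 0) * Complex.exp (∑ i, ((x g i : ℝ) : ℂ) * yy κ i r))
      (1 * 1 * Real.exp (∑ i, 2 * Real.pi * ∑ j, ∑ k, |B k i j|)) := by
    intro κ
    refine (bn_exp Finset.univ (x := fun i g => ((x g i : ℝ) : ℂ)) (y := yy κ) (fun i _ g => ?_) fun i _ r => hyb κ i r).mul
      (fun g => ?_) fun r => ?_
    · rw [Complex.norm_real]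
      exact hx g i
    · rw [Complex.norm_exp_ofReal_mul_I]
    · split_ifs <;> simp
  have hsum := bn_sum S fun κ _ => hcell κ
  have hM : ∑ κ ∈ S, 1 * 1 * Real.exp (∑ i, 2 * Real.pi * ∑ j, ∑ k, |B k i j|) = (2 * (N : ℝ) + 1) ^ Fintype.card n * Real.exp (2 * Real.pi * bs B) := by
    rw [Finset.sum_const, nsmul_eq_mul, one_mul, one_mul]
    congr 1
    · rw [hS, Fintype.card_piFinset, Finset.prod_const, Int.card_Icc, Finset.card_univ]
      have h1 : ((N : ℤ) + 1 - -(N : ℤ)).toNat = 2 * N + 1 := by omega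
      rw [h1]
      push_cast
      rfl
    · unfold bs
      rw [Finset.mul_sum]
  rw [hM] at hsum
  convert! hsum using 3 with g r
  rw [Finset.sum_eq_single (f r) (fun κ _ hκ => by rw [if_neg (Ne.symm hκ), mul_zero, zero_mul]) (fun h => absurd (hmem r) h),
    if_pos rfl, mul_one, ← Complex.exp_add]
  congr 1
  have h1 : ∑ i, ((x g i : ℝ) : ℂ) * yy (f r) i r =
      ((2 * Real.pi * bl B ξ (x g) (fun j => y r j - f r j / N) : ℝ) : ℂ) * Complex.I := by
    unfold bl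
    rw [Finset.mul_sum, Complex.ofReal_sum, Finset.sum_mul]
    refine Finset.sum_congr rfl fun i _ => ?_
    simp only [hyy, if_true]
    push_cast
    ring
  have h2 : bl B ξ (x g) (y r) = bl B ξ (x g) (fun j => f r j / N) + bl B ξ (x g) (fun j => y r j - f r j / N) := by
    rw [← bl_add]
    congr 1
    funext j
    ring
  rw [h1, h2]
  push_cast
  ring

end Osc

/-! ### Smooth kernels -/

section Smooth

variable {m n p : Type} [Fintype m] [Fintype n] [Fintype p]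

/-- The bilinear map with the coefficients `B`. -/
noncomputable def bq (B : p → m → n → ℝ) (x : m → ℝ) (y : n → ℝ) : EuclideanSpace ℝ (p) :=
  WithLp.toLp 2 fun k => ∑ i, x i * ∑ j, B k i j * y j

theorem inner_bq (B : p → m → n → ℝ) (x : m → ℝ) (y : n → ℝ) (ξ : EuclideanSpace ℝ (p)) :
    inner ℝ ξ (bq B x y) = bl B (fun k => ξ k) x y := by
  rw [PiLp.inner_apply]
  unfold bq bl
  have h1 : ∀ k, inner ℝ (ξ k) ((WithLp.toLp 2 fun k => ∑ i, x i * ∑ j, B k i j * y j : EuclideanSpace ℝ (p)) k) =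
      ∑ i, x i * ∑ j, (ξ k * B k i j) * y j := by
    intro k
    change (∑ i, x i * ∑ j, B k i j * y j) * ξ k = _
    rw [Finset.sum_mul]
    refine Finset.sum_congr rfl fun i _ => ?_
    rw [mul_assoc, Finset.sum_mul]
    congr 1
    exact Finset.sum_congr rfl fun j _ => by ring
  simp only [h1]
  rw [Finset.sum_comm]
  refine Finset.sum_congr rfl fun i _ => ?_
  rw [← Finset.mul_sum]
  congr 1
  rw [Finset.sum_comm]
  exact Finset.sum_congr rfl fun j _ => by rw [← Finset.sum_mul]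

/-- **Smooth functions of bilinear expressions have finite Bessel norm**, uniformly in the group and in the functions `x`, `y`. -/
theorem bn_schwartz (B : p → m → n → ℝ) (Ψ : 𝓢(EuclideanSpace ℝ (p), ℂ)) :
    ∃ C : ℝ, ∀ (G : Type) [Group G] (x : G → m → ℝ) (y : G → n → ℝ), (∀ g i, |x g i| ≤ 1) → (∀ r j, |y r j| ≤ 1) →
      BN (fun g r => Ψ (bq B (x g) (y r))) C := by
  set Φ : 𝓢(EuclideanSpace ℝ (p), ℂ) := 𝓕 Ψ with hΦ
  refine ⟨∫ ξ, ‖Φ ξ‖ * ((2 * ‖ξ‖ + 5) ^ Fintype.card n * Real.exp (2 * Real.pi * bs B)), fun G _ x y hx hy => ?_⟩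
  have hinv : ∀ v, Ψ v = ∫ ξ, Φ ξ * Complex.exp (((2 * Real.pi * inner ℝ ξ v : ℝ) : ℂ) * Complex.I) := by
    intro v
    have h1 : 𝓕⁻ Φ = Ψ := by rw [hΦ]; exact FourierPair.fourierInv_fourier_eq Ψ
    have h2 : (𝓕⁻ Φ : 𝓢(EuclideanSpace ℝ (p), ℂ)) v = 𝓕⁻ (Φ : EuclideanSpace ℝ (p) → ℂ) v := by
      rw [SchwartzMap.fourierInv_coe]
    rw [← h1, h2, Real.fourierInv_eq']
    refine integral_congr_ae (ae_of_all _ fun ξ => ?_)
    exact mul_comm _ _
  have hE : ∀ v : EuclideanSpace ℝ (p), Integrable (fun ξ => Φ ξ * Complex.exp (((2 * Real.pi * inner ℝ ξ v : ℝ) : ℂ) * Complex.I)) := by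
    intro v
    refine Φ.integrable.norm.mono' ?_ (ae_of_all _ fun ξ => ?_)
    · refine Continuous.aestronglyMeasurable ?_
      have := Φ.continuous
      fun_prop
    · rw [norm_mul, Complex.norm_exp_ofReal_mul_I, mul_one]
  have hmain : BN (fun g r => ∫ ξ, Φ ξ * Complex.exp (((2 * Real.pi * inner ℝ ξ (bq B (x g) (y r)) : ℝ) : ℂ) * Complex.I))
      (∫ ξ, ‖Φ ξ‖ * ((2 * ‖ξ‖ + 5) ^ Fintype.card n * Real.exp (2 * Real.pi * bs B))) := by
    refine bn_integral (fun ξ => ?_) (fun g r => hE _) ?_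
    · have hN : (⌈‖ξ‖⌉₊ : ℝ) < ‖ξ‖ + 1 := Nat.ceil_lt_add_one (norm_nonneg _)
      have h1 := bn_const_mul (bn_osc B (fun k => ξ k) (⌈‖ξ‖⌉₊ + 1) (by omega) (fun k => ?_) hx hy) (Φ ξ)
      · have h2 : BN (fun g r => Φ ξ * Complex.exp (((2 * Real.pi * inner ℝ ξ (bq B (x g) (y r)) : ℝ) : ℂ) * Complex.I))
            (‖Φ ξ‖ * ((2 * ((⌈‖ξ‖⌉₊ + 1 : ℕ) : ℝ) + 1) ^ Fintype.card n * Real.exp (2 * Real.pi * bs B))) := by
          simp only [inner_bq]
          exact h1
        refine h2.mono ?_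
        have h3 : 2 * ((⌈‖ξ‖⌉₊ + 1 : ℕ) : ℝ) + 1 ≤ 2 * ‖ξ‖ + 5 := by
          push_cast
          linarith
        gcongr
      · have h1 : |ξ k| ≤ ‖ξ‖ := by
          have := PiLp.norm_apply_le ξ k
          rwa [Real.norm_eq_abs] at this
        have h2 : ‖ξ‖ ≤ (⌈‖ξ‖⌉₊ : ℝ) := Nat.le_ceil _
        push_cast
        linarith
    · have h0 := Φ.integrable_pow_mul volume 0
      have hn := Φ.integrable_pow_mul volume (Fintype.card n)
      have hdom : Integrable fun ξ : EuclideanSpace ℝ (p) =>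
          (2 ^ Fintype.card n * 2 ^ Fintype.card n * Real.exp (2 * Real.pi * bs B)) * (‖ξ‖ ^ Fintype.card n * ‖Φ ξ‖) +
            (2 ^ Fintype.card n * 5 ^ Fintype.card n * Real.exp (2 * Real.pi * bs B)) * (‖ξ‖ ^ 0 * ‖Φ ξ‖) :=
        (hn.const_mul _).add (h0.const_mul _)
      refine hdom.mono' ?_ (ae_of_all _ fun ξ => ?_)
      · refine Continuous.aestronglyMeasurable ?_
        have := Φ.continuous
        fun_prop
      · rw [Real.norm_of_nonneg (by positivity)]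
        have h1 : (2 * ‖ξ‖ + 5) ^ Fintype.card n ≤ 2 ^ Fintype.card n * ((2 * ‖ξ‖) ^ Fintype.card n + 5 ^ Fintype.card n) := by
          have a1 : 2 * ‖ξ‖ + 5 ≤ 2 * max (2 * ‖ξ‖) 5 := by
            have := le_max_left (2 * ‖ξ‖) 5
            have := le_max_right (2 * ‖ξ‖) (5 : ℝ)
            linarith
          have a2 : max (2 * ‖ξ‖) 5 ^ Fintype.card n ≤ (2 * ‖ξ‖) ^ Fintype.card n + 5 ^ Fintype.card n := by
            rcases le_total (2 * ‖ξ‖) 5 with h | h
            · rw [max_eq_right h]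
              have : 0 ≤ (2 * ‖ξ‖) ^ Fintype.card n := by positivity
              linarith
            · rw [max_eq_left h]
              have : (0 : ℝ) ≤ 5 ^ Fintype.card n := by positivity
              linarith
          calc (2 * ‖ξ‖ + 5) ^ Fintype.card n ≤ (2 * max (2 * ‖ξ‖) 5) ^ Fintype.card n := pow_le_pow_left₀ (by positivity) a1 (Fintype.card n)
            _ = 2 ^ Fintype.card n * max (2 * ‖ξ‖) 5 ^ Fintype.card n := mul_pow _ _ _
            _ ≤ _ := mul_le_mul_of_nonneg_left a2 (by positivity)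
        calc ‖Φ ξ‖ * ((2 * ‖ξ‖ + 5) ^ Fintype.card n * Real.exp (2 * Real.pi * bs B)) ≤
              ‖Φ ξ‖ * ((2 ^ Fintype.card n * ((2 * ‖ξ‖) ^ Fintype.card n + 5 ^ Fintype.card n)) * Real.exp (2 * Real.pi * bs B)) := by gcongr
          _ = _ := by
              rw [mul_pow, pow_zero]
              ring
  convert! hmain using 3 with g r
  exact hinv _

end Smooth

end Pool.Agent.Helper20.TB
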