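import Pool.Agent.Helper20.TB.Pair
import Pool.Agent.Helper55.OB.Defs

/-!
# Project OB (MP_0f6f3f_an), layer TB: definitions

The abstract part (real Hilbert spaces): `PC T v η` (`T` is nearly of rank one with right singular vector near `v`), `TS T u v` (top singular vectors), `Cfg` (the configuration of `T = ρ(g)`, `S = ρ(h)`,
`R = ρ(r)`, `T1 = ρ(g r)`, `S1 = ρ(h r)`).
The matrices: `op A` (the operator of a matrix), `r2 A` (the second exterior power, on antisymmetric tensors), `wd x y` (the antisymmetric tensor), `hs A` (Hilbert–Schmidt norm squared), `e2 A = hs (r2 A)`.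
`RD G N`: real data: matrices `r g` with `r (g h) = ± r g r h` which preserve `J`, with compatible singular value decompositions. `w1`, `w2`: the smooth weights, `Rp1`, `Rp2`: the sets of the `r` such that
`g ↦ g r` has no cancellation near `v`.
-/

set_option autoImplicit false

open Filter Topology Matrix

namespace Pool.Agent.Helper20.TB

open Pool.Agent.Helper84.NI Pool.Agent.Helper90.RK Pool.Agent.Helper96.RK Pool.Agent.Helper55.OB

section Abstract

variable {V : Type} [NormedAddCommGroup V] [InnerProductSpace ℝ V] [CompleteSpace V]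

/-- `T` is nearly of rank one with right singular vector near `v`. -/
structure PC (T : V →L[ℝ] V) (v : V) (η : ℝ) : Prop where
  unit : ‖v‖ = 1
  ge : (1 - η) * ‖T‖ ≤ ‖T v‖
  le : ∀ x, inner ℝ v x = 0 → ‖T x‖ ≤ η * ‖T‖ * ‖x‖

/-- `u`, `v` are top singular vectors of `T`. -/
structure TS (T : V →L[ℝ] V) (u v : V) : Prop where
  pos : 0 < ‖T‖
  nu : ‖u‖ = 1
  nv : ‖v‖ = 1
  Tv : T v = ‖T‖ • u
  Tu : ContinuousLinearMap.adjoint T u = ‖T‖ • v

/-- The configuration. -/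
structure Cfg (J T S R T1 S1 : V →L[ℝ] V) (v v' uT vT uS vS uT1 vT1 uS1 vS1 : V) (η κ : ℝ) : Prop where
  JJ : ∀ x, J (J x) = x
  Js : ∀ x y, inner ℝ (J x) y = inner ℝ x (J y)
  κ0 : 0 < κ
  κ1 : κ ≤ 1
  η0 : 0 ≤ η
  ηκ : η ≤ κ ^ 4 / 1000000
  op : κ ≤ |inner ℝ v (J v')|
  pT : PC T v η
  pS : PC S v' η
  pT1 : PC T1 v η
  pS1 : PC S1 v' η
  tT : TS T uT vT
  tS : TS S uS vS
  tT1 : TS T1 uT1 vT1
  tS1 : TS S1 uS1 vS1
  eT : (∀ x, T1 x = T (R x)) ∨ ∀ x, T1 x = -T (R x)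
  eS : (∀ x, S1 x = S (R x)) ∨ ∀ x, S1 x = -S (R x)
  rel : (∀ x, T1 (J (ContinuousLinearMap.adjoint S1 x)) = T (J (ContinuousLinearMap.adjoint S x))) ∨
    ∀ x, T1 (J (ContinuousLinearMap.adjoint S1 x)) = -T (J (ContinuousLinearMap.adjoint S x))

/-- The consequences of the configuration, `p = R† vT`, `p' = R† vS`, `lam = ‖T1‖ / ‖T‖`, `mu = ‖S1‖ / ‖S‖`. -/
structure Cons (J T S R T1 S1 : V →L[ℝ] V) (v v' vT vS vT1 vS1 p p' : V) (κ : ℝ) : Prop where
  k0 : κ / 2 ≤ |inner ℝ vT (J vS)|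
  k1 : κ / 2 ≤ |inner ℝ vT1 (J vS1)|
  kv : |inner ℝ vT (J vS)| / 2 ≤ |inner ℝ v (J vS)|
  lm : ‖T1‖ * ‖S1‖ ≤ 4 / κ * (‖T‖ * ‖S‖)
  p1 : ‖T1‖ / ‖T‖ / 2 ≤ ‖p‖
  p2 : ‖p‖ ≤ ‖T1‖ / ‖T‖
  q1 : ‖S1‖ / ‖S‖ / 2 ≤ ‖p'‖
  q2 : ‖p'‖ ≤ ‖S1‖ / ‖S‖
  pv : ‖p - inner ℝ v p • v‖ ≤ κ / 8 * ‖p‖
  qv : ‖p' - inner ℝ v' p' • v'‖ ≤ κ / 8 * ‖p'‖
  pq : κ / 2 * (‖p‖ * ‖p'‖) ≤ |inner ℝ p (J p')|

end Abstract

section Mat

variable {m : Type} [Fintype m] [DecidableEq m]

/-- The operator of a matrix. -/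
noncomputable def op (A : Matrix m m ℝ) : EuclideanSpace ℝ m →L[ℝ] EuclideanSpace ℝ m := Matrix.toEuclideanCLM (𝕜 := ℝ) A

/-- The second exterior power, on the antisymmetric tensors. -/
noncomputable def r2 (A : Matrix m m ℝ) : Matrix (m × m) (m × m) ℝ :=
  Matrix.of fun p q => (A p.1 q.1 * A p.2 q.2 - A p.1 q.2 * A p.2 q.1) / 2

/-- The antisymmetric tensor of two vectors. -/
noncomputable def wd (x y : EuclideanSpace ℝ m) : EuclideanSpace ℝ (m × m) :=
  WithLp.toLp 2 fun p => (x p.1 * y p.2 - x p.2 * y p.1) / 2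

/-- The Hilbert–Schmidt norm, squared. -/
noncomputable def hs (A : Matrix m m ℝ) : ℝ := ∑ i, ∑ j, A i j ^ 2

/-- The Hilbert–Schmidt norm of the second exterior power, squared. -/
noncomputable def e2 (A : Matrix m m ℝ) : ℝ := hs (r2 A)

/-- The `i`-th column. -/
noncomputable def col (A : Matrix m m ℝ) (i : m) : EuclideanSpace ℝ m := WithLp.toLp 2 fun j => A j i

/-- The form on the second tensor power. -/
noncomputable def JK (N : ℕ) : Matrix (Fin N × Fin N) (Fin N × Fin N) ℝ :=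
  Matrix.of fun p q => JR N p.1 q.1 * JR N p.2 q.2

end Mat

/-- A smooth bump: `1` for `t ≤ 1`, `0` for `t ≥ 2`. -/
noncomputable def bump (t : ℝ) : ℝ := Real.smoothTransition (2 - t)

/-- Real data. -/
structure RD (G : Type) [Group G] (N : ℕ) where
  /-- the matrices -/
  r : G → Matrix (Fin N) (Fin N) ℝ
  /-- left singular vectors -/
  kL : G → Matrix (Fin N) (Fin N) ℝ
  /-- right singular vectors -/
  kR : G → Matrix (Fin N) (Fin N) ℝ
  /-- singular values -/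
  s : G → Fin N → ℝ
  hN : 5 ≤ N
  mul : ∀ g h, r (g * h) = r g * r h ∨ r (g * h) = -(r g * r h)
  form : ∀ g, (r g)ᵀ * JR N * r g = JR N
  oL : ∀ g, (kL g)ᵀ * kL g = 1
  oR : ∀ g, (kR g)ᵀ * kR g = 1
  fL : ∀ g, (kL g)ᵀ * JR N * kL g = JR N
  fR : ∀ g, (kR g)ᵀ * JR N * kR g = JR N
  pos : ∀ g i, 0 < s g i
  anti : ∀ g, Antitone (s g)
  spec : ∀ g, r g = kL g * diagonal (s g) * (kR g)ᵀ
  inv : ∀ g (i : Fin N), s g i * s g i.rev = 1
  mid : ∀ g (i : Fin N), 2 ≤ (i : ℕ) → (i : ℕ) + 3 ≤ N → s g i = 1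
  fin : ∀ C : ℝ, {g | ∀ i, s g i ≤ C}.Finite

namespace RD

variable {G : Type} [Group G] {N : ℕ} (D : RD G N)

/-- The index `0`. -/
def i0 : Fin N := ⟨0, by have := D.hN; omega⟩

/-- The index `1`. -/
def i1 : Fin N := ⟨1, by have := D.hN; omega⟩

/-- The first singular value. -/
noncomputable def s0 (g : G) : ℝ := D.s g D.i0

/-- The second singular value. -/
noncomputable def s1 (g : G) : ℝ := D.s g D.i1

/-- The operator of `g`. -/
noncomputable def T1 (g : G) : EuclideanSpace ℝ (Fin N) →L[ℝ] EuclideanSpace ℝ (Fin N) := op (D.r g)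

/-- The operator of `g` on the antisymmetric tensors. -/
noncomputable def T2 (g : G) : EuclideanSpace ℝ (Fin N × Fin N) →L[ℝ] EuclideanSpace ℝ (Fin N × Fin N) := op (r2 (D.r g))

/-- The first right singular vector. -/
noncomputable def vR (g : G) : EuclideanSpace ℝ (Fin N) := col (D.kR g) D.i0

/-- The first left singular vector. -/
noncomputable def vL (g : G) : EuclideanSpace ℝ (Fin N) := col (D.kL g) D.i0

/-- The first right singular vector on the antisymmetric tensors. -/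
noncomputable def oR2 (g : G) : EuclideanSpace ℝ (Fin N × Fin N) := √2 • wd (col (D.kR g) D.i0) (col (D.kR g) D.i1)

/-- The first left singular vector on the antisymmetric tensors. -/
noncomputable def oL2 (g : G) : EuclideanSpace ℝ (Fin N × Fin N) := √2 • wd (col (D.kL g) D.i0) (col (D.kL g) D.i1)

/-- The weight near the point `v`. -/
noncomputable def w1 (v : EuclideanSpace ℝ (Fin N)) (η C : ℝ) (g : G) : ℝ :=
  bump ((1 - ‖op (D.r g) v‖ ^ 2 / hs (D.r g)) / η) * bump (e2 (D.r g) / (C * hs (D.r g)))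

/-- The weight near the line `v`. -/
noncomputable def w2 (v : EuclideanSpace ℝ (Fin N × Fin N)) (η C : ℝ) (g : G) : ℝ :=
  bump ((1 - ‖op (r2 (D.r g)) v‖ ^ 2 / e2 (D.r g)) / η) * bump (hs (D.r g) ^ 2 / (C * e2 (D.r g)))

/-- The elements `r` without cancellation near `v`, first node. -/
def Rp1 (v v' : EuclideanSpace ℝ (Fin N)) (c K : ℝ) : Set G :=
  {r | c * D.s0 r ≤ ‖ContinuousLinearMap.adjoint (D.T1 r) v‖ ∧ c * D.s0 r ≤ ‖D.T1 r (op (JR N) v')‖ ∧ D.s1 r ≤ K}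

/-- The elements `r` without cancellation near `v`, second node. -/
def Rp2 (v v' : EuclideanSpace ℝ (Fin N × Fin N)) (c K : ℝ) : Set G :=
  {r | c * (D.s0 r * D.s1 r) ≤ ‖ContinuousLinearMap.adjoint (D.T2 r) v‖ ∧ c * (D.s0 r * D.s1 r) ≤ ‖D.T2 r (op (JK N) v')‖ ∧
    D.s0 r ≤ K * D.s1 r}

end RD

/-- The real data belong to the complex ones. -/
structure RS {G : Type} [Group G] {N : ℕ} {P : PH G N} (D : RD G N) (S : Sv P) : Prop where
  s : ∀ g i, D.s g i = S.s g i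
  kR : ∀ g i j, S.kR g i j = (D.kR g i j : ℂ)

end Pool.Agent.Helper20.TB
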