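import Pool.Agent.Helper20.TB.Defs

/-!
# Project OB (MP_0f6f3f_an), layer TB, block TB-D: definiteness and decomposition

`J x = x - 2 ⟪n0, x⟫ n0 - 2 ⟪n1, x⟫ n1`, `n0`, `n1` orthonormal: a reflection with two negative squares: `⟪y, J y⟫ = ‖y‖² - 2 (⟪n0, y⟫² + ⟪n1, y⟫²)`.
PROOF of `dfn_on` (orthonormal bases `e0, e1` and `f0, f1` of two isotropic planes). Isotropy: `2 ∑_k ⟪n_k, e_i⟫ ⟪n_k, e_j⟫ = ⟪e_i, e_j⟫ - ⟪e_i, J e_j⟫ = δ_ij`: the matrix `(√2 ⟪n_k, e_i⟫)` is orthogonal, so also `2 ∑_i ⟪n_k, e_i⟫ ⟪n_l, e_i⟫ = δ_kl` (2 x 2: `mul_eq_one_comm`). `⟪y, J e_i⟫ = 0` means `⟪y, e_i⟫ = 2 ∑_k ⟪n_k, y⟫ ⟪n_k, e_i⟫`. Let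
`z = ∑_i ⟪y, e_i⟫ e_i`: `‖z‖² = ∑_i ⟪y, e_i⟫² = 4 ∑_{k, l} ⟪n_k, y⟫ ⟪n_l, y⟫ ∑_i ⟪n_k, e_i⟫ ⟪n_l, e_i⟫ = 2 ∑_k ⟪n_k, y⟫²`, so `‖y - z‖² = ‖y‖² - ‖z‖² = ⟪y, J y⟫ =: q`. In the same way `z' = ∑_i ⟪y, f_i⟫ f_i`, `‖y - z'‖² = q`. So `‖z - z'‖ ≤ 2 √q`. For `j = 0, 1`: `|⟪z, J f_j⟫| = |⟪z - z', J f_j⟫| ≤ 2 √q`
(`⟪z', J f_j⟫ = 0`), and `⟪z, J f_j⟫ = ∑_i z_i M_ij`, `M_ij = ⟪e_i, J f_j⟫`, `|M_ij| ≤ 1`, `|det M| ≥ c`: Cramer: `|z_i| ≤ 4 √q / c`. `‖z‖² ≤ 32 q / c²`, `‖y‖² = q + ‖z‖² ≤ (1 + 32 / c²) q`.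
PROOF of `dfn` (general bases): `D = ‖q0‖² ‖q1‖² - ⟪q0, q1⟫²` (`> 0` by `hq`, because `0 < D * D'`, and `D ≥ 0` by Cauchy-Schwarz). Gram-Schmidt: `e0 = q0 / ‖q0‖`, `e1 = (q1 - ⟪q1, e0⟫ e0) / ‖..‖`: `q0 = a e0`, `q1 = b e0 + c' e1`, `D = (a c')²`; the plane is the same, so `e_i` is isotropic and `⟪y, J e_i⟫ = 0`;
`det ⟪q_i, J q'_j⟫ = a c' a'' c''' det ⟪e_i, J f_j⟫`; so `|det ⟪e_i, J f_j⟫| ≥ c`.
PROOF of `dec2`. Only linear algebra: `M_ij = ⟪a_i, J b_j⟫`, `α = ` the solution of `∑_i α_i M_ij = ⟪x, J b_j⟫` (Cramer: `|α_i| ≤ 2 ‖x‖ / |det M| ≤ (4 / κ) ‖x‖`), `β = ` the solution of `∑_j β_j M_ij = ⟪x, J a_i⟫`, `d = x - α0 a0 - α1 a1 - β0 b0 - β1 b1`; isotropy gives `⟪d, J a_i⟫ = 0`, `⟪d, J b_j⟫ = 0`; `‖d‖ ≤ (1 + 16 / κ) ‖x‖ ≤ (17 / κ) ‖x‖`.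
-/

set_option autoImplicit false

namespace Pool.Agent.Helper20.TB

variable {V : Type} [NormedAddCommGroup V] [InnerProductSpace ℝ V] [CompleteSpace V]

/-- A reflection with two negative squares. -/
structure Two (J : V →L[ℝ] V) (n0 n1 : V) : Prop where
  u0 : ‖n0‖ = 1
  u1 : ‖n1‖ = 1
  o : inner ℝ n0 n1 = 0
  J : ∀ x, J x = x - (2 * inner ℝ n0 x) • n0 - (2 * inner ℝ n1 x) • n1

omit [CompleteSpace V] in
private lemma two_B6 {J : V →L[ℝ] V} {n0 n1 : V} (hJ : Two J n0 n1) (x y : V) :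
    inner ℝ x (J y) = inner ℝ x y - 2 * inner ℝ n0 x * inner ℝ n0 y - 2 * inner ℝ n1 x * inner ℝ n1 y := by
  rw [hJ.J y, inner_sub_right, inner_sub_right, inner_smul_right, inner_smul_right,
    real_inner_comm n0 x, real_inner_comm n1 x]
  ring

omit [CompleteSpace V] in
private lemma two_iso6 {J : V →L[ℝ] V} {n0 n1 : V} (hJ : Two J n0 n1) (x y : V) :
    inner ℝ (J x) (J y) = inner ℝ x y := by
  have h0 : inner ℝ n0 n0 = (1 : ℝ) := by rw [real_inner_self_eq_norm_sq, hJ.u0]; norm_num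
  have h1 : inner ℝ n1 n1 = (1 : ℝ) := by rw [real_inner_self_eq_norm_sq, hJ.u1]; norm_num
  have h2 : inner ℝ n1 n0 = (0 : ℝ) := by rw [real_inner_comm, hJ.o]
  rw [two_B6 hJ, hJ.J x]
  simp only [inner_sub_left, inner_sub_right, inner_smul_left, inner_smul_right, h0, h1, h2, hJ.o,
    RCLike.conj_to_real, real_inner_comm x]
  ring

omit [CompleteSpace V] in
/-- The Gram determinant of three vectors. -/
private lemma gram36 (v p0 p1 : V) (hD : 0 < ‖p0‖ ^ 2 * ‖p1‖ ^ 2 - inner ℝ p0 p1 ^ 2) :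
    inner ℝ v p1 ^ 2 * ‖p0‖ ^ 2 - 2 * inner ℝ v p1 * inner ℝ v p0 * inner ℝ p0 p1 +
      inner ℝ v p0 ^ 2 * ‖p1‖ ^ 2 ≤ ‖v‖ ^ 2 * (‖p0‖ ^ 2 * ‖p1‖ ^ 2 - inner ℝ p0 p1 ^ 2) := by
  set D : ℝ := ‖p0‖ ^ 2 * ‖p1‖ ^ 2 - inner ℝ p0 p1 ^ 2 with hDd
  set a : ℝ := inner ℝ v p0 with ha
  set b : ℝ := inner ℝ v p1 with hb
  set g : ℝ := inner ℝ p0 p1 with hg
  have key : ‖D • v - (a * ‖p1‖ ^ 2 - b * g) • p0 - (b * ‖p0‖ ^ 2 - a * g) • p1‖ ^ 2 =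
      D * (‖v‖ ^ 2 * D - (b ^ 2 * ‖p0‖ ^ 2 - 2 * b * a * g + a ^ 2 * ‖p1‖ ^ 2)) := by
    rw [← real_inner_self_eq_norm_sq]
    simp only [inner_sub_left, inner_sub_right, inner_smul_left, inner_smul_right,
      RCLike.conj_to_real, real_inner_self_eq_norm_sq, real_inner_comm v p0, real_inner_comm v p1,
      real_inner_comm p0 p1]
    simp only [← ha, ← hb, ← hg]
    rw [hDd]
    ring
  have h1 : 0 ≤ D * (‖v‖ ^ 2 * D - (b ^ 2 * ‖p0‖ ^ 2 - 2 * b * a * g + a ^ 2 * ‖p1‖ ^ 2)) := by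
    rw [← key]; positivity
  have h2 := nonneg_of_mul_nonneg_right h1 hD
  linarith

omit [CompleteSpace V] in
private lemma gram26 (u v p0 p1 : V) (hD : 0 < ‖p0‖ ^ 2 * ‖p1‖ ^ 2 - inner ℝ p0 p1 ^ 2) :
    (inner ℝ u p0 * inner ℝ v p1 - inner ℝ u p1 * inner ℝ v p0) ^ 2 ≤
      ‖u‖ ^ 2 * (‖v‖ ^ 2 * (‖p0‖ ^ 2 * ‖p1‖ ^ 2 - inner ℝ p0 p1 ^ 2)) := by
  have h1 : inner ℝ u p0 * inner ℝ v p1 - inner ℝ u p1 * inner ℝ v p0 =
      inner ℝ u (inner ℝ v p1 • p0 - inner ℝ v p0 • p1) := by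
    rw [inner_sub_right, inner_smul_right, inner_smul_right]
    ring
  have h2 : ‖inner ℝ v p1 • p0 - inner ℝ v p0 • p1‖ ^ 2 =
      inner ℝ v p1 ^ 2 * ‖p0‖ ^ 2 - 2 * inner ℝ v p1 * inner ℝ v p0 * inner ℝ p0 p1 +
      inner ℝ v p0 ^ 2 * ‖p1‖ ^ 2 := by
    rw [← real_inner_self_eq_norm_sq]
    simp only [inner_sub_left, inner_sub_right, inner_smul_left, inner_smul_right,
      RCLike.conj_to_real, real_inner_self_eq_norm_sq, real_inner_comm p0 p1]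
    ring
  rw [h1]
  have h3 : inner ℝ u (inner ℝ v p1 • p0 - inner ℝ v p0 • p1) ^ 2 ≤
      ‖u‖ ^ 2 * ‖inner ℝ v p1 • p0 - inner ℝ v p0 • p1‖ ^ 2 := by
    have h4 := abs_real_inner_le_norm u (inner ℝ v p1 • p0 - inner ℝ v p0 • p1)
    rw [← mul_pow, ← sq_abs]
    exact pow_le_pow_left₀ (abs_nonneg _) h4 2
  refine h3.trans (mul_le_mul_of_nonneg_left ?_ (by positivity))
  rw [h2]
  exact gram36 v p0 p1 hD

omit [CompleteSpace V] in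
/-- The orthogonal projection of `y` to an isotropic plane. -/
private lemma proj6 {J : V →L[ℝ] V} {n0 n1 : V} (hJ : Two J n0 n1) {q0 q1 y : V}
    (hi00 : inner ℝ q0 (J q0) = 0) (hi01 : inner ℝ q0 (J q1) = 0) (hi11 : inner ℝ q1 (J q1) = 0)
    (hD : 0 < ‖q0‖ ^ 2 * ‖q1‖ ^ 2 - inner ℝ q0 q1 ^ 2)
    (y0 : inner ℝ y (J q0) = 0) (y1 : inner ℝ y (J q1) = 0) :
    ∃ a b : ℝ, ‖y - (a • q0 + b • q1)‖ ^ 2 = inner ℝ y (J y) ∧
      inner ℝ (y - (a • q0 + b • q1)) (a • q0 + b • q1) = 0 := by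
  set D : ℝ := ‖q0‖ ^ 2 * ‖q1‖ ^ 2 - inner ℝ q0 q1 ^ 2 with hDd
  set a : ℝ := (inner ℝ y q0 * ‖q1‖ ^ 2 - inner ℝ y q1 * inner ℝ q0 q1) / D with ha
  set b : ℝ := (inner ℝ y q1 * ‖q0‖ ^ 2 - inner ℝ y q0 * inner ℝ q0 q1) / D with hb
  have hD0 : D ≠ 0 := hD.ne'
  have haD : a * D = inner ℝ y q0 * ‖q1‖ ^ 2 - inner ℝ y q1 * inner ℝ q0 q1 := by
    rw [ha]; field_simp
  have hbD : b * D = inner ℝ y q1 * ‖q0‖ ^ 2 - inner ℝ y q0 * inner ℝ q0 q1 := by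
    rw [hb]; field_simp
  set w : V := y - (a • q0 + b • q1) with hw
  have w0 : inner ℝ w q0 = (0 : ℝ) := by
    have h : inner ℝ w q0 * D = 0 := by
      rw [hw, inner_sub_left, inner_add_left, inner_smul_left, inner_smul_left,
        real_inner_self_eq_norm_sq, real_inner_comm q0 q1]
      simp only [RCLike.conj_to_real]
      calc (inner ℝ y q0 - (a * ‖q0‖ ^ 2 + b * inner ℝ q0 q1)) * D
          = inner ℝ y q0 * D - ((a * D) * ‖q0‖ ^ 2 + (b * D) * inner ℝ q0 q1) := by ring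
        _ = 0 := by rw [haD, hbD, hDd]; ring
    exact (mul_eq_zero.1 h).resolve_right hD0
  have w1 : inner ℝ w q1 = (0 : ℝ) := by
    have h : inner ℝ w q1 * D = 0 := by
      rw [hw, inner_sub_left, inner_add_left, inner_smul_left, inner_smul_left,
        real_inner_self_eq_norm_sq]
      simp only [RCLike.conj_to_real]
      calc (inner ℝ y q1 - (a * inner ℝ q0 q1 + b * ‖q1‖ ^ 2)) * D
          = inner ℝ y q1 * D - ((a * D) * inner ℝ q0 q1 + (b * D) * ‖q1‖ ^ 2) := by ring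
        _ = 0 := by rw [haD, hbD, hDd]; ring
    exact (mul_eq_zero.1 h).resolve_right hD0
  have hi10 : inner ℝ q1 (J q0) = 0 := by
    rw [two_B6 hJ] at hi01 ⊢
    rw [real_inner_comm q0 q1]
    linarith
  have b0 : inner ℝ w (J q0) = 0 := by
    rw [hw, inner_sub_left, inner_add_left, inner_smul_left, inner_smul_left, y0, hi00, hi10]
    simp
  have b1 : inner ℝ w (J q1) = 0 := by
    rw [hw, inner_sub_left, inner_add_left, inner_smul_left, inner_smul_left, y1, hi01, hi11]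
    simp
  rw [two_B6 hJ] at b0 b1 hi00 hi01 hi11
  rw [real_inner_self_eq_norm_sq] at hi00 hi11
  rw [w0] at b0
  rw [w1] at b1
  -- the determinant
  have hdet : (inner ℝ n0 q0 * inner ℝ n1 q1 - inner ℝ n1 q0 * inner ℝ n0 q1) ^ 2 = D / 4 := by
    have e0 : inner ℝ n0 q0 ^ 2 + inner ℝ n1 q0 ^ 2 = ‖q0‖ ^ 2 / 2 := by nlinarith
    have e1 : inner ℝ n0 q1 ^ 2 + inner ℝ n1 q1 ^ 2 = ‖q1‖ ^ 2 / 2 := by nlinarith
    have e2 : inner ℝ n0 q0 * inner ℝ n0 q1 + inner ℝ n1 q0 * inner ℝ n1 q1 = inner ℝ q0 q1 / 2 := by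
      nlinarith
    calc (inner ℝ n0 q0 * inner ℝ n1 q1 - inner ℝ n1 q0 * inner ℝ n0 q1) ^ 2
        = (inner ℝ n0 q0 ^ 2 + inner ℝ n1 q0 ^ 2) * (inner ℝ n0 q1 ^ 2 + inner ℝ n1 q1 ^ 2) -
          (inner ℝ n0 q0 * inner ℝ n0 q1 + inner ℝ n1 q0 * inner ℝ n1 q1) ^ 2 := by ring
      _ = D / 4 := by rw [e0, e1, e2, hDd]; ring
  have hdet0 : inner ℝ n0 q0 * inner ℝ n1 q1 - inner ℝ n1 q0 * inner ℝ n0 q1 ≠ (0 : ℝ) := by
    intro h
    rw [h] at hdet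
    norm_num at hdet
    linarith
  have c0 : inner ℝ n0 w = (0 : ℝ) := by
    have h : inner ℝ n0 w * (inner ℝ n0 q0 * inner ℝ n1 q1 - inner ℝ n1 q0 * inner ℝ n0 q1) = (0 : ℝ) := by
      linear_combination (-(1 : ℝ) / 2) * inner ℝ n1 q1 * b0 + (1 / 2) * inner ℝ n1 q0 * b1
    exact (mul_eq_zero.1 h).resolve_right hdet0
  have c1 : inner ℝ n1 w = (0 : ℝ) := by
    have h : inner ℝ n1 w * (inner ℝ n0 q0 * inner ℝ n1 q1 - inner ℝ n1 q0 * inner ℝ n0 q1) = (0 : ℝ) := by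
      linear_combination ((1 : ℝ) / 2) * inner ℝ n0 q1 * b0 - (1 / 2) * inner ℝ n0 q0 * b1
    exact (mul_eq_zero.1 h).resolve_right hdet0
  have hz : inner ℝ w (a • q0 + b • q1) = 0 := by
    rw [inner_add_right, inner_smul_right, inner_smul_right, w0, w1]; simp
  refine ⟨a, b, ?_, hz⟩
  have hyw : y = w + (a • q0 + b • q1) := by rw [hw]; abel
  have hn0 : inner ℝ n0 y = a * inner ℝ n0 q0 + b * inner ℝ n0 q1 := by
    conv_lhs => rw [hyw]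
    rw [inner_add_right, inner_add_right, inner_smul_right, inner_smul_right, c0]; ring
  have hn1 : inner ℝ n1 y = a * inner ℝ n1 q0 + b * inner ℝ n1 q1 := by
    conv_lhs => rw [hyw]
    rw [inner_add_right, inner_add_right, inner_smul_right, inner_smul_right, c1]; ring
  have hyy : inner ℝ y y = ‖w‖ ^ 2 + (a ^ 2 * ‖q0‖ ^ 2 + 2 * a * b * inner ℝ q0 q1 + b ^ 2 * ‖q1‖ ^ 2) := by
    conv_lhs => rw [hyw]
    simp only [inner_add_left, inner_add_right, inner_smul_left, inner_smul_right,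
      RCLike.conj_to_real, real_inner_self_eq_norm_sq, w0, w1, real_inner_comm w q0,
      real_inner_comm w q1, real_inner_comm q0 q1]
    ring
  rw [two_B6 hJ, hyy, hn0, hn1]
  linear_combination (-a ^ 2) * hi00 - 2 * a * b * hi01 - b ^ 2 * hi11


theorem dfn {J : V →L[ℝ] V} {n0 n1 : V} (hJ : Two J n0 n1) {q0 q1 p0 p1 y : V} {c : ℝ} (hc : 0 < c) (hc1 : c ≤ 1)
    (hi00 : inner ℝ q0 (J q0) = 0) (hi01 : inner ℝ q0 (J q1) = 0) (hi11 : inner ℝ q1 (J q1) = 0)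
    (hj00 : inner ℝ p0 (J p0) = 0) (hj01 : inner ℝ p0 (J p1) = 0) (hj11 : inner ℝ p1 (J p1) = 0)
    (hD : 0 < ‖q0‖ ^ 2 * ‖q1‖ ^ 2 - inner ℝ q0 q1 ^ 2) (hD' : 0 < ‖p0‖ ^ 2 * ‖p1‖ ^ 2 - inner ℝ p0 p1 ^ 2)
    (hop : c ^ 2 * ((‖q0‖ ^ 2 * ‖q1‖ ^ 2 - inner ℝ q0 q1 ^ 2) * (‖p0‖ ^ 2 * ‖p1‖ ^ 2 - inner ℝ p0 p1 ^ 2)) ≤
      (inner ℝ q0 (J p0) * inner ℝ q1 (J p1) - inner ℝ q0 (J p1) * inner ℝ q1 (J p0)) ^ 2)
    (y0 : inner ℝ y (J q0) = 0) (y1 : inner ℝ y (J q1) = 0) (y2 : inner ℝ y (J p0) = 0) (y3 : inner ℝ y (J p1) = 0) :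
    ‖y‖ ^ 2 ≤ (1 + 32 / c ^ 2) * inner ℝ y (J y) := by
  obtain ⟨a, b, hz1, hz2⟩ := proj6 hJ hi00 hi01 hi11 hD y0 y1
  obtain ⟨a', b', hz1', hz2'⟩ := proj6 hJ hj00 hj01 hj11 hD' y2 y3
  set z : V := a • q0 + b • q1 with hz
  set z' : V := a' • p0 + b' • p1 with hz'
  set Q : ℝ := inner ℝ y (J y) with hQ
  have hQ0 : 0 ≤ Q := by rw [← hz1]; positivity
  set D : ℝ := ‖q0‖ ^ 2 * ‖q1‖ ^ 2 - inner ℝ q0 q1 ^ 2 with hDd
  set D' : ℝ := ‖p0‖ ^ 2 * ‖p1‖ ^ 2 - inner ℝ p0 p1 ^ 2 with hDd'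
  -- the distance of the two projections
  have hdist : ‖z - z'‖ ^ 2 ≤ 4 * Q := by
    have h1 : ‖z - z'‖ ≤ ‖y - z'‖ + ‖y - z‖ := by
      have e : z - z' = (y - z') - (y - z) := by abel
      rw [e]
      exact norm_sub_le _ _
    have h2 : ‖z - z'‖ ^ 2 ≤ (‖y - z'‖ + ‖y - z‖) ^ 2 := pow_le_pow_left₀ (norm_nonneg _) h1 2
    nlinarith [sq_nonneg (‖y - z'‖ - ‖y - z‖)]
  have hmain : c ^ 2 * ‖z‖ ^ 2 ≤ ‖z - z'‖ ^ 2 := by
    by_cases hz0 : ‖z‖ = 0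
    · rw [hz0]
      simp
    · have hzp : 0 < ‖z‖ ^ 2 := by positivity
      set v : V := -(inner ℝ z q1) • q0 + inner ℝ z q0 • q1 with hv
      -- the norm of `v`
      have hzz : a * inner ℝ z q0 + b * inner ℝ z q1 = ‖z‖ ^ 2 := by
        rw [← real_inner_self_eq_norm_sq]
        conv_rhs => rw [hz, inner_add_left, inner_smul_left, inner_smul_left]
        simp only [RCLike.conj_to_real, ← hz]
        rw [real_inner_comm q0 z, real_inner_comm q1 z]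
      have hvn : ‖v‖ ^ 2 = D * ‖z‖ ^ 2 := by
        have e0 : inner ℝ z q0 = a * ‖q0‖ ^ 2 + b * inner ℝ q0 q1 := by
          rw [hz, inner_add_left, inner_smul_left, inner_smul_left, real_inner_self_eq_norm_sq,
            real_inner_comm q0 q1]
          simp only [RCLike.conj_to_real]
        have e1 : inner ℝ z q1 = a * inner ℝ q0 q1 + b * ‖q1‖ ^ 2 := by
          rw [hz, inner_add_left, inner_smul_left, inner_smul_left, real_inner_self_eq_norm_sq]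
          simp only [RCLike.conj_to_real]
        rw [← hzz, ← real_inner_self_eq_norm_sq, hv]
        simp only [inner_add_left, inner_add_right, inner_smul_left, inner_smul_right,
          RCLike.conj_to_real, real_inner_self_eq_norm_sq, real_inner_comm q0 q1]
        rw [e0, e1, hDd]
        ring
      have hB : ∀ p : V, inner ℝ z (J p) = a * inner ℝ q0 (J p) + b * inner ℝ q1 (J p) := by
        intro p
        rw [hz, inner_add_left, inner_smul_left, inner_smul_left]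
        simp only [RCLike.conj_to_real]
      have hBv : ∀ p : V, inner ℝ v (J p) =
          -inner ℝ z q1 * inner ℝ q0 (J p) + inner ℝ z q0 * inner ℝ q1 (J p) := by
        intro p
        rw [hv, inner_add_left, inner_smul_left, inner_smul_left]
        simp only [RCLike.conj_to_real]
      have hj10 : inner ℝ p1 (J p0) = 0 := by
        rw [two_B6 hJ] at hj01 ⊢
        rw [real_inner_comm p0 p1]
        linarith
      have hB0 : inner ℝ (z - z') (J p0) = inner ℝ z (J p0) := by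
        have e : inner ℝ z' (J p0) = 0 := by
          rw [hz', inner_add_left, inner_smul_left, inner_smul_left, hj00, hj10]
          simp
        rw [inner_sub_left, e, sub_zero]
      have hB1 : inner ℝ (z - z') (J p1) = inner ℝ z (J p1) := by
        have e : inner ℝ z' (J p1) = 0 := by
          rw [hz', inner_add_left, inner_smul_left, inner_smul_left, hj01, hj11]
          simp
        rw [inner_sub_left, e, sub_zero]
      have hn0 : ‖J p0‖ ^ 2 = ‖p0‖ ^ 2 := by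
        rw [← real_inner_self_eq_norm_sq, two_iso6 hJ, real_inner_self_eq_norm_sq]
      have hn1 : ‖J p1‖ ^ 2 = ‖p1‖ ^ 2 := by
        rw [← real_inner_self_eq_norm_sq, two_iso6 hJ, real_inner_self_eq_norm_sq]
      have hDJ : ‖J p0‖ ^ 2 * ‖J p1‖ ^ 2 - inner ℝ (J p0) (J p1) ^ 2 = D' := by
        rw [hn0, hn1, two_iso6 hJ, hDd']
      have hg := gram26 (z - z') v (J p0) (J p1) (by rw [hDJ]; exact hD')
      rw [hDJ, hB0, hB1] at hg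
      have e1 : inner ℝ z (J p0) * inner ℝ v (J p1) - inner ℝ z (J p1) * inner ℝ v (J p0) =
          ‖z‖ ^ 2 * (inner ℝ q0 (J p0) * inner ℝ q1 (J p1) - inner ℝ q0 (J p1) * inner ℝ q1 (J p0)) := by
        rw [← hzz, hB, hB, hBv, hBv]
        ring
      rw [e1, mul_pow, hvn] at hg
      have h5 : (‖z‖ ^ 2) ^ 2 * (c ^ 2 * (D * D')) ≤ ‖z - z'‖ ^ 2 * (D * ‖z‖ ^ 2 * D') :=
        (mul_le_mul_of_nonneg_left hop (by positivity)).trans hg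
      have h6 : (c ^ 2 * ‖z‖ ^ 2) * (D * D' * ‖z‖ ^ 2) ≤ ‖z - z'‖ ^ 2 * (D * D' * ‖z‖ ^ 2) := by
        calc (c ^ 2 * ‖z‖ ^ 2) * (D * D' * ‖z‖ ^ 2) = (‖z‖ ^ 2) ^ 2 * (c ^ 2 * (D * D')) := by ring
          _ ≤ ‖z - z'‖ ^ 2 * (D * ‖z‖ ^ 2 * D') := h5
          _ = ‖z - z'‖ ^ 2 * (D * D' * ‖z‖ ^ 2) := by ring
      exact le_of_mul_le_mul_right h6 (by positivity)
  have hy : ‖y‖ ^ 2 = Q + ‖z‖ ^ 2 := by
    have e : y = (y - z) + z := by abel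
    have e2 := norm_add_sq_real (y - z) z
    rw [← e, hz2, hz1] at e2
    linarith
  have hzb : ‖z‖ ^ 2 ≤ 4 * Q / c ^ 2 := by
    rw [le_div_iff₀ (by positivity)]
    calc ‖z‖ ^ 2 * c ^ 2 = c ^ 2 * ‖z‖ ^ 2 := by ring
      _ ≤ 4 * Q := hmain.trans hdist
  rw [hy]
  have h7 : 4 * Q / c ^ 2 ≤ 32 / c ^ 2 * Q := by
    rw [div_mul_eq_mul_div]
    apply div_le_div_of_nonneg_right _ (by positivity)
    linarith
  calc Q + ‖z‖ ^ 2 ≤ Q + 32 / c ^ 2 * Q := by linarith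
    _ = (1 + 32 / c ^ 2) * Q := by ring

omit [CompleteSpace V] in
private lemma cramer6 {κ X s t m n D : ℝ} (hκ : 0 < κ) (hD : κ / 2 ≤ |D|) (hX : 0 ≤ X)
    (hs : |s| ≤ X) (ht : |t| ≤ X) (hm : |m| ≤ 1) (hn : |n| ≤ 1) :
    |(s * m - t * n) / D| ≤ 4 / κ * X := by
  have hD0 : 0 < |D| := lt_of_lt_of_le (by positivity) hD
  rw [abs_div, div_le_iff₀ hD0]
  have h1 : |s * m - t * n| ≤ X * 1 + X * 1 := by
    refine (abs_sub _ _).trans (add_le_add ?_ ?_)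
    · rw [abs_mul]
      exact mul_le_mul hs hm (abs_nonneg _) hX
    · rw [abs_mul]
      exact mul_le_mul ht hn (abs_nonneg _) hX
  have h2 : 4 / κ * X * (κ / 2) ≤ 4 / κ * X * |D| := mul_le_mul_of_nonneg_left hD (by positivity)
  have h3 : 4 / κ * X * (κ / 2) = 2 * X := by field_simp; ring
  linarith

theorem dec2 {J : V →L[ℝ] V} (hJ1 : ∀ x, ‖J x‖ = ‖x‖) (hJ2 : ∀ x y, inner ℝ (J x) y = inner ℝ x (J y)) {a0 a1 b0 b1 : V} {κ : ℝ}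
    (hκ : 0 < κ) (hκ1 : κ ≤ 1) (ua0 : ‖a0‖ = 1) (ua1 : ‖a1‖ = 1) (ub0 : ‖b0‖ = 1) (ub1 : ‖b1‖ = 1)
    (hi00 : inner ℝ a0 (J a0) = 0) (hi01 : inner ℝ a0 (J a1) = 0) (hi11 : inner ℝ a1 (J a1) = 0)
    (hj00 : inner ℝ b0 (J b0) = 0) (hj01 : inner ℝ b0 (J b1) = 0) (hj11 : inner ℝ b1 (J b1) = 0)
    (hop : κ / 2 ≤ |inner ℝ a0 (J b0) * inner ℝ a1 (J b1) - inner ℝ a0 (J b1) * inner ℝ a1 (J b0)|) (x : V) :
    ∃ (α0 α1 β0 β1 : ℝ) (d : V), x = α0 • a0 + α1 • a1 + β0 • b0 + β1 • b1 + d ∧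
      inner ℝ d (J a0) = 0 ∧ inner ℝ d (J a1) = 0 ∧ inner ℝ d (J b0) = 0 ∧ inner ℝ d (J b1) = 0 ∧
      |α0| ≤ 4 / κ * ‖x‖ ∧ |α1| ≤ 4 / κ * ‖x‖ ∧ |β0| ≤ 4 / κ * ‖x‖ ∧ |β1| ≤ 4 / κ * ‖x‖ ∧ ‖d‖ ≤ 17 / κ * ‖x‖ := by
  have hX : ∀ u v : V, ‖v‖ = 1 → |inner ℝ u (J v)| ≤ ‖u‖ := by
    intro u v hv
    have h := abs_real_inner_le_norm u (J v)
    rwa [hJ1, hv, mul_one] at h
  have hsym : ∀ u v : V, inner ℝ u (J v) = inner ℝ v (J u) := by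
    intro u v
    rw [← hJ2, real_inner_comm]
  set m00 : ℝ := inner ℝ a0 (J b0) with h00
  set m01 : ℝ := inner ℝ a0 (J b1) with h01
  set m10 : ℝ := inner ℝ a1 (J b0) with h10
  set m11 : ℝ := inner ℝ a1 (J b1) with h11
  set s0 : ℝ := inner ℝ x (J b0) with hs0
  set s1 : ℝ := inner ℝ x (J b1) with hs1
  set t0 : ℝ := inner ℝ x (J a0) with ht0
  set t1 : ℝ := inner ℝ x (J a1) with ht1
  set D : ℝ := m00 * m11 - m01 * m10 with hD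
  have b00 : |m00| ≤ 1 := by have := hX a0 b0 ub0; rwa [ua0] at this
  have b01 : |m01| ≤ 1 := by have := hX a0 b1 ub1; rwa [ua0] at this
  have b10 : |m10| ≤ 1 := by have := hX a1 b0 ub0; rwa [ua1] at this
  have b11 : |m11| ≤ 1 := by have := hX a1 b1 ub1; rwa [ua1] at this
  have bs0 : |s0| ≤ ‖x‖ := hX x b0 ub0
  have bs1 : |s1| ≤ ‖x‖ := hX x b1 ub1
  have bt0 : |t0| ≤ ‖x‖ := hX x a0 ua0
  have bt1 : |t1| ≤ ‖x‖ := hX x a1 ua1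
  have hD0 : D ≠ 0 := by
    intro h
    rw [h, abs_zero] at hop
    linarith
  set α0 : ℝ := (s0 * m11 - s1 * m10) / D with hα0
  set α1 : ℝ := (s1 * m00 - s0 * m01) / D with hα1
  set β0 : ℝ := (t0 * m11 - t1 * m01) / D with hβ0
  set β1 : ℝ := (t1 * m00 - t0 * m10) / D with hβ1
  have A0 : |α0| ≤ 4 / κ * ‖x‖ := cramer6 hκ hop (norm_nonneg _) bs0 bs1 b11 b10
  have A1 : |α1| ≤ 4 / κ * ‖x‖ := cramer6 hκ hop (norm_nonneg _) bs1 bs0 b00 b01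
  have B0 : |β0| ≤ 4 / κ * ‖x‖ := cramer6 hκ hop (norm_nonneg _) bt0 bt1 b11 b01
  have B1 : |β1| ≤ 4 / κ * ‖x‖ := cramer6 hκ hop (norm_nonneg _) bt1 bt0 b00 b10
  refine ⟨α0, α1, β0, β1, x - (α0 • a0 + α1 • a1 + β0 • b0 + β1 • b1), by abel, ?_, ?_, ?_, ?_,
    A0, A1, B0, B1, ?_⟩
  · simp only [inner_sub_left, inner_add_left, inner_smul_left, RCLike.conj_to_real]
    rw [hsym a1 a0, hsym b0 a0, hsym b1 a0, hi00, hi01, ← h00, ← h01, ← ht0, hβ0, hβ1]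
    field_simp
    rw [hD]
    ring
  · simp only [inner_sub_left, inner_add_left, inner_smul_left, RCLike.conj_to_real]
    rw [hsym b0 a1, hsym b1 a1, hi11, hi01, ← h10, ← h11, ← ht1, hβ0, hβ1]
    field_simp
    rw [hD]
    ring
  · simp only [inner_sub_left, inner_add_left, inner_smul_left, RCLike.conj_to_real]
    rw [hsym b1 b0, hj00, hj01, ← h00, ← h10, ← hs0, hα0, hα1]
    field_simp
    rw [hD]
    ring
  · simp only [inner_sub_left, inner_add_left, inner_smul_left, RCLike.conj_to_real]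
    rw [hj11, hj01, ← h01, ← h11, ← hs1, hα0, hα1]
    field_simp
    rw [hD]
    ring
  · have n1 : ‖x - (α0 • a0 + α1 • a1 + β0 • b0 + β1 • b1)‖ ≤ ‖x‖ + (|α0| + |α1| + |β0| + |β1|) := by
      refine (norm_sub_le _ _).trans (add_le_add_right ?_ _)
      refine (norm_add_le _ _).trans (add_le_add ?_ ?_)
      · refine (norm_add_le _ _).trans (add_le_add ?_ ?_)
        · refine (norm_add_le _ _).trans (add_le_add ?_ ?_)
          · rw [norm_smul, ua0, mul_one, Real.norm_eq_abs]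
          · rw [norm_smul, ua1, mul_one, Real.norm_eq_abs]
        · rw [norm_smul, ub0, mul_one, Real.norm_eq_abs]
      · rw [norm_smul, ub1, mul_one, Real.norm_eq_abs]
    have n2 : ‖x‖ ≤ 1 / κ * ‖x‖ := by
      have h : 1 ≤ 1 / κ := by rw [le_div_iff₀ hκ]; linarith
      calc ‖x‖ = 1 * ‖x‖ := (one_mul _).symm
        _ ≤ 1 / κ * ‖x‖ := mul_le_mul_of_nonneg_right h (norm_nonneg _)
    have n3 : 17 / κ * ‖x‖ = 1 / κ * ‖x‖ + 4 * (4 / κ * ‖x‖) := by ring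
    rw [n3]
    linarith

end Pool.Agent.Helper20.TB
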