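import Pool.Agent.Helper20.TB.Defs
import Pool.Agent.Helper78.BM.Phi

/-!
# Project OB (MP_0f6f3f_an), layer TB, block TB-V: the inverse sequence

PROOF. `zx (g⁻¹) (x) = cf (E.U (a(g⁻¹, g x)))` and `a(g⁻¹, g x) = a(g, x)⁻¹` (cocycle identity), `cf (u⁻¹) γ = conj (cf u γ⁻¹)` for `u` with `CommR` (`f2_cf_inv` in `Helper84/NI/F2.lean`, or `jjU`-lemmas): so `zx (g⁻¹) (x) (γ) = conj (zx g (g x) (γ⁻¹))`. Consider the antiunitary `I : UE μ (L2 G) → UE μ (L2 G)` given by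
`(x_n)_n ↦ (x ↦ cj (ivU (x_n (b n • x))))_n` (`cj`: complex conjugation, `ivU`: `(ivU f)(γ) = f(γ⁻¹)`; on `XL`: composition with the measure preserving map `x ↦ b n x`): `I (vec b) = vec b⁻¹`, `I` intertwines `UE.map (ind s)` and `UE.map (ind s⁻¹)`, so by `hR` maps `XUaSet μ R` onto itself (its inverse is of the same form with `(b n)⁻¹`), hence `XUa μ R` onto itself, so
it commutes with the orthogonal projection and `‖XPpr R (vec b⁻¹)‖ = ‖XPpr R (I (vec b))‖ = ‖XPpr R (vec b)‖`. In place of an antiunitary one can compose with unitaries only: `vec b` and the conjugate (`E.conj`), or use the formula for the norm of the projection as a limit: `‖XPpr R ξ‖² = sup_n inf_{s ∈ R.F n} ‖UE.map (ind s) ξ‖²`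
(search `XPpr`, `XPn`, `norm_XPpr` in `Helper84/FR`, `Helper55/FR`, `Helper96/FR`, `Helper43/TA` (`ms`, `mR`)); then only `‖UE.map (ind s) (vec b⁻¹)‖ = ‖UE.map (ind s⁻¹) (vec b)‖` is needed, which is the limit of the identity `‖cl (ind s) (zx g⁻¹)‖ = ‖cl (ind s⁻¹) (zx g)‖` (integrals, `xl_norm_sq`).
-/

set_option autoImplicit false
set_option linter.unusedSectionVars false

open MeasureTheory Filter Topology
open scoped ComplexConjugate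

namespace Pool.Agent.Helper20.TB

open Pool.Agent.Helper84 Pool.Agent.Helper84.GN Pool.Agent.Helper84.GN.S3 Pool.Agent.Helper84.GN.S3.X
open Pool.Agent.Helper84.NI Pool.Agent.Helper84.GVN Pool.Agent.Helper90.RK
open Pool.Agent.Helper96.RK Pool.Agent.Helper66.FR Pool.Agent.Helper84.FR Pool.Agent.Helper55.FR Pool.Agent.Helper78.BM

variable {G1 X G Λ : Type} [Group G1] [TopologicalSpace G1] [IsTopologicalGroup G1] [MeasurableSpace X] [MulAction G1 X]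
  [MeasurableConstSMul G1 X] [Group G] [Group Λ] [Countable Λ] {μ : Measure X} [SMulInvariantMeasure G1 X μ]
  [IsProbabilityMeasure μ] {a : Cocy G1 X Λ} {E : Emb Λ G}

section Abs

variable {G X : Type} [Group G] [MeasurableSpace X] {μ : Measure X} (R : Reg G)

omit [Group G] in
private theorem sq75 (s : Set G) (ξ : UE μ (L2 G)) :
    inner ℂ (UE.map μ (ind ℂ s) ξ) ξ = ((‖UE.map μ (ind ℂ s) ξ‖ ^ 2 : ℝ) : ℂ) := by
  have h1 : inner ℂ (UE.map μ (ind ℂ s) ξ) (UE.map μ (ind ℂ s) ξ) =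
      ((‖UE.map μ (ind ℂ s) ξ‖ ^ 2 : ℝ) : ℂ) := by
    rw [inner_self_eq_norm_sq_to_K]
    norm_cast
  rw [← h1, ← xinner_ind, xind_ind, Set.inter_self]

omit [Group G] in
private theorem dist75 {s t : Set G} (h : t ⊆ s) (ξ : UE μ (L2 G)) :
    ‖UE.map μ (ind ℂ s) ξ - UE.map μ (ind ℂ t) ξ‖ ^ 2 =
      ‖UE.map μ (ind ℂ s) ξ‖ ^ 2 - ‖UE.map μ (ind ℂ t) ξ‖ ^ 2 := by
  have h1 : inner ℂ (UE.map μ (ind ℂ s) ξ) (UE.map μ (ind ℂ t) ξ) =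
      ((‖UE.map μ (ind ℂ t) ξ‖ ^ 2 : ℝ) : ℂ) := by
    rw [← sq75, xinner_ind, xind_ind, Set.inter_eq_self_of_subset_right h, xinner_ind]
  have h2 := norm_sub_sq (𝕜 := ℂ) (UE.map μ (ind ℂ s) ξ) (UE.map μ (ind ℂ t) ξ)
  rw [h1] at h2
  have h3 : RCLike.re (((‖UE.map μ (ind ℂ t) ξ‖ ^ 2 : ℝ) : ℂ)) = ‖UE.map μ (ind ℂ t) ξ‖ ^ 2 :=
    Complex.ofReal_re _
  rw [h3] at h2
  linarith

private theorem monoF75 {m n : ℕ} (h : m ≤ n) {s : Set G} (hs : s ∈ R.F n) : s ∈ R.F m :=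
  monotone_nat_of_le_succ R.monoF h hs

/-- the span of the vectors carried by a filter -/
private theorem span75 {ζ : UE μ (L2 G)} (h : ζ ∈ Submodule.span ℂ (XUaSet μ R)) :
    ∃ n : ℕ, ∀ s ∈ R.F n, UE.map μ (ind ℂ s) ζ = ζ := by
  induction h using Submodule.span_induction with
  | mem x hx => exact hx
  | zero => exact ⟨0, fun s _ => map_zero _⟩
  | add x y _ _ hx hy =>
    obtain ⟨n, hn⟩ := hx
    obtain ⟨m, hm⟩ := hy
    refine ⟨max n m, fun s hs => ?_⟩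
    rw [map_add, hn s (monoF75 R (le_max_left _ _) hs), hm s (monoF75 R (le_max_right _ _) hs)]
  | smul c x _ hx =>
    obtain ⟨n, hn⟩ := hx
    exact ⟨n, fun s hs => by rw [map_smul, hn s hs]⟩

/-- the projection is not larger than the limit of the masses -/
private theorem low75 (ξ : UE μ (L2 G)) {ε : ℝ} (hε : 0 < ε) :
    ∃ n : ℕ, ∀ t ∈ R.F n, ‖XPpr R ξ‖ - ε ≤ ‖UE.map μ (ind ℂ t) ξ‖ := by
  have h1 : ((XPpr R ξ : XUa μ R) : UE μ (L2 G)) ∈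
      closure ((Submodule.span ℂ (XUaSet μ R) : Submodule ℂ (UE μ (L2 G))) : Set (UE μ (L2 G))) :=
    (XPpr R ξ).2
  obtain ⟨ζ, hζ, hd⟩ := Metric.mem_closure_iff.1 h1 (ε / 2) (by positivity)
  obtain ⟨n, hn⟩ := span75 R hζ
  refine ⟨n, fun t ht => ?_⟩
  rw [dist_eq_norm] at hd
  have h2 : ‖XPpr R ξ‖ = ‖((XPpr R ξ : XUa μ R) : UE μ (L2 G))‖ := rfl
  have h3 : ‖((XPpr R ξ : XUa μ R) : UE μ (L2 G))‖ ≤ ‖ζ‖ + ε / 2 := by
    calc ‖((XPpr R ξ : XUa μ R) : UE μ (L2 G))‖ = ‖ζ + (((XPpr R ξ : XUa μ R) : UE μ (L2 G)) - ζ)‖ := by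
          rw [add_sub_cancel]
      _ ≤ ‖ζ‖ + ‖((XPpr R ξ : XUa μ R) : UE μ (L2 G)) - ζ‖ := norm_add_le _ _
      _ ≤ ‖ζ‖ + ε / 2 := by linarith
  have hζU : ζ ∈ XUa μ R := Submodule.le_topologicalClosure _ hζ
  have h4 : inner ℂ ζ (UE.map μ (ind ℂ t) ξ) = inner ℂ ζ ((XPpr R ξ : XUa μ R) : UE μ (L2 G)) := by
    rw [← xinner_ind, hn t ht]
    exact inner_XPpr R ξ ⟨ζ, hζU⟩
  have h5 : ‖ζ‖ * (‖ζ‖ - ε / 2) ≤ ‖ζ‖ * ‖UE.map μ (ind ℂ t) ξ‖ := by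
    have h6 : ‖(inner ℂ ζ (((XPpr R ξ : XUa μ R) : UE μ (L2 G)) - ζ) : ℂ)‖ ≤ ‖ζ‖ * (ε / 2) :=
      (norm_inner_le_norm _ _).trans (mul_le_mul_of_nonneg_left hd.le (norm_nonneg _))
    have h7 : (inner ℂ ζ ((XPpr R ξ : XUa μ R) : UE μ (L2 G)) : ℂ) =
        ((‖ζ‖ ^ 2 : ℝ) : ℂ) + inner ℂ ζ (((XPpr R ξ : XUa μ R) : UE μ (L2 G)) - ζ) := by
      have h8 : (inner ℂ ζ ζ : ℂ) = ((‖ζ‖ ^ 2 : ℝ) : ℂ) := by
        rw [inner_self_eq_norm_sq_to_K]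
        norm_cast
      rw [inner_sub_right, h8]
      ring
    have h9 : ‖(inner ℂ ζ (UE.map μ (ind ℂ t) ξ) : ℂ)‖ ≤ ‖ζ‖ * ‖UE.map μ (ind ℂ t) ξ‖ :=
      norm_inner_le_norm _ _
    rw [h4, h7] at h9
    have h10 : ‖((‖ζ‖ ^ 2 : ℝ) : ℂ)‖ = ‖ζ‖ ^ 2 := by
      rw [Complex.norm_real, Real.norm_of_nonneg (sq_nonneg _)]
    have h11 := norm_sub_le (((‖ζ‖ ^ 2 : ℝ) : ℂ) + inner ℂ ζ (((XPpr R ξ : XUa μ R) : UE μ (L2 G)) - ζ))
      (inner ℂ ζ (((XPpr R ξ : XUa μ R) : UE μ (L2 G)) - ζ))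
    rw [add_sub_cancel_right, h10] at h11
    nlinarith
  rw [h2]
  rcases eq_or_lt_of_le (norm_nonneg ζ) with h12 | h12
  · rw [← h12] at h3
    have := norm_nonneg (UE.map μ (ind ℂ t) ξ)
    linarith
  · have := le_of_mul_le_mul_left h5 h12
    linarith

/-- the projection is at least the limit of the masses -/
private theorem up75 (ξ : UE μ (L2 G)) (n : ℕ) {c : ℝ} (hc0 : 0 ≤ c)
    (hc : ∀ s ∈ R.F n, c ≤ ‖UE.map μ (ind ℂ s) ξ‖) : c ≤ ‖XPpr R ξ‖ := by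
  set S : Set ℝ := {x | ∃ s ∈ R.F n, x = ‖UE.map μ (ind ℂ s) ξ‖ ^ 2} with hS
  have hne : S.Nonempty := ⟨_, Set.univ, Filter.univ_mem, rfl⟩
  have hbd : BddBelow S := ⟨0, by rintro x ⟨s, _, rfl⟩; positivity⟩
  set m := sInf S with hm
  have hmle : ∀ s ∈ R.F n, m ≤ ‖UE.map μ (ind ℂ s) ξ‖ ^ 2 := fun s hs => csInf_le hbd ⟨s, hs, rfl⟩
  have hcm : c ^ 2 ≤ m := by
    refine le_csInf hne ?_
    rintro x ⟨s, hs, rfl⟩
    exact pow_le_pow_left₀ hc0 (hc s hs) 2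
  have hex : ∀ k : ℕ, ∃ s ∈ R.F n, ‖UE.map μ (ind ℂ s) ξ‖ ^ 2 < m + 1 / ((k : ℝ) + 1) := by
    intro k
    obtain ⟨x, ⟨s, hs, rfl⟩, hx⟩ := exists_lt_of_csInf_lt hne (show sInf S < m + 1 / ((k : ℝ) + 1) by
      have : (0 : ℝ) < 1 / ((k : ℝ) + 1) := by positivity
      linarith)
    exact ⟨s, hs, hx⟩
  choose s hs hsm using hex
  have hone : ∀ k, ∀ t ∈ R.F n, ‖UE.map μ (ind ℂ (s k)) ξ - UE.map μ (ind ℂ (t ∩ s k)) ξ‖ ≤
      Real.sqrt (1 / ((k : ℝ) + 1)) := by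
    intro k t ht
    refine Real.le_sqrt_of_sq_le ?_
    rw [dist75 Set.inter_subset_right]
    have := hmle _ (Filter.inter_mem ht (hs k))
    have := hsm k
    linarith
  have hsq : ∀ N k : ℕ, N ≤ k → Real.sqrt (1 / ((k : ℝ) + 1)) ≤ Real.sqrt (1 / ((N : ℝ) + 1)) := by
    intro N k h
    refine Real.sqrt_le_sqrt (one_div_le_one_div_of_le (by positivity) ?_)
    have : (N : ℝ) ≤ k := by exact_mod_cast h
    linarith
  have hlim0 : Tendsto (fun k : ℕ => Real.sqrt (1 / ((k : ℝ) + 1))) atTop (𝓝 0) := by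
    have h1 := (Real.continuous_sqrt.tendsto 0).comp tendsto_one_div_add_atTop_nhds_zero_nat
    rw [Real.sqrt_zero] at h1
    exact h1
  have hcau : CauchySeq fun k => UE.map μ (ind ℂ (s k)) ξ := by
    refine cauchySeq_of_le_tendsto_0 (fun N : ℕ => 2 * Real.sqrt (1 / ((N : ℝ) + 1))) ?_ (by
      have := hlim0.const_mul 2
      rwa [mul_zero] at this)
    intro k l N hk hl
    have h1 := (hone k (s l) (hs l)).trans (hsq N k hk)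
    have h2 := (hone l (s k) (hs k)).trans (hsq N l hl)
    rw [Set.inter_comm] at h2
    rw [dist_eq_norm]
    calc ‖UE.map μ (ind ℂ (s k)) ξ - UE.map μ (ind ℂ (s l)) ξ‖
        = ‖(UE.map μ (ind ℂ (s k)) ξ - UE.map μ (ind ℂ (s l ∩ s k)) ξ) -
            (UE.map μ (ind ℂ (s l)) ξ - UE.map μ (ind ℂ (s l ∩ s k)) ξ)‖ := by
          congr 1
          abel
      _ ≤ _ := norm_sub_le _ _
      _ ≤ 2 * Real.sqrt (1 / ((N : ℝ) + 1)) := by linarith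
  obtain ⟨ζ, hζ⟩ := cauchySeq_tendsto_of_complete hcau
  have hfix : ∀ t ∈ R.F n, UE.map μ (ind ℂ t) ζ = ζ := by
    intro t ht
    have h1 : Tendsto (fun k => UE.map μ (ind ℂ (s k)) ξ - UE.map μ (ind ℂ t) (UE.map μ (ind ℂ (s k)) ξ)) atTop
        (𝓝 (ζ - UE.map μ (ind ℂ t) ζ)) :=
      hζ.sub (((UE.map μ (ind ℂ t)).continuous.tendsto ζ).comp hζ)
    have h2 : Tendsto (fun k => UE.map μ (ind ℂ (s k)) ξ - UE.map μ (ind ℂ t) (UE.map μ (ind ℂ (s k)) ξ)) atTop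
        (𝓝 0) := by
      refine squeeze_zero_norm (fun k => ?_) hlim0
      rw [xind_ind]
      exact hone k t ht
    exact (sub_eq_zero.1 (tendsto_nhds_unique h1 h2)).symm
  have hζU : ζ ∈ XUa μ R := Submodule.le_topologicalClosure _ (Submodule.subset_span ⟨n, hfix⟩)
  have hmlim : Tendsto (fun k => ‖UE.map μ (ind ℂ (s k)) ξ‖ ^ 2) atTop (𝓝 m) := by
    refine tendsto_of_tendsto_of_tendsto_of_le_of_le tendsto_const_nhds ?_ (fun k => hmle _ (hs k)) (fun k => (hsm k).le)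
    have := (tendsto_one_div_add_atTop_nhds_zero_nat (𝕜 := ℝ)).const_add m
    rwa [add_zero] at this
  have hζm : ‖ζ‖ ^ 2 = m := tendsto_nhds_unique (hζ.norm.pow 2) hmlim
  have hin : (inner ℂ ζ ξ : ℂ) = ((m : ℝ) : ℂ) := by
    have h1 : Tendsto (fun k => (inner ℂ (UE.map μ (ind ℂ (s k)) ξ) ξ : ℂ)) atTop (𝓝 (inner ℂ ζ ξ)) :=
      hζ.inner tendsto_const_nhds
    have h2 : Tendsto (fun k => (inner ℂ (UE.map μ (ind ℂ (s k)) ξ) ξ : ℂ)) atTop (𝓝 ((m : ℝ) : ℂ)) := by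
      simp only [sq75]
      exact (Complex.continuous_ofReal.tendsto m).comp hmlim
    exact tendsto_nhds_unique h1 h2
  have h1 := inner_XPpr R ξ ⟨ζ, hζU⟩
  have h2 : (inner ℂ ζ ξ : ℂ) = inner ℂ (⟨ζ, hζU⟩ : XUa μ R) (XPpr R ξ) := h1
  have h3 := norm_inner_le_norm (𝕜 := ℂ) (⟨ζ, hζU⟩ : XUa μ R) (XPpr R ξ)
  have hm0 : 0 ≤ m := (sq_nonneg c).trans hcm
  rw [← h2, hin, Complex.norm_real, Real.norm_of_nonneg hm0] at h3
  have h4 : ‖(⟨ζ, hζU⟩ : XUa μ R)‖ = ‖ζ‖ := rfl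
  rw [h4, ← hζm, sq] at h3
  have h5 : c ≤ ‖ζ‖ := by
    refine le_of_sq_le_sq ?_ (norm_nonneg _)
    rw [hζm]
    exact hcm
  rcases eq_or_lt_of_le (norm_nonneg ζ) with h6 | h6
  · rw [← h6] at h5
    exact h5.trans (norm_nonneg _)
  · exact h5.trans (le_of_mul_le_mul_left h3 h6)

/-- the masses determine the norm of the projection -/
private theorem mass75 {ξ ξ' : UE μ (L2 G)}
    (h : ∀ n, ∀ s ∈ R.F n, ∃ t ∈ R.F n, ‖UE.map μ (ind ℂ t) ξ‖ ≤ ‖UE.map μ (ind ℂ s) ξ'‖) :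
    ‖XPpr R ξ‖ ≤ ‖XPpr R ξ'‖ := by
  refine le_of_forall_pos_le_add fun ε hε => ?_
  obtain ⟨n, hn⟩ := low75 R ξ hε
  rcases le_or_gt (‖XPpr R ξ‖ - ε) 0 with h0 | h0
  · have := norm_nonneg (XPpr R ξ')
    linarith
  · have h1 := up75 R ξ' n h0.le fun s hs => by
      obtain ⟨t, ht, hst⟩ := h n s hs
      exact (hn t ht).trans hst
    linarith

end Abs

section Inv

variable {G X Λ : Type} [Group G] [Group Λ] {E : Emb Λ G}

private theorem point75 (l : Λ) (s : Set G) : ‖ind ℂ s (cf (E.U l⁻¹))‖ = ‖ind ℂ s⁻¹ (cf (E.U l))‖ := by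
  classical
  have h1 : ∀ f : L2 G, ‖f‖ ^ 2 = ∑' i, ‖f i‖ ^ 2 := by
    intro f
    have := lp.norm_rpow_eq_tsum (p := 2) (by norm_num) f
    simpa using this
  have h2 : ‖ind ℂ s (cf (E.U l⁻¹))‖ ^ 2 = ‖ind ℂ s⁻¹ (cf (E.U l))‖ ^ 2 := by
    rw [h1, h1, ← (Equiv.inv G).tsum_eq]
    refine tsum_congr fun x => ?_
    rw [Equiv.inv_apply, ind_apply, ind_apply, map_inv, f2_cf_inv (E.comm l) x, Set.mem_inv]
    split_ifs
    · rw [RCLike.norm_conj]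
    · rfl
  exact (sq_eq_sq₀ (norm_nonneg _) (norm_nonneg _)).1 h2

end Inv

private theorem zx_inv75 (g : G1) (s : Set G) :
    ‖cl μ (ind ℂ s) (zx μ a E g⁻¹)‖ = ‖cl μ (ind ℂ s⁻¹) (zx μ a E g)‖ := by
  have hα : Mea fun x => a.a g (g⁻¹ • x) := mea_a g g⁻¹
  have h1 : kp μ (L2 G) g (zx μ a E g⁻¹) = zv μ E fun x => (a.a g (g⁻¹ • x))⁻¹ := by
    rw [zx_eq, kp_zv g (mea_a g⁻¹ g⁻¹⁻¹)]
    congr 1
    funext x
    rw [inv_inv, smul_inv_smul, a.inv]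
  have h2 : ‖cl μ (ind ℂ s) (zx μ a E g⁻¹)‖ = ‖cl μ (ind ℂ s) (zv μ E fun x => (a.a g (g⁻¹ • x))⁻¹)‖ := by
    rw [← h1, cl_kp, LinearIsometryEquiv.norm_map]
  have h3 : ‖cl μ (ind ℂ s) (zv μ E fun x => (a.a g (g⁻¹ • x))⁻¹)‖ ^ 2 = ‖cl μ (ind ℂ s⁻¹) (zx μ a E g)‖ ^ 2 := by
    rw [xl_norm_sq, xl_norm_sq]
    refine integral_congr_ae ?_
    filter_upwards [cl_apply (ind ℂ s) (zv μ E fun x => (a.a g (g⁻¹ • x))⁻¹),
      cl_apply (ind ℂ s⁻¹) (zx μ a E g), zv_apply (μ := μ) (E := E) hα.inv, zv_apply (μ := μ) (E := E) hα] with x h4 h5 h6 h7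
    rw [h4, h5, h6, zx_eq, h7, point75]
  rw [h2]
  exact (sq_eq_sq₀ (norm_nonneg _) (norm_nonneg _)).1 h3

private theorem ms_inv75 (s : Set G) (b : ℕ → G1) :
    ‖UE.map μ (ind ℂ s) (vec μ a E fun n => (b n)⁻¹)‖ = ‖UE.map μ (ind ℂ s⁻¹) (vec μ a E b)‖ := by
  have h1 := Pool.Agent.Helper43.TA.ms_tendsto (μ := μ) (a := a) (E := E) s fun n => (b n)⁻¹
  have h2 := Pool.Agent.Helper43.TA.ms_tendsto (μ := μ) (a := a) (E := E) s⁻¹ b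
  simp only [zx_inv75] at h1
  have h3 := tendsto_nhds_unique h1 h2
  exact (sq_eq_sq₀ (norm_nonneg _) (norm_nonneg _)).1 h3

theorem norm_XPpr_inv (R : Reg G) (hR : ∀ n, Tendsto (fun γ : G => γ⁻¹) (R.F n) (R.F n)) (b : ℕ → G1) :
    ‖XPpr R (vec μ a E fun n => (b n)⁻¹)‖ = ‖XPpr R (vec μ a E b)‖ := by
  have hinv : ∀ n, ∀ s ∈ R.F n, s⁻¹ ∈ R.F n := fun n s hs => hR n hs
  refine le_antisymm (mass75 R fun n s hs => ⟨s⁻¹, hinv n s hs, ?_⟩) (mass75 R fun n s hs => ⟨s⁻¹, hinv n s hs, ?_⟩)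
  · rw [ms_inv75, inv_inv]
  · rw [ms_inv75]

end Pool.Agent.Helper20.TB
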