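import Pool.Agent.Helper20.TB.Rd2
import Pool.Agent.Helper43.LF.Defs

/-!
# Project OB (MP_0f6f3f_an), layer TB, block TB-G1: the real data of `SO2 P S`

PROOF of `exists_rd`. `D.r g = (P.ι g).map re`, `D.kL`, `D.kR` the real parts, `D.s = S.s`; by `real`, `realL`, `realR` (`cjM A = A` means that the entries are real: `Helper9/FP/Lin5.lean`) `P.ι g = (D.r g).map ofReal` etc. `oL`, `oR`: `S.uL`, `S.uR` (`IsU`), `fL`, `fR`, `form`, `spec`, `inv`, `mid`, `pos`, `anti`: by injectivity of `Matrix.map ofReal` (`Matrix.map_injective`, `map_mul`, `transpose_map`; conjugate transpose of a real matrix = transpose; `JJ N = (JR N).map ofReal`).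
`mul`: `P.mul'`: `P.ι (g h) = c • (P.ι g * P.ι h)`, `|c| = 1`; both matrices are real and not `0` (determinant), so `c` is real, `c = ± 1`. `fin`: `P.fin`: `ns (P.ι g) = ∑ s_i²` (`ns` is invariant under unitaries) `≤ N C²`.
`det1`: a `1 × 1` determinant. `det2`: `Matrix.det_fin_two`, `det_o2`: both sides are `⟪v0, J v0'⟫ ⟪v1, J v1'⟫ - ⟪v0, J v1'⟫ ⟪v1, J v0'⟫`; `(Vr r S γ)ᵀ * JR N * Vr r S γ'` has the entries `∑ kR_ki J_kl kR'_lj = ⟪col i, J col' j⟫` (`op_apply`, `PiLp.inner_apply`).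
-/

set_option autoImplicit false

open Matrix

namespace Pool.Agent.Helper20.TB

open Pool.Agent.Helper55.OB Pool.Agent.Helper90.RK Pool.Agent.Helper43.LF

variable {G : Type} [Group G] {N : ℕ} {P : PH G N} {S : Sv P}

section Aux

open Pool.Agent.Helper9.Lin (cjM cjM_mul cjM_smul)

/-- The complex matrix of a real one. -/
private noncomputable def cx_h54 (A : Matrix (Fin N) (Fin N) ℝ) : Matrix (Fin N) (Fin N) ℂ := A.map Complex.ofRealHom

/-- The real parts. -/
private noncomputable def re_h54 (A : Matrix (Fin N) (Fin N) ℂ) : Matrix (Fin N) (Fin N) ℝ := A.map Complex.re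

private theorem cx_re_h54 {A : Matrix (Fin N) (Fin N) ℂ} (h : cjM A = A) : cx_h54 (re_h54 A) = A := by
  ext i j
  have h1 : (starRingEnd ℂ) (A i j) = A i j := congrFun (congrFun h i) j
  exact Complex.conj_eq_iff_re.1 h1

private theorem cx_inj_h54 {A B : Matrix (Fin N) (Fin N) ℝ} (h : cx_h54 A = cx_h54 B) : A = B := by
  ext i j
  exact Complex.ofReal_injective (congrFun (congrFun h i) j)

private theorem cx_mul_h54 (A B : Matrix (Fin N) (Fin N) ℝ) : cx_h54 (A * B) = cx_h54 A * cx_h54 B :=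
  Matrix.map_mul

private theorem cx_T_h54 (A : Matrix (Fin N) (Fin N) ℝ) : cx_h54 Aᵀ = (cx_h54 A)ᵀ := rfl

private theorem cx_H_h54 (A : Matrix (Fin N) (Fin N) ℝ) : (cx_h54 A)ᴴ = cx_h54 Aᵀ := by
  ext i j
  exact Complex.conj_ofReal _

private theorem cx_one_h54 : cx_h54 (1 : Matrix (Fin N) (Fin N) ℝ) = 1 :=
  Matrix.map_one _ (map_zero _) (map_one _)

private theorem cx_neg_h54 (A : Matrix (Fin N) (Fin N) ℝ) : cx_h54 (-A) = -cx_h54 A := by
  ext i j
  exact Complex.ofReal_neg _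

private theorem cx_diag_h54 (d : Fin N → ℝ) : cx_h54 (diagonal d) = diagonal fun i => (d i : ℂ) := by
  unfold cx_h54
  rw [diagonal_map (map_zero _)]
  rfl

private theorem cx_JR_h54 : cx_h54 (JR N) = JJ N := by
  ext i j
  change Complex.ofRealHom (if j = jj N i then 1 else 0) = if j = jj N i then (1 : ℂ) else 0
  split_ifs
  · exact map_one _
  · exact map_zero _

private theorem mul_h54 (hS : SO2 P S) (g h : G) :
    re_h54 (P.ι (g * h)) = re_h54 (P.ι g) * re_h54 (P.ι h) ∨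
      re_h54 (P.ι (g * h)) = -(re_h54 (P.ι g) * re_h54 (P.ι h)) := by
  obtain ⟨c, hc, e⟩ := P.mul' g h
  have hN := hS.hN
  have : Nonempty (Fin N) := ⟨⟨0, by omega⟩⟩
  have hM : P.ι g * P.ι h ≠ 0 := by
    intro h0
    have h1 : ‖(P.ι g * P.ι h).det‖ = 1 := by
      rw [det_mul, norm_mul, P.det1, P.det1, one_mul]
    rw [h0, det_zero, norm_zero] at h1
    exact zero_ne_one h1
  have hcc : (starRingEnd ℂ) c = c := by
    have h1 : cjM (P.ι (g * h)) = (starRingEnd ℂ) c • (P.ι g * P.ι h) := by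
      rw [e, cjM_smul, cjM_mul, hS.real, hS.real]
    rw [hS.real, e] at h1
    have h2 : (c - (starRingEnd ℂ) c) • (P.ι g * P.ι h) = 0 := by
      rw [sub_smul, h1, sub_self]
    rcases smul_eq_zero.1 h2 with h3 | h3
    · exact (sub_eq_zero.1 h3).symm
    · exact absurd h3 hM
  have hcr : (c.re : ℂ) = c := Complex.conj_eq_iff_re.1 hcc
  have h1 : |c.re| = 1 := by
    rw [← hcr, Complex.norm_real] at hc
    exact hc
  have key : cx_h54 (re_h54 (P.ι (g * h))) = c • cx_h54 (re_h54 (P.ι g) * re_h54 (P.ι h)) := by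
    rw [cx_re_h54 (hS.real _), cx_mul_h54, cx_re_h54 (hS.real _), cx_re_h54 (hS.real _), e]
  rcases (abs_eq zero_le_one).1 h1 with h2 | h2
  · left
    apply cx_inj_h54
    rw [key, ← hcr, h2, Complex.ofReal_one, one_smul]
  · right
    apply cx_inj_h54
    rw [key, ← hcr, h2, cx_neg_h54, Complex.ofReal_neg, Complex.ofReal_one, neg_smul, one_smul]

private theorem form_h54 {A : Matrix (Fin N) (Fin N) ℂ} (h : cjM A = A) (hf : Aᵀ * JJ N * A = JJ N) :
    (re_h54 A)ᵀ * JR N * re_h54 A = JR N := by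
  apply cx_inj_h54
  rw [cx_mul_h54, cx_mul_h54, cx_T_h54, cx_re_h54 h, cx_JR_h54, hf]

private theorem orth_h54 {A : Matrix (Fin N) (Fin N) ℂ} (h : cjM A = A) (hf : Aᴴ * A = 1) :
    (re_h54 A)ᵀ * re_h54 A = 1 := by
  apply cx_inj_h54
  rw [cx_mul_h54, ← cx_H_h54, cx_re_h54 h, cx_one_h54, hf]

private theorem inner_h54 {n : Type} [Fintype n] (x y : EuclideanSpace ℝ n) : inner ℝ x y = ∑ i, x i * y i := by
  rw [PiLp.inner_apply]
  refine Finset.sum_congr rfl fun i _ => ?_
  exact mul_comm _ _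

private theorem ent_h54 {r : ℕ} (A B : Matrix (Fin N) (Fin r) ℝ) (i j : Fin r) :
    (Aᵀ * JR N * B) i j =
      inner ℝ (WithLp.toLp 2 fun k => A k i : EuclideanSpace ℝ (Fin N)) (op (JR N) (WithLp.toLp 2 fun k => B k j)) := by
  rw [Matrix.mul_assoc, mul_apply, inner_h54]
  refine Finset.sum_congr rfl fun k _ => ?_
  rw [mul_apply, op_apply]
  rfl

private theorem col_h54 {D : RD G N} (h : RS D S) (γ : G) {r : ℕ} (j : Fin r) (i : Fin N) (hij : (i : ℕ) = (j : ℕ)) :
    (WithLp.toLp 2 fun k => Vr r S γ k j : EuclideanSpace ℝ (Fin N)) = col (D.kR γ) i := by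
  ext k
  change (if h : (j : ℕ) < N then (S.kR γ k ⟨j, h⟩).re else 0) = D.kR γ k i
  have hj : (j : ℕ) < N := by
    rw [← hij]
    exact i.2
  have hi : (⟨(j : ℕ), hj⟩ : Fin N) = i := Fin.ext hij.symm
  rw [dif_pos hj, hi, h.kR, Complex.ofReal_re]

end Aux

theorem exists_rd (hS : SO2 P S) : ∃ D : RD G N, RS D S := by
  refine ⟨{ r := fun g => re_h54 (P.ι g)
            kL := fun g => re_h54 (S.kL g)
            kR := fun g => re_h54 (S.kR g)
            s := S.s
            hN := hS.hN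
            mul := fun g h => mul_h54 hS g h
            form := fun g => form_h54 (hS.real g) (hS.form g)
            oL := fun g => orth_h54 (hS.realL g) (S.uL g)
            oR := fun g => orth_h54 (hS.realR g) (S.uR g)
            fL := fun g => form_h54 (hS.realL g) (hS.formL g)
            fR := fun g => form_h54 (hS.realR g) (hS.formR g)
            pos := S.pos
            anti := S.anti
            spec := ?_
            inv := hS.inv
            mid := hS.mid
            fin := ?_ }, ⟨fun g i => rfl, fun g i j => ?_⟩⟩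
  · intro g
    apply cx_inj_h54
    rw [cx_mul_h54, cx_mul_h54, cx_re_h54 (hS.real g), cx_re_h54 (hS.realL g), cx_diag_h54, ← cx_H_h54,
      cx_re_h54 (hS.realR g)]
    exact S.spec g
  · intro C
    refine (P.fin (∑ _i : Fin N, C ^ 2)).subset fun g hg => ?_
    change Pool.Agent.Helper84.NI.ns (P.ι g) ≤ _
    rw [S.ns_iota]
    exact Finset.sum_le_sum fun i _ => pow_le_pow_left₀ (S.pos g i).le (hg i) 2
  · have h1 := congrFun (congrFun (cx_re_h54 (hS.realR g)) i) j
    exact h1.symm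

theorem RS.det1 {D : RD G N} (h : RS D S) (γ γ' : G) :
    ((Vr 1 S γ)ᵀ * JR N * Vr 1 S γ').det = inner ℝ (D.vR γ) (op (JR N) (D.vR γ')) := by
  rw [det_fin_one, ent_h54, col_h54 h γ 0 D.i0 rfl, col_h54 h γ' 0 D.i0 rfl]
  rfl

theorem RS.det2 {D : RD G N} (h : RS D S) (γ γ' : G) :
    ((Vr 2 S γ)ᵀ * JR N * Vr 2 S γ').det = inner ℝ (D.oR2 γ) (op (JK N) (D.oR2 γ')) := by
  rw [det_fin_two, ent_h54, ent_h54, ent_h54, ent_h54, col_h54 h γ 0 D.i0 rfl, col_h54 h γ' 0 D.i0 rfl,
    col_h54 h γ 1 D.i1 rfl, col_h54 h γ' 1 D.i1 rfl, D.det_o2]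
  rfl

end Pool.Agent.Helper20.TB
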