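import Pool.Agent.Helper20.TB.St
import Pool.Agent.Helper20.TB.Of
import Pool.Agent.Helper20.TB.Inv

/-!
# Project OB (MP_0f6f3f_an), layer TB, block TB-G3: the strata are invariant under inversion

PROOF. `D` from `exists_rd`. `D.s g⁻¹ i = D.s g i` for all `i` (`s0_inv`, `s1_inv`; the others by `D.inv`, `D.mid`), so `lg S g⁻¹ i = lg S g i` (`RS.s`), so `WC`, `TC` are invariant under `γ ↦ γ⁻¹`, and the filters `(R1 S).F n = FC S (K1 N) [] n` too (`mem_FC`). `mass_inv`: `norm_XPpr_inv`.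
-/

set_option autoImplicit false
set_option linter.unusedSectionVars false

open MeasureTheory Filter Topology Matrix

namespace Pool.Agent.Helper20.TB

open Pool.Agent.Helper84 Pool.Agent.Helper84.GN Pool.Agent.Helper84.GN.S3 Pool.Agent.Helper84.GN.S3.X
open Pool.Agent.Helper84.NI Pool.Agent.Helper84.GVN Pool.Agent.Helper90.RK
open Pool.Agent.Helper96.RK hiding toReg
open Pool.Agent.Helper66.FR Pool.Agent.Helper84.FR Pool.Agent.Helper55.FR Pool.Agent.Helper78.BM Pool.Agent.Helper55.OB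

variable {G1 X G Λ : Type} [Group G1] [TopologicalSpace G1] [IsTopologicalGroup G1] [MeasurableSpace X] [MulAction G1 X]
  [MeasurableConstSMul G1 X] [Group G] [Group Λ] [Countable Λ] {μ : Measure X} [SMulInvariantMeasure G1 X μ]
  [IsProbabilityMeasure μ] {a : Cocy G1 X Λ} {E : Emb Λ G} {N : ℕ} {P : PH G N} {S : Sv P}

private theorem s_inv (D : RD G N) (g : G) (i : Fin N) : D.s g⁻¹ i = D.s g i := by
  have hN := D.hN
  have h0 : D.s g⁻¹ D.i0 = D.s g D.i0 := D.s0_inv g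
  have h1 : D.s g⁻¹ D.i1 = D.s g D.i1 := D.s1_inv g
  have hi := i.2
  have key : ∀ j : Fin N, i.rev = j → D.s g⁻¹ j = D.s g j → D.s g⁻¹ i = D.s g i := by
    intro j hj hs
    have a1 := D.inv g i
    have a2 := D.inv g⁻¹ i
    rw [hj] at a1 a2
    rw [hs] at a2
    have a3 := D.pos g j
    have a4 : D.s g⁻¹ i * D.s g j = D.s g i * D.s g j := by rw [a1, a2]
    exact mul_right_cancel₀ a3.ne' a4
  by_cases c0 : (i : ℕ) = 0
  · have e : i = D.i0 := Fin.ext c0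
    rw [e, h0]
  by_cases c1 : (i : ℕ) = 1
  · have e : i = D.i1 := Fin.ext c1
    rw [e, h1]
  by_cases c2 : (i : ℕ) + 3 ≤ N
  · rw [D.mid g i (by omega) c2, D.mid g⁻¹ i (by omega) c2]
  by_cases c3 : (i : ℕ) + 2 = N
  · refine key D.i1 (Fin.ext ?_) h1
    rw [Fin.val_rev]
    change N - ((i : ℕ) + 1) = 1
    omega
  · refine key D.i0 (Fin.ext ?_) h0
    rw [Fin.val_rev]
    change N - ((i : ℕ) + 1) = 0
    omega

private theorem lg_inv (hS : SO2 P S) (g : G) (i : Fin N) : lg S g⁻¹ i = lg S g i := by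
  obtain ⟨D, hD⟩ := exists_rd hS
  have h : ∀ j, S.s g⁻¹ j = S.s g j := fun j => by rw [← hD.s, ← hD.s, s_inv]
  unfold lg gp
  by_cases c : (i : ℕ) + 1 < N
  · rw [dif_pos c, dif_pos c, h, h]
  · rw [dif_neg c, dif_neg c]

private theorem inv_FC (hS : SO2 P S) (J : Finset (Fin N)) (n : ℕ) :
    Tendsto (fun γ : G => γ⁻¹) (FC S J [] n) (FC S J [] n) := by
  intro A hA
  obtain ⟨m, hm⟩ := (mem_FC S).1 hA
  refine (mem_FC S).2 ⟨m, fun γ hγ => hm ⟨fun i hi => ?_, fun I hI j hj => ?_⟩⟩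
  · rw [lg_inv hS]
    exact hγ.1 i hi
  · have h := hγ.2 I hI j hj
    simp only [lg_inv hS]
    exact h

theorem inv_R1 (hS : SO2 P S) (n : ℕ) : Tendsto (fun γ : G => γ⁻¹) ((R1 S).F n) ((R1 S).F n) :=
  inv_FC hS (K1 N) n

theorem inv_R2 (hS : SO2 P S) (n : ℕ) : Tendsto (fun γ : G => γ⁻¹) ((R2 S).F n) ((R2 S).F n) :=
  inv_FC hS (K2 N) n

theorem mass_inv (hS : SO2 P S) (b : ℕ → G1) : ‖XPpr (R1 S) (vec μ a E fun n => (b n)⁻¹)‖ = ‖XPpr (R1 S) (vec μ a E b)‖ ∧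
    ‖XPpr (R2 S) (vec μ a E fun n => (b n)⁻¹)‖ = ‖XPpr (R2 S) (vec μ a E b)‖ :=
  ⟨norm_XPpr_inv _ (inv_R1 hS) b, norm_XPpr_inv _ (inv_R2 hS) b⟩

end Pool.Agent.Helper20.TB
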