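import Mathlib

/-!
# Project OB (MP_0f6f3f_an), layer TB, block TB-N: a finite net of the unit sphere

PROOF. The unit sphere of a finite dimensional space is compact; cover it by the balls of radius `ε` around unit vectors: `⟪v, x⟫ = 1 - ‖v - x‖² / 2 ≥ 1 - ε² / 2`, so `⟪v, x⟫² ≥ (1 - ε / 2)² ≥ 1 - ε` for `ε ≤ 1`. `near_op`: `1 - e ≤ ⟪v, x⟫²` with unit vectors: `x = α v + z`, `z ⊥ v`, `‖z‖² = 1 - α² ≤ e`, the same for `x' = α' v' + z'`:
`⟪x, J x'⟫ = α α' ⟪v, J v'⟫ + O(2 √e + e)`, so `|⟪v, J v'⟫| ≥ |⟪x, J x'⟫| - 3 √e ≥ c - 3 √e ≥ c / 2` if `36 e ≤ c²`.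
-/

set_option autoImplicit false

namespace Pool.Agent.Helper20.TB

variable {V : Type} [NormedAddCommGroup V] [InnerProductSpace ℝ V]

theorem exists_net [FiniteDimensional ℝ V] {ε : ℝ} (hε : 0 < ε) :
    ∃ F : Finset V, (∀ v ∈ F, ‖v‖ = 1) ∧ ∀ x : V, ‖x‖ = 1 → ∃ v ∈ F, 1 - ε ≤ inner ℝ v x ^ 2 := by
  obtain ⟨r, hr0, hr1, hre⟩ : ∃ r : ℝ, 0 < r ∧ r ≤ 1 ∧ r ≤ ε :=
    ⟨min ε 1, lt_min hε one_pos, min_le_right _ _, min_le_left _ _⟩
  obtain ⟨t, hts, htf, hcov⟩ := (isCompact_sphere (0 : V) 1).finite_cover_balls hr0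
  refine ⟨htf.toFinset, fun v hv => ?_, fun x hx => ?_⟩
  · exact mem_sphere_zero_iff_norm.1 (hts (htf.mem_toFinset.1 hv))
  · have hx' : x ∈ Metric.sphere (0 : V) 1 := mem_sphere_zero_iff_norm.2 hx
    obtain ⟨v, hv, hxv⟩ := Set.mem_iUnion₂.1 (hcov hx')
    refine ⟨v, htf.mem_toFinset.2 hv, ?_⟩
    have hv1 : ‖v‖ = 1 := mem_sphere_zero_iff_norm.1 (hts hv)
    have h1 : ‖x - v‖ < r := by
      rw [← dist_eq_norm]
      exact hxv
    have h2 : ‖x - v‖ ^ 2 = 1 - 2 * inner ℝ v x + 1 := by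
      rw [norm_sub_sq_real, hx, hv1, real_inner_comm]
      norm_num
    have h3 : ‖x - v‖ ^ 2 ≤ r ^ 2 := pow_le_pow_left₀ (norm_nonneg _) h1.le 2
    have h4 : r ^ 2 ≤ r := by nlinarith
    have h5 : 1 - r ^ 2 / 2 ≤ inner ℝ v x := by linarith
    have h6 : (1 - r ^ 2 / 2) ^ 2 ≤ inner ℝ v x ^ 2 := pow_le_pow_left₀ (by nlinarith) h5 2
    nlinarith [sq_nonneg (r ^ 2)]

private theorem dec26 {v x : V} (hv : ‖v‖ = 1) (hx : ‖x‖ = 1) {e : ℝ} (h : 1 - e ≤ inner ℝ v x ^ 2) :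
    |(inner ℝ v x : ℝ)| ≤ 1 ∧ ‖x - (inner ℝ v x : ℝ) • v‖ ^ 2 ≤ e := by
  constructor
  · have := abs_real_inner_le_norm v x
    rwa [hv, hx, mul_one] at this
  · have h3 : inner ℝ x v = (inner ℝ v x : ℝ) := real_inner_comm v x
    rw [norm_sub_sq_real, norm_smul, mul_pow, hv, hx, real_inner_smul_right, h3, Real.norm_eq_abs, sq_abs]
    linarith

theorem near_op {J : V →L[ℝ] V} (hJ : ∀ x, ‖J x‖ = ‖x‖) {v v' x x' : V} (hv : ‖v‖ = 1) (hv' : ‖v'‖ = 1) (hx : ‖x‖ = 1)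
    (hx' : ‖x'‖ = 1) {e c : ℝ} (he : 0 ≤ e) (hc : 0 < c) (hec : 36 * e ≤ c ^ 2) (h1 : 1 - e ≤ inner ℝ v x ^ 2)
    (h2 : 1 - e ≤ inner ℝ v' x' ^ 2) (h : c ≤ |inner ℝ x (J x')|) : c / 2 ≤ |inner ℝ v (J v')| := by
  obtain ⟨z, hz⟩ : ∃ z, z = x - (inner ℝ v x : ℝ) • v := ⟨_, rfl⟩
  obtain ⟨z', hz'⟩ : ∃ z', z' = x' - (inner ℝ v' x' : ℝ) • v' := ⟨_, rfl⟩
  have a1 := dec26 hv hx h1
  have a2 := dec26 hv' hx' h2
  rw [← hz] at a1
  rw [← hz'] at a2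
  obtain ⟨α, hα⟩ : ∃ α : ℝ, α = inner ℝ v x := ⟨_, rfl⟩
  obtain ⟨α', hα'⟩ : ∃ α' : ℝ, α' = inner ℝ v' x' := ⟨_, rfl⟩
  rw [← hα] at a1 hz
  rw [← hα'] at a2 hz'
  have ex : x = α • v + z := by rw [hz]; abel
  have ex' : x' = α' • v' + z' := by rw [hz']; abel
  have hs := Real.sqrt_nonneg e
  have hss : √e * √e = e := Real.mul_self_sqrt he
  have n1 : ‖z‖ ≤ √e := Real.le_sqrt_of_sq_le a1.2
  have n2 : ‖z'‖ ≤ √e := Real.le_sqrt_of_sq_le a2.2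
  have hsc : 6 * √e ≤ c := by
    by_contra hcon
    push Not at hcon
    nlinarith
  have hc1 : c ≤ 1 := by
    refine h.trans ((abs_real_inner_le_norm _ _).trans ?_)
    rw [hJ, hx, hx', mul_one]
  have b1 : |(inner ℝ v (J z') : ℝ)| ≤ √e := by
    refine (abs_real_inner_le_norm _ _).trans ?_
    rw [hJ, hv, one_mul]
    exact n2
  have b2 : |(inner ℝ z (J v') : ℝ)| ≤ √e := by
    refine (abs_real_inner_le_norm _ _).trans ?_
    rw [hJ, hv', mul_one]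
    exact n1
  have b3 : |(inner ℝ z (J z') : ℝ)| ≤ √e := by
    refine (abs_real_inner_le_norm _ _).trans ?_
    rw [hJ]
    have := norm_nonneg z
    have := norm_nonneg z'
    nlinarith
  have e1 : inner ℝ x (J x') = α * α' * inner ℝ v (J v') + α * inner ℝ v (J z') + α' * inner ℝ z (J v') +
      inner ℝ z (J z') := by
    conv_lhs => rw [ex, ex']
    simp only [map_add, map_smul, inner_add_left, inner_add_right, real_inner_smul_left, real_inner_smul_right]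
    ring
  have c1 : |α * α' * inner ℝ v (J v')| ≤ |(inner ℝ v (J v') : ℝ)| := by
    rw [abs_mul, abs_mul]
    have h3 := abs_nonneg α
    have h4 := abs_nonneg α'
    have h5 : |α| * |α'| ≤ 1 := by nlinarith [a1.1, a2.1]
    exact mul_le_of_le_one_left (abs_nonneg _) h5
  have c2 : |α * inner ℝ v (J z')| ≤ √e := by
    rw [abs_mul]
    have h3 := abs_nonneg α
    have h4 := abs_nonneg (inner ℝ v (J z') : ℝ)
    nlinarith [a1.1]
  have c3 : |α' * inner ℝ z (J v')| ≤ √e := by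
    rw [abs_mul]
    have h3 := abs_nonneg α'
    have h4 := abs_nonneg (inner ℝ z (J v') : ℝ)
    nlinarith [a2.1]
  rw [e1] at h
  have d1 := abs_add_le (α * α' * inner ℝ v (J v') + α * inner ℝ v (J z') + α' * inner ℝ z (J v')) (inner ℝ z (J z'))
  have d2 := abs_add_le (α * α' * inner ℝ v (J v') + α * inner ℝ v (J z')) (α' * inner ℝ z (J v'))
  have d3 := abs_add_le (α * α' * inner ℝ v (J v')) (α * inner ℝ v (J z'))
  linarith

end Pool.Agent.Helper20.TB
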