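import Pool.Agent.Helper20.TB.Pc
import Pool.Agent.Helper20.TB.Of
import Pool.Agent.Helper20.TB.Net
import Pool.Agent.Helper20.TB.InvR
import Pool.Agent.Helper43.LF.Op

/-!
# Project OB (MP_0f6f3f_an), layer TB, block TB-H2: final statements

PROOF of `tbs1`. Let `κ = min (c / 2) 1`, `ε = ec κ / 2`, `F` the net of `exists_net` for `EuclideanSpace ℝ (Fin N)`. `A ⊆ ⋃_{v ∈ F} A v`, `A v = {γ ∈ A | 1 - ε ≤ ⟪v, vR γ⟫²}`, the same for `B`; if `A v`, `B v'` are not empty then `|⟪v, J v'⟫| ≥ c / 2 ≥ κ` (`near_op`: `36 ε ≤ c²`, `norm_JR`, `norm_vR`), so `piece1`; if one of them is empty the operator is `0` (`ind ∅ = 0`). `iUX_iUnion`.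
`fun_of_sets`: `f = f 1_A`, `A = {γ | f γ ≠ 0}`, so `Mf f = Mf f ∘ iUX A`, the same for `f'`, `B`. `zs1`: `Vq 1 = id` (`vg_one`), `RS.det1`, `Opp 1 S c γ γ' : c ≤ |det|`; `R1 S = GN.toReg (chStr S (K1 N) [])`, `pd1 S = posPD S _`. `tb_pt`, `tb_ln`: the same with traces.
-/

set_option autoImplicit false
set_option linter.unusedSectionVars false

open MeasureTheory Filter Topology Matrix

namespace Pool.Agent.Helper20.TB

open Pool.Agent.Helper84 Pool.Agent.Helper84.GN Pool.Agent.Helper84.GN.S3 Pool.Agent.Helper84.GN.S3.X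
open Pool.Agent.Helper84.NI Pool.Agent.Helper84.GVN Pool.Agent.Helper90.RK
open Pool.Agent.Helper96.RK hiding toReg
open Pool.Agent.Helper66.FR Pool.Agent.Helper84.FR Pool.Agent.Helper55.FR Pool.Agent.Helper78.BM Pool.Agent.Helper55.OB
open Pool.Agent.Helper43.TA (ms)
open Pool.Agent.Helper43.LF (Zs op1_eq op2_eq)

variable {G1 X G Λ : Type} [Group G1] [TopologicalSpace G1] [IsTopologicalGroup G1] [MeasurableSpace X] [MulAction G1 X]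
  [MeasurableConstSMul G1 X] [Group G] [Group Λ] [Countable Λ] {μ : Measure X} [SMulInvariantMeasure G1 X μ]
  [IsProbabilityMeasure μ] {a : Cocy G1 X Λ} {E : Emb Λ G} {N : ℕ} {P : PH G N} {S : Sv P} {D : RD G N}

theorem iUX_empty (R : Reg G) (x : XUa μ R) : iUX R (∅ : Set G) x = 0 := by
  rw [Mf_ind, Set.indicator_empty]
  have h := Mf_const (μ := μ) (R := R) 0 x
  rw [zero_smul] at h
  exact h

theorem ec_le {κ c : ℝ} (hκ : 0 < κ) (hκ1 : κ ≤ 1) (hc : κ ≤ c / 2) : 36 * (ec κ / 2) ≤ c ^ 2 ∧ 0 < ec κ := by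
  unfold ec
  have h1 : κ ^ 8 ≤ κ ^ 2 := pow_le_pow_of_le_one hκ.le hκ1 (by norm_num)
  have h2 : κ ^ 2 ≤ c ^ 2 / 4 := by nlinarith
  constructor
  · have h3 : 36 * ((κ ^ 4 / 1000000) ^ 2 / 4 / 2) = κ ^ 8 * (36 / 8 / 1000000 ^ 2) := by ring
    rw [h3]
    have h4 : (0 : ℝ) ≤ κ ^ 8 := by positivity
    nlinarith [sq_nonneg c]
  · positivity

/-- The covering argument. -/
theorem cover {V : Type} [NormedAddCommGroup V] [InnerProductSpace ℝ V] [FiniteDimensional ℝ V] {J : V →L[ℝ] V}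
    (hJ : ∀ x, ‖J x‖ = ‖x‖) {R : Reg G} (Y : XUa μ R →L[ℂ] XUa μ R) (p : G → V) (hp : ∀ γ, ‖p γ‖ = 1) {c : ℝ} (hc : 0 < c)
    {A B : Set G} (hAB : ∀ γ ∈ A, ∀ γ' ∈ B, c ≤ |inner ℝ (p γ) (J (p γ'))|)
    (h : ∀ v v' : V, ‖v‖ = 1 → ‖v'‖ = 1 → min (c / 2) 1 ≤ |inner ℝ v (J v')| → ∀ A' B' : Set G,
      (∀ γ ∈ A', 1 - ec (min (c / 2) 1) / 2 ≤ inner ℝ v (p γ) ^ 2) →
      (∀ γ ∈ B', 1 - ec (min (c / 2) 1) / 2 ≤ inner ℝ v' (p γ) ^ 2) → ∀ x, iUX R A' (Y (iUX R B' x)) = 0) (x : XUa μ R) :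
    iUX R A (Y (iUX R B x)) = 0 := by
  classical
  have hκ : 0 < min (c / 2) 1 := lt_min (by positivity) one_pos
  have hκ1 : min (c / 2) 1 ≤ 1 := min_le_right _ _
  have hκc : min (c / 2) 1 ≤ c / 2 := min_le_left _ _
  set κ := min (c / 2) 1 with hκdef
  obtain ⟨he1, he2⟩ := ec_le hκ hκ1 hκc
  obtain ⟨F, hF1, hF2⟩ := exists_net (V := V) (ε := ec κ / 2) (by positivity)
  set Av : V → Set G := fun v => {γ | γ ∈ A ∧ 1 - ec κ / 2 ≤ inner ℝ v (p γ) ^ 2} with hAv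
  set Bv : V → Set G := fun v => {γ | γ ∈ B ∧ 1 - ec κ / 2 ≤ inner ℝ v (p γ) ^ 2} with hBv
  have hA : A = ⋃ v ∈ F, Av v := by
    ext γ
    rw [Set.mem_iUnion₂]
    constructor
    · intro hγ
      obtain ⟨v, hv, hv2⟩ := hF2 (p γ) (hp γ)
      exact ⟨v, hv, hγ, hv2⟩
    · rintro ⟨v, _, hγ, _⟩
      exact hγ
  have hB : B = ⋃ v ∈ F, Bv v := by
    ext γ
    rw [Set.mem_iUnion₂]
    constructor
    · intro hγ
      obtain ⟨v, hv, hv2⟩ := hF2 (p γ) (hp γ)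
      exact ⟨v, hv, hγ, hv2⟩
    · rintro ⟨v, _, hγ, _⟩
      exact hγ
  rw [hA, hB]
  refine iUX_iUnion F Y Av Bv (fun v hv v' hv' y => ?_) x
  rcases Set.eq_empty_or_nonempty (Av v) with h1 | ⟨γ, hγ⟩
  · rw [h1, iUX_empty]
  rcases Set.eq_empty_or_nonempty (Bv v') with h2 | ⟨γ', hγ'⟩
  · rw [h2, iUX_empty, map_zero, map_zero]
  have hop := near_op hJ (hF1 v hv) (hF1 v' hv') (hp γ) (hp γ') (by positivity) hc he1 hγ.2 hγ'.2 (hAB γ hγ.1 γ' hγ'.1)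
  exact h v v' (hF1 v hv) (hF1 v' hv') (hκc.trans hop) (Av v) (Bv v') (fun γ hγ => hγ.2) (fun γ hγ => hγ.2) y

theorem norm_oR2 (D : RD G N) (g : G) : ‖D.oR2 g‖ = 1 := (D.ts2 g).nv

theorem tbs1 (hD : RS D S) (hF2 : ∀ l : Λ, Tendsto (fun g : G1 => μ {x | a.a g x = l}) (cocompact G1) (𝓝 0)) {b b' : ℕ → G1}
    (hb : Tendsto b (hyperfilter ℕ : Filter ℕ) (cocompact G1)) (hb' : Tendsto b' (hyperfilter ℕ : Filter ℕ) (cocompact G1))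
    (hreg : Reg2 μ a E S b b') {c : ℝ} (hc : 0 < c) {A B : Set G}
    (hAB : ∀ γ ∈ A, ∀ γ' ∈ B, c ≤ |inner ℝ (D.vR γ) (op (JR N) (D.vR γ'))|) (x : XUa μ (R1 S)) :
    iUX (R1 S) A (Tb μ a E (R1 S) b (ContinuousLinearMap.adjoint (Tb μ a E (R1 S) b') (iUX (R1 S) B x))) = 0 :=
  cover (J := op (JR N)) norm_JR ((Tb μ a E (R1 S) b).comp (ContinuousLinearMap.adjoint (Tb μ a E (R1 S) b'))) D.vR D.norm_vR
    hc hAB (fun v v' hv hv' hop A' B' hA' hB' y => piece1 hD hF2 hb hb' hreg (lt_min (by positivity) one_pos)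
      (min_le_right _ _) hv hv' hop hA' hB' y) x

theorem tbs2 (hD : RS D S) (hF2 : ∀ l : Λ, Tendsto (fun g : G1 => μ {x | a.a g x = l}) (cocompact G1) (𝓝 0)) {b b' : ℕ → G1}
    (hb : Tendsto b (hyperfilter ℕ : Filter ℕ) (cocompact G1)) (hb' : Tendsto b' (hyperfilter ℕ : Filter ℕ) (cocompact G1))
    (hreg : Reg2 μ a E S b b') {c : ℝ} (hc : 0 < c) {A B : Set G}
    (hAB : ∀ γ ∈ A, ∀ γ' ∈ B, c ≤ |inner ℝ (D.oR2 γ) (op (JK N) (D.oR2 γ'))|) (x : XUa μ (R2 S)) :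
    iUX (R2 S) A (Tb μ a E (R2 S) b (ContinuousLinearMap.adjoint (Tb μ a E (R2 S) b') (iUX (R2 S) B x))) = 0 :=
  cover (J := op (JK N)) norm_JK ((Tb μ a E (R2 S) b).comp (ContinuousLinearMap.adjoint (Tb μ a E (R2 S) b'))) D.oR2
    (norm_oR2 D) hc hAB (fun v v' hv hv' hop A' B' hA' hB' y => piece2 hD hF2 hb hb' hreg (lt_min (by positivity) one_pos)
      (min_le_right _ _) hv hv' hop hA' hB' y) x

theorem Mf_supp {R : Reg G} {f : G → ℂ} {C : ℝ} (hf : ∀ γ, ‖f γ‖ ≤ C) (x : XUa μ R) :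
    Mf μ R f x = Mf μ R f (iUX R {γ | f γ ≠ 0} x) ∧ Mf μ R f x = iUX R {γ | f γ ≠ 0} (Mf μ R f x) := by
  classical
  have h1 : ∀ γ, ‖({γ | f γ ≠ 0} : Set G).indicator (fun _ => (1 : ℂ)) γ‖ ≤ 1 := by
    intro γ
    unfold Set.indicator
    split_ifs <;> simp
  have h2 : ∀ γ, f γ = f γ * ({γ | f γ ≠ 0} : Set G).indicator (fun _ => (1 : ℂ)) γ := by
    intro γ
    by_cases h : f γ = 0
    · rw [h, zero_mul]
    · rw [Set.indicator_of_mem (show γ ∈ {γ | f γ ≠ 0} from h), mul_one]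
  constructor
  · rw [Mf_ind, Mf_mul hf h1]
    exact congrArg (fun g : G → ℂ => Mf μ R g x) (funext h2)
  · rw [Mf_ind, Mf_mul h1 hf]
    refine congrArg (fun g : G → ℂ => Mf μ R g x) (funext fun γ => ?_)
    rw [mul_comm]
    exact h2 γ

theorem vec_of_sets {R : Reg G} {b b' : ℕ → G1} {f f' : G → ℂ} {C : ℝ} (hf : ∀ γ, ‖f γ‖ ≤ C) (hf' : ∀ γ, ‖f' γ‖ ≤ C)
    (h : ∀ x, iUX R {γ | f γ ≠ 0} (Tb μ a E R b (ContinuousLinearMap.adjoint (Tb μ a E R b') (iUX R {γ | f' γ ≠ 0} x))) = 0)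
    (ψ : XL μ (L2 G)) :
    Mf μ R f (Tb μ a E R b (ContinuousLinearMap.adjoint (Tb μ a E R b') (Mf μ R f' (Tb μ a E R b' ψ)))) = 0 := by
  rw [(Mf_supp hf _).1, (Mf_supp hf' _).2, h, map_zero]

theorem fun_of_sets {R : Reg G} {b b' : ℕ → G1} {f f' : G → ℂ} {C : ℝ} (hf : ∀ γ, ‖f γ‖ ≤ C) (hf' : ∀ γ, ‖f' γ‖ ≤ C)
    (h : ∀ x, iUX R {γ | f γ ≠ 0} (Tb μ a E R b (ContinuousLinearMap.adjoint (Tb μ a E R b') (iUX R {γ | f' γ ≠ 0} x))) = 0)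
    (φ ψ : XL μ (L2 G)) :
    (inner ℂ (ContinuousLinearMap.adjoint (Tb μ a E R b) (Mf μ R f (Tb μ a E R b φ)))
      (ContinuousLinearMap.adjoint (Tb μ a E R b') (Mf μ R f' (Tb μ a E R b' ψ))) : ℂ) = 0 := by
  have h1 : ∀ γ, ‖(starRingEnd ℂ) (f γ)‖ ≤ C := fun γ => by
    rw [RCLike.norm_conj]
    exact hf γ
  have h2 : ({γ | (starRingEnd ℂ) (f γ) ≠ 0} : Set G) = {γ | f γ ≠ 0} := by
    ext γ
    simp
  rw [ContinuousLinearMap.adjoint_inner_left, Mf_adj hf, vec_of_sets h1 hf' (by rw [h2]; exact h), inner_zero_right]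

/-- **Layer TB, points.** -/
theorem zs1 (hS : SO2 P S) (hF2 : ∀ l : Λ, Tendsto (fun g : G1 => μ {x | a.a g x = l}) (cocompact G1) (𝓝 0)) {b b' : ℕ → G1}
    (hb : Tendsto b (hyperfilter ℕ : Filter ℕ) (cocompact G1)) (hb' : Tendsto b' (hyperfilter ℕ : Filter ℕ) (cocompact G1))
    (hreg : Reg2 μ a E S b b') : (1 : G1) ∈ Zs μ a E (R1 S) (pd1 S) b b' 1 S := by
  obtain ⟨D, hD⟩ := exists_rd hS
  intro f f' _ _ hf hf' c hc hop φ ψ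
  have h1 : ∀ χ : XL μ (L2 G), Vq μ a E (1 : G1) χ = χ := fun χ => vg_one _ _ χ
  rw [h1]
  refine fun_of_sets hf hf' (tbs1 hD hF2 hb hb' hreg hc fun γ hγ γ' hγ' => ?_) φ ψ
  rw [← hD.det1]
  exact hop γ γ' hγ hγ'

/-- **Layer TB, lines.** -/
theorem zs2 (hS : SO2 P S) (hF2 : ∀ l : Λ, Tendsto (fun g : G1 => μ {x | a.a g x = l}) (cocompact G1) (𝓝 0)) {b b' : ℕ → G1}
    (hb : Tendsto b (hyperfilter ℕ : Filter ℕ) (cocompact G1)) (hb' : Tendsto b' (hyperfilter ℕ : Filter ℕ) (cocompact G1))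
    (hreg : Reg2 μ a E S b b') : (1 : G1) ∈ Zs μ a E (R2 S) (pd2 S) b b' 2 S := by
  obtain ⟨D, hD⟩ := exists_rd hS
  intro f f' _ _ hf hf' c hc hop φ ψ
  have h1 : ∀ χ : XL μ (L2 G), Vq μ a E (1 : G1) χ = χ := fun χ => vg_one _ _ χ
  rw [h1]
  refine fun_of_sets hf hf' (tbs2 hD hF2 hb hb' hreg hc fun γ hγ γ' hγ' => ?_) φ ψ
  rw [← hD.det2]
  exact hop γ γ' hγ hγ'

/-- **Layer TB, points**, with traces. -/
theorem tb_pt (hS : SO2 P S) (hF2 : ∀ l : Λ, Tendsto (fun g : G1 => μ {x | a.a g x = l}) (cocompact G1) (𝓝 0)) {b b' : ℕ → G1}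
    (hb : Tendsto b (hyperfilter ℕ : Filter ℕ) (cocompact G1)) (hb' : Tendsto b' (hyperfilter ℕ : Filter ℕ) (cocompact G1))
    (hreg : Reg2 μ a E S b b') (f f' : G → ℂ) (C c : ℝ) (hf : ∀ γ, ‖f γ‖ ≤ C) (hf' : ∀ γ, ‖f' γ‖ ≤ C) (hc : 0 < c)
    (hop : ∀ γ γ', f γ ≠ 0 → f' γ' ≠ 0 → c ≤ ‖(px S γ * JJ N * px S γ' * JJ N).trace‖) (φ : XL μ (L2 G)) :
    ContinuousLinearMap.adjoint (Tb μ a E (R1 S) b) (Mf μ (R1 S) f (Tb μ a E (R1 S) b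
      (ContinuousLinearMap.adjoint (Tb μ a E (R1 S) b') (Mf μ (R1 S) f' (Tb μ a E (R1 S) b' φ))))) = 0 := by
  obtain ⟨D, hD⟩ := exists_rd hS
  rw [vec_of_sets hf hf' (tbs1 hD hF2 hb hb' hreg (Real.sqrt_pos.2 hc) fun γ hγ γ' hγ' => ?_) φ, map_zero]
  rw [← hD.det1]
  have h := hop γ γ' hγ hγ'
  rw [op1_eq hS] at h
  exact Real.sqrt_le_iff.2 ⟨abs_nonneg _, by rwa [sq_abs]⟩

/-- **Layer TB, lines**, with traces. -/
theorem tb_ln (hS : SO2 P S) (hF2 : ∀ l : Λ, Tendsto (fun g : G1 => μ {x | a.a g x = l}) (cocompact G1) (𝓝 0)) {b b' : ℕ → G1}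
    (hb : Tendsto b (hyperfilter ℕ : Filter ℕ) (cocompact G1)) (hb' : Tendsto b' (hyperfilter ℕ : Filter ℕ) (cocompact G1))
    (hreg : Reg2 μ a E S b b') (f f' : G → ℂ) (C c : ℝ) (hf : ∀ γ, ‖f γ‖ ≤ C) (hf' : ∀ γ, ‖f' γ‖ ≤ C) (hc : 0 < c)
    (hop : ∀ γ γ', f γ ≠ 0 → f' γ' ≠ 0 →
      c ≤ ‖(pl S γ * JJ N * pl S γ' * JJ N).trace ^ 2 - ((pl S γ * JJ N * pl S γ' * JJ N) ^ 2).trace‖) (φ : XL μ (L2 G)) :
    ContinuousLinearMap.adjoint (Tb μ a E (R2 S) b) (Mf μ (R2 S) f (Tb μ a E (R2 S) b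
      (ContinuousLinearMap.adjoint (Tb μ a E (R2 S) b') (Mf μ (R2 S) f' (Tb μ a E (R2 S) b' φ))))) = 0 := by
  obtain ⟨D, hD⟩ := exists_rd hS
  rw [vec_of_sets hf hf' (tbs2 hD hF2 hb hb' hreg (c := √(c / 2)) (Real.sqrt_pos.2 (by positivity)) fun γ hγ γ' hγ' => ?_) φ,
    map_zero]
  rw [← hD.det2]
  have h := hop γ γ' hγ hγ'
  rw [op2_eq hS] at h
  refine Real.sqrt_le_iff.2 ⟨abs_nonneg _, ?_⟩
  rw [sq_abs]
  linarith

end Pool.Agent.Helper20.TB
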