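import Pool.Agent.Helper20.TB.Defs
import Pool.Agent.Helper16.TZ.Kap
import Pool.Agent.Helper78.BM.Phi

/-!
# Project OB (MP_0f6f3f_an), layer TB, block TB-K1: approximation by contractions of finite support

`L2 G = lp (fun _ => ℂ) 2`, `dl g` the basis, `lamU g (dl x) = dl (g x)`, `rhoU k (dl x) = dl (x k⁻¹)`, `CommR u`: the unitary `u` commutes with the `rhoU k` (`Helper84/GVN/Group.lean`: `CommR.inL`, `comm_of_commR`, `CommR.apply_dl`,
`lamU_dl`, `rhoU_dl`). `Con c`: `λ(c)*` is a contraction (`Helper20/TB/Core.lean`): `(λ(c)* ξ)(s) = ∑_g conj (c g) ξ(g s)`.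
PROOF of `exists_con`. `y := u ∘ lamU h` is a unitary which commutes with all `rhoU k`, so it is in the bicommutant of the `lamU g` (`comm_of_commR`), and `y (dl 1) = u (dl h)`. Apply `Helper16.TZ.kaplansky` with `ι = Unit`, `ξ = dl 1`, to a star algebra `𝒜`
with `π₁ = π₂` whose image is the set of the finite combinations of the `lamU g`: EITHER `𝒜 = MonoidAlgebra ℂ G` with its star structure and the representation `g ↦ lamU g`, OR `𝒜 =` the star subalgebra `StarAlgebra.adjoin ℂ (Set.range fun g => (lamU g : L2 G →L[ℂ] L2 G))` with the inclusion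
(every element is a finite combination `∑ c g • lamU g`, by `StarAlgebra.adjoin_induction` or `Subalgebra` span: products and adjoints of the `lamU g` are again `lamU g'`). One gets `T = ∑ c g • lamU g` with `‖T‖ ≤ 1`, `‖T (dl 1) - y (dl 1)‖ ≤ ε`, `T (dl 1) = ∑ c g • dl g`.
`Con c`: for finitely supported `ξ` put `X = ∑ ξ g • dl g ∈ L2 G`; `T* X` has the coefficients `(T* X)(s) = ∑_g conj (c g) ξ(g s)` (`T* = ∑ conj (c g) • lamU g⁻¹`), `‖T* X‖² ≤ ‖X‖² = ∑ ‖ξ g‖²`, and a finite sum of squares of coefficients is at most `‖T* X‖²`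
(`lv_hasSum`, `sum_le_hasSum`, `Helper84/GVN/Basic.lean`).
-/

set_option autoImplicit false
set_option linter.unusedSectionVars false

open MeasureTheory Filter Topology
open scoped ComplexConjugate

namespace Pool.Agent.Helper20.TB

open Pool.Agent.Helper84.NI Pool.Agent.Helper84.GVN

variable {G : Type} [Group G]

theorem exists_con {u : L2 G ≃ₗᵢ[ℂ] L2 G} (hu : CommR u) (h : G) {ε : ℝ} (hε : 0 < ε) :
    ∃ c : G →₀ ℂ, Con c ∧ ‖∑ g ∈ c.support, c g • (dl g : L2 G) - u (dl h)‖ ≤ ε := by
  classical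
  obtain ⟨M, hM⟩ : ∃ M : Submodule ℂ (L2 G →L[ℂ] L2 G), M = Submodule.span ℂ (Set.range (lam : G → L2 G →L[ℂ] L2 G)) := ⟨_, rfl⟩
  have hlam : ∀ g : G, (lam g : L2 G →L[ℂ] L2 G) ∈ M := fun g => by rw [hM]; exact Submodule.subset_span ⟨g, rfl⟩
  have hlmul : ∀ g k : G, (lam g : L2 G →L[ℂ] L2 G) * lam k = lam (g * k) := by
    intro g k
    refine ContinuousLinearMap.ext fun f => l2_ext fun x => ?_
    change (lam k f) (g⁻¹ * x) = f ((g * k)⁻¹ * x)
    rw [lam_apply, mul_inv_rev, mul_assoc]
  have hlone : (lam (1 : G) : L2 G →L[ℂ] L2 G) = 1 := by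
    refine ContinuousLinearMap.ext fun f => l2_ext fun x => ?_
    rw [lam_apply, inv_one, one_mul]
    rfl
  let 𝒜 : StarSubalgebra ℂ (L2 G →L[ℂ] L2 G) :=
    { carrier := M
      mul_mem' := by
        intro a b ha hb
        change a ∈ M at ha
        change b ∈ M at hb
        change a * b ∈ M
        rw [hM] at ha
        induction ha using Submodule.span_induction with
        | mem a ha =>
          obtain ⟨g, rfl⟩ := ha
          rw [hM] at hb
          induction hb using Submodule.span_induction with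
          | mem b hb =>
            obtain ⟨k, rfl⟩ := hb
            rw [hlmul]
            exact hlam _
          | zero => rw [mul_zero]; exact M.zero_mem
          | add b b' _ _ h1 h2 => rw [mul_add]; exact M.add_mem h1 h2
          | smul t b _ h1 => rw [mul_smul_comm]; exact M.smul_mem _ h1
        | zero => rw [zero_mul]; exact M.zero_mem
        | add a a' _ _ h1 h2 => rw [add_mul]; exact M.add_mem h1 h2
        | smul t a _ h1 => rw [smul_mul_assoc]; exact M.smul_mem _ h1
      one_mem' := by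
        change 1 ∈ M
        rw [← hlone]
        exact hlam 1
      add_mem' := fun ha hb => M.add_mem ha hb
      zero_mem' := M.zero_mem
      algebraMap_mem' := by
        intro t
        change algebraMap ℂ (L2 G →L[ℂ] L2 G) t ∈ M
        rw [Algebra.algebraMap_eq_smul_one, ← hlone]
        exact M.smul_mem _ (hlam 1)
      star_mem' := by
        intro a ha
        change a ∈ M at ha
        change star a ∈ M
        rw [hM] at ha
        induction ha using Submodule.span_induction with
        | mem a ha =>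
          obtain ⟨g, rfl⟩ := ha
          rw [star_lam]
          exact hlam _
        | zero => rw [star_zero]; exact M.zero_mem
        | add a a' _ _ h1 h2 => rw [star_add]; exact M.add_mem h1 h2
        | smul t a _ h1 => rw [star_smul]; exact M.smul_mem _ h1 }
  -- the unitary
  obtain ⟨v, hv⟩ : ∃ v : L2 G ≃ₗᵢ[ℂ] L2 G, v = u * lamU h := ⟨_, rfl⟩
  have hv1 : ∀ f, v f = u (lamU h f) := fun f => by rw [hv]; rfl
  obtain ⟨y, hy⟩ : ∃ y : L2 G →L[ℂ] L2 G, ∀ f, y f = v f := ⟨(v.toContinuousLinearEquiv : L2 G →L[ℂ] L2 G), fun _ => rfl⟩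
  have hsy : ∀ f, star y (y f) = f := by
    intro f
    refine ext_inner_right ℂ fun z => ?_
    rw [ContinuousLinearMap.star_eq_adjoint, ContinuousLinearMap.adjoint_inner_left, hy, hy, LinearIsometryEquiv.inner_map_map]
  have hu1 : star y * y = 1 := ContinuousLinearMap.ext hsy
  have hu2 : y * star y = 1 := by
    refine ContinuousLinearMap.ext fun f => ?_
    obtain ⟨z, rfl⟩ := v.surjective f
    change y (star y (v z)) = v z
    rw [← hy z, hsy]
  have hyc : ∀ S : L2 G →L[ℂ] L2 G, (∀ a : 𝒜, S * 𝒜.subtype a = 𝒜.subtype a * S) → S * y = y * S := by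
    intro S hS
    have h1 : ∀ (g : G) f, S (lamU g f) = lamU g (S f) := by
      intro g f
      have h2 := hS ⟨lam g, hlam g⟩
      exact DFunLike.congr_fun h2 f
    refine ContinuousLinearMap.ext fun f => ?_
    change S (y f) = y (S f)
    rw [hy, hy, hv1, hv1]
    have h3 := hu.inL S h1 (lamU h f)
    rw [h3, h1]
  obtain ⟨T, hT1, -, hT2⟩ := Pool.Agent.Helper16.TZ.kaplansky 𝒜.subtype 𝒜.subtype y hyc hu1 hu2 (fun _ : Unit => (dl 1 : L2 G)) hε
  have hT3 := (hT2 ()).1
  have hTM : (T : L2 G →L[ℂ] L2 G) ∈ M := T.2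
  rw [hM, Finsupp.mem_span_range_iff_exists_finsupp] at hTM
  obtain ⟨c, hc⟩ := hTM
  have hc' : (𝒜.subtype T : L2 G →L[ℂ] L2 G) = ∑ g ∈ c.support, c g • lam g := hc.symm
  refine ⟨c, ?_, ?_⟩
  · intro ξ F
    obtain ⟨X, hX⟩ : ∃ X : L2 G, X = ∑ g ∈ ξ.support, ξ g • (dl g : L2 G) := ⟨_, rfl⟩
    have hXs : ∀ s, X s = ξ s := by
      intro s
      have h1 : X s = ∑ g ∈ ξ.support, ξ g * (dl g : L2 G) s := by
        rw [hX, lp.coeFn_sum, Finset.sum_apply]
        rfl
      rw [h1]
      simp only [dl_apply, mul_ite, mul_one, mul_zero]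
      rw [Finset.sum_ite_eq]
      split_ifs with h2
      · rfl
      · exact (Finsupp.notMem_support_iff.1 h2).symm
    have hstar : ∀ s, (star (𝒜.subtype T) X) s = ∑ g ∈ c.support, conj (c g) * ξ (g * s) := by
      intro s
      rw [hc', star_sum]
      have h1 : (∑ g ∈ c.support, star (c g • lam g)) X = ∑ g ∈ c.support, conj (c g) • (lam g⁻¹ X : L2 G) := by
        rw [ContinuousLinearMap.sum_apply]
        refine Finset.sum_congr rfl fun g _ => ?_
        rw [star_smul, star_lam]
        rfl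
      rw [h1, lp.coeFn_sum, Finset.sum_apply]
      refine Finset.sum_congr rfl fun g _ => ?_
      change conj (c g) * (lam g⁻¹ X) s = _
      rw [lam_apply, inv_inv, hXs]
    have h1 : ‖star (𝒜.subtype T) X‖ ≤ ‖X‖ := by
      refine (ContinuousLinearMap.le_opNorm _ _).trans ?_
      have h2 : ‖star (𝒜.subtype T : L2 G →L[ℂ] L2 G)‖ ≤ 1 := (norm_star (𝒜.subtype T : L2 G →L[ℂ] L2 G)).le.trans hT1
      exact mul_le_of_le_one_left (norm_nonneg _) h2
    have h2 : ∑ s ∈ F, ‖∑ g ∈ c.support, conj (c g) * ξ (g * s)‖ ^ 2 ≤ ‖star (𝒜.subtype T) X‖ ^ 2 := by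
      have h3 := sum_le_hasSum F (fun i _ => sq_nonneg _) (hasSum_sq (star (𝒜.subtype T) X))
      simp only [hstar] at h3
      exact h3
    have h4 : ‖X‖ ^ 2 = ∑ g ∈ ξ.support, ‖ξ g‖ ^ 2 := by
      have h5 := hasSum_sq X
      simp only [hXs] at h5
      refine h5.unique (hasSum_sum_of_ne_finset_zero fun g hg => ?_)
      rw [Finsupp.notMem_support_iff.1 hg, norm_zero]
      norm_num
    rw [← h4]
    exact h2.trans (by gcongr)
  · have h1 : 𝒜.subtype T (dl 1 : L2 G) = ∑ g ∈ c.support, c g • (dl g : L2 G) := by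
      rw [hc', ContinuousLinearMap.sum_apply]
      refine Finset.sum_congr rfl fun g _ => ?_
      change c g • (lam g (dl 1) : L2 G) = _
      rw [lam_eq, lamU_dl, mul_one]
    have h2 : y (dl 1 : L2 G) = u (dl h) := by
      rw [hy, hv1, lamU_dl, mul_one]
    rw [← h1, ← h2]
    exact hT3

end Pool.Agent.Helper20.TB
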