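import Mathlib

/-!
# Project OB (MP_0f6f3f_an), layer TB, block TB-B5: Schwartz functions with prescribed values

`exists_schwartz`: there is a smooth `χ : E → ℝ` with compact support contained in `U`, `χ = 1` on `K` (`exists_contDiff_tsupport_subset` / `exists_contMDiff_support_eq..`, `SmoothBumpFunction`; e.g. `exists_contDiff_one_nhds_of_..`; take an intermediate compact neighbourhood `K ⊂ interior K' ⊂ K' ⊂ U`, `exists_compact_between`). `χ Φ` is smooth on `E` (on `U` as a product, off
the support of `χ` it is zero) with compact support: `HasCompactSupport.toSchwartzMap` (search the name in Mathlib; `SchwartzMap`), composed with the inclusion of `ℝ` in `ℂ`.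
-/

set_option autoImplicit false

open MeasureTheory Filter Topology
open scoped SchwartzMap ContDiff

namespace Pool.Agent.Helper20.TB

theorem exists_schwartz {E : Type} [NormedAddCommGroup E] [InnerProductSpace ℝ E] [FiniteDimensional ℝ E] {Φ : E → ℝ} {U K : Set E}
    (hU : IsOpen U) (hΦ : ContDiffOn ℝ ∞ Φ U) (hK : IsCompact K) (hKU : K ⊆ U) : ∃ Ψ : 𝓢(E, ℂ), ∀ q ∈ K, Ψ q = (Φ q : ℂ) := by
  obtain ⟨K1, hK1, hKK1, hK1U⟩ := exists_compact_between hK hU hKU
  obtain ⟨χ, hχd, -, hχs, hχ1⟩ := exists_contMDiff_support_eq_eq_one_iff (n := (⊤ : ℕ∞)) (modelWithCornersSelf ℝ E)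
    (s := interior K1) (t := K) isOpen_interior hK.isClosed hKK1
  have hχ : ContDiff ℝ ∞ χ := contMDiff_iff_contDiff.1 hχd
  have hz : ∀ x, x ∉ K1 → χ x = 0 := by
    intro x hx
    by_contra h
    have h1 : x ∈ Function.support χ := h
    rw [hχs] at h1
    exact hx (interior_subset h1)
  have hcd : ContDiff ℝ ∞ fun x => χ x * Φ x := by
    rw [contDiff_iff_contDiffAt]
    intro x
    by_cases hx : x ∈ U
    · exact hχ.contDiffAt.mul (hΦ.contDiffAt (hU.mem_nhds hx))
    · have hxK : x ∈ K1ᶜ := fun h => hx (hK1U h)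
      have h1 : (fun x => χ x * Φ x) =ᶠ[𝓝 x] fun _ => 0 := by
        filter_upwards [hK1.isClosed.isOpen_compl.mem_nhds hxK] with z hz1
        rw [hz z hz1, zero_mul]
      exact contDiffAt_const.congr_of_eventuallyEq h1
  have hcs : HasCompactSupport fun x => χ x * Φ x :=
    HasCompactSupport.intro hK1 fun x hx => by rw [hz x hx, zero_mul]
  have hcs' : HasCompactSupport (Complex.ofRealCLM ∘ fun x => χ x * Φ x) := hcs.comp_left (map_zero _)
  refine ⟨hcs'.toSchwartzMap (Complex.ofRealCLM.contDiff.comp hcd), fun q hq => ?_⟩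
  change ((χ q * Φ q : ℝ) : ℂ) = (Φ q : ℂ)
  rw [(hχ1 q).1 hq, one_mul]

end Pool.Agent.Helper20.TB
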