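import Pool.Agent.Helper20.TB.Rd1

/-!
# Project OB (MP_0f6f3f_an), layer TB, block TB-R2: the operators of the real data, second exterior power

`T2 g = op (r2 (D.r g))`, `r2 (D.r g) = r2 kL * r2 (diag s) * (r2 kR)ᵀ` (`r2_mul`, `r2_transpose`). `a0 g = col (kR g) 0`, `a1 g = col (kR g) 1` (right singular vectors), `oR2 g = √2 • wd (a0 g) (a1 g)`.
PROOFS. `T1_a1`: column `1` of `(D.r g) kR = kL diag(s)`. `ts2`: `T2 (wd a0 a1) = wd (T1 a0) (T1 a1) = s0 s1 wd (..)` (`op_r2_wd`), the same for the adjoint (`T2† = op (r2 (D.r g)ᵀ)`), `‖√2 wd a0 a1‖ = 1` (`norm_wd_sq`, orthonormal columns). `norm_T2`: lower bound from `ts2`; upper bound: `‖op (r2 U) X‖ ≤ ‖X‖` for `U` orthogonal (`r2 Uᵀ r2 U = r2 1` is a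
projection: `‖op (r2 U) X‖² = ⟪X, op (r2 1) X⟫ ≤ ‖X‖²`), and `op (r2 (diag s)) X` has the coordinates `s_i s_j (X_ij - X_ji) / 2`, `0` for `i = j`, `s_i s_j ≤ s_0 s_1` for `i ≠ j`, `∑ ((X_ij - X_ji) / 2)² ≤ ‖X‖²`.
`form2`: `T2 g JK T2 h†`: `r2 (g) JK r2(h)ᵀ = r2 (r(g) J r(h)ᵀ)` (`r2_JR`, `r2_mul`, `r2_transpose`); `rel2`: `r(g r) J r(h r)ᵀ = ± r(g) r(r) J r(r)ᵀ r(h)ᵀ = ± r(g) J r(h)ᵀ`, `r2_neg`. `rel1` the same without `r2`. `inv2`: `r2 (± J rᵀ J) = r2 (J rᵀ J) = JK r2(rᵀ) JK`. `s1_inv`: `s0 s1 (g⁻¹) = ‖T2 g⁻¹‖ = ‖T2 g‖`, `s0_inv`.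
`det_o2`: `⟪oR2 g, JK oR2 h⟫ = 2 ⟪wd a0 a1, wd (J b0) (J b1)⟫ = det ⟪a_i, J b_j⟫` (`inner_wd`).
-/

set_option autoImplicit false

open Matrix

namespace Pool.Agent.Helper20.TB

open Pool.Agent.Helper55.OB

section Aux

variable {m : Type} [Fintype m] [DecidableEq m]

private theorem col95 (A : Matrix m m ℝ) (i : m) : col A i = op A (EuclideanSpace.single i 1) := by
  ext j
  rw [op_apply, Finset.sum_eq_single i]
  · simp [col]
  · intro b _ hb
    simp [hb]
  · intro h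
    exact absurd (Finset.mem_univ _) h

private theorem normcol95 {U : Matrix m m ℝ} (hU : Uᵀ * U = 1) (i : m) : ‖col U i‖ = 1 := by
  rw [col95, norm_op_orth hU]
  simp

private theorem innercol95 (U : Matrix m m ℝ) (i : m) (x : EuclideanSpace ℝ m) :
    inner ℝ (col U i) x = op Uᵀ x i := by
  rw [col95, ← ContinuousLinearMap.adjoint_inner_right, op_adj]
  simp [EuclideanSpace.inner_single_left]

private theorem svd95 (U V : Matrix m m ℝ) (s : m → ℝ) (hV : Vᵀ * V = 1) (i : m) :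
    op (U * diagonal s * Vᵀ) (col V i) = s i • col U i := by
  rw [col95 V, ← op_mul, mul_assoc (U * diagonal s), hV, mul_one, op_mul]
  have : op (diagonal s) (EuclideanSpace.single i (1 : ℝ)) = s i • EuclideanSpace.single i (1 : ℝ) := by
    ext j
    rw [op_apply, Finset.sum_eq_single i]
    · by_cases hj : j = i
      · subst hj
        simp
      · simp [hj]
    · intro b _ hb
      simp [hb]
    · intro h
      exact absurd (Finset.mem_univ _) h
  rw [this, map_smul, ← col95]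

private theorem bil95 (U B : Matrix m m ℝ) (i j : m) :
    inner ℝ (col U i) (op B (col U j)) = (Uᵀ * B * U) i j := by
  rw [innercol95, col95 U j, ← op_mul, ← op_mul, mul_assoc]
  rw [op_apply, Finset.sum_eq_single j]
  · simp
  · intro b _ hb
    simp [hb]
  · intro h
    exact absurd (Finset.mem_univ _) h

private theorem onb95 {U : Matrix m m ℝ} (hU : Uᵀ * U = 1) {i j : m} (hij : i ≠ j) :
    inner ℝ (col U i) (col U j) = 0 := by
  have h := bil95 U 1 i j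
  rw [op_one, mul_one, hU, one_apply_ne hij] at h
  exact h

/-- The antisymmetrizer. -/
private theorem pr95 (X : EuclideanSpace ℝ (m × m)) : ‖op (r2 (1 : Matrix m m ℝ)) X‖ ≤ ‖X‖ := by
  have h1 : inner ℝ (op (r2 (1 : Matrix m m ℝ)) X) (op (r2 (1 : Matrix m m ℝ)) X) =
      inner ℝ X (op (r2 (1 : Matrix m m ℝ)) X) := by
    rw [← ContinuousLinearMap.adjoint_inner_right, op_adj, ← r2_transpose, transpose_one, ← op_mul, ← r2_mul, one_mul]
  rw [real_inner_self_eq_norm_sq] at h1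
  have h2 := real_inner_le_norm X (op (r2 (1 : Matrix m m ℝ)) X)
  rw [← h1, pow_two] at h2
  by_contra hcon
  push Not at hcon
  have h3 : 0 < ‖op (r2 (1 : Matrix m m ℝ)) X‖ := (norm_nonneg X).trans_lt hcon
  nlinarith

private theorem orth95 {U : Matrix m m ℝ} (hU : Uᵀ * U = 1) (X : EuclideanSpace ℝ (m × m)) : ‖op (r2 U) X‖ ≤ ‖X‖ := by
  have h1 : ‖op (r2 U) X‖ ^ 2 = ‖op (r2 (1 : Matrix m m ℝ)) X‖ ^ 2 := by
    rw [← real_inner_self_eq_norm_sq, ← real_inner_self_eq_norm_sq, ← ContinuousLinearMap.adjoint_inner_right,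
      ← ContinuousLinearMap.adjoint_inner_right (op (r2 (1 : Matrix m m ℝ))), op_adj, op_adj, ← r2_transpose, ← r2_transpose,
      transpose_one, ← op_mul, ← op_mul, ← r2_mul, ← r2_mul, one_mul, hU]
  have h2 : ‖op (r2 U) X‖ = ‖op (r2 (1 : Matrix m m ℝ)) X‖ :=
    (pow_left_inj₀ (norm_nonneg _) (norm_nonneg _) two_ne_zero).mp h1
  rw [h2]
  exact pr95 X

private theorem dg95 {s : m → ℝ} {c : ℝ} (hc : 0 ≤ c) (h : ∀ i j, i ≠ j → (s i * s j) ^ 2 ≤ c ^ 2) (X : EuclideanSpace ℝ (m × m)) :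
    ‖op (r2 (diagonal s)) X‖ ≤ c * ‖X‖ := by
  have h1 : ∀ p : m × m, op (r2 (diagonal s)) X p = s p.1 * s p.2 * op (r2 (1 : Matrix m m ℝ)) X p := by
    intro p
    rw [op_apply, op_apply, Finset.mul_sum]
    refine Finset.sum_congr rfl fun q _ => ?_
    have e : ∀ i j : m, diagonal s i j = s i * (1 : Matrix m m ℝ) i j := by
      intro i j
      by_cases hij : i = j
      · subst hij
        simp
      · simp [hij]
    simp only [r2, of_apply, e]
    ring
  have h2 : ∀ p : m × m, (op (r2 (diagonal s)) X p) ^ 2 ≤ c ^ 2 * (op (r2 (1 : Matrix m m ℝ)) X p) ^ 2 := by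
    intro p
    rw [h1, mul_pow]
    by_cases hp : p.1 = p.2
    · have h3 : op (r2 (1 : Matrix m m ℝ)) X p = 0 := by
        obtain ⟨i, j⟩ := p
        obtain rfl : i = j := hp
        rw [op_apply]
        refine Finset.sum_eq_zero fun q _ => ?_
        simp only [r2, of_apply]
        ring
      rw [h3]
      simp
    · exact mul_le_mul_of_nonneg_right (h _ _ hp) (sq_nonneg _)
  have h3 : ‖op (r2 (diagonal s)) X‖ ^ 2 ≤ (c * ‖op (r2 (1 : Matrix m m ℝ)) X‖) ^ 2 := by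
    rw [mul_pow, EuclideanSpace.real_norm_sq_eq, EuclideanSpace.real_norm_sq_eq, Finset.mul_sum]
    exact Finset.sum_le_sum fun p _ => h2 p
  have h4 := (abs_le_of_sq_le_sq' h3 (mul_nonneg hc (norm_nonneg _))).2
  exact h4.trans (mul_le_mul_of_nonneg_left (pr95 X) hc)

private theorem nwd95 {x y : EuclideanSpace ℝ m} (hx : ‖x‖ = 1) (hy : ‖y‖ = 1) (hxy : inner ℝ x y = 0) : ‖√2 • wd x y‖ = 1 := by
  have h : ‖√2 • wd x y‖ ^ 2 = 1 ^ 2 := by
    rw [norm_smul, mul_pow, norm_wd_sq, hx, hy, hxy, Real.norm_eq_abs, sq_abs, Real.sq_sqrt (by norm_num)]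
    norm_num
  exact (pow_left_inj₀ (norm_nonneg _) zero_le_one two_ne_zero).mp h

end Aux

namespace RD

variable {G : Type} [Group G] {N : ℕ} (D : RD G N)

/-- The second right singular vector. -/
noncomputable def a1 (g : G) : EuclideanSpace ℝ (Fin N) := col (D.kR g) D.i1

/-- The second left singular vector. -/
noncomputable def c1 (g : G) : EuclideanSpace ℝ (Fin N) := col (D.kL g) D.i1

theorem oR2_eq (g : G) : D.oR2 g = √2 • wd (D.vR g) (D.a1 g) := rfl

theorem oL2_eq (g : G) : D.oL2 g = √2 • wd (D.vL g) (D.c1 g) := rfl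

private theorem ne95 : D.i0 ≠ D.i1 := by
  intro h
  have h1 := congrArg Fin.val h
  simp [i0, i1] at h1

theorem norm_a1 (g : G) : ‖D.a1 g‖ = 1 := normcol95 (D.oR g) _

theorem norm_c1 (g : G) : ‖D.c1 g‖ = 1 := normcol95 (D.oL g) _

theorem inner_a (g : G) : inner ℝ (D.vR g) (D.a1 g) = 0 := onb95 (D.oR g) D.ne95

private theorem inner_c95 (g : G) : inner ℝ (D.vL g) (D.c1 g) = 0 := onb95 (D.oL g) D.ne95

theorem T1_adj_vL (g : G) : ContinuousLinearMap.adjoint (D.T1 g) (D.vL g) = D.s0 g • D.vR g := by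
  rw [(D.ts1 g).Tu, D.norm_T1]

private theorem T1_vR95 (g : G) : D.T1 g (D.vR g) = D.s0 g • D.vL g := by
  rw [(D.ts1 g).Tv, D.norm_T1]

private theorem specT95 (g : G) : (D.r g)ᵀ = D.kR g * diagonal (D.s g) * (D.kL g)ᵀ := by
  rw [D.spec g, transpose_mul, transpose_mul, transpose_transpose, diagonal_transpose, mul_assoc]

private theorem T1_a95 (g : G) : D.T1 g (D.a1 g) = D.s1 g • D.c1 g := by
  unfold T1
  rw [D.spec g]
  exact svd95 _ _ _ (D.oR g) _

theorem T1_adj_c1 (g : G) : ContinuousLinearMap.adjoint (D.T1 g) (D.c1 g) = D.s1 g • D.a1 g := by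
  unfold T1
  rw [op_adj, D.specT95 g]
  exact svd95 _ _ _ (D.oL g) _

private theorem iso95 (g : G) {i j : Fin N} (h : j ≠ jj N i) : inner ℝ (col (D.kR g) i) (op (JR N) (col (D.kR g) j)) = 0 := by
  rw [bil95, D.fR]
  simp only [JR, of_apply]
  rw [if_neg h]

theorem iso01 (g : G) : inner ℝ (D.vR g) (op (JR N) (D.a1 g)) = 0 := by
  refine D.iso95 g ?_
  intro h0
  have h1 := congrArg Fin.val h0
  have h2 : jj N D.i0 = D.i0.rev := by
    unfold jj
    rw [if_pos (Or.inl (by simp only [i0]; omega))]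
  rw [h2, Fin.val_rev] at h1
  have := D.hN
  simp only [i0, i1] at h1
  omega

theorem iso11 (g : G) : inner ℝ (D.a1 g) (op (JR N) (D.a1 g)) = 0 := by
  refine D.iso95 g ?_
  intro h0
  have h1 := congrArg Fin.val h0
  have h2 : jj N D.i1 = D.i1.rev := by
    unfold jj
    rw [if_pos (Or.inl (by simp only [i1]; omega))]
  rw [h2, Fin.val_rev] at h1
  have := D.hN
  simp only [i1] at h1
  omega

private theorem T2_o95 (g : G) : D.T2 g (D.oR2 g) = (D.s0 g * D.s1 g) • D.oL2 g := by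
  rw [oR2_eq, oL2_eq, map_smul]
  have h : D.T2 g (wd (D.vR g) (D.a1 g)) = wd (D.T1 g (D.vR g)) (D.T1 g (D.a1 g)) := op_r2_wd _ _ _
  rw [h, D.T1_vR95, D.T1_a95, wd_smul_left, wd_smul_right]
  simp only [smul_smul]
  congr 1
  ring

private theorem T2a95 (g : G) : ContinuousLinearMap.adjoint (D.T2 g) = op (r2 (D.r g)ᵀ) := by
  unfold T2
  rw [op_adj, r2_transpose]

private theorem T2a_o95 (g : G) : ContinuousLinearMap.adjoint (D.T2 g) (D.oL2 g) = (D.s0 g * D.s1 g) • D.oR2 g := by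
  rw [T2a95, oR2_eq, oL2_eq, map_smul]
  have h1 := D.T1_adj_vL g
  have h2 := D.T1_adj_c1 g
  unfold T1 at h1 h2
  rw [op_adj] at h1 h2
  rw [op_r2_wd, h1, h2, wd_smul_left, wd_smul_right]
  simp only [smul_smul]
  congr 1
  ring

private theorem noR95 (g : G) : ‖D.oR2 g‖ = 1 := nwd95 (D.norm_vR g) (D.norm_a1 g) (D.inner_a g)

private theorem noL95 (g : G) : ‖D.oL2 g‖ = 1 := nwd95 (D.norm_vL g) (D.norm_c1 g) (D.inner_c95 g)

private theorem s01_pos95 (g : G) : 0 < D.s0 g * D.s1 g := mul_pos (D.s0_pos g) (D.s1_pos g)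

private theorem sprod95 (g : G) (i j : Fin N) (hij : i ≠ j) : (D.s g i * D.s g j) ^ 2 ≤ (D.s0 g * D.s1 g) ^ 2 := by
  have h0 : ∀ k, D.s g k ≤ D.s0 g := fun k => D.anti g (Fin.le_def.2 (Nat.zero_le _))
  have h1 : ∀ k : Fin N, k ≠ D.i0 → D.s g k ≤ D.s1 g := by
    intro k hk
    apply D.anti g
    rw [Fin.le_def]
    have : (k : ℕ) ≠ 0 := fun h => hk (Fin.ext h)
    simp only [i1]
    omega
  have p := D.pos g
  refine pow_le_pow_left₀ (mul_pos (p i) (p j)).le ?_ 2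
  by_cases hj : j = D.i0
  · have hi : i ≠ D.i0 := fun h => hij (h.trans hj.symm)
    rw [mul_comm]
    exact mul_le_mul (h0 j) (h1 i hi) (p i).le (D.s0_pos g).le
  · exact mul_le_mul (h0 i) (h1 j hj) (p j).le (D.s0_pos g).le

theorem norm_T2 (g : G) : ‖D.T2 g‖ = D.s0 g * D.s1 g := by
  apply le_antisymm
  · refine ContinuousLinearMap.opNorm_le_bound _ (D.s01_pos95 g).le fun X => ?_
    unfold T2
    rw [D.spec g, r2_mul, r2_mul, op_mul, op_mul]
    have hV : ((D.kR g)ᵀ)ᵀ * (D.kR g)ᵀ = 1 := by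
      rw [transpose_transpose]
      exact mul_eq_one_comm.mp (D.oR g)
    refine (orth95 (D.oL g) _).trans ((dg95 (D.s01_pos95 g).le (D.sprod95 g) _).trans ?_)
    exact mul_le_mul_of_nonneg_left (orth95 hV X) (D.s01_pos95 g).le
  · have h := (D.T2 g).le_opNorm (D.oR2 g)
    rw [D.T2_o95, norm_smul, D.noL95, D.noR95, mul_one, mul_one, Real.norm_eq_abs, abs_of_pos (D.s01_pos95 g)] at h
    exact h

theorem ts2 (g : G) : TS (D.T2 g) (D.oL2 g) (D.oR2 g) where
  pos := by rw [D.norm_T2]; exact D.s01_pos95 g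
  nu := D.noL95 g
  nv := D.noR95 g
  Tv := by rw [D.norm_T2]; exact D.T2_o95 g
  Tu := by rw [D.norm_T2]; exact D.T2a_o95 g

private theorem r2mul95 (g h : G) : r2 (D.r (g * h)) = r2 (D.r g * D.r h) := by
  rcases D.mul g h with e | e
  · rw [e]
  · rw [e, r2_neg]

theorem mul2 (g h : G) (x : EuclideanSpace ℝ (Fin N × Fin N)) : D.T2 (g * h) x = D.T2 g (D.T2 h x) := by
  unfold T2
  rw [D.r2mul95, r2_mul, op_mul]

private theorem linv95 (g : G) : (JR N * (D.r g)ᵀ * JR N) * D.r g = 1 := by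
  rw [mul_assoc, mul_assoc, ← mul_assoc (D.r g)ᵀ, D.form, JR_mul]

private theorem rinv95 (g : G) : D.r g * (JR N * (D.r g)ᵀ * JR N) = 1 :=
  mul_eq_one_comm.mp (D.linv95 g)

private theorem form95 (g : G) : D.r g * JR N * (D.r g)ᵀ = JR N := by
  have e : D.r g * (JR N * (D.r g)ᵀ * JR N) * JR N = D.r g * JR N * (D.r g)ᵀ := by
    simp only [mul_assoc, JR_mul, mul_one]
  rw [← e, D.rinv95, one_mul]

private theorem prod95 (g h r : G) : (D.r g * D.r r) * JR N * (D.r h * D.r r)ᵀ = D.r g * JR N * (D.r h)ᵀ := by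
  have e : (D.r g * D.r r) * JR N * (D.r h * D.r r)ᵀ = D.r g * (D.r r * JR N * (D.r r)ᵀ) * (D.r h)ᵀ := by
    rw [transpose_mul]
    simp only [mul_assoc]
  rw [e, D.form95]

private theorem relM95 (g h r : G) : D.r (g * r) * JR N * (D.r (h * r))ᵀ = D.r g * JR N * (D.r h)ᵀ ∨
    D.r (g * r) * JR N * (D.r (h * r))ᵀ = -(D.r g * JR N * (D.r h)ᵀ) := by
  rcases D.mul g r with e | e <;> rcases D.mul h r with e' | e' <;> rw [e, e']
  · left
    exact D.prod95 g h r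
  · right
    rw [transpose_neg, mul_neg, D.prod95 g h r]
  · right
    rw [neg_mul, neg_mul, D.prod95 g h r]
  · left
    rw [transpose_neg, mul_neg, neg_mul, neg_mul, neg_neg, D.prod95 g h r]

theorem rel1 (g h r : G) : (∀ x, D.T1 (g * r) (op (JR N) (ContinuousLinearMap.adjoint (D.T1 (h * r)) x)) =
      D.T1 g (op (JR N) (ContinuousLinearMap.adjoint (D.T1 h) x))) ∨
    ∀ x, D.T1 (g * r) (op (JR N) (ContinuousLinearMap.adjoint (D.T1 (h * r)) x)) =
      -D.T1 g (op (JR N) (ContinuousLinearMap.adjoint (D.T1 h) x)) := by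
  unfold T1
  rcases D.relM95 g h r with e | e
  · left
    intro x
    rw [op_adj, op_adj, ← op_mul, ← op_mul, e, op_mul, op_mul]
  · right
    intro x
    rw [op_adj, op_adj, ← op_mul, ← op_mul, e, op_neg, op_mul, op_mul]

theorem rel2 (g h r : G) (x : EuclideanSpace ℝ (Fin N × Fin N)) :
    D.T2 (g * r) (op (JK N) (ContinuousLinearMap.adjoint (D.T2 (h * r)) x)) =
      D.T2 g (op (JK N) (ContinuousLinearMap.adjoint (D.T2 h) x)) := by
  rw [T2a95, T2a95]
  unfold T2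
  have e : r2 (D.r (g * r) * JR N * (D.r (h * r))ᵀ) = r2 (D.r g * JR N * (D.r h)ᵀ) := by
    rcases D.relM95 g h r with e | e
    · rw [e]
    · rw [e, r2_neg]
  rw [← op_mul, ← op_mul, r2_JR, ← r2_mul, e, r2_mul, ← r2_JR, op_mul, op_mul]

private theorem one95 : D.r 1 = 1 ∨ D.r 1 = -1 := by
  have hl := D.linv95 1
  rcases D.mul 1 1 with h | h
  · left
    rw [mul_one] at h
    have h2 : (JR N * (D.r 1)ᵀ * JR N) * D.r 1 = (JR N * (D.r 1)ᵀ * JR N) * (D.r 1 * D.r 1) :=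
      congrArg (fun X => (JR N * (D.r 1)ᵀ * JR N) * X) h
    rw [← mul_assoc (JR N * (D.r 1)ᵀ * JR N) (D.r 1) (D.r 1), hl, one_mul] at h2
    exact h2.symm
  · right
    rw [mul_one] at h
    have h2 : (JR N * (D.r 1)ᵀ * JR N) * D.r 1 = (JR N * (D.r 1)ᵀ * JR N) * -(D.r 1 * D.r 1) :=
      congrArg (fun X => (JR N * (D.r 1)ᵀ * JR N) * X) h
    rw [mul_neg, ← mul_assoc (JR N * (D.r 1)ᵀ * JR N) (D.r 1) (D.r 1), hl, one_mul] at h2
    rw [h2, neg_neg]

private theorem inv95 (g : G) : D.r g⁻¹ = JR N * (D.r g)ᵀ * JR N ∨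
    D.r g⁻¹ = -(JR N * (D.r g)ᵀ * JR N) := by
  have h1 : D.r g⁻¹ * D.r g = 1 ∨ D.r g⁻¹ * D.r g = -1 := by
    have h := D.mul g⁻¹ g
    rw [inv_mul_cancel] at h
    rcases h with h | h <;> rcases D.one95 with h' | h'
    · left; rw [← h, h']
    · right; rw [← h, h']
    · right
      rw [h'] at h
      rw [h, neg_neg]
    · left
      rw [h'] at h
      exact (neg_injective h).symm
  have h2 : D.r g⁻¹ = D.r g⁻¹ * D.r g * (JR N * (D.r g)ᵀ * JR N) := by
    rw [mul_assoc, D.rinv95, mul_one]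
  rcases h1 with h | h
  · left
    rw [h2, h, one_mul]
  · right
    rw [h2, h, neg_mul, one_mul]

theorem inv2 (g : G) (x : EuclideanSpace ℝ (Fin N × Fin N)) :
    D.T2 g⁻¹ x = op (JK N) (ContinuousLinearMap.adjoint (D.T2 g) (op (JK N) x)) := by
  rw [T2a95]
  unfold T2
  have e : r2 (D.r g⁻¹) = r2 (JR N * ((D.r g)ᵀ * JR N)) := by
    rcases D.inv95 g with e | e
    · rw [e, mul_assoc]
    · rw [e, r2_neg, mul_assoc]
  rw [e, ← r2_JR', ← r2_JR, op_mul, op_mul]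

private theorem T2inv_le95 (g : G) : ‖D.T2 g⁻¹‖ ≤ ‖D.T2 g‖ := by
  refine ContinuousLinearMap.opNorm_le_bound _ (norm_nonneg _) fun x => ?_
  rw [D.inv2, norm_JK]
  refine ((ContinuousLinearMap.adjoint (D.T2 g)).le_opNorm _).trans ?_
  rw [norm_JK, LinearIsometryEquiv.norm_map]

theorem s1_inv (g : G) : D.s1 g⁻¹ = D.s1 g := by
  have h1 := D.T2inv_le95 g
  have h2 := D.T2inv_le95 g⁻¹
  rw [inv_inv] at h2
  have h3 := le_antisymm h1 h2
  rw [D.norm_T2, D.norm_T2, D.s0_inv] at h3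
  exact mul_left_cancel₀ (D.s0_pos g).ne' h3

theorem s01_mul_le (g h : G) : D.s0 (g * h) * D.s1 (g * h) ≤ D.s0 g * D.s1 g * (D.s0 h * D.s1 h) := by
  rw [← D.norm_T2, ← D.norm_T2, ← D.norm_T2]
  refine ContinuousLinearMap.opNorm_le_bound _ (by positivity) fun x => ?_
  rw [D.mul2, mul_assoc]
  exact ((D.T2 g).le_opNorm _).trans (mul_le_mul_of_nonneg_left ((D.T2 h).le_opNorm x) (norm_nonneg _))

theorem det_o2 (g h : G) : inner ℝ (D.oR2 g) (op (JK N) (D.oR2 h)) =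
    inner ℝ (D.vR g) (op (JR N) (D.vR h)) * inner ℝ (D.a1 g) (op (JR N) (D.a1 h)) -
      inner ℝ (D.vR g) (op (JR N) (D.a1 h)) * inner ℝ (D.a1 g) (op (JR N) (D.vR h)) := by
  rw [oR2_eq, oR2_eq, map_smul, JK_wd, real_inner_smul_left, real_inner_smul_right, inner_wd, ← mul_assoc,
    Real.mul_self_sqrt (by norm_num)]
  ring

end RD

end Pool.Agent.Helper20.TB
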