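import Pool.Agent.Helper20.TB.Sz
import Pool.Agent.Helper20.TB.Rd2

/-!
# Project OB (MP_0f6f3f_an), layer TB, block TB-R4: the weights

`bump t = Real.smoothTransition (2 - t)`: `1` for `t ≤ 1`, `0` for `t ≥ 2`, values in `[0, 1]`. `w1 v e C g = bump ((1 - ‖op (r g) v‖² / hs) / e) * bump (e2 / (C hs))`, `hs = hs (D.r g) > 0`, `e2 = e2 (D.r g) > 0` (`s0_sq_le_hs`, `le_e2`).
`w1_ne`: both factors are `≠ 0`: `1 - ‖..‖²/hs < 2 e = η² / 2` (`e = η² / 4`), so `PC` (`pc_of_hs`); `e2 < 2 C hs`: `s0² s1² ≤ e2 < 2 C N s0²`, so `s1² ≤ 2 C N`. `w2_ne`: `PC` by `pc_of_hs` for the matrix `r2 (D.r g)` (`e2 = hs (r2 ..)`), `hs² < 2 C e2`: `s0⁴ ≤ hs² < 2 C N² (s0 s1)²`.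
`w1_one`: `‖op (r g) v‖ ≥ |⟪vL, op (r g) v⟫| = s0 |⟪vR, v⟫|` (`ts1`: `T1† vL = s0 vR`), `hs ≤ s0² + N s1² ≤ s0² (1 + e / 2)`, so `‖..‖²/hs ≥ (1 - e/2) / (1 + e/2) ≥ 1 - e`. `e2 ≤ N² s0² s1² ≤ N² K² hs`. `w2_one`: `‖T2 v‖ ≥ s0 s1 |⟪oR2, v⟫|` (`ts2`, `norm_T2`), `e2 ≤ (s0 s1)² + N² s0² ≤ (s0 s1)² (1 + e/2)` (`N² ≤ (e/2) s1²`),
`hs² ≤ N² s0⁴ ≤ N² K² (s0 s1)² ≤ N² K² e2`.
-/

set_option autoImplicit false

open Matrix

namespace Pool.Agent.Helper20.TB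

open Pool.Agent.Helper55.OB

theorem bump_one {t : ℝ} (ht : t ≤ 1) : bump t = 1 :=
  Real.smoothTransition.one_of_one_le (by linarith)

theorem bump_ne {t : ℝ} (ht : bump t ≠ 0) : t < 2 := by
  by_contra h
  push Not at h
  exact ht (Real.smoothTransition.zero_of_nonpos (by linarith))

theorem bump_mem (t : ℝ) : 0 ≤ bump t ∧ bump t ≤ 1 :=
  ⟨Real.smoothTransition.nonneg _, Real.smoothTransition.le_one _⟩

private theorem low96 {V : Type} [NormedAddCommGroup V] [InnerProductSpace ℝ V] [CompleteSpace V] {T : V →L[ℝ] V} {u w : V}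
    (hs : TS T u w) (v : V) : ‖T‖ ^ 2 * inner ℝ v w ^ 2 ≤ ‖T v‖ ^ 2 := by
  have h1 : (inner ℝ u (T v) : ℝ) = ‖T‖ * inner ℝ v w := by
    rw [← ContinuousLinearMap.adjoint_inner_left, hs.Tu, real_inner_smul_left, real_inner_comm]
  have h2 : |(inner ℝ u (T v) : ℝ)| ≤ ‖T v‖ := by
    refine (abs_real_inner_le_norm _ _).trans ?_
    rw [hs.nu, one_mul]
  rw [← mul_pow, ← h1, ← sq_abs]
  exact pow_le_pow_left₀ (abs_nonneg _) h2 2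

private theorem frac96 {e x h s q : ℝ} (he : 0 < e) (hh : 0 < h) (hx : 0 ≤ x) (h1 : s * (1 - e / 2) ≤ x) (h2 : h ≤ s * (1 + e / 2))
    (hs : s = q ^ 2) : (1 - x / h) / e ≤ 1 := by
  rw [div_le_one he, sub_le_iff_le_add, ← sub_le_iff_le_add', le_div_iff₀ hh]
  have hs0 : 0 ≤ s := by rw [hs]; positivity
  by_cases h3 : 0 ≤ 1 - e
  · have h4 : (1 - e) * h ≤ (1 - e) * (s * (1 + e / 2)) := mul_le_mul_of_nonneg_left h2 h3
    nlinarith [mul_nonneg hs0 (sq_nonneg e)]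
  · push Not at h3
    nlinarith

namespace RD

variable {G : Type} [Group G] {N : ℕ} (D : RD G N)

private theorem hs_pos96 (g : G) : 0 < hs (D.r g) := lt_of_lt_of_le (pow_pos (D.s0_pos g) 2) (D.s0_sq_le_hs g)

private theorem e2_pos96 (g : G) : 0 < e2 (D.r g) :=
  lt_of_lt_of_le (pow_pos (mul_pos (D.s0_pos g) (D.s1_pos g)) 2) (D.le_e2 g)

theorem w1_mem (v : EuclideanSpace ℝ (Fin N)) (e C : ℝ) (g : G) : 0 ≤ D.w1 v e C g ∧ D.w1 v e C g ≤ 1 :=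
  ⟨mul_nonneg (bump_mem _).1 (bump_mem _).1, mul_le_one₀ (bump_mem _).2 (bump_mem _).1 (bump_mem _).2⟩

theorem w2_mem (v : EuclideanSpace ℝ (Fin N × Fin N)) (e C : ℝ) (g : G) : 0 ≤ D.w2 v e C g ∧ D.w2 v e C g ≤ 1 :=
  ⟨mul_nonneg (bump_mem _).1 (bump_mem _).1, mul_le_one₀ (bump_mem _).2 (bump_mem _).1 (bump_mem _).2⟩

theorem w1_ne {v : EuclideanSpace ℝ (Fin N)} (hv : ‖v‖ = 1) {η C : ℝ} (hη : 0 < η) (hη1 : η ≤ 1) (hC : 0 < C) {g : G}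
    (h : D.w1 v (η ^ 2 / 4) C g ≠ 0) : PC (D.T1 g) v η ∧ D.s1 g ^ 2 ≤ 2 * C * N := by
  unfold w1 at h
  have h1 := bump_ne (left_ne_zero_of_mul h)
  have h2 := bump_ne (right_ne_zero_of_mul h)
  have hh := D.hs_pos96 g
  rw [div_lt_iff₀ (by positivity)] at h1
  rw [div_lt_iff₀ (by positivity)] at h2
  refine ⟨pc_of_hs (D.r g) hh hv hη.le hη1 (by linarith), ?_⟩
  have h3 := D.le_e2 g
  have h4 := D.hs_le' g
  have h5 := D.s0_pos g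
  have h6 : D.s0 g ^ 2 * D.s1 g ^ 2 ≤ D.s0 g ^ 2 * (2 * C * N) := by
    have h7 : C * hs (D.r g) ≤ C * (N * D.s0 g ^ 2) := mul_le_mul_of_nonneg_left h4 hC.le
    rw [mul_pow] at h3
    nlinarith
  exact le_of_mul_le_mul_left h6 (by positivity)

theorem w2_ne {v : EuclideanSpace ℝ (Fin N × Fin N)} (hv : ‖v‖ = 1) {η C : ℝ} (hη : 0 < η) (hη1 : η ≤ 1) (hC : 0 < C) {g : G}
    (h : D.w2 v (η ^ 2 / 4) C g ≠ 0) : PC (D.T2 g) v η ∧ D.s0 g ^ 2 ≤ 2 * C * N ^ 2 * D.s1 g ^ 2 := by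
  unfold w2 at h
  have h1 := bump_ne (left_ne_zero_of_mul h)
  have h2 := bump_ne (right_ne_zero_of_mul h)
  have hh := D.hs_pos96 g
  have he := D.e2_pos96 g
  rw [div_lt_iff₀ (by positivity)] at h1
  rw [div_lt_iff₀ (by positivity)] at h2
  refine ⟨pc_of_hs (r2 (D.r g)) he hv hη.le hη1 (by unfold e2 at h1; linarith), ?_⟩
  have h3 := D.s0_sq_le_hs g
  have h4 := D.e2_le' g
  have h5 := D.s0_pos g
  have h6 : D.s0 g ^ 2 * D.s0 g ^ 2 ≤ D.s0 g ^ 2 * (2 * C * N ^ 2 * D.s1 g ^ 2) := by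
    have h7 : C * e2 (D.r g) ≤ C * (N ^ 2 * (D.s0 g * D.s1 g) ^ 2) := mul_le_mul_of_nonneg_left h4 hC.le
    have h8 : D.s0 g ^ 2 * D.s0 g ^ 2 ≤ hs (D.r g) ^ 2 := by
      rw [pow_two (hs (D.r g))]
      exact mul_le_mul h3 h3 (by positivity) hh.le
    have h9 : (D.s0 g * D.s1 g) ^ 2 = D.s0 g ^ 2 * D.s1 g ^ 2 := mul_pow _ _ _
    rw [h9] at h7
    nlinarith
  exact le_of_mul_le_mul_left h6 (by positivity)

theorem w1_one {v : EuclideanSpace ℝ (Fin N)} {e K : ℝ} (he : 0 < e) {g : G} (hv : 1 - e / 2 ≤ inner ℝ v (D.vR g) ^ 2)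
    (hK : D.s1 g ≤ K) (h1 : N * D.s1 g ^ 2 ≤ e / 2 * D.s0 g ^ 2) : D.w1 v e (N ^ 2 * K ^ 2) g = 1 := by
  have hh := D.hs_pos96 g
  have h0 := D.s0_pos g
  have h01 := D.s1_pos g
  have hK0 : 0 < K := lt_of_lt_of_le h01 hK
  have hN : (0 : ℝ) < N := by
    have := D.hN
    exact_mod_cast (by omega : 0 < N)
  have h2 := low96 (D.ts1 g) v
  rw [D.norm_T1] at h2
  have h3 := D.hs_le g
  unfold w1
  rw [bump_one, bump_one, one_mul]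
  · rw [div_le_one (by positivity)]
    have h4 := D.e2_le' g
    have h5 := D.s0_sq_le_hs g
    calc e2 (D.r g) ≤ N ^ 2 * (D.s0 g * D.s1 g) ^ 2 := h4
      _ = N ^ 2 * D.s1 g ^ 2 * D.s0 g ^ 2 := by ring
      _ ≤ N ^ 2 * K ^ 2 * hs (D.r g) := by gcongr
  · refine frac96 he hh (by positivity) (s := D.s0 g ^ 2) (q := D.s0 g) ?_ ?_ rfl
    · refine le_trans ?_ h2
      exact mul_le_mul_of_nonneg_left hv (by positivity)
    · linarith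

theorem w2_one {v : EuclideanSpace ℝ (Fin N × Fin N)} {e K : ℝ} (he : 0 < e) {g : G} (hv : 1 - e / 2 ≤ inner ℝ v (D.oR2 g) ^ 2)
    (hK : D.s0 g ≤ K * D.s1 g) (h1 : N ^ 2 ≤ e / 2 * D.s1 g ^ 2) : D.w2 v e (N ^ 2 * K ^ 2) g = 1 := by
  have hh := D.hs_pos96 g
  have he2 := D.e2_pos96 g
  have h0 := D.s0_pos g
  have h01 := D.s1_pos g
  have hK0 : 0 < K := by
    by_contra hcon
    push Not at hcon
    have : K * D.s1 g ≤ 0 := mul_nonpos_of_nonpos_of_nonneg hcon h01.le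
    linarith
  have hN : (0 : ℝ) < N := by
    have := D.hN
    exact_mod_cast (by omega : 0 < N)
  have h2 := low96 (D.ts2 g) v
  rw [D.norm_T2] at h2
  have h3 := D.e2_le g
  unfold w2
  rw [bump_one, bump_one, one_mul]
  · rw [div_le_one (by positivity)]
    have h4 := D.hs_le' g
    have h5 := D.le_e2 g
    have h6 : D.s0 g ^ 2 ≤ K ^ 2 * D.s1 g ^ 2 := by
      rw [← mul_pow]
      exact pow_le_pow_left₀ h0.le hK 2
    calc hs (D.r g) ^ 2 ≤ (N * D.s0 g ^ 2) ^ 2 := pow_le_pow_left₀ hh.le h4 2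
      _ = N ^ 2 * (D.s0 g ^ 2 * D.s0 g ^ 2) := by ring
      _ ≤ N ^ 2 * (D.s0 g ^ 2 * (K ^ 2 * D.s1 g ^ 2)) := by gcongr
      _ = N ^ 2 * K ^ 2 * (D.s0 g * D.s1 g) ^ 2 := by ring
      _ ≤ N ^ 2 * K ^ 2 * e2 (D.r g) := by gcongr
  · refine frac96 he he2 (by positivity) (s := (D.s0 g * D.s1 g) ^ 2) (q := D.s0 g * D.s1 g) ?_ ?_ rfl
    · refine le_trans ?_ h2
      exact mul_le_mul_of_nonneg_left hv (by positivity)
    · have h7 : D.s0 g ^ 2 * N ^ 2 ≤ D.s0 g ^ 2 * (e / 2 * D.s1 g ^ 2) := mul_le_mul_of_nonneg_left h1 (by positivity)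
      nlinarith

end RD

end Pool.Agent.Helper20.TB
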