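import Pool.Agent.Helper20.TB.Sm
import Pool.Agent.Helper20.TB.Sch
import Pool.Agent.Helper20.TB.Wt

/-!
# Project OB (MP_0f6f3f_an), layer TB, block TB-B2: smoothness of the weights

`phi1 v e C A B = bump ((1 - ‖op A v‖² / hs A) / e) * bump (hs B / (C * hs A))`, `phi2 v e C A B = bump ((1 - ‖op B v‖² / hs B) / e) * bump (hs A ^ 2 / (C * hs B))`; `D.w1 v e C g = phi1 v e C (D.r g) (r2 (D.r g))`, `D.w2 v e C g = phi2 v e C (D.r g) (r2 (D.r g))` (by definition). `mt1 q`, `mt2 q`: the two matrices of a vector `q`.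
PROOFS. `cd1`, `cd2`: `Real.smoothTransition.contDiff`, quotients of polynomials with denominators `≠ 0` (`hs`, `‖op A v‖²` are finite sums of squares of linear functions of `q`: `op_apply`, `EuclideanSpace.norm_sq_eq`). `sch1`: `exists_schwartz` with `U = {q | hs (mt1 q) ≠ 0}`, `K = {q | (∀ i, |q i| ≤ A) ∧ c ≤ hs (mt1 q)}` (closed and bounded, so compact).
`phi1_smul`, `phi2_smul`: homogeneity (`hs_smul`).
-/

set_option autoImplicit false

open MeasureTheory Filter Topology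
open scoped SchwartzMap ContDiff

namespace Pool.Agent.Helper20.TB

section Phi

variable {m1 m2 : Type} [Fintype m1] [DecidableEq m1] [Fintype m2] [DecidableEq m2]

/-- The weight of the first node as a function of a pair of matrices. -/
noncomputable def phi1 (v : EuclideanSpace ℝ m1) (e C : ℝ) (A : Matrix m1 m1 ℝ) (B : Matrix m2 m2 ℝ) : ℝ :=
  bump ((1 - ‖op A v‖ ^ 2 / hs A) / e) * bump (hs B / (C * hs A))

/-- The weight of the second node as a function of a pair of matrices. -/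
noncomputable def phi2 (v : EuclideanSpace ℝ m2) (e C : ℝ) (A : Matrix m1 m1 ℝ) (B : Matrix m2 m2 ℝ) : ℝ :=
  bump ((1 - ‖op B v‖ ^ 2 / hs B) / e) * bump (hs A ^ 2 / (C * hs B))

/-- The first matrix. -/
def mt1 (q : EuclideanSpace ℝ ((m1 × m1) ⊕ (m2 × m2))) : Matrix m1 m1 ℝ := Matrix.of fun i j => q (Sum.inl (i, j))

/-- The second matrix. -/
def mt2 (q : EuclideanSpace ℝ ((m1 × m1) ⊕ (m2 × m2))) : Matrix m2 m2 ℝ := Matrix.of fun i j => q (Sum.inr (i, j))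

private theorem bump_cd53 : ContDiff ℝ ∞ bump := by
  unfold bump
  exact Real.smoothTransition.contDiff.comp (contDiff_const.sub contDiff_id)

private theorem coord_cd53 {ι : Type} [Fintype ι] (i : ι) : ContDiff ℝ ∞ fun q : EuclideanSpace ℝ ι => q i :=
  (EuclideanSpace.proj (𝕜 := ℝ) i).contDiff

private theorem hs1_cd53 : ContDiff ℝ ∞
    fun q : EuclideanSpace ℝ ((m1 × m1) ⊕ (m2 × m2)) => hs (mt1 q) := by
  unfold hs mt1
  exact ContDiff.sum fun i _ => ContDiff.sum fun j _ => (coord_cd53 (Sum.inl (i, j))).pow 2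

private theorem hs2_cd53 : ContDiff ℝ ∞
    fun q : EuclideanSpace ℝ ((m1 × m1) ⊕ (m2 × m2)) => hs (mt2 q) := by
  unfold hs mt2
  exact ContDiff.sum fun i _ => ContDiff.sum fun j _ => (coord_cd53 (Sum.inr (i, j))).pow 2

private theorem nm1_cd53 (v : EuclideanSpace ℝ m1) : ContDiff ℝ ∞
    fun q : EuclideanSpace ℝ ((m1 × m1) ⊕ (m2 × m2)) => ‖op (mt1 q) v‖ ^ 2 := by
  have h : (fun q : EuclideanSpace ℝ ((m1 × m1) ⊕ (m2 × m2)) => ‖op (mt1 q) v‖ ^ 2) =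
      fun q => ∑ i, (∑ j, q (Sum.inl (i, j)) * v j) ^ 2 := by
    funext q
    rw [EuclideanSpace.norm_sq_eq]
    refine Finset.sum_congr rfl fun i _ => ?_
    rw [op_apply, Real.norm_eq_abs, sq_abs]
    rfl
  rw [h]
  exact ContDiff.sum fun i _ => (ContDiff.sum fun j _ => (coord_cd53 (Sum.inl (i, j))).mul contDiff_const).pow 2

private theorem nm2_cd53 (v : EuclideanSpace ℝ m2) : ContDiff ℝ ∞
    fun q : EuclideanSpace ℝ ((m1 × m1) ⊕ (m2 × m2)) => ‖op (mt2 q) v‖ ^ 2 := by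
  have h : (fun q : EuclideanSpace ℝ ((m1 × m1) ⊕ (m2 × m2)) => ‖op (mt2 q) v‖ ^ 2) =
      fun q => ∑ i, (∑ j, q (Sum.inr (i, j)) * v j) ^ 2 := by
    funext q
    rw [EuclideanSpace.norm_sq_eq]
    refine Finset.sum_congr rfl fun i _ => ?_
    rw [op_apply, Real.norm_eq_abs, sq_abs]
    rfl
  rw [h]
  exact ContDiff.sum fun i _ => (ContDiff.sum fun j _ => (coord_cd53 (Sum.inr (i, j))).mul contDiff_const).pow 2

private theorem compact53 {ι : Type} [Fintype ι] (A : ℝ) {f : EuclideanSpace ℝ ι → ℝ} (hf : Continuous f) (c : ℝ) :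
    IsCompact {q : EuclideanSpace ℝ ι | (∀ i, |q i| ≤ A) ∧ c ≤ f q} := by
  have hcl : IsClosed {q : EuclideanSpace ℝ ι | (∀ i, |q i| ≤ A) ∧ c ≤ f q} := by
    have h1 : {q : EuclideanSpace ℝ ι | (∀ i, |q i| ≤ A) ∧ c ≤ f q} =
        (⋂ i, {q : EuclideanSpace ℝ ι | |q i| ≤ A}) ∩ {q | c ≤ f q} := by
      ext q
      simp
    rw [h1]
    refine IsClosed.inter (isClosed_iInter fun i => ?_) (isClosed_le continuous_const hf)
    exact isClosed_le (coord_cd53 i).continuous.abs continuous_const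
  refine Metric.isCompact_of_isClosed_isBounded hcl ?_
  refine (Metric.isBounded_closedBall (x := (0 : EuclideanSpace ℝ ι))
    (r := √(∑ _i : ι, A ^ 2))).subset fun q hq => ?_
  rw [mem_closedBall_zero_iff]
  refine Real.le_sqrt_of_sq_le ?_
  rw [EuclideanSpace.norm_sq_eq]
  refine Finset.sum_le_sum fun i _ => ?_
  rw [Real.norm_eq_abs, sq_abs]
  exact sq_le_sq' (by linarith [(abs_le.1 (hq.1 i)).1]) (abs_le.1 (hq.1 i)).2

theorem cd1 (v : EuclideanSpace ℝ m1) (e : ℝ) {C : ℝ} (hC : C ≠ 0) : ContDiffOn ℝ ∞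
    (fun q : EuclideanSpace ℝ ((m1 × m1) ⊕ (m2 × m2)) => phi1 v e C (mt1 q) (mt2 q)) {q | hs (mt1 q) ≠ 0} := by
  unfold phi1
  refine ContDiffOn.mul ?_ ?_
  · refine bump_cd53.comp_contDiffOn (ContDiffOn.div_const (contDiffOn_const.sub ?_) e)
    exact (nm1_cd53 v).contDiffOn.div hs1_cd53.contDiffOn fun q hq => hq
  · refine bump_cd53.comp_contDiffOn ?_
    exact hs2_cd53.contDiffOn.div (contDiffOn_const.mul hs1_cd53.contDiffOn) fun q hq => mul_ne_zero hC hq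

theorem cd2 (v : EuclideanSpace ℝ m2) (e : ℝ) {C : ℝ} (hC : C ≠ 0) : ContDiffOn ℝ ∞
    (fun q : EuclideanSpace ℝ ((m1 × m1) ⊕ (m2 × m2)) => phi2 v e C (mt1 q) (mt2 q)) {q | hs (mt2 q) ≠ 0} := by
  unfold phi2
  refine ContDiffOn.mul ?_ ?_
  · refine bump_cd53.comp_contDiffOn (ContDiffOn.div_const (contDiffOn_const.sub ?_) e)
    exact (nm2_cd53 v).contDiffOn.div hs2_cd53.contDiffOn fun q hq => hq
  · refine bump_cd53.comp_contDiffOn ?_
    exact (hs1_cd53.contDiffOn.pow 2).div (contDiffOn_const.mul hs2_cd53.contDiffOn) fun q hq => mul_ne_zero hC hq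

theorem sch1 (v : EuclideanSpace ℝ m1) (e : ℝ) {C A c : ℝ} (hC : 0 < C) (hc : 0 < c) :
    ∃ Ψ : 𝓢(EuclideanSpace ℝ ((m1 × m1) ⊕ (m2 × m2)), ℂ), ∀ (X : Matrix m1 m1 ℝ) (Y : Matrix m2 m2 ℝ),
      (∀ i j, |X i j| ≤ A) → (∀ i j, |Y i j| ≤ A) → c ≤ hs X → Ψ (fl2 X Y) = (phi1 v e C X Y : ℂ) := by
  obtain ⟨Ψ, hΨ⟩ := exists_schwartz (isOpen_ne_fun (hs1_cd53 (m1 := m1) (m2 := m2)).continuous continuous_const)
    (cd1 (m2 := m2) v e hC.ne') (compact53 A (hs1_cd53 (m1 := m1) (m2 := m2)).continuous c)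
    (fun q hq => (lt_of_lt_of_le hc hq.2).ne')
  refine ⟨Ψ, fun X Y hX hY hc1 => ?_⟩
  refine hΨ (fl2 X Y) ⟨?_, hc1⟩
  rintro (⟨i, j⟩ | ⟨i, j⟩)
  · exact hX i j
  · exact hY i j

theorem sch2 (v : EuclideanSpace ℝ m2) (e : ℝ) {C A c : ℝ} (hC : 0 < C) (hc : 0 < c) :
    ∃ Ψ : 𝓢(EuclideanSpace ℝ ((m1 × m1) ⊕ (m2 × m2)), ℂ), ∀ (X : Matrix m1 m1 ℝ) (Y : Matrix m2 m2 ℝ),
      (∀ i j, |X i j| ≤ A) → (∀ i j, |Y i j| ≤ A) → c ≤ hs Y → Ψ (fl2 X Y) = (phi2 v e C X Y : ℂ) := by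
  obtain ⟨Ψ, hΨ⟩ := exists_schwartz (isOpen_ne_fun (hs2_cd53 (m1 := m1) (m2 := m2)).continuous continuous_const)
    (cd2 (m1 := m1) v e hC.ne') (compact53 A (hs2_cd53 (m1 := m1) (m2 := m2)).continuous c)
    (fun q hq => (lt_of_lt_of_le hc hq.2).ne')
  refine ⟨Ψ, fun X Y hX hY hc1 => ?_⟩
  refine hΨ (fl2 X Y) ⟨?_, hc1⟩
  rintro (⟨i, j⟩ | ⟨i, j⟩)
  · exact hX i j
  · exact hY i j

private theorem nsq53 {m : Type} [Fintype m] [DecidableEq m] (v : EuclideanSpace ℝ m) (t : ℝ) (A : Matrix m m ℝ) :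
    ‖op (t • A) v‖ ^ 2 = t ^ 2 * ‖op A v‖ ^ 2 := by
  have h : op (t • A) v = t • op A v := by
    ext i
    rw [PiLp.smul_apply, op_apply, op_apply, smul_eq_mul, Finset.mul_sum]
    refine Finset.sum_congr rfl fun j _ => ?_
    rw [Matrix.smul_apply, smul_eq_mul, mul_assoc]
  rw [h, norm_smul, mul_pow, Real.norm_eq_abs, sq_abs]

theorem phi1_smul (v : EuclideanSpace ℝ m1) (e C : ℝ) {t : ℝ} (ht : t ≠ 0) (A : Matrix m1 m1 ℝ) (B : Matrix m2 m2 ℝ) :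
    phi1 v e C (t • A) (t • B) = phi1 v e C A B := by
  have ht2 : t ^ 2 ≠ 0 := pow_ne_zero 2 ht
  unfold phi1
  rw [nsq53, hs_smul, hs_smul, mul_div_mul_left _ _ ht2, show C * (t ^ 2 * hs A) = t ^ 2 * (C * hs A) by ring,
    mul_div_mul_left _ _ ht2]

theorem phi2_smul (v : EuclideanSpace ℝ m2) (e C : ℝ) {t : ℝ} (ht : t ≠ 0) (A : Matrix m1 m1 ℝ) (B : Matrix m2 m2 ℝ) :
    phi2 v e C (t • A) (t ^ 2 • B) = phi2 v e C A B := by
  have ht2 : (t ^ 2) ^ 2 ≠ 0 := pow_ne_zero 2 (pow_ne_zero 2 ht)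
  unfold phi2
  rw [nsq53, hs_smul, hs_smul, mul_div_mul_left _ _ ht2, mul_pow,
    show C * ((t ^ 2) ^ 2 * hs B) = (t ^ 2) ^ 2 * (C * hs B) by ring, mul_div_mul_left _ _ ht2]

end Phi

end Pool.Agent.Helper20.TB
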