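import Pool.Agent.Helper20.TB.Ker

/-!
# Project OB (MP_0f6f3f_an), layer TB, block TB-B3: the kernel of the weight has finite Bessel norm, first node

PROOF. For `g` with `w1 g ≠ 0` put `x1 g = (s0 g)⁻¹ • D.r g`, `x2 g = (s0 g)⁻¹ • r2 (D.r g)`, otherwise `0`; for `r ∈ Q`: `y1 r = (s0 r)⁻¹ • D.r r`, `y2 r = (s0 r)⁻¹ • r2 (D.r r)`, otherwise `0`. Entries: `|A i j| ≤ ‖op A‖`, so `|x1| ≤ 1`, `|x2| ≤ s1 g ≤ K` (`norm_T1`, `norm_T2`), the same for `y`. For `w1 g ≠ 0`, `r ∈ Q`, `t = (s0 g s0 r)⁻¹`: `x1 g * y1 r = ± t • D.r (g r)` (`D.mul`),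
`x2 g * y2 r = t • r2 (D.r (g r))` (`r2_mul`, `r2_neg`); `hs (x1 g * y1 r) ≥ ‖op ..‖² = (t s0 (g r))² ≥ c²` (`norm_op_sq_le`), the entries of the products are at most `A = N² (1 + K)²`. `sch1` with this `A` and `c²`: `Ψ (fl2 ..) = phi1 v e C (± t • D.r (g r)) (t • r2 (D.r (g r))) = D.w1 v e C (g r)` (`phi1_smul`; for the sign: `op_neg`, `hs_neg`, or replace `t` by `-t` in the first argument only: `phi1` depends on `A` only through `‖op A v‖²`, `hs A`).
So `kR (w1) Q g r = w1 g * Ψ (fl2 (x1 g * y1 r) (x2 g * y2 r)) * 1_Q(r)` for all `g, r` (if `w1 g = 0` or `r ∉ Q` both sides are `0`); `bn_pair` and `BN.mul` (`|w1| ≤ 1`: `w1_mem`).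
-/

set_option autoImplicit false

open MeasureTheory Filter Topology

namespace Pool.Agent.Helper20.TB

private theorem ent67 {m : Type} [Fintype m] [DecidableEq m] (A : Matrix m m ℝ) (i j : m) : |A i j| ≤ ‖op A‖ := by
  have h1 : op A (EuclideanSpace.single j (1 : ℝ)) i = A i j := by
    rw [op_apply]
    simp
  have h2 : ‖(op A (EuclideanSpace.single j (1 : ℝ))) i‖ ≤ ‖op A (EuclideanSpace.single j (1 : ℝ))‖ :=
    PiLp.norm_apply_le _ i
  rw [h1, Real.norm_eq_abs] at h2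
  refine h2.trans ?_
  have h3 := (op A).le_opNorm (EuclideanSpace.single j (1 : ℝ))
  have h4 : ‖(EuclideanSpace.single j (1 : ℝ) : EuclideanSpace ℝ m)‖ = 1 := by simp
  rw [h4, mul_one] at h3
  exact h3

private theorem op_smul67 {m : Type} [Fintype m] [DecidableEq m] (t : ℝ) (A : Matrix m m ℝ) : op (t • A) = t • op A := by
  unfold op
  rw [map_smul]

private theorem op_neg67 {m : Type} [Fintype m] [DecidableEq m] (A : Matrix m m ℝ) : op (-A) = -op A := by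
  unfold op
  rw [map_neg]

private theorem norm_op_mul67 {m : Type} [Fintype m] [DecidableEq m] (A B : Matrix m m ℝ) :
    ‖op (A * B)‖ ≤ ‖op A‖ * ‖op B‖ := by
  unfold op
  rw [map_mul]
  exact norm_mul_le _ _

private theorem phi1_neg67 {m1 m2 : Type} [Fintype m1] [DecidableEq m1] [Fintype m2] [DecidableEq m2]
    (v : EuclideanSpace ℝ m1) (e C : ℝ) (A : Matrix m1 m1 ℝ) (B : Matrix m2 m2 ℝ) :
    phi1 v e C (-A) B = phi1 v e C A B := by
  unfold phi1
  rw [op_neg, norm_neg, hs_neg]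

namespace RD

variable {G : Type} [Group G] {N : ℕ} (D : RD G N)

theorem ker1 {v : EuclideanSpace ℝ (Fin N)} {e C c K : ℝ} (he : 0 < e) (hC : 0 < C) (hc : 0 < c) (hK : 1 ≤ K) (Q : Set G)
    (hw : ∀ g, D.w1 v e C g ≠ 0 → D.s1 g ≤ K) (hQ1 : ∀ r ∈ Q, D.s1 r ≤ K)
    (hQ : ∀ r ∈ Q, ∀ g, D.w1 v e C g ≠ 0 → c * (D.s0 g * D.s0 r) ≤ D.s0 (g * r)) : ∃ B, BN (TB.kR (D.w1 v e C) Q) B := by
  classical
  have hK0 : 0 < K := by linarith
  have hK2 : 1 ≤ K ^ 2 := one_le_pow₀ hK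
  have n1 : ∀ g, ‖op ((D.s0 g)⁻¹ • D.r g)‖ = 1 := by
    intro g
    have h1 := D.norm_T1 g
    unfold T1 at h1
    rw [op_smul67, norm_smul, h1, Real.norm_eq_abs, abs_of_pos (inv_pos.2 (D.s0_pos g)),
      inv_mul_cancel₀ (D.s0_pos g).ne']
  have n2 : ∀ g, ‖op ((D.s0 g)⁻¹ • r2 (D.r g))‖ = D.s1 g := by
    intro g
    have h1 := D.norm_T2 g
    unfold T2 at h1
    rw [op_smul67, norm_smul, h1, Real.norm_eq_abs, abs_of_pos (inv_pos.2 (D.s0_pos g)), ← mul_assoc,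
      inv_mul_cancel₀ (D.s0_pos g).ne', one_mul]
  obtain ⟨Ψ, hΨ⟩ := sch1 (m1 := Fin N) (m2 := Fin N × Fin N) v e (C := C) (A := K ^ 2) (c := c ^ 2) hC
    (by positivity)
  obtain ⟨B, hB⟩ := bn_pair Ψ (A := K) hK0
  have key : ∀ g r, D.w1 v e C g ≠ 0 → r ∈ Q →
      Ψ (fl2 (((D.s0 g)⁻¹ • D.r g) * ((D.s0 r)⁻¹ • D.r r))
        (((D.s0 g)⁻¹ • r2 (D.r g)) * ((D.s0 r)⁻¹ • r2 (D.r r)))) = ((D.w1 v e C (g * r) : ℝ) : ℂ) := by
    intro g r hg hr
    have hX : ‖op (((D.s0 g)⁻¹ • D.r g) * ((D.s0 r)⁻¹ • D.r r))‖ ≤ K ^ 2 := by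
      refine (norm_op_mul67 _ _).trans ?_
      rw [n1, n1, mul_one]
      exact hK2
    have hY : ‖op (((D.s0 g)⁻¹ • r2 (D.r g)) * ((D.s0 r)⁻¹ • r2 (D.r r)))‖ ≤ K ^ 2 := by
      refine (norm_op_mul67 _ _).trans ?_
      rw [n2, n2, sq]
      exact mul_le_mul (hw g hg) (hQ1 r hr) (D.s1_pos r).le hK0.le
    have ht : 0 < (D.s0 g)⁻¹ * (D.s0 r)⁻¹ := mul_pos (inv_pos.2 (D.s0_pos g)) (inv_pos.2 (D.s0_pos r))
    have hgr : ‖op (D.r g * D.r r)‖ = D.s0 (g * r) := by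
      rw [← D.norm_T1 (g * r)]
      unfold T1
      rcases D.mul g r with h | h
      · rw [h]
      · rw [h, op_neg67, norm_neg]
    have hhs : c ^ 2 ≤ hs (((D.s0 g)⁻¹ • D.r g) * ((D.s0 r)⁻¹ • D.r r)) := by
      refine le_trans ?_ (norm_op_sq_le _)
      refine pow_le_pow_left₀ hc.le ?_ 2
      rw [smul_mul_smul_comm, op_smul67, norm_smul, hgr, Real.norm_eq_abs, abs_of_pos ht]
      have h1 := hQ r hr g hg
      have h2 := mul_le_mul_of_nonneg_left h1 ht.le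
      refine le_trans (le_of_eq ?_) h2
      have h3 := (D.s0_pos g).ne'
      have h4 := (D.s0_pos r).ne'
      field_simp
    rw [hΨ _ _ (fun i j => (ent67 _ i j).trans hX) (fun i j => (ent67 _ i j).trans hY) hhs,
      smul_mul_smul_comm, smul_mul_smul_comm, phi1_smul v e C ht.ne', ← r2_mul]
    rcases D.mul g r with h | h
    · rw [← h]
      rfl
    · have h2 : D.r g * D.r r = -D.r (g * r) := by rw [h, neg_neg]
      rw [h2, r2_neg, phi1_neg67]
      rfl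
  have hb := (hB G (fun g => if D.w1 v e C g ≠ 0 then (D.s0 g)⁻¹ • D.r g else 0)
    (fun r => if r ∈ Q then (D.s0 r)⁻¹ • D.r r else 0)
    (fun g => if D.w1 v e C g ≠ 0 then (D.s0 g)⁻¹ • r2 (D.r g) else 0)
    (fun r => if r ∈ Q then (D.s0 r)⁻¹ • r2 (D.r r) else 0)
    (fun g i j => by
      split_ifs with h
      · exact (ent67 _ i j).trans ((n1 g).le.trans hK)
      · rw [Matrix.zero_apply, abs_zero]
        exact hK0.le)
    (fun g i j => by
      split_ifs with h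
      · exact (ent67 _ i j).trans ((n2 g).le.trans (hw g h))
      · rw [Matrix.zero_apply, abs_zero]
        exact hK0.le)
    (fun g i j => by
      split_ifs with h
      · exact (ent67 _ i j).trans ((n1 g).le.trans hK)
      · rw [Matrix.zero_apply, abs_zero]
        exact hK0.le)
    (fun g i j => by
      split_ifs with h
      · exact (ent67 _ i j).trans ((n2 g).le.trans (hQ1 g h))
      · rw [Matrix.zero_apply, abs_zero]
        exact hK0.le)).mul (a := fun g => ((D.w1 v e C g : ℝ) : ℂ))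
    (b := fun r => if r ∈ Q then (1 : ℂ) else 0) (A := 1) (B := 1)
    (fun g => by
      rw [Complex.norm_real, Real.norm_eq_abs, abs_of_nonneg (D.w1_mem v e C g).1]
      exact (D.w1_mem v e C g).2)
    (fun r => by
      split_ifs <;> simp)
  refine ⟨1 * 1 * B, ?_⟩
  convert hb using 1
  funext g r
  unfold TB.kR TB.kw
  by_cases hr : r ∈ Q
  · by_cases hg : D.w1 v e C g = 0
    · simp [hg]
    · have h1 := key g r hg hr
      simp only [if_pos hr, ne_eq, hg, not_false_eq_true, if_true]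
      rw [h1]
      push_cast
      ring
  · simp [hr]

end RD

end Pool.Agent.Helper20.TB
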