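import Pool.Agent.Helper20.TB.Ker

/-!
# Project OB (MP_0f6f3f_an), layer TB, block TB-B4: the kernel of the weight has finite Bessel norm, second node

PROOF. For `g` with `w2 g ≠ 0` put `x1 g = (s0 g)⁻¹ • D.r g`, `x2 g = (s0 g ^ 2)⁻¹ • r2 (D.r g)`, otherwise `0`; for `r ∈ Q`: `y1 r = (s0 r)⁻¹ • D.r r`, `y2 r = (s0 r ^ 2)⁻¹ • r2 (D.r r)`, otherwise `0`. Entries: `|A i j| ≤ ‖op A‖`, so all are at most `1` (`‖T2 g‖ = s0 s1 ≤ s0²`). For `w2 g ≠ 0`, `r ∈ Q`, `t = (s0 g s0 r)⁻¹`: `x1 g * y1 r = ± t • D.r (g r)` (`D.mul`),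
`x2 g * y2 r = t ^ 2 • r2 (D.r (g r))`; `hs (x2 g * y2 r) ≥ (t² s0 s1 (g r))² ≥ (t² c s0 g s1 g s0 r s1 r)² ≥ (c / K²)²` (`s0 ≤ K s1` for `g` and `r`). `sch2`, `phi2_smul`: `Ψ (fl2 ..) = D.w2 v e C (g r)` (the sign: `hs_neg`). So `kR (w2) Q g r = w2 g * Ψ (..) * 1_Q(r)`; `bn_pair`, `BN.mul`, `w2_mem`.
-/

set_option autoImplicit false

open MeasureTheory Filter Topology

namespace Pool.Agent.Helper20.TB

private theorem entry_le63 {m : Type} [Fintype m] [DecidableEq m] (A : Matrix m m ℝ) (i j : m) :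
    |A i j| ≤ ‖op A‖ := by
  have h1 : op A (EuclideanSpace.single j 1) i = A i j := by
    rw [op_apply, Finset.sum_eq_single j]
    · simp
    · intro k _ hk
      simp [hk]
    · intro h
      exact absurd (Finset.mem_univ j) h
  rw [← h1, ← Real.norm_eq_abs]
  refine (PiLp.norm_apply_le _ i).trans ((op A).le_opNorm _ |>.trans ?_)
  simp

private theorem smul_entry63 {m : Type} [Fintype m] [DecidableEq m] {A : Matrix m m ℝ} {t : ℝ} (ht : 0 < t)
    (hA : ‖op A‖ ≤ t) (i j : m) : |(t⁻¹ • A) i j| ≤ 1 := by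
  rw [Matrix.smul_apply, smul_eq_mul, abs_mul, abs_of_pos (inv_pos.mpr ht), inv_mul_le_iff₀ ht, mul_one]
  exact (entry_le63 A i j).trans hA

private theorem prod_entry63 {m : Type} [Fintype m] [DecidableEq m] {A B : Matrix m m ℝ}
    (hA : ∀ i j, |A i j| ≤ 1) (hB : ∀ i j, |B i j| ≤ 1) (i j : m) : |(A * B) i j| ≤ Fintype.card m := by
  rw [Matrix.mul_apply]
  refine (Finset.abs_sum_le_sum_abs _ _).trans ?_
  calc ∑ k, |A i k * B k j| ≤ ∑ _k : m, (1 : ℝ) := by
        refine Finset.sum_le_sum fun k _ => ?_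
        rw [abs_mul]
        exact mul_le_one₀ (hA i k) (abs_nonneg _) (hB k j)
    _ = Fintype.card m := by simp

private theorem phi2_neg63 {m1 m2 : Type} [Fintype m1] [DecidableEq m1] [Fintype m2] [DecidableEq m2]
    (v : EuclideanSpace ℝ m2) (e C : ℝ) (A : Matrix m1 m1 ℝ) (B : Matrix m2 m2 ℝ) :
    phi2 v e C (-A) B = phi2 v e C A B := by
  unfold phi2
  rw [hs_neg]

namespace RD

variable {G : Type} [Group G] {N : ℕ} (D : RD G N)

open Classical in
private noncomputable def x1_63 (P : G → Prop) (g : G) : Matrix (Fin N) (Fin N) ℝ :=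
  if P g then (D.s0 g)⁻¹ • D.r g else 0

open Classical in
private noncomputable def x2_63 (P : G → Prop) (g : G) : Matrix (Fin N × Fin N) (Fin N × Fin N) ℝ :=
  if P g then (D.s0 g ^ 2)⁻¹ • r2 (D.r g) else 0

private theorem x1_le63 (P : G → Prop) (g : G) (i j : Fin N) : |D.x1_63 P g i j| ≤ 1 := by
  unfold x1_63
  split_ifs with h
  · refine smul_entry63 (D.s0_pos g) ?_ i j
    exact (D.norm_T1 g).le
  · simp

private theorem x2_le63 (P : G → Prop) (g : G) (i j : Fin N × Fin N) : |D.x2_63 P g i j| ≤ 1 := by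
  unfold x2_63
  split_ifs with h
  · refine smul_entry63 (pow_pos (D.s0_pos g) 2) ?_ i j
    have h1 := D.norm_T2 g
    have h2 : ‖op (r2 (D.r g))‖ = D.s0 g * D.s1 g := h1
    rw [h2, sq]
    exact mul_le_mul_of_nonneg_left (D.s1_le_s0 g) (D.s0_pos g).le
  · simp

theorem ker2 {v : EuclideanSpace ℝ (Fin N × Fin N)} {e C c K : ℝ} (he : 0 < e) (hC : 0 < C) (hc : 0 < c) (hK : 1 ≤ K) (Q : Set G)
    (hw : ∀ g, D.w2 v e C g ≠ 0 → D.s0 g ≤ K * D.s1 g) (hQ1 : ∀ r ∈ Q, D.s0 r ≤ K * D.s1 r)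
    (hQ : ∀ r ∈ Q, ∀ g, D.w2 v e C g ≠ 0 → c * (D.s0 g * D.s1 g * (D.s0 r * D.s1 r)) ≤ D.s0 (g * r) * D.s1 (g * r)) :
    ∃ B, BN (TB.kR (D.w2 v e C) Q) B := by
  classical
  have hK0 : 0 < K := lt_of_lt_of_le zero_lt_one hK
  obtain ⟨Ψ, hΨ⟩ := sch2 (m1 := Fin N) v e (A := (N : ℝ) ^ 2) hC (c := (c / K ^ 2) ^ 2) (by positivity)
  obtain ⟨C', hC'⟩ := bn_pair Ψ (A := 1) one_pos
  have hB := hC' G (D.x1_63 fun g => D.w2 v e C g ≠ 0) (D.x1_63 fun r => r ∈ Q)
    (D.x2_63 fun g => D.w2 v e C g ≠ 0) (D.x2_63 fun r => r ∈ Q)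
    (D.x1_le63 _) (D.x2_le63 _) (D.x1_le63 _) (D.x2_le63 _)
  have hB2 := hB.mul (a := fun g => ((D.w2 v e C g : ℝ) : ℂ)) (b := fun r => if r ∈ Q then 1 else 0)
    (A := 1) (B := 1)
    (fun g => by
      rw [Complex.norm_real, Real.norm_of_nonneg (D.w2_mem v e C g).1]
      exact (D.w2_mem v e C g).2)
    (fun r => by split_ifs <;> simp)
  refine ⟨_, (?_ : BN (TB.kR (D.w2 v e C) Q) (1 * 1 * C'))⟩
  have hker : TB.kR (D.w2 v e C) Q = fun g r => ((D.w2 v e C g : ℝ) : ℂ) * (if r ∈ Q then 1 else 0) *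
      Ψ (fl2 ((D.x1_63 (fun g => D.w2 v e C g ≠ 0) g) * (D.x1_63 (fun r => r ∈ Q) r))
        ((D.x2_63 (fun g => D.w2 v e C g ≠ 0) g) * (D.x2_63 (fun r => r ∈ Q) r))) := by
    funext g r
    unfold TB.kR
    by_cases hr : r ∈ Q
    swap
    · rw [if_neg hr, if_neg hr, mul_zero, zero_mul]
    rw [if_pos hr, if_pos hr, mul_one]
    unfold kw
    by_cases hg : D.w2 v e C g = 0
    · rw [hg]
      push_cast
      rw [zero_mul, zero_mul]
    have hs0g := D.s0_pos g
    have hs0r := D.s0_pos r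
    have hs1g := D.s1_pos g
    have hs1r := D.s1_pos r
    set t : ℝ := (D.s0 g)⁻¹ * (D.s0 r)⁻¹ with ht
    have ht0 : 0 < t := by positivity
    have eX : D.x1_63 (fun g => D.w2 v e C g ≠ 0) g * D.x1_63 (fun r => r ∈ Q) r = t • (D.r g * D.r r) := by
      unfold x1_63
      rw [if_pos hg, if_pos hr, Matrix.smul_mul, Matrix.mul_smul, smul_smul]
    have eY : D.x2_63 (fun g => D.w2 v e C g ≠ 0) g * D.x2_63 (fun r => r ∈ Q) r =
        t ^ 2 • r2 (D.r (g * r)) := by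
      unfold x2_63
      rw [if_pos hg, if_pos hr, Matrix.smul_mul, Matrix.mul_smul, smul_smul, ← r2_mul]
      have h1 : r2 (D.r (g * r)) = r2 (D.r g * D.r r) := by
        rcases D.mul g r with h | h
        · rw [h]
        · rw [h, r2_neg]
      rw [h1]
      congr 1
      rw [ht]
      field_simp
    have hval : Ψ (fl2 ((D.x1_63 (fun g => D.w2 v e C g ≠ 0) g) * (D.x1_63 (fun r => r ∈ Q) r))
        ((D.x2_63 (fun g => D.w2 v e C g ≠ 0) g) * (D.x2_63 (fun r => r ∈ Q) r))) =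
        ((D.w2 v e C (g * r) : ℝ) : ℂ) := by
      rw [hΨ]
      · rw [eX, eY]
        congr 1
        have h2 : phi2 v e C (t • (D.r g * D.r r)) (t ^ 2 • r2 (D.r (g * r))) =
            phi2 v e C (D.r (g * r)) (r2 (D.r (g * r))) := by
          rw [phi2_smul v e C ht0.ne']
          rcases D.mul g r with h | h
          · rw [h]
          · rw [h, r2_neg, phi2_neg63]
        rw [h2]
        rfl
      · intro i j
        refine (prod_entry63 (D.x1_le63 _ g) (D.x1_le63 _ r) i j).trans ?_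
        have hN := D.hN
        have hN' : (1 : ℝ) ≤ N := by exact_mod_cast (by omega : 1 ≤ N)
        rw [Fintype.card_fin]
        nlinarith
      · intro i j
        refine (prod_entry63 (D.x2_le63 _ g) (D.x2_le63 _ r) i j).trans ?_
        rw [Fintype.card_prod, Fintype.card_fin]
        push_cast
        rw [sq]
      · rw [eY, hs_smul]
        have h3 : (D.s0 (g * r) * D.s1 (g * r)) ^ 2 ≤ hs (r2 (D.r (g * r))) := D.le_e2 (g * r)
        have h4 := hQ r hr g hg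
        have h5 : c / K ^ 2 ≤ t ^ 2 * (D.s0 (g * r) * D.s1 (g * r)) := by
          have h6 := hw g hg
          have h7 := hQ1 r hr
          calc c / K ^ 2 ≤ t ^ 2 * (c * (D.s0 g * D.s1 g * (D.s0 r * D.s1 r))) := by
                rw [ht, div_le_iff₀ (by positivity)]
                have h8 : 1 ≤ (D.s0 g)⁻¹ * (K * D.s1 g) := by
                  rw [le_inv_mul_iff₀ hs0g, mul_one]
                  exact h6
                have h9 : 1 ≤ (D.s0 r)⁻¹ * (K * D.s1 r) := by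
                  rw [le_inv_mul_iff₀ hs0r, mul_one]
                  exact h7
                have h10 : 1 ≤ ((D.s0 g)⁻¹ * (K * D.s1 g)) * ((D.s0 r)⁻¹ * (K * D.s1 r)) :=
                  one_le_mul_of_one_le_of_one_le h8 h9
                have h11 : ((D.s0 g)⁻¹ * (D.s0 r)⁻¹) ^ 2 * (c * (D.s0 g * D.s1 g * (D.s0 r * D.s1 r))) * K ^ 2 =
                    c * (((D.s0 g)⁻¹ * (K * D.s1 g)) * ((D.s0 r)⁻¹ * (K * D.s1 r))) := by
                  field_simp
                rw [h11]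
                nlinarith
            _ ≤ t ^ 2 * (D.s0 (g * r) * D.s1 (g * r)) :=
                mul_le_mul_of_nonneg_left h4 (by positivity)
        calc (c / K ^ 2) ^ 2 ≤ (t ^ 2 * (D.s0 (g * r) * D.s1 (g * r))) ^ 2 :=
              pow_le_pow_left₀ (by positivity) h5 2
          _ = (t ^ 2) ^ 2 * (D.s0 (g * r) * D.s1 (g * r)) ^ 2 := by ring
          _ ≤ (t ^ 2) ^ 2 * hs (r2 (D.r (g * r))) := mul_le_mul_of_nonneg_left h3 (by positivity)
    rw [hval]
    push_cast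
    ring
  rw [hker]
  exact hB2

end RD

end Pool.Agent.Helper20.TB
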