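import Pool.Agent.Helper20.TB.Defs
import Pool.Agent.Helper78.BM.Phi

/-!
# Project OB (MP_0f6f3f_an), layer TB, block TB-F: weights supported in a stratum

PROOF of `escape`. The map `φ ↦ UE.map μ (mulop f) (KK b φ)` is linear and continuous, so by `xl_induction` and density of the span of the `dl k` it suffices to treat `φ = xE D (cst (dl k))`. Then `WW (b n) φ x = 1_D((b n)⁻¹ x) • E.U(a(b n, (b n)⁻¹ x)) (dl k⁻¹)` (`WW_apply`, `ivU`), and
`E.U l (dl k⁻¹) = rhoU k (E.U l (dl 1)) = rhoU k (cf (E.U l))` (`E.comm`, `rhoU_dl`), so `‖mulop f (WW (b n) φ x)‖ ≤ C ‖ind K (rhoU k (cf (E.U l)))‖ = C ‖ind (K k) (cf (E.U l))‖`, `l = a(b n, (b n)⁻¹ x)`, `K` the finite support of `f`. `tendsto_mass` (`Helper55/FR/Start.lean`; it is stated with `atTop`: EITHER repeat its proof with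
the filter `hyperfilter ℕ` (replace `atTop` by any filter), OR use it through subsequences) with `c n x = a(b n, (b n)⁻¹ x)`: `μ {x | a(b n, (b n)⁻¹ x) = l} = μ {x | a(b n, x) = l} → 0` (`hF2`, `hb`, invariance of `μ`). So the norm of the sequence tends to `0` along the hyperfilter and the element of `UE` is `0` (`UE.norm_val`, `val_KK`, `uxm_mk`, norm of `UP.mk`).
PROOF of `weight_mem`. `ξ := UE.map μ (mulop w) (KK b φ)`. We show `ξ ∈ XUaSet μ R` with this `n` (`XUa μ R` is the closed span of `XUaSet μ R`, `Helper84/FR/XA.lean`). Let `s ∈ (toReg (chStr S J [])).F n = FC S J [] n`: by `mem_FC` there is `m` with `WC S J n ∩ TC S [J] m ⊆ s`. Then `UE.map (ind s) ξ = UE.map (ind s ∘ mulop w) (KK b φ)` (`UE.map_comp`) and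
`mulop w - ind s ∘ mulop w = mulop f`, `f = w` outside `s`, `0` on `s`, has its support in the finite set `{γ | w γ ≠ 0 ∧ γ ∉ TC S [J] m}` (`h1`, `h2`); `escape`.
-/

set_option autoImplicit false
set_option linter.unusedSectionVars false

open MeasureTheory Filter Topology
open scoped ComplexConjugate

namespace Pool.Agent.Helper20.TB

open Pool.Agent.Helper84 Pool.Agent.Helper84.GN Pool.Agent.Helper84.GN.S3 Pool.Agent.Helper84.GN.S3.X
open Pool.Agent.Helper84.NI Pool.Agent.Helper84.GVN Pool.Agent.Helper90.RK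
open Pool.Agent.Helper96.RK hiding toReg
open Pool.Agent.Helper66.FR Pool.Agent.Helper84.FR Pool.Agent.Helper55.FR Pool.Agent.Helper78.BM

variable {G1 X G Λ : Type} [Group G1] [TopologicalSpace G1] [IsTopologicalGroup G1] [MeasurableSpace X] [MulAction G1 X]
  [MeasurableConstSMul G1 X] [Group G] [Group Λ] [Countable Λ] {μ : Measure X} [SMulInvariantMeasure G1 X μ]
  [IsProbabilityMeasure μ] {a : Cocy G1 X Λ} {E : Emb Λ G}

/-- If the norm at `x` is bounded by a summable function of `c m x` and the sets `{c m = l}` have small measure, the norms tend to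
zero. -/
private theorem mass86 {h : Λ → ℝ} (h1 : ∀ l, h l ≤ 1) (hs : Summable h) {c : ℕ → X → Λ}
    (hc : ∀ m l, MeasurableSet (c m ⁻¹' {l})) {F : Filter ℕ}
    (hF : ∀ l, Tendsto (fun m => μ.real (c m ⁻¹' {l})) F (𝓝 0)) (y : ℕ → XL μ (L2 G))
    (hy : ∀ m, ∀ᵐ x ∂μ, ‖y m x‖ ^ 2 ≤ h (c m x)) : Tendsto (fun m => ‖y m‖ ^ 2) F (𝓝 0) := by
  classical
  rw [Metric.tendsto_nhds]
  intro ε hε
  have h2 : {l : Λ | ¬ h l < ε / 3}.Finite :=
    hs.tendsto_cofinite_zero.eventually (gt_mem_nhds (show (0 : ℝ) < ε / 3 by positivity))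
  set T : Finset Λ := h2.toFinset with hT
  have h3 : Tendsto (fun m => ∑ l ∈ T, μ.real (c m ⁻¹' {l})) F (𝓝 0) := by
    have := tendsto_finsetSum T fun l _ => hF l
    simpa using this
  filter_upwards [(Metric.tendsto_nhds.1 h3) (ε / 3) (by positivity)] with m h4
  rw [Real.dist_eq, sub_zero] at h4
  have h5 : ∑ l ∈ T, μ.real (c m ⁻¹' {l}) < ε / 3 := (le_abs_self _).trans_lt h4
  rw [Real.dist_eq, sub_zero, abs_of_nonneg (sq_nonneg _), xl_norm_sq]
  have hint : Integrable (fun x => ε / 3 + ∑ l ∈ T, (c m ⁻¹' {l}).indicator (fun _ => (1 : ℝ)) x) μ := by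
    refine (integrable_const _).add (integrable_finsetSum T fun l _ => ?_)
    exact (integrable_const _).indicator (hc m l)
  have h6 : ∫ x, ‖y m x‖ ^ 2 ∂μ ≤
      ∫ x, (ε / 3 + ∑ l ∈ T, (c m ⁻¹' {l}).indicator (fun _ => (1 : ℝ)) x) ∂μ := by
    refine integral_mono_ae (xl_int _) hint ?_
    filter_upwards [hy m] with x hx1
    refine hx1.trans ?_
    by_cases hx : c m x ∈ T
    · have h8 : (1 : ℝ) ≤ ∑ l ∈ T, (c m ⁻¹' {l}).indicator (fun _ => (1 : ℝ)) x := by
        have h9 : (c m ⁻¹' {c m x}).indicator (fun _ => (1 : ℝ)) x = 1 :=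
          Set.indicator_of_mem (show x ∈ c m ⁻¹' {c m x} from rfl) _
        refine h9.ge.trans ?_
        exact Finset.single_le_sum (f := fun l => (c m ⁻¹' {l}).indicator (fun _ => (1 : ℝ)) x)
          (fun l _ => Set.indicator_nonneg (fun _ _ => zero_le_one) x) hx
      have h7 := h1 (c m x)
      linarith
    · have h7 : h (c m x) < ε / 3 := by
        by_contra hcon
        exact hx (h2.mem_toFinset.2 hcon)
      have h8 : (0 : ℝ) ≤ ∑ l ∈ T, (c m ⁻¹' {l}).indicator (fun _ => (1 : ℝ)) x :=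
        Finset.sum_nonneg fun l _ => Set.indicator_nonneg (fun _ _ => zero_le_one) x
      linarith
  have h7 : ∫ x, (ε / 3 + ∑ l ∈ T, (c m ⁻¹' {l}).indicator (fun _ => (1 : ℝ)) x) ∂μ =
      ε / 3 + ∑ l ∈ T, μ.real (c m ⁻¹' {l}) := by
    rw [integral_add (integrable_const _)
      (integrable_finsetSum T fun l _ => (integrable_const _).indicator (hc m l)),
      integral_finsetSum T fun l _ => (integrable_const _).indicator (hc m l)]
    congr 1
    · simp
    · refine Finset.sum_congr rfl fun l _ => ?_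
      rw [integral_indicator_const _ (hc m l), smul_eq_mul, mul_one]
  rw [h7] at h6
  linarith

/-- The mass of a translate on a finite set. -/
private theorem small86 {f : G → ℂ} (hf : ∀ γ, ‖f γ‖ ≤ 1) (K : Finset G) (hK : ∀ γ, f γ ≠ 0 → γ ∈ K) (k : G) (v : L2 G) :
    ‖mulop f (rhoU k v)‖ ^ 2 ≤ ∑ γ ∈ K, ‖v (γ * k)‖ ^ 2 := by
  have h1 := lv_hasSum (mulop f (rhoU k v))
  have h3 : HasSum (fun γ => ‖mulop f (rhoU k v) γ‖ ^ 2) (∑ γ ∈ K, ‖mulop f (rhoU k v) γ‖ ^ 2) := by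
    refine hasSum_sum_of_ne_finset_zero fun γ hγ => ?_
    rw [mulop_app hf]
    by_cases h : f γ = 0
    · rw [h, zero_mul, norm_zero, zero_pow two_ne_zero]
    · exact absurd (hK γ h) hγ
  rw [h1.unique h3]
  refine Finset.sum_le_sum fun γ _ => ?_
  rw [mulop_app hf, norm_mul]
  have h4 : rhoU k v γ = v (γ * k) := by simp
  rw [h4]
  refine pow_le_pow_left₀ (by positivity) ?_ 2
  exact mul_le_of_le_one_left (norm_nonneg _) (hf γ)

private theorem hmass86 (E : Emb Λ G) (K : Finset G) (k : G) :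
    Summable fun l : Λ => ∑ γ ∈ K, ‖cf (E.U l) (γ * k)‖ ^ 2 := by
  refine summable_sum fun γ _ => ?_
  have h1 := (orthonormal_cf E).inner_products_summable (dl (γ * k))
  refine h1.congr fun l => ?_
  rw [inner_dl_right, RCLike.norm_conj]

theorem escape {f : G → ℂ} (hf : ∀ γ, ‖f γ‖ ≤ 1) (hK : {γ | f γ ≠ 0}.Finite)
    (hF2 : ∀ l : Λ, Tendsto (fun g : G1 => μ {x | a.a g x = l}) (cocompact G1) (𝓝 0)) {b : ℕ → G1}
    (hb : Tendsto b (hyperfilter ℕ : Filter ℕ) (cocompact G1)) (φ : XL μ (L2 G)) :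
    UE.map μ (mulop f) (KK μ a E b φ) = 0 := by
  have hmain : (UE.map μ (mulop f)).comp (KK μ a E b) = 0 := by
    refine xl_clm_ext fun s hs k => ?_
    rw [ContinuousLinearMap.comp_apply, _root_.zero_apply]
    set ψ : XL μ (L2 G) := xE μ (L2 G) s (cst μ (dl k)) with hψ
    set K : Finset G := hK.toFinset with hKd
    set h : Λ → ℝ := fun l => ‖mulop f (rhoU k (cf (E.U l)))‖ ^ 2 with hh
    have h0 : ∀ l, 0 ≤ h l := fun l => sq_nonneg _
    have h1 : ∀ l, h l ≤ 1 := fun l => by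
      refine pow_le_one₀ (norm_nonneg _) ?_
      refine (norm_mulop_app zero_le_one hf _).trans ?_
      rw [one_mul, LinearIsometryEquiv.norm_map, norm_cf]
    have hs2 : Summable h := by
      refine Summable.of_nonneg_of_le h0 (fun l => ?_) (hmass86 E K k)
      exact small86 hf K (fun γ hγ => hK.mem_toFinset.2 hγ) k _
    set c : ℕ → X → Λ := fun n x => a.a (b n) ((b n)⁻¹ • x) with hc
    have hcm : ∀ m l, MeasurableSet (c m ⁻¹' {l}) := fun m l => mea_a (b m) (b m)⁻¹ l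
    have hF : ∀ l, Tendsto (fun m => μ.real (c m ⁻¹' {l})) (hyperfilter ℕ : Filter ℕ) (𝓝 0) := by
      intro l
      have h2 : Tendsto (fun m => μ {x | a.a (b m) x = l}) (hyperfilter ℕ : Filter ℕ) (𝓝 0) :=
        (hF2 l).comp hb
      have h3 := (ENNReal.tendsto_toReal ENNReal.zero_ne_top).comp h2
      refine h3.congr fun m => ?_
      have h4 : μ (c m ⁻¹' {l}) = μ {x | a.a (b m) x = l} :=
        (measurePreserving_smul (b m)⁻¹ μ).measure_preimage (a.meas (b m) l).nullMeasurableSet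
      change (μ {x | a.a (b m) x = l}).toReal = μ.real (c m ⁻¹' {l})
      rw [measureReal_def, h4]
    have hy : ∀ m, ∀ᵐ x ∂μ, ‖cl μ (mulop f) (WW μ a E (b m) ψ) x‖ ^ 2 ≤ h (c m x) := by
      intro m
      filter_upwards [cl_apply (mulop f) (WW μ a E (b m) ψ), WW_apply (μ := μ) a E (b m) ψ,
        (measurePreserving_smul (b m)⁻¹ μ).quasiMeasurePreserving.ae (xE_apply hs (cst μ (dl k : L2 G))),
        (measurePreserving_smul (b m)⁻¹ μ).quasiMeasurePreserving.ae (cst_apply (μ := μ) (dl k : L2 G))] with x e1 e2 e3 e4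
      rw [e1, e2, hψ, e3, e4]
      have e5 : (ivU G (dl k) : L2 G) = dl k⁻¹ := permU_dl _ _
      have e6 : (dl k⁻¹ : L2 G) = rhoU k (dl 1) := by
        rw [rhoU_dl, one_mul]
      rw [map_smul, map_smul, map_smul, e5, e6, norm_smul, mul_pow]
      have e7 : E.U (a.a (b m) ((b m)⁻¹ • x)) (rhoU k (dl 1)) = rhoU k (cf (E.U (c m x))) := by
        exact E.comm _ _ _
      rw [e7]
      refine mul_le_of_le_one_left (sq_nonneg _) (pow_le_one₀ (norm_nonneg _) ?_)
      by_cases h : (b m)⁻¹ • x ∈ s <;> simp [h]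
    have hlim := mass86 h1 hs2 hcm hF (fun m => cl μ (mulop f) (WW μ a E (b m) ψ)) hy
    have e1 := (UP.tendsto_norm (BSeq.map (cl μ (mulop f)) (KS μ a E b ψ))).pow 2
    have e2 := tendsto_nhds_unique e1 hlim
    have e3 : ‖UE.map μ (mulop f) (KK μ a E b ψ)‖ = ‖UP.mk (BSeq.map (cl μ (mulop f)) (KS μ a E b ψ))‖ := by
      rw [← UE.norm_val, UE.val_map, val_KK, uxm_mk]
    rw [← norm_eq_zero, e3]
    exact pow_eq_zero_iff two_ne_zero |>.1 e2
  have h2 := congrArg (fun T : XL μ (L2 G) →L[ℂ] UE μ (L2 G) => T φ) hmain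
  exact h2

theorem weight_mem {N : ℕ} {P : PH G N} {S : Sv P} (J : Finset (Fin N)) {w : G → ℝ} (hw : ∀ g, |w g| ≤ 1) {n : ℕ}
    (h1 : ∀ γ, w γ ≠ 0 → γ ∈ WC S J n) (h2 : ∀ m, {γ | w γ ≠ 0 ∧ γ ∉ TC S [J] m}.Finite)
    (hF2 : ∀ l : Λ, Tendsto (fun g : G1 => μ {x | a.a g x = l}) (cocompact G1) (𝓝 0)) {b : ℕ → G1}
    (hb : Tendsto b (hyperfilter ℕ : Filter ℕ) (cocompact G1)) (φ : XL μ (L2 G)) :
    UE.map μ (mulop fun γ => (w γ : ℂ)) (KK μ a E b φ) ∈ XUa μ (toReg (chStr S J [])) := by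
  classical
  refine Submodule.le_topologicalClosure _ (Submodule.subset_span ⟨n, fun s hs => ?_⟩)
  obtain ⟨m, hm⟩ := (mem_FC S).1 (show s ∈ FC S J [] n from hs)
  have hwC : ∀ γ, ‖((w γ : ℝ) : ℂ)‖ ≤ 1 := fun γ => by
    rw [Complex.norm_real, Real.norm_eq_abs]
    exact hw γ
  set f : G → ℂ := fun γ => if γ ∈ s then 0 else (w γ : ℂ) with hfd
  have hf : ∀ γ, ‖f γ‖ ≤ 1 := fun γ => by
    rw [hfd]
    dsimp only
    split_ifs
    · rw [norm_zero]
      exact zero_le_one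
    · exact hwC γ
  have hK : {γ | f γ ≠ 0}.Finite := by
    refine (h2 m).subset fun γ hγ => ?_
    have hγ' : f γ ≠ 0 := hγ
    have hγs : γ ∉ s := fun h => hγ' (by rw [hfd]; exact if_pos h)
    have hw0 : w γ ≠ 0 := fun h => hγ' (by
      rw [hfd]
      dsimp only
      rw [if_neg hγs, h, Complex.ofReal_zero])
    exact ⟨hw0, fun h => hγs (hm ⟨h1 γ hw0, h⟩)⟩
  have h3 := escape (μ := μ) (a := a) (E := E) hf hK hF2 hb φ
  have h4 : mulop f = (mulop fun γ => (w γ : ℂ)) - (ind ℂ s).comp (mulop fun γ => (w γ : ℂ)) := by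
    ext x : 1
    refine l2_ext fun γ => ?_
    rw [_root_.sub_apply, lp.coeFn_sub, Pi.sub_apply, mulop_app hf, mulop_app hwC, ContinuousLinearMap.comp_apply,
      ind_apply, mulop_app hwC, hfd]
    dsimp only
    split_ifs
    · rw [zero_mul, sub_self]
    · rw [sub_zero]
  rw [h4, UE.map_sub, UE.map_comp, sub_eq_zero] at h3
  exact h3.symm

end Pool.Agent.Helper20.TB
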