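import Pool.Agent.Helper20.TB.Defs

/-!
# Project OB (MP_0f6f3f_an), layer TB, block TB-O1: nearly rank one operators

`PC T v η`: `‖T v‖ ≥ (1 - η) ‖T‖`, `‖T x‖ ≤ η ‖T‖ ‖x‖` for `x ⊥ v`, `‖v‖ = 1`. `TS T u vT`: `T vT = ‖T‖ u`, `T† u = ‖T‖ vT`, unit vectors, `‖T‖ > 0`.
PROOFS. `pc_vec`: `vT = α v + x`, `α = ⟪v, vT⟫`, `x ⊥ v`. For `y ⊥ v`: `‖T‖ ⟪vT, y⟫ = ⟪T† u, y⟫ = ⟪u, T y⟫ ≤ η ‖T‖ ‖y‖`; with `y = x`: `‖x‖² = ⟪vT, x⟫ ≤ η ‖x‖`. `α² = 1 - ‖x‖² ≥ 1 - η² ≥ (1 - η)²`.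
`pc_le`: `y ⊥ vT`, `y = β v + z`, `z ⊥ v`: `0 = ⟪y, vT⟫ = β α + ⟪z, x⟫`, so `|β| ≤ η ‖z‖ / |α| ≤ 2 η ‖y‖`, `‖T y‖ ≤ |β| ‖T‖ + η ‖T‖ ‖z‖ ≤ 3 η ‖T‖ ‖y‖`. For `y ⊥ u`: `‖T† y‖² = ⟪T T† y, y⟫`; for all `x`: `⟪T† y, x⟫ = ⟪y, T x⟫ = ⟪y, T x'⟫` with `x' = x - ⟪vT, x⟫ vT ⊥ vT` (`T vT ∥ u ⊥ y`), so `≤ 3 η ‖T‖ ‖x‖ ‖y‖`; take `x = T† y`.
`noncancel`: `w = R† v`; if `w = 0` trivial (`‖R‖ = 0`). `x = w / ‖w‖`: `⟪v, R x⟫ = ⟪w, x⟫ = ‖w‖ ≥ c ‖R‖`, `R x = ⟪v, R x⟫ v + z`, `z ⊥ v`, `‖z‖ ≤ ‖R‖`: `‖T R x‖ ≥ c ‖R‖ (1 - η) ‖T‖ - η ‖T‖ ‖R‖ ≥ (c / 2) ‖T‖ ‖R‖`.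
`prod_lower`: `y = S v' / ‖S v'‖`: `S† y = ⟪S v', y⟫ v' + z = ‖S v'‖ v' + z`, `z ⊥ v'`, `‖z‖ ≤ η ‖S‖` (`⟪x, S† y⟫ = ⟪S x, y⟫ ≤ η ‖S‖ ‖x‖` for `x ⊥ v'`); `‖T (J v')‖ ≥ |⟪v, J v'⟫| ‖T v‖ - η ‖T‖`; so `‖T (J (S† y))‖ ≥ (1 - η) ‖S‖ (κ (1 - η) - η) ‖T‖ - η ‖T‖ ‖S‖ ≥ (κ / 4) ‖T‖ ‖S‖`.
-/

set_option autoImplicit false

namespace Pool.Agent.Helper20.TB

variable {V : Type} [NormedAddCommGroup V] [InnerProductSpace ℝ V] [CompleteSpace V]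

private theorem dec77 {v : V} (hv : ‖v‖ = 1) (y : V) : inner ℝ v (y - (inner ℝ v y : ℝ) • v) = 0 ∧
    ‖y‖ ^ 2 = (inner ℝ v y : ℝ) ^ 2 + ‖y - (inner ℝ v y : ℝ) • v‖ ^ 2 := by
  have h1 : (inner ℝ v v : ℝ) = 1 := by rw [real_inner_self_eq_norm_sq, hv]; norm_num
  have h2 : inner ℝ v (y - (inner ℝ v y : ℝ) • v) = 0 := by
    rw [inner_sub_right, inner_smul_right, h1, mul_one, sub_self]
  refine ⟨h2, ?_⟩
  have h3 : y = (inner ℝ v y : ℝ) • v + (y - (inner ℝ v y : ℝ) • v) := by abel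
  have h4 : ‖(inner ℝ v y : ℝ) • v + (y - (inner ℝ v y : ℝ) • v)‖ ^ 2 = ‖(inner ℝ v y : ℝ) • v‖ ^ 2 + ‖y - (inner ℝ v y : ℝ) • v‖ ^ 2 := by
    rw [norm_add_sq_real, real_inner_smul_left, h2]
    ring
  rw [← h3] at h4
  rw [h4, norm_smul, hv, mul_one, Real.norm_eq_abs, sq_abs]

private theorem dec_le77 {v : V} (hv : ‖v‖ = 1) (y : V) : ‖y - (inner ℝ v y : ℝ) • v‖ ≤ ‖y‖ := by
  have h1 := (dec77 hv y).2
  exact (sq_le_sq₀ (norm_nonneg _) (norm_nonneg _)).1 (by nlinarith [sq_nonneg (inner ℝ v y : ℝ)])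

private theorem of_sq77 {a t : ℝ} (ha : 0 ≤ a) (ht : 0 ≤ t) (h : a ^ 2 ≤ t * a) : a ≤ t := by
  by_contra hcon
  push Not at hcon
  nlinarith

theorem pc_vec {T : V →L[ℝ] V} {u vT v : V} {η : ℝ} (h : PC T v η) (hs : TS T u vT) (hη0 : 0 ≤ η) (hη : η ≤ 1 / 10) :
    ‖vT - inner ℝ v vT • v‖ ≤ η ∧ 1 - η ≤ |inner ℝ v vT| := by
  obtain ⟨h1, h2⟩ := dec77 h.unit vT
  obtain ⟨α, hα⟩ : ∃ α : ℝ, α = inner ℝ v vT := ⟨_, rfl⟩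
  obtain ⟨x, hx⟩ : ∃ x : V, x = vT - α • v := ⟨_, rfl⟩
  rw [← hα, ← hx] at h1 h2
  rw [← hα, ← hx]
  have h3 : (inner ℝ vT x : ℝ) = ‖x‖ ^ 2 := by
    have h4 : vT = α • v + x := by rw [hx]; abel
    rw [h4, inner_add_left, real_inner_smul_left, h1, real_inner_self_eq_norm_sq]
    ring
  have h5 : ‖T‖ * (inner ℝ vT x : ℝ) ≤ η * ‖T‖ * ‖x‖ := by
    have h6 : ‖T‖ * (inner ℝ vT x : ℝ) = inner ℝ u (T x) := by
      rw [← real_inner_smul_left, ← hs.Tu, ContinuousLinearMap.adjoint_inner_left]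
    rw [h6]
    refine (real_inner_le_norm _ _).trans ?_
    rw [hs.nu, one_mul]
    exact h.le x h1
  have hx1 : ‖x‖ ≤ η := by
    refine of_sq77 (norm_nonneg _) hη0 ?_
    rw [← h3]
    have h6 : ‖T‖ * (inner ℝ vT x : ℝ) ≤ ‖T‖ * (η * ‖x‖) := by linarith
    exact le_of_mul_le_mul_left h6 hs.pos
  refine ⟨hx1, ?_⟩
  rw [hs.nv] at h2
  refine (sq_le_sq₀ (by linarith) (abs_nonneg _)).1 ?_
  rw [sq_abs]
  have h7 : ‖x‖ ^ 2 ≤ η ^ 2 := pow_le_pow_left₀ (norm_nonneg _) hx1 2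
  nlinarith

theorem pc_le {T : V →L[ℝ] V} {u vT v : V} {η : ℝ} (h : PC T v η) (hs : TS T u vT) (hη0 : 0 ≤ η) (hη : η ≤ 1 / 10) :
    (∀ x, inner ℝ vT x = 0 → ‖T x‖ ≤ 3 * η * ‖T‖ * ‖x‖) ∧
      ∀ x, inner ℝ u x = 0 → ‖ContinuousLinearMap.adjoint T x‖ ≤ 3 * η * ‖T‖ * ‖x‖ := by
  obtain ⟨k1, k2⟩ := pc_vec h hs hη0 hη
  have key : ∀ y, inner ℝ vT y = 0 → ‖T y‖ ≤ 3 * η * ‖T‖ * ‖y‖ := by
    intro y hy
    obtain ⟨h1, h2⟩ := dec77 h.unit y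
    obtain ⟨g1, g2⟩ := dec77 h.unit vT
    have hle := dec_le77 h.unit y
    obtain ⟨α, hα⟩ : ∃ α : ℝ, α = inner ℝ v vT := ⟨_, rfl⟩
    obtain ⟨x, hx⟩ : ∃ x : V, x = vT - α • v := ⟨_, rfl⟩
    obtain ⟨β, hβ⟩ : ∃ β : ℝ, β = inner ℝ v y := ⟨_, rfl⟩
    obtain ⟨z, hz⟩ : ∃ z : V, z = y - β • v := ⟨_, rfl⟩
    rw [← hα] at k1 k2 g1
    rw [← hx] at k1 g1
    rw [← hβ] at h1 hle
    rw [← hz] at h1 hle
    have e1 : vT = α • v + x := by rw [hx]; abel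
    have e2 : y = β • v + z := by rw [hz]; abel
    have hvv : (inner ℝ v v : ℝ) = 1 := by rw [real_inner_self_eq_norm_sq, h.unit]; norm_num
    have e3 : α * β + (inner ℝ x z : ℝ) = 0 := by
      have e4 := hy
      rw [e1, e2, inner_add_left, inner_add_right, inner_add_right, real_inner_smul_left, real_inner_smul_left, real_inner_smul_right,
        real_inner_smul_right, hvv, h1, real_inner_comm v x, g1] at e4
      linarith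
    have e5 : |α| * |β| ≤ η * ‖y‖ := by
      rw [← abs_mul]
      have e6 : α * β = -(inner ℝ x z : ℝ) := by linarith
      rw [e6, abs_neg]
      exact (abs_real_inner_le_norm _ _).trans (mul_le_mul k1 hle (norm_nonneg _) hη0)
    have e7 : |β| ≤ 2 * η * ‖y‖ := by
      have e8 : (9 / 10 : ℝ) ≤ |α| := by linarith
      have e9 : (9 / 10 : ℝ) * |β| ≤ |α| * |β| := mul_le_mul_of_nonneg_right e8 (abs_nonneg _)
      have e10 : 0 ≤ η * ‖y‖ := mul_nonneg hη0 (norm_nonneg _)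
      nlinarith
    have e11 : T y = β • T v + T z := by
      conv_lhs => rw [e2]
      rw [map_add, map_smul]
    have e12 : ‖T v‖ ≤ ‖T‖ := by
      have := T.le_opNorm v
      rwa [h.unit, mul_one] at this
    have e13 := h.le z h1
    rw [e11]
    refine (norm_add_le _ _).trans ?_
    rw [norm_smul, Real.norm_eq_abs]
    have e14 : |β| * ‖T v‖ ≤ 2 * η * ‖y‖ * ‖T‖ := mul_le_mul e7 e12 (norm_nonneg _) (by positivity)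
    have e15 : η * ‖T‖ * ‖z‖ ≤ η * ‖T‖ * ‖y‖ := mul_le_mul_of_nonneg_left hle (by positivity)
    linarith
  refine ⟨key, fun y hy => ?_⟩
  obtain ⟨x, hx⟩ : ∃ x : V, x = ContinuousLinearMap.adjoint T y := ⟨_, rfl⟩
  rw [← hx]
  refine of_sq77 (norm_nonneg _) (by positivity) ?_
  obtain ⟨h1, -⟩ := dec77 hs.nv x
  have hle := dec_le77 hs.nv x
  obtain ⟨β, hβ⟩ : ∃ β : ℝ, β = inner ℝ vT x := ⟨_, rfl⟩
  obtain ⟨z, hz⟩ : ∃ z : V, z = x - β • vT := ⟨_, rfl⟩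
  rw [← hβ] at h1 hle
  rw [← hz] at h1 hle
  have e2 : x = β • vT + z := by rw [hz]; abel
  have e3 : ‖x‖ ^ 2 = inner ℝ y (T x) := by
    rw [← real_inner_self_eq_norm_sq]
    conv_lhs => rw [hx]
    rw [ContinuousLinearMap.adjoint_inner_left]
    rw [← hx]
  have e4 : (inner ℝ y (T x) : ℝ) = inner ℝ y (T z) := by
    have e5 : T x = (β * ‖T‖) • u + T z := by
      conv_lhs => rw [e2]
      rw [map_add, map_smul, hs.Tv, smul_smul]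
    rw [e5, inner_add_right, real_inner_smul_right, real_inner_comm u y, hy, mul_zero, zero_add]
  rw [e3, e4]
  refine (real_inner_le_norm _ _).trans ?_
  have e6 := key z h1
  have e7 : 3 * η * ‖T‖ * ‖z‖ ≤ 3 * η * ‖T‖ * ‖x‖ := mul_le_mul_of_nonneg_left hle (by positivity)
  calc ‖y‖ * ‖T z‖ ≤ ‖y‖ * (3 * η * ‖T‖ * ‖x‖) := mul_le_mul_of_nonneg_left (e6.trans e7) (norm_nonneg _)
    _ = 3 * η * ‖T‖ * ‖y‖ * ‖x‖ := by ring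

/-- lower bound of `‖T y‖` -/
private theorem low77 {T : V →L[ℝ] V} {v : V} {η : ℝ} (h : PC T v η) (hη0 : 0 ≤ η) (y : V) :
    |(inner ℝ v y : ℝ)| * ((1 - η) * ‖T‖) - η * ‖T‖ * ‖y‖ ≤ ‖T y‖ := by
  obtain ⟨h1, h2⟩ := dec77 h.unit y
  have hle := dec_le77 h.unit y
  have e1 : T y = (inner ℝ v y : ℝ) • T v + T (y - (inner ℝ v y : ℝ) • v) := by
    rw [map_sub, map_smul]
    abel
  have e2 := h.le _ h1
  have e3 : η * ‖T‖ * ‖y - (inner ℝ v y : ℝ) • v‖ ≤ η * ‖T‖ * ‖y‖ := mul_le_mul_of_nonneg_left hle (by positivity)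
  have e4 : ‖(inner ℝ v y : ℝ) • T v‖ - ‖T (y - (inner ℝ v y : ℝ) • v)‖ ≤ ‖T y‖ := by
    rw [e1]
    have := norm_sub_norm_le ((inner ℝ v y : ℝ) • T v) (-(T (y - (inner ℝ v y : ℝ) • v)))
    rw [norm_neg, sub_neg_eq_add] at this
    exact this
  rw [norm_smul, Real.norm_eq_abs] at e4
  have e5 : |(inner ℝ v y : ℝ)| * ((1 - η) * ‖T‖) ≤ |(inner ℝ v y : ℝ)| * ‖T v‖ := mul_le_mul_of_nonneg_left h.ge (abs_nonneg _)
  linarith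

theorem noncancel {T R : V →L[ℝ] V} {v : V} {η c : ℝ} (h : PC T v η) (hη0 : 0 ≤ η) (hc : 0 < c) (hc1 : c ≤ 1)
    (hη : η ≤ c / 8) (hR : c * ‖R‖ ≤ ‖ContinuousLinearMap.adjoint R v‖) : c / 2 * (‖T‖ * ‖R‖) ≤ ‖T.comp R‖ := by
  obtain ⟨w, hw⟩ : ∃ w : V, w = ContinuousLinearMap.adjoint R v := ⟨_, rfl⟩
  rw [← hw] at hR
  by_cases hw0 : w = 0
  · rw [hw0, norm_zero] at hR
    have h1 : ‖R‖ = 0 := le_antisymm (by nlinarith [norm_nonneg R]) (norm_nonneg _)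
    rw [h1, mul_zero, mul_zero]
    exact norm_nonneg _
  have hwp : 0 < ‖w‖ := norm_pos_iff.2 hw0
  obtain ⟨x, hx⟩ : ∃ x : V, x = ‖w‖⁻¹ • w := ⟨_, rfl⟩
  have hx1 : ‖x‖ = 1 := by rw [hx, norm_smul, norm_inv, norm_norm, inv_mul_cancel₀ hwp.ne']
  have e1 : (inner ℝ v (R x) : ℝ) = ‖w‖ := by
    rw [← ContinuousLinearMap.adjoint_inner_left, ← hw, hx, real_inner_smul_right, real_inner_self_eq_norm_sq]
    field_simp
  have e2 := low77 h hη0 (R x)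
  rw [e1, abs_of_pos hwp] at e2
  have e3 : ‖R x‖ ≤ ‖R‖ := by
    have := R.le_opNorm x
    rwa [hx1, mul_one] at this
  have e4 : ‖T (R x)‖ ≤ ‖T.comp R‖ := by
    have := (T.comp R).le_opNorm x
    rwa [hx1, mul_one] at this
  have hη1 : η ≤ 1 / 8 := by linarith
  have e5 : c * ‖R‖ * ((1 - η) * ‖T‖) ≤ ‖w‖ * ((1 - η) * ‖T‖) :=
    mul_le_mul_of_nonneg_right hR (mul_nonneg (by linarith) (norm_nonneg _))
  have e6 : η * ‖T‖ * ‖R x‖ ≤ η * ‖T‖ * ‖R‖ := mul_le_mul_of_nonneg_left e3 (by positivity)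
  have e7 : 0 ≤ ‖T‖ * ‖R‖ := by positivity
  have e8 : 0 ≤ (c * (1 - η) - η - c / 2) := by nlinarith
  nlinarith [mul_nonneg e8 e7]

theorem prod_lower {J T S : V →L[ℝ] V} {v v' : V} {η κ : ℝ} (hJ : ∀ x, ‖J x‖ = ‖x‖) (hT : PC T v η) (hS : PC S v' η)
    (hκ : 0 < κ) (hκ1 : κ ≤ 1) (hη0 : 0 ≤ η) (hη : η ≤ κ / 100) (hop : κ ≤ |inner ℝ v (J v')|) :
    κ / 4 * (‖T‖ * ‖S‖) ≤ ‖T.comp (J.comp (ContinuousLinearMap.adjoint S))‖ := by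
  have hη1 : η ≤ 1 / 100 := by linarith
  by_cases h0 : S v' = 0
  · have h1 := hS.ge
    rw [h0, norm_zero] at h1
    have h2 : ‖S‖ = 0 := le_antisymm (by nlinarith [norm_nonneg S]) (norm_nonneg _)
    rw [h2, mul_zero, mul_zero]
    exact norm_nonneg _
  have hwp : 0 < ‖S v'‖ := norm_pos_iff.2 h0
  obtain ⟨y, hy⟩ : ∃ y : V, y = ‖S v'‖⁻¹ • S v' := ⟨_, rfl⟩
  have hy1 : ‖y‖ = 1 := by rw [hy, norm_smul, norm_inv, norm_norm, inv_mul_cancel₀ hwp.ne']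
  obtain ⟨q, hq⟩ : ∃ q : V, q = ContinuousLinearMap.adjoint S y := ⟨_, rfl⟩
  have e1 : (inner ℝ v' q : ℝ) = ‖S v'‖ := by
    rw [hq, ContinuousLinearMap.adjoint_inner_right, hy, real_inner_smul_right, real_inner_self_eq_norm_sq]
    field_simp
  obtain ⟨g1, g2⟩ := dec77 hS.unit q
  rw [e1] at g1 g2
  obtain ⟨z, hz⟩ : ∃ z : V, z = q - ‖S v'‖ • v' := ⟨_, rfl⟩
  rw [← hz] at g1 g2
  have e2 : ‖z‖ ≤ η * ‖S‖ := by
    refine of_sq77 (norm_nonneg _) (by positivity) ?_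
    have e3 : ‖z‖ ^ 2 = inner ℝ (S z) y := by
      have e4 : (inner ℝ z q : ℝ) = inner ℝ (S z) y := by rw [hq, ContinuousLinearMap.adjoint_inner_right]
      rw [← e4, ← real_inner_self_eq_norm_sq]
      have e5 : q = ‖S v'‖ • v' + z := by rw [hz]; abel
      rw [e5, inner_add_right, real_inner_smul_right, real_inner_comm v' z, g1, mul_zero, zero_add]
    rw [e3]
    refine (real_inner_le_norm _ _).trans ?_
    rw [hy1, mul_one]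
    exact hS.le z g1
  have e6 : T (J q) = ‖S v'‖ • T (J v') + T (J z) := by
    have e5 : q = ‖S v'‖ • v' + z := by rw [hz]; abel
    conv_lhs => rw [e5]
    rw [map_add, map_smul, map_add, map_smul]
  have e7 := low77 hT hη0 (J v')
  rw [hJ, hS.unit, mul_one] at e7
  have e8 : ‖T (J z)‖ ≤ ‖T‖ * (η * ‖S‖) := by
    refine (T.le_opNorm _).trans ?_
    rw [hJ]
    exact mul_le_mul_of_nonneg_left e2 (norm_nonneg _)
  have e9 : ‖S v'‖ * ‖T (J v')‖ - ‖T (J z)‖ ≤ ‖T (J q)‖ := by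
    rw [e6]
    have := norm_sub_norm_le (‖S v'‖ • T (J v')) (-(T (J z)))
    rw [norm_neg, sub_neg_eq_add, norm_smul, norm_norm] at this
    exact this
  have e10 : ‖T (J q)‖ ≤ ‖T.comp (J.comp (ContinuousLinearMap.adjoint S))‖ := by
    have := (T.comp (J.comp (ContinuousLinearMap.adjoint S))).le_opNorm y
    rw [hy1, mul_one] at this
    rw [hq]
    exact this
  have e11 : κ * ((1 - η) * ‖T‖) ≤ |inner ℝ v (J v')| * ((1 - η) * ‖T‖) :=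
    mul_le_mul_of_nonneg_right hop (mul_nonneg (by linarith) (norm_nonneg _))
  have e12 : (κ * (1 - η) - η) * ‖T‖ ≤ ‖T (J v')‖ := by linarith
  have e13 : 0 ≤ κ * (1 - η) - η := by nlinarith
  have e14 : (1 - η) * ‖S‖ * ((κ * (1 - η) - η) * ‖T‖) ≤ ‖S v'‖ * ‖T (J v')‖ :=
    mul_le_mul hS.ge e12 (mul_nonneg e13 (norm_nonneg _)) (norm_nonneg _)
  have e15 : 0 ≤ ‖T‖ * ‖S‖ := by positivity
  have e16 : 0 ≤ (1 - η) * (κ * (1 - η) - η) - η - κ / 4 := by nlinarith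
  nlinarith [mul_nonneg e16 e15]

end Pool.Agent.Helper20.TB
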