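import Pool.Agent.Helper20.TB.Defs
import Pool.Agent.Helper78.BM.Phi

/-!
# Project OB (MP_0f6f3f_an), layer TB, block TB-Z: from weights to sets

PROOF of `sets_of_weights`. Write `T = Tb b`, `T' = Tb b'`, `M = Mf μ R (w n)`, `M' = Mf μ R (w' n)`: positive self-adjoint operators (`coe_Mf`; `Mf_mul` with `√(w n)`; see `Helper78/BM/*.lean` for `Mf_mul`, `Mf_symm`/`inner_Mf`-like lemmas, else `UE.inner_map`, `mulop_adj`). Fix `n`. The hypothesis says `T† M T (T'† M' T' ψ) = 0` for all `ψ`.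
With `y = T'† M' T' ψ`: `inner (M T y) (T y) = 0`, `M = M_{√w} M_{√w}`, so `M_{√w} T y = 0`, `M T y = 0`. So `M T T'† M' T' = 0`; the adjoint: `T' T'†`... precisely `T'† M' T' T† M x = 0` for all `x`; with `z = T† M x` again `M' T' z = 0`. So `M' T' T† M = 0`, the adjoint is `M T T'† M' = 0` (for every `n`).
Now `XUa μ R` is the closed span of `XUaSet μ R = {ξ | ∃ n, ∀ s ∈ R.F n, UE.map μ (ind ℂ s) ξ = ξ}`. It suffices (continuity, linearity) to show `inner y (iUX R A (T (T'† (iUX R B x)))) = 0` for `x`, `y` in `XUaSet`, and by `R.monoF` with the same `n` for both. Take `s ∈ R.F n` on which `γ ∈ A → w n γ = 1` and `γ ∈ B → w' n γ = 1`. Then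
`iUX R B x = M' (iUX R B x)` (`mulop (w' n) ∘ ind B ∘ ind s = ind B ∘ ind s`) and `iUX R A y = M (iUX R A y)`, `iUX R A` is self-adjoint, so the inner product is `inner (iUX R A y) (M T T'† M' (iUX R B x)) = 0`.
`iUX_iUnion`: `iUX R (A1 ∪ A2) x = iUX R A1 x + iUX R (A2 \ A1) (iUX R A2 x)` (`ind_apply`), the same for `B`: induction on the finite set, first for `A`, then for `B`.
-/

set_option autoImplicit false
set_option linter.unusedSectionVars false

open MeasureTheory Filter Topology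
open scoped ComplexConjugate

namespace Pool.Agent.Helper20.TB

open Pool.Agent.Helper84 Pool.Agent.Helper84.GN Pool.Agent.Helper84.GN.S3 Pool.Agent.Helper84.GN.S3.X
open Pool.Agent.Helper84.NI Pool.Agent.Helper84.GVN Pool.Agent.Helper90.RK
open Pool.Agent.Helper96.RK Pool.Agent.Helper66.FR Pool.Agent.Helper84.FR Pool.Agent.Helper55.FR Pool.Agent.Helper78.BM

variable {G1 X G Λ : Type} [Group G1] [TopologicalSpace G1] [IsTopologicalGroup G1] [MeasurableSpace X] [MulAction G1 X]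
  [MeasurableConstSMul G1 X] [Group G] [Group Λ] [Countable Λ] {μ : Measure X} [SMulInvariantMeasure G1 X μ]
  [IsProbabilityMeasure μ] {a : Cocy G1 X Λ} {E : Emb Λ G}

private theorem ibd47 (A : Set G) (γ : G) : ‖(A.indicator (fun _ => (1 : ℂ))) γ‖ ≤ 1 := by
  unfold Set.indicator
  split_ifs <;> simp

private theorem iUX_iUX47 {R : Reg G} (A B : Set G) (x : XUa μ R) : iUX R A (iUX R B x) = iUX R (A ∩ B) x := by
  rw [Mf_ind, Mf_ind, Mf_ind, Mf_mul (ibd47 A) (ibd47 B)]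
  refine congrArg (fun f : G → ℂ => Mf μ R f x) (funext fun γ => ?_)
  by_cases h1 : γ ∈ A <;> by_cases h2 : γ ∈ B <;> simp [h1, h2]

private theorem iUX_union47 {R : Reg G} (A B : Set G) (x : XUa μ R) :
    iUX R (A ∪ B) x = iUX R A x + iUX R (B \ A) x := by
  rw [Mf_ind, Mf_ind, Mf_ind, ← Mf_add (ibd47 A) (ibd47 (B \ A))]
  refine congrArg (fun f : G → ℂ => Mf μ R f x) (funext fun γ => ?_)
  by_cases h1 : γ ∈ A <;> by_cases h2 : γ ∈ B <;> simp [h1, h2]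

private theorem iUX_empty47 {R : Reg G} (x : XUa μ R) : iUX R (∅ : Set G) x = 0 := by
  have h : ((∅ : Set G).indicator fun _ => (1 : ℂ)) = fun _ => 0 := by
    funext γ
    simp
  rw [Mf_ind, h, Mf_const, zero_smul]

private theorem sa47 {R : Reg G} {f : G → ℝ} {C : ℝ} (hC : ∀ γ, ‖(f γ : ℂ)‖ ≤ C) (x y : XUa μ R) :
    inner ℂ (Mf μ R (fun γ => (f γ : ℂ)) x) y = inner ℂ x (Mf μ R (fun γ => (f γ : ℂ)) y) := by
  rw [Mf_adj hC]
  exact congrArg (fun g : G → ℂ => inner ℂ x (Mf μ R g y)) (funext fun γ => Complex.conj_ofReal _)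

private theorem iUX_sa47 {R : Reg G} (A : Set G) (x y : XUa μ R) :
    inner ℂ (iUX R A x) y = inner ℂ x (iUX R A y) := by
  rw [Mf_ind, Mf_ind, Mf_adj (ibd47 A)]
  refine congrArg (fun g : G → ℂ => inner ℂ x (Mf μ R g y)) (funext fun γ => ?_)
  by_cases h : γ ∈ A <;> simp [h]

private theorem Mf_zero_of47 {R : Reg G} {w : G → ℝ} (hw : ∀ g, 0 ≤ w g ∧ w g ≤ 1) {y : XUa μ R}
    (h : (inner ℂ (Mf μ R (fun γ => (w γ : ℂ)) y) y : ℂ) = 0) : Mf μ R (fun γ => (w γ : ℂ)) y = 0 := by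
  have hb : ∀ γ, ‖((√(w γ) : ℝ) : ℂ)‖ ≤ 1 := by
    intro γ
    rw [Complex.norm_real, Real.norm_of_nonneg (Real.sqrt_nonneg _)]
    exact (Real.sqrt_le_sqrt (hw γ).2).trans (by rw [Real.sqrt_one])
  have e : ∀ x : XUa μ R, Mf μ R (fun γ => (w γ : ℂ)) x =
      Mf μ R (fun γ => ((√(w γ) : ℝ) : ℂ)) (Mf μ R (fun γ => ((√(w γ) : ℝ) : ℂ)) x) := by
    intro x
    rw [Mf_mul hb hb]
    refine congrArg (fun f : G → ℂ => Mf μ R f x) (funext fun γ => ?_)
    rw [← Complex.ofReal_mul, Real.mul_self_sqrt (hw γ).1]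
  rw [e, sa47 hb] at h
  rw [e, inner_self_eq_zero.1 h, map_zero]

private theorem mono47 (R : Reg G) : Monotone R.F := monotone_nat_of_le_succ R.monoF

private theorem sep47 {R : Reg G} {v : XUa μ R}
    (h : ∀ y : XUa μ R, (y : UE μ (L2 G)) ∈ XUaSet μ R → (inner ℂ y v : ℂ) = 0) : v = 0 := by
  have h1 : (v : UE μ (L2 G)) ∈ (Submodule.span ℂ (XUaSet μ R))ᗮ := by
    rw [Submodule.mem_orthogonal]
    intro u hu
    induction hu using Submodule.span_induction with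
    | mem w hw => exact h ⟨w, Submodule.le_topologicalClosure _ (Submodule.subset_span hw)⟩ hw
    | zero => exact inner_zero_left _
    | add a b _ _ ha hb => rw [inner_add_left, ha, hb, add_zero]
    | smul c a _ ha => rw [inner_smul_left, ha, mul_zero]
  have h2 : (v : UE μ (L2 G)) ∈ ((Submodule.span ℂ (XUaSet μ R)).topologicalClosure)ᗮ := by
    rwa [Submodule.orthogonal_closure]
  have h3 := (Submodule.mem_orthogonal _ _).1 h2 v v.2
  exact Subtype.ext (inner_self_eq_zero.1 h3)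

private theorem fix47 {R : Reg G} {w : G → ℝ} (hw : ∀ g, 0 ≤ w g ∧ w g ≤ 1) {A : Set G} {n : ℕ}
    (hA : ∀ᶠ γ in R.F n, γ ∈ A → w γ = 1) {y : XUa μ R}
    (hy : ∀ s ∈ R.F n, UE.map μ (ind ℂ s) (y : UE μ (L2 G)) = y) :
    Mf μ R (fun γ => (w γ : ℂ)) (iUX R A y) = iUX R A y := by
  have hs : {γ | γ ∈ A → w γ = 1} ∈ R.F n := hA
  have h1 : iUX R {γ | γ ∈ A → w γ = 1} y = y := Subtype.ext (hy _ hs)
  have hb : ∀ γ, ‖(w γ : ℂ)‖ ≤ 1 := by
    intro γ
    rw [Complex.norm_real, Real.norm_of_nonneg (hw γ).1]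
    exact (hw γ).2
  have h2 : iUX R A y = iUX R (A ∩ {γ | γ ∈ A → w γ = 1}) y := by
    conv_lhs => rw [← h1]
    rw [iUX_iUX47]
  rw [h2, Mf_ind, Mf_mul hb (ibd47 _)]
  refine congrArg (fun f : G → ℂ => Mf μ R f y) (funext fun γ => ?_)
  by_cases h3 : γ ∈ A ∩ {γ | γ ∈ A → w γ = 1}
  · rw [h3.2 h3.1]
    simp
  · rw [Set.indicator_of_notMem h3, mul_zero]

private theorem gen47 {H : Type} [NormedAddCommGroup H] [InnerProductSpace ℂ H] [CompleteSpace H]
    {R : Reg G} (T T' : H →L[ℂ] XUa μ R) {w w' : G → ℝ} (hw : ∀ g, 0 ≤ w g ∧ w g ≤ 1)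
    (hw' : ∀ g, 0 ≤ w' g ∧ w' g ≤ 1)
    (h : ∀ φ ψ, (inner ℂ (ContinuousLinearMap.adjoint T (Mf μ R (fun γ => (w γ : ℂ)) (T φ)))
      (ContinuousLinearMap.adjoint T' (Mf μ R (fun γ => (w' γ : ℂ)) (T' ψ))) : ℂ) = 0) (x : XUa μ R) :
    Mf μ R (fun γ => (w γ : ℂ)) (T (ContinuousLinearMap.adjoint T' (Mf μ R (fun γ => (w' γ : ℂ)) x))) = 0 := by
  have hb : ∀ γ, ‖(w γ : ℂ)‖ ≤ 1 := by
    intro γ
    rw [Complex.norm_real, Real.norm_of_nonneg (hw γ).1]
    exact (hw γ).2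
  have hb' : ∀ γ, ‖(w' γ : ℂ)‖ ≤ 1 := by
    intro γ
    rw [Complex.norm_real, Real.norm_of_nonneg (hw' γ).1]
    exact (hw' γ).2
  have h1 : ∀ ψ, Mf μ R (fun γ => (w γ : ℂ)) (T (ContinuousLinearMap.adjoint T'
      (Mf μ R (fun γ => (w' γ : ℂ)) (T' ψ)))) = 0 := by
    intro ψ
    refine Mf_zero_of47 hw ?_
    rw [← ContinuousLinearMap.adjoint_inner_left]
    exact h _ ψ
  have h2 : ∀ y, ContinuousLinearMap.adjoint T' (Mf μ R (fun γ => (w' γ : ℂ)) (T' (ContinuousLinearMap.adjoint T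
      (Mf μ R (fun γ => (w γ : ℂ)) y)))) = 0 := by
    intro y
    refine ext_inner_right ℂ fun ψ => ?_
    rw [inner_zero_left, ContinuousLinearMap.adjoint_inner_left, sa47 hb',
      ← ContinuousLinearMap.adjoint_inner_right, ContinuousLinearMap.adjoint_inner_left, sa47 hb, h1, inner_zero_right]
  have h3 : ∀ y, Mf μ R (fun γ => (w' γ : ℂ)) (T' (ContinuousLinearMap.adjoint T
      (Mf μ R (fun γ => (w γ : ℂ)) y))) = 0 := by
    intro y
    refine Mf_zero_of47 hw' ?_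
    rw [← ContinuousLinearMap.adjoint_inner_left, h2, inner_zero_left]
  refine ext_inner_left ℂ fun y => ?_
  rw [inner_zero_right, ← sa47 hb, ← ContinuousLinearMap.adjoint_inner_left,
    ContinuousLinearMap.adjoint_inner_right, ← sa47 hb', h3, inner_zero_left]

theorem sets_of_weights {R : Reg G} {b b' : ℕ → G1} {A B : Set G} (w w' : ℕ → G → ℝ) (hw : ∀ n g, 0 ≤ w n g ∧ w n g ≤ 1)
    (hw' : ∀ n g, 0 ≤ w' n g ∧ w' n g ≤ 1)
    (hA : ∀ n, ∀ᶠ γ in R.F n, γ ∈ A → w n γ = 1) (hB : ∀ n, ∀ᶠ γ in R.F n, γ ∈ B → w' n γ = 1)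
    (h : ∀ n φ ψ, (inner ℂ (ContinuousLinearMap.adjoint (Tb μ a E R b) (Mf μ R (fun γ => (w n γ : ℂ)) (Tb μ a E R b φ)))
      (ContinuousLinearMap.adjoint (Tb μ a E R b') (Mf μ R (fun γ => (w' n γ : ℂ)) (Tb μ a E R b' ψ))) : ℂ) = 0)
    (x : XUa μ R) :
    iUX R A (Tb μ a E R b (ContinuousLinearMap.adjoint (Tb μ a E R b') (iUX R B x))) = 0 := by
  obtain ⟨T, hT⟩ : ∃ T : XL μ (L2 G) →L[ℂ] XUa μ R, T = Tb μ a E R b := ⟨_, rfl⟩
  obtain ⟨T', hT'⟩ : ∃ T' : XL μ (L2 G) →L[ℂ] XUa μ R, T' = Tb μ a E R b' := ⟨_, rfl⟩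
  rw [← hT, ← hT'] at h ⊢
  have hg : ∀ n x, Mf μ R (fun γ => (w n γ : ℂ)) (T (ContinuousLinearMap.adjoint T'
      (Mf μ R (fun γ => (w' n γ : ℂ)) x))) = 0 := fun n x => gen47 T T' (hw n) (hw' n) (h n) x
  obtain ⟨Z, hZ⟩ : ∃ Z : XUa μ R →L[ℂ] XUa μ R, ∀ x, Z x =
      iUX R A (T (ContinuousLinearMap.adjoint T' (iUX R B x))) :=
    ⟨(iUX R A).comp (T.comp ((ContinuousLinearMap.adjoint T').comp (iUX R B))), fun x => rfl⟩
  have key : ∀ x y : XUa μ R, (x : UE μ (L2 G)) ∈ XUaSet μ R → (y : UE μ (L2 G)) ∈ XUaSet μ R →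
      (inner ℂ y (Z x) : ℂ) = 0 := by
    rintro x y ⟨n1, hn1⟩ ⟨n2, hn2⟩
    have hx := fix47 (hw' (max n1 n2)) (hB (max n1 n2)) (y := x)
      (fun s hs => hn1 s (mono47 R (le_max_left n1 n2) hs))
    have hy := fix47 (hw (max n1 n2)) (hA (max n1 n2)) (y := y)
      (fun s hs => hn2 s (mono47 R (le_max_right n1 n2) hs))
    have hb : ∀ γ, ‖(w (max n1 n2) γ : ℂ)‖ ≤ 1 := by
      intro γ
      rw [Complex.norm_real, Real.norm_of_nonneg (hw _ γ).1]
      exact (hw _ γ).2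
    rw [hZ, ← iUX_sa47, ← hy, ← hx, sa47 hb, hg, inner_zero_right]
  have h1 : ∀ x : XUa μ R, (x : UE μ (L2 G)) ∈ XUaSet μ R → Z x = 0 := fun x hx =>
    sep47 fun y hy => key x y hx hy
  have h2 : ∀ y, ContinuousLinearMap.adjoint Z y = 0 := fun y => sep47 fun x hx => by
    rw [ContinuousLinearMap.adjoint_inner_right, h1 x hx, inner_zero_left]
  rw [← hZ]
  refine ext_inner_right ℂ fun y => ?_
  rw [inner_zero_left, ← ContinuousLinearMap.adjoint_inner_right, h2, inner_zero_right]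

theorem iUX_iUnion {ι : Type} (F : Finset ι) {R : Reg G} (Y : XUa μ R →L[ℂ] XUa μ R) (A B : ι → Set G)
    (h : ∀ i ∈ F, ∀ j ∈ F, ∀ x, iUX R (A i) (Y (iUX R (B j) x)) = 0) (x : XUa μ R) :
    iUX R (⋃ i ∈ F, A i) (Y (iUX R (⋃ i ∈ F, B i) x)) = 0 := by
  classical
  have hB : ∀ i ∈ F, ∀ s ⊆ F, ∀ x, iUX R (A i) (Y (iUX R (⋃ j ∈ s, B j) x)) = 0 := by
    intro i hi s
    induction s using Finset.induction_on with
    | empty =>
      intro _ x
      have h0 : (⋃ j ∈ (∅ : Finset ι), B j) = ∅ := by simp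
      rw [h0, iUX_empty47, map_zero, map_zero]
    | insert j s hj ih =>
      intro hs x
      have h0 : (⋃ k ∈ insert j s, B k) = (⋃ k ∈ s, B k) ∪ B j := by
        rw [Finset.set_biUnion_insert, Set.union_comm]
      have h3 : iUX R (B j \ ⋃ k ∈ s, B k) x = iUX R (B j) (iUX R (B j \ ⋃ k ∈ s, B k) x) := by
        rw [iUX_iUX47, Set.inter_eq_self_of_subset_right Set.sdiff_subset]
      rw [h0, iUX_union47, map_add, map_add, ih ((Finset.subset_insert _ _).trans hs), h3,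
        h i hi j (hs (Finset.mem_insert_self _ _)), add_zero]
  have hA : ∀ s ⊆ F, ∀ x, iUX R (⋃ i ∈ s, A i) (Y (iUX R (⋃ j ∈ F, B j) x)) = 0 := by
    intro s
    induction s using Finset.induction_on with
    | empty =>
      intro _ x
      have h0 : (⋃ j ∈ (∅ : Finset ι), A j) = ∅ := by simp
      rw [h0, iUX_empty47]
    | insert j s hj ih =>
      intro hs x
      have h0 : (⋃ k ∈ insert j s, A k) = (⋃ k ∈ s, A k) ∪ A j := by
        rw [Finset.set_biUnion_insert, Set.union_comm]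
      have h3 : ∀ z : XUa μ R, iUX R (A j \ ⋃ k ∈ s, A k) z = iUX R (A j \ ⋃ k ∈ s, A k) (iUX R (A j) z) := by
        intro z
        rw [iUX_iUX47, Set.inter_eq_self_of_subset_left Set.sdiff_subset]
      rw [h0, iUX_union47, ih ((Finset.subset_insert _ _).trans hs), h3,
        hB j (hs (Finset.mem_insert_self _ _)) F subset_rfl, map_zero, add_zero]
  exact hA F subset_rfl x

end Pool.Agent.Helper20.TB
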