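import Pool.Agent.Helper20.TB.Ker1
import Pool.Agent.Helper20.TB.Ker2
import Pool.Agent.Helper20.TB.Cl1
import Pool.Agent.Helper20.TB.Cl2

/-!
# Project OB (MP_0f6f3f_an), layer TB, block TB-E: the inequality at both nodes

PROOF of `tbi1`. `η = κ⁴ / 1000000`, `e = η² / 4`. Given `C`: `K0 = max 1 √(2 C N)`: `w1_ne`: on the support of `w1 v e C`: `PC (T1 g) v η`, `s1 g ≤ K0`. `class1` (with `K0`) gives `K'`, `L`. `R1 = D.Rp1 v v' (κ/8) K'`, `R0 = {r | s0 r ≤ L}` (`fin0`). `noncancel` with `c = κ / 8`: for `r ∈ R1`, `w1 v e C g ≠ 0`: `(κ/16) s0 g s0 r ≤ ‖T1 g ∘ T1 r‖ = s0 (g r)` (`mul1`, `norm_T1`). So `ker1` with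
`Q = R1`, `c = κ/16`, `K = max K0 K'` gives `BN (kR w R1) B`. For `w'` and `Q' = {r | r⁻¹ ∈ R1}`: `s1 r = s1 r⁻¹ ≤ K'` (`s1_inv`), `‖T1 r⁻¹ (J v')‖ ≥ c s0 r⁻¹` means `‖(T1 r)† v'‖ ≥ c s0 r` (`inv1`, `op_JR_JR`, `norm_JR`, `s0_inv`), so `noncancel` and `ker1` again. `W`: for `w g ≠ 0`, `w' h ≠ 0`: `prod_lower`: `(κ/4) s0 g s0 h ≤ ‖T1 g ∘ J ∘ (T1 h)†‖ = s0 (g h⁻¹)`
(`mul1`, `inv1`), and `s0 s1 (g h⁻¹) ≤ s0 g s1 g s0 h s1 h ≤ K0² s0 g s0 h` (`s01_mul_le`, `s0_inv`, `s1_inv`): `s1 (g h⁻¹) ≤ (4/κ) K0²`. `pair_main` (`Pair.lean`).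
`tbi2`: the same with `w2_ne`, `class2`, `Rp2`, `T2`, `JK`, `mul2`, `inv2`, `ker2`; `W`: `(κ/4) s0 s1 (g) s0 s1 (h) ≤ s0 s1 (g h⁻¹)`, `s0 (g h⁻¹)² ≤ s0 g² s0 h² ≤ K0² s0 g s1 g s0 h s1 h ≤ (4 K0² / κ) s0 s1 (g h⁻¹)`, so `s0 (g h⁻¹) ≤ (4 K0² / κ) s1 (g h⁻¹)` (`K0 ≥ max 1 √(2 C N²)`).
-/

set_option autoImplicit false

open MeasureTheory Filter Topology

namespace Pool.Agent.Helper20.TB

open Pool.Agent.Helper55.OB

namespace RD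

variable {G : Type} [Group G] {N : ℕ} (D : RD G N)

private theorem eta_bd1 {κ : ℝ} (hκ : 0 < κ) (hκ1 : κ ≤ 1) : 0 < κ ^ 4 / 1000000 ∧ κ ^ 4 / 1000000 ≤ 1 ∧
    κ ^ 4 / 1000000 ≤ κ / 8 / 8 ∧ κ ^ 4 / 1000000 ≤ κ / 100 := by
  have h1 : κ ^ 4 ≤ κ := by
    calc κ ^ 4 ≤ κ ^ 1 := pow_le_pow_of_le_one hκ.le hκ1 (by norm_num)
      _ = κ := pow_one κ
  refine ⟨by positivity, by linarith, by linarith, by linarith⟩

private theorem comp_norm1 (g h : G) : ‖(D.T1 g).comp (D.T1 h)‖ ≤ D.s0 (g * h) := by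
  rw [← D.norm_T1 (g * h)]
  rcases D.mul1 g h with h1 | h1
  · have e : (D.T1 g).comp (D.T1 h) = D.T1 (g * h) := by
      ext1 x
      rw [ContinuousLinearMap.comp_apply, h1]
    rw [e]
  · have e : (D.T1 g).comp (D.T1 h) = -D.T1 (g * h) := by
      ext1 x
      rw [ContinuousLinearMap.comp_apply, ContinuousLinearMap.neg_apply, h1, neg_neg]
    rw [e, norm_neg]

private theorem comp_norm2 (g h : G) : ‖(D.T2 g).comp (D.T2 h)‖ ≤ D.s0 (g * h) * D.s1 (g * h) := by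
  rw [← D.norm_T2 (g * h)]
  have e : (D.T2 g).comp (D.T2 h) = D.T2 (g * h) := by
    ext1 x
    rw [ContinuousLinearMap.comp_apply, D.mul2]
  rw [e]

private theorem star_norm1 (g h : G) :
    ‖(D.T1 g).comp ((op (JR N)).comp (ContinuousLinearMap.adjoint (D.T1 h)))‖ ≤ D.s0 (g * h⁻¹) := by
  refine ContinuousLinearMap.opNorm_le_bound _ (D.s0_pos _).le fun x => ?_
  rw [ContinuousLinearMap.comp_apply, ContinuousLinearMap.comp_apply]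
  have h1 : ‖D.T1 g (op (JR N) (ContinuousLinearMap.adjoint (D.T1 h) x))‖ = ‖D.T1 g (D.T1 h⁻¹ (op (JR N) x))‖ := by
    rcases D.inv1 h with h2 | h2
    · rw [h2, op_JR_JR]
    · rw [h2, op_JR_JR, map_neg, norm_neg]
  have h3 : ‖D.T1 g (D.T1 h⁻¹ (op (JR N) x))‖ = ‖D.T1 (g * h⁻¹) (op (JR N) x)‖ := by
    rcases D.mul1 g h⁻¹ with h2 | h2
    · rw [h2]
    · rw [h2, norm_neg]
  rw [h1, h3]
  refine ((D.T1 (g * h⁻¹)).le_opNorm _).trans ?_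
  rw [D.norm_T1, norm_JR]

private theorem star_norm2 (g h : G) :
    ‖(D.T2 g).comp ((op (JK N)).comp (ContinuousLinearMap.adjoint (D.T2 h)))‖ ≤ D.s0 (g * h⁻¹) * D.s1 (g * h⁻¹) := by
  refine ContinuousLinearMap.opNorm_le_bound _ (mul_pos (D.s0_pos _) (D.s1_pos _)).le fun x => ?_
  rw [ContinuousLinearMap.comp_apply, ContinuousLinearMap.comp_apply]
  have h1 : D.T2 g (op (JK N) (ContinuousLinearMap.adjoint (D.T2 h) x)) = D.T2 (g * h⁻¹) (op (JK N) x) := by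
    rw [D.mul2, D.inv2, op_JK_JK]
  rw [h1]
  refine ((D.T2 (g * h⁻¹)).le_opNorm _).trans ?_
  rw [D.norm_T2, norm_JK]

private theorem adj_norm1 (r : G) (v' : EuclideanSpace ℝ (Fin N)) :
    ‖D.T1 r⁻¹ (op (JR N) v')‖ = ‖ContinuousLinearMap.adjoint (D.T1 r) v'‖ := by
  rcases D.inv1 r with h2 | h2
  · rw [h2, op_JR_JR, norm_JR]
  · rw [h2, op_JR_JR, norm_neg, norm_JR]

private theorem adj_norm2 (r : G) (v' : EuclideanSpace ℝ (Fin N × Fin N)) :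
    ‖D.T2 r⁻¹ (op (JK N) v')‖ = ‖ContinuousLinearMap.adjoint (D.T2 r) v'‖ := by
  rw [D.inv2, op_JK_JK, norm_JK]

theorem tbi1 {κ : ℝ} (hκ : 0 < κ) (hκ1 : κ ≤ 1) {C : ℝ} (hC : 0 < C) {v v' : EuclideanSpace ℝ (Fin N)} (hv : ‖v‖ = 1)
    (hv' : ‖v'‖ = 1) (hop : κ ≤ |inner ℝ v (op (JR N) v')|) :
    ∃ C' K, TBI (D.w1 v ((κ ^ 4 / 1000000) ^ 2 / 4) C) (D.w1 v' ((κ ^ 4 / 1000000) ^ 2 / 4) C) {γ | D.s1 γ ≤ K} C' := by
  obtain ⟨hη0, hη1, hη2, hη3⟩ := eta_bd1 hκ hκ1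
  set η : ℝ := κ ^ 4 / 1000000 with hη
  have he : 0 < η ^ 2 / 4 := by positivity
  set K0 : ℝ := max 1 √(2 * C * N) with hK0
  have hK01 : 1 ≤ K0 := le_max_left _ _
  have hsup : ∀ (u : EuclideanSpace ℝ (Fin N)), ‖u‖ = 1 → ∀ g, D.w1 u (η ^ 2 / 4) C g ≠ 0 →
      PC (D.T1 g) u η ∧ D.s1 g ≤ K0 := by
    intro u hu g hg
    obtain ⟨h1, h2⟩ := D.w1_ne hu hη0 hη1 hC hg
    exact ⟨h1, (Real.le_sqrt_of_sq_le h2).trans (le_max_right _ _)⟩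
  obtain ⟨K', L, hcls⟩ := D.class1 hκ hκ1 hK01
  set R1 : Set G := D.Rp1 v v' (κ / 8) K' with hR1
  have hc : 0 < κ / 16 := by positivity
  have hKm : 1 ≤ max K0 K' := hK01.trans (le_max_left _ _)
  have hnc : ∀ (u : EuclideanSpace ℝ (Fin N)), ‖u‖ = 1 → ∀ r, κ / 8 * D.s0 r ≤ ‖ContinuousLinearMap.adjoint (D.T1 r) u‖ →
      ∀ g, D.w1 u (η ^ 2 / 4) C g ≠ 0 → κ / 16 * (D.s0 g * D.s0 r) ≤ D.s0 (g * r) := by
    intro u hu r hr g hg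
    have h1 := noncancel (hsup u hu g hg).1 hη0.le (c := κ / 8) (R := D.T1 r) (by positivity) (by linarith) hη2
      (by rw [D.norm_T1]; exact hr)
    rw [D.norm_T1, D.norm_T1] at h1
    have h2 := D.comp_norm1 g r
    linarith
  obtain ⟨B1, hB1⟩ := D.ker1 (v := v) he hC hc hKm R1 (fun g hg => (hsup v hv g hg).2.trans (le_max_left _ _))
    (fun r hr => hr.2.2.trans (le_max_right _ _)) (fun r hr g hg => hnc v hv r hr.1 g hg)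
  obtain ⟨B2, hB2⟩ := D.ker1 (v := v') he hC hc hKm {r | r⁻¹ ∈ R1} (fun g hg => (hsup v' hv' g hg).2.trans (le_max_left _ _))
    (fun r hr => by
      have h1 : D.s1 r⁻¹ ≤ K' := (hr : r⁻¹ ∈ R1).2.2
      rw [D.s1_inv] at h1
      exact h1.trans (le_max_right _ _))
    (fun r hr g hg => hnc v' hv' r (by
      have h1 : κ / 8 * D.s0 r⁻¹ ≤ ‖D.T1 r⁻¹ (op (JR N) v')‖ := (hr : r⁻¹ ∈ R1).2.1
      rw [D.adj_norm1, D.s0_inv] at h1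
      exact h1) g hg)
  have hfin := D.fin0 L
  refine ⟨2 * B1 * B2 + hfin.toFinset.card + 1, 4 / κ * K0 ^ 2, pair_main (fun g => ?_) (fun g => ?_) R1 hfin.toFinset ?_ ?_ hB1 hB2⟩
  · rw [abs_of_nonneg (D.w1_mem _ _ _ g).1]
    exact (D.w1_mem _ _ _ g).2
  · rw [abs_of_nonneg (D.w1_mem _ _ _ g).1]
    exact (D.w1_mem _ _ _ g).2
  · intro g h hg hh
    obtain ⟨p1, q1⟩ := hsup v hv g hg
    obtain ⟨p2, q2⟩ := hsup v' hv' h hh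
    have h1 := prod_lower (J := op (JR N)) norm_JR p1 p2 hκ hκ1 hη0.le hη3 hop
    rw [D.norm_T1, D.norm_T1] at h1
    have h2 := h1.trans (D.star_norm1 g h)
    have h3 := D.s01_mul_le g h⁻¹
    rw [D.s0_inv, D.s1_inv] at h3
    have a1 := D.s0_pos g
    have a2 := D.s0_pos h
    have a3 := D.s1_pos g
    have a4 := D.s1_pos h
    have a5 := D.s0_pos (g * h⁻¹)
    have h4 : D.s1 g * D.s1 h ≤ K0 ^ 2 := by
      rw [sq]
      exact mul_le_mul q1 q2 a4.le (by linarith)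
    have h5 : D.s0 g * D.s1 g * (D.s0 h * D.s1 h) ≤ D.s0 g * D.s0 h * K0 ^ 2 := by
      calc D.s0 g * D.s1 g * (D.s0 h * D.s1 h) = D.s0 g * D.s0 h * (D.s1 g * D.s1 h) := by ring
        _ ≤ _ := mul_le_mul_of_nonneg_left h4 (by positivity)
    have h6 : D.s0 g * D.s0 h ≤ 4 / κ * D.s0 (g * h⁻¹) := by
      rw [div_mul_eq_mul_div, le_div_iff₀ hκ]
      linarith
    have h7 : D.s0 g * D.s0 h * K0 ^ 2 ≤ 4 / κ * D.s0 (g * h⁻¹) * K0 ^ 2 :=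
      mul_le_mul_of_nonneg_right h6 (by positivity)
    have h8 : D.s0 (g * h⁻¹) * D.s1 (g * h⁻¹) ≤ D.s0 (g * h⁻¹) * (4 / κ * K0 ^ 2) := by
      calc _ ≤ _ := h3
        _ ≤ _ := h5
        _ ≤ _ := h7
        _ = _ := by ring
    exact le_of_mul_le_mul_left h8 a5
  · intro r g h hg hgr hh hhr
    obtain ⟨p1, q1⟩ := hsup v hv g hg
    obtain ⟨p2, q2⟩ := hsup v hv (g * r) hgr
    obtain ⟨p3, q3⟩ := hsup v' hv' h hh
    obtain ⟨p4, q4⟩ := hsup v' hv' (h * r) hhr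
    rcases hcls v v' η hη0.le le_rfl hop g h r p1 p3 p2 p4 q1 q3 q2 q4 with h1 | h1 | h1
    · exact Or.inl h1
    · exact Or.inr (Or.inl h1)
    · exact Or.inr (Or.inr (hfin.mem_toFinset.2 h1))

theorem tbi2 {κ : ℝ} (hκ : 0 < κ) (hκ1 : κ ≤ 1) {C : ℝ} (hC : 0 < C) {v v' : EuclideanSpace ℝ (Fin N × Fin N)} (hv : ‖v‖ = 1)
    (hv' : ‖v'‖ = 1) (hop : κ ≤ |inner ℝ v (op (JK N) v')|) :
    ∃ C' K, TBI (D.w2 v ((κ ^ 4 / 1000000) ^ 2 / 4) C) (D.w2 v' ((κ ^ 4 / 1000000) ^ 2 / 4) C) {γ | D.s0 γ ≤ K * D.s1 γ} C' := by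
  obtain ⟨hη0, hη1, hη2, hη3⟩ := eta_bd1 hκ hκ1
  set η : ℝ := κ ^ 4 / 1000000 with hη
  have he : 0 < η ^ 2 / 4 := by positivity
  set K0 : ℝ := max 1 √(2 * C * N ^ 2) with hK0
  have hK01 : 1 ≤ K0 := le_max_left _ _
  have hsup : ∀ (u : EuclideanSpace ℝ (Fin N × Fin N)), ‖u‖ = 1 → ∀ g, D.w2 u (η ^ 2 / 4) C g ≠ 0 →
      PC (D.T2 g) u η ∧ D.s0 g ≤ K0 * D.s1 g := by
    intro u hu g hg
    obtain ⟨h1, h2⟩ := D.w2_ne hu hη0 hη1 hC hg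
    refine ⟨h1, ?_⟩
    have a3 := D.s1_pos g
    have h3 : D.s0 g ≤ √(2 * C * N ^ 2 * D.s1 g ^ 2) := Real.le_sqrt_of_sq_le h2
    rw [Real.sqrt_mul (by positivity), Real.sqrt_sq a3.le] at h3
    exact h3.trans (mul_le_mul_of_nonneg_right (le_max_right _ _) a3.le)
  obtain ⟨K', L, hcls⟩ := D.class2 hκ hκ1 hK01
  set R1 : Set G := D.Rp2 v v' (κ / 8) K' with hR1
  have hc : 0 < κ / 16 := by positivity
  have hKm : 1 ≤ max K0 K' := hK01.trans (le_max_left _ _)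
  have hnc : ∀ (u : EuclideanSpace ℝ (Fin N × Fin N)), ‖u‖ = 1 → ∀ r,
      κ / 8 * (D.s0 r * D.s1 r) ≤ ‖ContinuousLinearMap.adjoint (D.T2 r) u‖ →
      ∀ g, D.w2 u (η ^ 2 / 4) C g ≠ 0 → κ / 16 * (D.s0 g * D.s1 g * (D.s0 r * D.s1 r)) ≤ D.s0 (g * r) * D.s1 (g * r) := by
    intro u hu r hr g hg
    have h1 := noncancel (hsup u hu g hg).1 hη0.le (c := κ / 8) (R := D.T2 r) (by positivity) (by linarith) hη2
      (by rw [D.norm_T2]; exact hr)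
    rw [D.norm_T2, D.norm_T2] at h1
    have h2 := D.comp_norm2 g r
    linarith
  obtain ⟨B1, hB1⟩ := D.ker2 (v := v) he hC hc hKm R1
    (fun g hg => (hsup v hv g hg).2.trans (mul_le_mul_of_nonneg_right (le_max_left _ _) (D.s1_pos g).le))
    (fun r hr => (hr.2.2).trans (mul_le_mul_of_nonneg_right (le_max_right _ _) (D.s1_pos r).le))
    (fun r hr g hg => hnc v hv r hr.1 g hg)
  obtain ⟨B2, hB2⟩ := D.ker2 (v := v') he hC hc hKm {r | r⁻¹ ∈ R1}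
    (fun g hg => (hsup v' hv' g hg).2.trans (mul_le_mul_of_nonneg_right (le_max_left _ _) (D.s1_pos g).le))
    (fun r hr => by
      have h1 : D.s0 r⁻¹ ≤ K' * D.s1 r⁻¹ := (hr : r⁻¹ ∈ R1).2.2
      rw [D.s1_inv, D.s0_inv] at h1
      exact h1.trans (mul_le_mul_of_nonneg_right (le_max_right _ _) (D.s1_pos r).le))
    (fun r hr g hg => hnc v' hv' r (by
      have h1 : κ / 8 * (D.s0 r⁻¹ * D.s1 r⁻¹) ≤ ‖D.T2 r⁻¹ (op (JK N) v')‖ := (hr : r⁻¹ ∈ R1).2.1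
      rw [D.adj_norm2, D.s0_inv, D.s1_inv] at h1
      exact h1) g hg)
  have hfin := D.fin0 L
  refine ⟨2 * B1 * B2 + hfin.toFinset.card + 1, 4 / κ * K0 ^ 2, pair_main (fun g => ?_) (fun g => ?_) R1 hfin.toFinset ?_ ?_ hB1 hB2⟩
  · rw [abs_of_nonneg (D.w2_mem _ _ _ g).1]
    exact (D.w2_mem _ _ _ g).2
  · rw [abs_of_nonneg (D.w2_mem _ _ _ g).1]
    exact (D.w2_mem _ _ _ g).2
  · intro g h hg hh
    obtain ⟨p1, q1⟩ := hsup v hv g hg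
    obtain ⟨p2, q2⟩ := hsup v' hv' h hh
    have h1 := prod_lower (J := op (JK N)) norm_JK p1 p2 hκ hκ1 hη0.le hη3 hop
    rw [D.norm_T2, D.norm_T2] at h1
    have h2 := h1.trans (D.star_norm2 g h)
    have h3 := D.s0_mul_le g h⁻¹
    rw [D.s0_inv] at h3
    have a1 := D.s0_pos g
    have a2 := D.s0_pos h
    have a3 := D.s1_pos g
    have a4 := D.s1_pos h
    have a5 := D.s0_pos (g * h⁻¹)
    have a6 := D.s1_pos (g * h⁻¹)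
    have h4 : D.s0 (g * h⁻¹) * D.s0 (g * h⁻¹) ≤ D.s0 g * D.s0 h * (D.s0 g * D.s0 h) :=
      mul_le_mul h3 h3 a5.le (by positivity)
    have h5 : D.s0 g * D.s0 h * (D.s0 g * D.s0 h) ≤ D.s0 g * D.s0 h * (K0 * D.s1 g * (K0 * D.s1 h)) :=
      mul_le_mul_of_nonneg_left (mul_le_mul q1 q2 a2.le (by positivity)) (by positivity)
    have h6 : D.s0 g * D.s1 g * (D.s0 h * D.s1 h) ≤ 4 / κ * (D.s0 (g * h⁻¹) * D.s1 (g * h⁻¹)) := by
      rw [div_mul_eq_mul_div, le_div_iff₀ hκ]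
      linarith
    have h7 : K0 ^ 2 * (D.s0 g * D.s1 g * (D.s0 h * D.s1 h)) ≤ K0 ^ 2 * (4 / κ * (D.s0 (g * h⁻¹) * D.s1 (g * h⁻¹))) :=
      mul_le_mul_of_nonneg_left h6 (by positivity)
    have h8 : D.s0 (g * h⁻¹) * D.s0 (g * h⁻¹) ≤ D.s0 (g * h⁻¹) * (4 / κ * K0 ^ 2 * D.s1 (g * h⁻¹)) := by
      calc _ ≤ _ := h4
        _ ≤ _ := h5
        _ = K0 ^ 2 * (D.s0 g * D.s1 g * (D.s0 h * D.s1 h)) := by ring
        _ ≤ _ := h7
        _ = _ := by ring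
    exact le_of_mul_le_mul_left h8 a5
  · intro r g h hg hgr hh hhr
    obtain ⟨p1, q1⟩ := hsup v hv g hg
    obtain ⟨p2, q2⟩ := hsup v hv (g * r) hgr
    obtain ⟨p3, q3⟩ := hsup v' hv' h hh
    obtain ⟨p4, q4⟩ := hsup v' hv' (h * r) hhr
    rcases hcls v v' η hη0.le le_rfl hop g h r p1 p3 p2 p4 q1 q3 q2 q4 with h1 | h1 | h1
    · exact Or.inl h1
    · exact Or.inr (Or.inl h1)
    · exact Or.inr (Or.inr (hfin.mem_toFinset.2 h1))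

end RD

end Pool.Agent.Helper20.TB
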