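import Pool.Agent.Helper20.TB.Tbx
import Pool.Agent.Helper43.TA.Defs

/-!
# Project OB (MP_0f6f3f_an), layer TB, block TB-T2: the inequality for the operators `Tb`

PROOF. `Tb μ a E R b φ = XPpr R (KK μ a E b φ)` (`Tb_eq`, `Helper78/BM/Bd.lean`), `Mf μ R f` is the restriction of `UE.map μ (mulop f)` to `XUa μ R` (`coe_Mf`). (1) For `φ`: `((Mf μ R w (Tb φ) : XUa μ R) : UE μ (L2 G)) = UE.map μ (mulop w) (KK b φ)`: the operator
`M = UE.map μ (mulop w)` is self-adjoint (`w` is real and bounded: `mulop_adj`, `UE.inner_map`) and maps `XUa μ R` to itself, so also its orthogonal complement, `M (KK φ) = M (XPpr KK φ) + M (rest)`, and `M (KK φ) ∈ XUa μ R` (`hX`).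
(2) So for `χ`: `inner (adjoint Tb (Mf w (Tb φ))) χ = inner (M (KK φ)) (Tb χ) = inner (M (KK φ)) (KK χ)` (inner product of an element of `XUa` with a projection) `= lim_{n → hyperfilter} inner (cl (mulop w) (WW (b n) φ)) (WW (b n) χ)` (`UE.tendsto_inner` or `UP` (limit along the hyperfilter of the inner products), `UE.map_mk`, `val_KK`;
`KK φ` is in general only `UP.mk (KS b φ)`: use `val_KK`, `uxm_mk`, `UE.inner_val` and the inner product of `UP.mk`) `= lim_n inner (y n) χ`, `y n = adjoint (WW (b n)) (cl (mulop w) (WW (b n) φ))`. The same for `b'`, `ψ`, `y' m`.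
(3) Fix `φ = xE D (cst (dl k))`, `ψ = xE D' (cst (dl k'))`. With `χ = adjoint Tb' (Mf w' (Tb' ψ))`: the inner product of the statement is `lim_n inner (y n) χ = lim_n lim_m inner (y n) (y' m)` and `inner (y n) (y' m) = inner (cl (mulop w) (WW (b n) φ)) (WW (b n) (adjoint (WW (b' m)) (cl (mulop w') (WW (b' m) ψ))))
= inner (cl (mulop w) (WW (b n) φ)) (ZZ (b n * (b' m)⁻¹) (cl (mulop w') (WW (b' m) ψ)))` (`WW_adj`, `Helper9/S3X/W2.lean`), so `‖inner (y n) (y' m)‖ ≤ C ‖cl (ind W) (zx (b n * (b' m)⁻¹))‖` (`tb_fin`), and the limit over `m` of the right side is `C √(ms μ a E W (fun m => b n * (b' m)⁻¹))`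
(`ms`, `vec_eq`, `UE.map_mk`, `UE.tendsto_norm`). By `hm` the limit over `n` is `0`. (4) Both sides are continuous (anti)linear in `φ`, `ψ`; the span of the `xE D (cst v)` is dense (`xl_induction`), and in `v` the span of the `dl k` is dense (`hasSum_dl`, or `span_dl`-lemmas in `Helper84/GVN/Basic.lean`; see `XBlim`, `KU_mem` for examples with `xl_induction`).
-/

set_option autoImplicit false
set_option linter.unusedSectionVars false

open MeasureTheory Filter Topology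
open scoped ComplexConjugate

namespace Pool.Agent.Helper20.TB

open Pool.Agent.Helper84 Pool.Agent.Helper84.GN Pool.Agent.Helper84.GN.S3 Pool.Agent.Helper84.GN.S3.X
open Pool.Agent.Helper84.NI Pool.Agent.Helper84.GVN Pool.Agent.Helper90.RK
open Pool.Agent.Helper96.RK Pool.Agent.Helper66.FR Pool.Agent.Helper84.FR Pool.Agent.Helper55.FR Pool.Agent.Helper78.BM
open Pool.Agent.Helper43.TA (ms)

variable {G1 X G Λ : Type} [Group G1] [TopologicalSpace G1] [IsTopologicalGroup G1] [MeasurableSpace X] [MulAction G1 X]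
  [MeasurableConstSMul G1 X] [Group G] [Group Λ] [Countable Λ] {μ : Measure X} [SMulInvariantMeasure G1 X μ]
  [IsProbabilityMeasure μ] {a : Cocy G1 X Λ} {E : Emb Λ G}

private theorem proj_h2 {R : Reg G} {T : UE μ (L2 G) →L[ℂ] UE μ (L2 G)} (hs : ∀ x y, inner ℂ (T x) y = inner ℂ x (T y))
    (hT : ∀ x ∈ XUa μ R, T x ∈ XUa μ R) {ξ : UE μ (L2 G)} (hξ : T ξ ∈ XUa μ R) :
    T ((XPpr R ξ : XUa μ R) : UE μ (L2 G)) = T ξ := by
  have h1 : T ξ - T ((XPpr R ξ : XUa μ R) : UE μ (L2 G)) ∈ XUa μ R := Submodule.sub_mem _ hξ (hT _ (XPpr R ξ).2)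
  have h0 : ∀ u ∈ XUa μ R, inner ℂ u (ξ - ((XPpr R ξ : XUa μ R) : UE μ (L2 G))) = 0 := by
    intro u hu
    rw [inner_sub_right]
    have h2 := inner_XPpr R ξ ⟨u, hu⟩
    rw [sub_eq_zero]
    exact h2
  have h2 : inner ℂ (T ξ - T ((XPpr R ξ : XUa μ R) : UE μ (L2 G))) (T ξ - T ((XPpr R ξ : XUa μ R) : UE μ (L2 G))) = 0 := by
    have h3 := h0 _ (hT _ h1)
    rw [hs, map_sub] at h3
    exact h3
  have h4 := inner_self_eq_zero.1 h2
  exact (sub_eq_zero.1 h4).symm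

private theorem mulop_self_h2 {w : G → ℝ} (hw : ∀ g, |w g| ≤ 1) :
    ContinuousLinearMap.adjoint (mulop fun γ => (w γ : ℂ)) = mulop fun γ => (w γ : ℂ) := by
  rw [mulop_adj (C := 1) fun γ => by
    rw [Complex.norm_real]
    exact hw γ]
  congr 1
  funext γ
  exact Complex.conj_ofReal _

/-- The inner products as limits. -/
private theorem lim_h2 {w : G → ℝ} (hw : ∀ g, |w g| ≤ 1) {R : Reg G} {b : ℕ → G1}
    (hX : ∀ φ, UE.map μ (mulop fun γ => (w γ : ℂ)) (KK μ a E b φ) ∈ XUa μ R) (φ χ : XL μ (L2 G)) :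
    Tendsto (fun n => (inner ℂ (cl μ (mulop fun γ => (w γ : ℂ)) (WW μ a E (b n) φ)) (WW μ a E (b n) χ) : ℂ)) (hyperfilter ℕ : Filter ℕ)
      (𝓝 (inner ℂ (ContinuousLinearMap.adjoint (Tb μ a E R b) (Mf μ R (fun γ => (w γ : ℂ)) (Tb μ a E R b φ))) χ)) := by
  rw [ContinuousLinearMap.adjoint_inner_left]
  have h1 : ((Mf μ R (fun γ => (w γ : ℂ)) (Tb μ a E R b φ) : XUa μ R) : UE μ (L2 G)) =
      UE.map μ (mulop fun γ => (w γ : ℂ)) (KK μ a E b φ) := by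
    rw [coe_Mf, Tb_eq]
    refine proj_h2 (T := UE.map μ (mulop fun γ => (w γ : ℂ))) (fun x y => ?_) (fun x hx => mulop_memX R hx) (hX φ)
    rw [UE.inner_map, mulop_self_h2 hw]
  have h2 : inner ℂ (Mf μ R (fun γ => (w γ : ℂ)) (Tb μ a E R b φ)) (Tb μ a E R b χ) =
      inner ℂ (UE.map μ (mulop fun γ => (w γ : ℂ)) (KK μ a E b φ)) (KK μ a E b χ) := by
    rw [Tb_eq χ, ← inner_XPpr, h1]
  rw [h2, ← UE.inner_val, UE.val_map, val_KK, val_KK, uxm_mk]
  exact UP.tendsto_inner _ _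

private theorem norm_zz_h2 (g : G1) (x y : XL μ (L2 G)) :
    ‖(inner ℂ x (ZZ μ a E g⁻¹ y) : ℂ)‖ = ‖(inner ℂ y (ZZ μ a E g x) : ℂ)‖ := by
  have h1 : inner ℂ (ZZ μ a E g x) (ZZ μ a E g (ZZ μ a E g⁻¹ y)) = inner ℂ x (ZZ μ a E g⁻¹ y) :=
    (vgR μ a E.U g).inner_map_map x (ZZ μ a E g⁻¹ y)
  have h2 : ZZ μ a E g (ZZ μ a E g⁻¹ y) = y := by
    change vg μ a E.U g (vg μ a E.U g⁻¹ y) = y
    rw [← vg_mul, mul_inv_cancel, vg_one]
  rw [← h1, h2, norm_inner_symm]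

private theorem ms_lim_h2 (W : Set G) (g : ℕ → G1) :
    Tendsto (fun m => ‖cl μ (ind ℂ W) (zx μ a E (g m))‖) (hyperfilter ℕ : Filter ℕ) (𝓝 (√(ms μ a E W g))) := by
  have hx : EB 1 (⟨fun n => zx μ a E (g n), 1, fun n => (norm_zx (g n)).le⟩ : BSeq (XL μ (L2 G))) :=
    ⟨zero_le_one, fun n => zx_bound (g n)⟩
  have h1 : √(ms μ a E W g) = ‖UE.map μ (ind ℂ W) (vec μ a E g)‖ := by
    unfold ms
    exact Real.sqrt_sq (norm_nonneg _)
  have h2 : UE.map μ (ind ℂ W) (vec μ a E g) = UE.mk (BSeq.map (cl μ (ind ℂ W))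
      (⟨fun n => zx μ a E (g n), 1, fun n => (norm_zx (g n)).le⟩ : BSeq (XL μ (L2 G)))) (hx.map (ind ℂ W)) := by
    rw [vec_eq]
    exact UE.map_mk _ _ hx
  rw [h1, h2]
  have h3 := UE.tendsto_norm (BSeq.map (cl μ (ind ℂ W))
      (⟨fun n => zx μ a E (g n), 1, fun n => (norm_zx (g n)).le⟩ : BSeq (XL μ (L2 G)))) (hx.map (ind ℂ W))
  exact h3

private theorem dbl_h2 {W : Set G} {C : ℝ} {b b' : ℕ → G1}
    (hm : ∀ ε : ℝ, 0 < ε → ∀ᶠ n in (hyperfilter ℕ : Filter ℕ), ms μ a E W (fun m => b n * (b' m)⁻¹) ≤ ε)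
    (z z' : ℕ → XL μ (L2 G)) (Y' : XL μ (L2 G)) (c : ℂ)
    (h1 : Tendsto (fun n => (inner ℂ (z n) (WW μ a E (b n) Y') : ℂ)) (hyperfilter ℕ : Filter ℕ) (𝓝 c))
    (h3 : ∀ χ, Tendsto (fun m => (inner ℂ (z' m) (WW μ a E (b' m) χ) : ℂ)) (hyperfilter ℕ : Filter ℕ) (𝓝 (inner ℂ Y' χ)))
    (hb : ∀ n m, ‖(inner ℂ (z n) (ZZ μ a E (b n * (b' m)⁻¹) (z' m)) : ℂ)‖ ≤ C * ‖cl μ (ind ℂ W) (zx μ a E (b n * (b' m)⁻¹))‖) :
    c = 0 := by
  have h2 : ∀ n, ‖(inner ℂ (z n) (WW μ a E (b n) Y') : ℂ)‖ ≤ C * √(ms μ a E W (fun m => b n * (b' m)⁻¹)) := by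
    intro n
    have e1 : ‖(inner ℂ (z n) (WW μ a E (b n) Y') : ℂ)‖ =
        ‖(inner ℂ Y' (ContinuousLinearMap.adjoint (WW μ a E (b n)) (z n)) : ℂ)‖ := by
      rw [ContinuousLinearMap.adjoint_inner_right, norm_inner_symm]
    rw [e1]
    have h4 := (ms_lim_h2 (μ := μ) (a := a) (E := E) W fun m => b n * (b' m)⁻¹).const_mul C
    refine le_of_tendsto_of_tendsto' (h3 (ContinuousLinearMap.adjoint (WW μ a E (b n)) (z n))).norm h4 fun m => ?_
    rw [WW_adj]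
    have e2 : b' m * (b n)⁻¹ = (b n * (b' m)⁻¹)⁻¹ := by group
    rw [e2, norm_zz_h2]
    exact hb n m
  have h5 : Tendsto (fun n => C * √(ms μ a E W (fun m => b n * (b' m)⁻¹))) (hyperfilter ℕ : Filter ℕ) (𝓝 0) := by
    have h4 : Tendsto (fun n => ms μ a E W (fun m => b n * (b' m)⁻¹)) (hyperfilter ℕ : Filter ℕ) (𝓝 0) := by
      rw [Metric.tendsto_nhds]
      intro ε hε
      filter_upwards [hm (ε / 2) (by positivity)] with n hn
      rw [Real.dist_eq, sub_zero, abs_of_nonneg (by unfold ms; positivity)]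
      linarith
    have h5 := (h4.sqrt).const_mul C
    rwa [Real.sqrt_zero, mul_zero] at h5
  have h4 := squeeze_zero (fun n => norm_nonneg _) h2 h5
  have h6 := tendsto_nhds_unique h1.norm h4
  exact norm_eq_zero.1 h6

theorem tb_weights {w w' : G → ℝ} {W : Set G} {C : ℝ} (hT : TBI w w' W C) (hw : ∀ g, |w g| ≤ 1) (hw' : ∀ g, |w' g| ≤ 1)
    {R R' : Reg G} {b b' : ℕ → G1}
    (hX : ∀ φ, UE.map μ (mulop fun γ => (w γ : ℂ)) (KK μ a E b φ) ∈ XUa μ R)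
    (hX' : ∀ φ, UE.map μ (mulop fun γ => (w' γ : ℂ)) (KK μ a E b' φ) ∈ XUa μ R')
    (hm : ∀ ε : ℝ, 0 < ε → ∀ᶠ n in (hyperfilter ℕ : Filter ℕ), ms μ a E W (fun m => b n * (b' m)⁻¹) ≤ ε)
    (φ ψ : XL μ (L2 G)) :
    (inner ℂ (ContinuousLinearMap.adjoint (Tb μ a E R b) (Mf μ R (fun γ => (w γ : ℂ)) (Tb μ a E R b φ)))
      (ContinuousLinearMap.adjoint (Tb μ a E R' b') (Mf μ R' (fun γ => (w' γ : ℂ)) (Tb μ a E R' b' ψ))) : ℂ) = 0 := by
  set A : XL μ (L2 G) →L[ℂ] XL μ (L2 G) := (ContinuousLinearMap.adjoint (Tb μ a E R b)).comp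
    ((Mf μ R (fun γ => (w γ : ℂ))).comp (Tb μ a E R b)) with hA
  set B : XL μ (L2 G) →L[ℂ] XL μ (L2 G) := (ContinuousLinearMap.adjoint (Tb μ a E R' b')).comp
    ((Mf μ R' (fun γ => (w' γ : ℂ))).comp (Tb μ a E R' b')) with hB
  change (inner ℂ (A φ) (B ψ) : ℂ) = 0
  -- first all `ψ` for special `φ`
  have h1 : ∀ (D : Set X), MeasurableSet D → ∀ k : G, ∀ ψ, (inner ℂ (A (xE μ (L2 G) D (cst μ (dl k)))) (B ψ) : ℂ) = 0 := by
    intro D hD k ψ
    have h2 : (innerSL ℂ (A (xE μ (L2 G) D (cst μ (dl k))))).comp B = 0 :=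
      xl_clm_ext fun D' hD' k' => by
        have h3 := dbl_h2 hm (fun n => cl μ (mulop fun γ => (w γ : ℂ)) (WW μ a E (b n) (xE μ (L2 G) D (cst μ (dl k)))))
          (fun m => cl μ (mulop fun γ => (w' γ : ℂ)) (WW μ a E (b' m) (xE μ (L2 G) D' (cst μ (dl k')))))
          (B (xE μ (L2 G) D' (cst μ (dl k')))) _ (lim_h2 hw hX _ _) (lim_h2 hw' hX' _)
          fun n m => tb_fin hT hw hw' hD hD' k k' (b n) (b' m)
        rw [ContinuousLinearMap.comp_apply, innerSL_apply_apply]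
        exact h3
    have h3 := DFunLike.congr_fun h2 ψ
    rw [ContinuousLinearMap.comp_apply, innerSL_apply_apply] at h3
    exact h3
  have h2 : (innerSL ℂ (B ψ)).comp A = 0 :=
    xl_clm_ext fun D hD k => by
      rw [ContinuousLinearMap.comp_apply, innerSL_apply_apply]
      exact inner_eq_zero_symm.1 (h1 D hD k ψ)
  have h3 := DFunLike.congr_fun h2 φ
  rw [ContinuousLinearMap.comp_apply, innerSL_apply_apply] at h3
  exact inner_eq_zero_symm.1 h3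

end Pool.Agent.Helper20.TB
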