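import Pool.Agent.Helper20.TB.St
import Pool.Agent.Helper20.TB.Tbi
import Pool.Agent.Helper20.TB.Tbw
import Pool.Agent.Helper20.TB.Mem
import Pool.Agent.Helper20.TB.Sets

/-!
# Project OB (MP_0f6f3f_an), layer TB, block TB-H1: small pairs of sets of positions

`ec κ = (κ⁴ / 1000000)² / 4`. `Reg2 b b'`: the products `b n (b' m)⁻¹` are regular. PROOF of `piece1`. `R1 S = GN.toReg (chStr S (K1 N) [])` by definition. `η = κ⁴ / 1000000`, `e = ec κ = η² / 4`. `C n = N² (exp n)²`, `w n = D.w1 v e (C n)`, `w' n = D.w1 v' e (C n)`; `sets_of_weights`: (i) values in `[0, 1]`: `w1_mem`. (ii) `hA n`: by `mem_FC` it suffices to find `m` such that `w n γ = 1` for `γ ∈ A ∩ WC S (K1 N) n ∩ TC S [K1 N] m`: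
`w1_one` with `K = exp n` (`RS.mem_WC1`), `N s1² ≤ (e/2) s0²` holds if `exp m` is large (`RS.TC1'`). The same for `B`. (iii) `h n`: `tb_weights` with `R = R' = R1 S`, `tbi1` (`W = {γ | s1 γ ≤ K}`), `hX`: `weight_mem` (`J = K1 N`): for `w n γ ≠ 0`: `s1 γ² ≤ 2 C N` (`w1_ne`), so `γ ∈ WC S (K1 N) k` for a suitable `k` (`mem_WC1`), and `{γ | w γ ≠ 0 ∧ γ ∉ TC S [K1 N] m}` is contained in `{γ | s0 γ ≤ L}` (`RS.TC1`), finite by `fin0`.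
`hm`: `W = {γ | s1 γ ≤ K} ⊆ {γ | ∃ i < 2, lg S γ i ≤ k}` for `k` with `K ≤ exp k` (`RS.WC1_sub`) and `ms` is monotone in the set (`ms μ a E s g = ‖UE.map μ (ind ℂ s) (vec μ a E g)‖ ^ 2`, `ind s = ind s ∘ ind t` for `s ⊆ t`; search `ms_mono` in `Helper43/TA`), `hreg`.
`piece2`: the same with `w2`, `K2 N`, `tbi2`, `w2_ne`, `w2_one`, `RS.mem_WC2`, `RS.TC2`, `RS.TC2'`, `RS.WC2_sub`. Finiteness: `s0 ≤ K s1` and `s1 < L` give `s0 < K L`.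
-/

set_option autoImplicit false
set_option linter.unusedSectionVars false

open MeasureTheory Filter Topology Matrix

namespace Pool.Agent.Helper20.TB

open Pool.Agent.Helper84 Pool.Agent.Helper84.GN Pool.Agent.Helper84.GN.S3 Pool.Agent.Helper84.GN.S3.X
open Pool.Agent.Helper84.NI Pool.Agent.Helper84.GVN Pool.Agent.Helper90.RK
open Pool.Agent.Helper96.RK hiding toReg
open Pool.Agent.Helper66.FR Pool.Agent.Helper84.FR Pool.Agent.Helper55.FR Pool.Agent.Helper78.BM Pool.Agent.Helper55.OB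
open Pool.Agent.Helper43.TA (ms)

variable {G1 X G Λ : Type} [Group G1] [TopologicalSpace G1] [IsTopologicalGroup G1] [MeasurableSpace X] [MulAction G1 X]
  [MeasurableConstSMul G1 X] [Group G] [Group Λ] [Countable Λ] {μ : Measure X} [SMulInvariantMeasure G1 X μ]
  [IsProbabilityMeasure μ] {a : Cocy G1 X Λ} {E : Emb Λ G} {N : ℕ} {P : PH G N} {S : Sv P} {D : RD G N}

/-- The parameter of the weights. -/
noncomputable def ec (κ : ℝ) : ℝ := (κ ^ 4 / 1000000) ^ 2 / 4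

/-- The products `b n (b' m)⁻¹` have two large gaps, for `m → ∞`, then `n → ∞`. -/
def Reg2 (μ : Measure X) [SMulInvariantMeasure G1 X μ] [IsProbabilityMeasure μ] (a : Cocy G1 X Λ) (E : Emb Λ G) (S : Sv P)
    (b b' : ℕ → G1) : Prop :=
  ∀ C ε : ℝ, 0 < ε → ∀ᶠ n in (hyperfilter ℕ : Filter ℕ),
    ms μ a E {γ | ∃ i : Fin N, (i : ℕ) < 2 ∧ lg S γ i ≤ C} (fun m => b n * (b' m)⁻¹) ≤ ε

private theorem nat_le_exp34 (m : ℕ) : (m : ℝ) ≤ Real.exp m := by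
  have := Real.add_one_le_exp (m : ℝ)
  linarith

private theorem nat_le_exp_sq34 (m : ℕ) : (m : ℝ) ≤ Real.exp m ^ 2 := by
  have h1 := nat_le_exp34 m
  have h2 : (1 : ℝ) ≤ Real.exp m := Real.one_le_exp (Nat.cast_nonneg m)
  nlinarith

private theorem ec_pos34 {κ : ℝ} (hκ : 0 < κ) : 0 < ec κ := by
  unfold ec
  positivity

private theorem eta34 {κ : ℝ} (hκ : 0 < κ) (hκ1 : κ ≤ 1) : 0 < κ ^ 4 / 1000000 ∧ κ ^ 4 / 1000000 ≤ 1 := by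
  refine ⟨by positivity, ?_⟩
  have h1 : κ ^ 4 ≤ 1 := pow_le_one₀ hκ.le hκ1
  linarith

private theorem one1_34 (hD : RS D S) {e : ℝ} (he : 0 < e) {v : EuclideanSpace ℝ (Fin N)} {A : Set G}
    (hA : ∀ γ ∈ A, 1 - e / 2 ≤ inner ℝ v (D.vR γ) ^ 2) (n : ℕ) :
    ∀ᶠ γ in (R1 S).F n, γ ∈ A → D.w1 v e ((N : ℝ) ^ 2 * Real.exp n ^ 2) γ = 1 := by
  change {γ | γ ∈ A → D.w1 v e ((N : ℝ) ^ 2 * Real.exp n ^ 2) γ = 1} ∈ FC S (K1 N) [] n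
  rw [mem_FC]
  obtain ⟨m, hm⟩ := exists_nat_ge (2 * N / e)
  refine ⟨m, fun γ hγ hγA => ?_⟩
  refine D.w1_one he (hA γ hγA) (hD.mem_WC1.1 hγ.1) ?_
  have h1 := hD.TC1' hγ.2
  have h2 := D.s1_pos γ
  have h3 := nat_le_exp_sq34 m
  rw [div_le_iff₀ he] at hm
  have h4 : (N : ℝ) ≤ e / 2 * Real.exp m ^ 2 := by nlinarith
  have h5 : (Real.exp m * D.s1 γ) ^ 2 ≤ D.s0 γ ^ 2 := pow_le_pow_left₀ (by positivity) h1 2
  calc (N : ℝ) * D.s1 γ ^ 2 ≤ (e / 2 * Real.exp m ^ 2) * D.s1 γ ^ 2 := mul_le_mul_of_nonneg_right h4 (by positivity)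
    _ = e / 2 * (Real.exp m * D.s1 γ) ^ 2 := by ring
    _ ≤ e / 2 * D.s0 γ ^ 2 := mul_le_mul_of_nonneg_left h5 (by positivity)

private theorem one2_34 (hD : RS D S) {e : ℝ} (he : 0 < e) {v : EuclideanSpace ℝ (Fin N × Fin N)} {A : Set G}
    (hA : ∀ γ ∈ A, 1 - e / 2 ≤ inner ℝ v (D.oR2 γ) ^ 2) (n : ℕ) :
    ∀ᶠ γ in (R2 S).F n, γ ∈ A → D.w2 v e ((N : ℝ) ^ 2 * Real.exp n ^ 2) γ = 1 := by
  change {γ | γ ∈ A → D.w2 v e ((N : ℝ) ^ 2 * Real.exp n ^ 2) γ = 1} ∈ FC S (K2 N) [] n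
  rw [mem_FC]
  obtain ⟨m, hm⟩ := exists_nat_ge (2 * N ^ 2 / e)
  refine ⟨m, fun γ hγ hγA => ?_⟩
  refine D.w2_one he (hA γ hγA) (hD.mem_WC2.1 hγ.1) ?_
  have h1 := hD.TC2' hγ.2
  have h3 := nat_le_exp_sq34 m
  rw [div_le_iff₀ he] at hm
  have h4 : (N : ℝ) ^ 2 ≤ e / 2 * Real.exp m ^ 2 := by nlinarith
  have h5 : Real.exp m ^ 2 ≤ D.s1 γ ^ 2 := pow_le_pow_left₀ (Real.exp_pos _).le h1 2
  exact h4.trans (mul_le_mul_of_nonneg_left h5 (by positivity))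

private theorem mem1_34 (hD : RS D S) {η : ℝ} (hη : 0 < η) (hη1 : η ≤ 1) {v : EuclideanSpace ℝ (Fin N)} (hv : ‖v‖ = 1)
    {C : ℝ} (hC : 0 < C) (hF2 : ∀ l : Λ, Tendsto (fun g : G1 => μ {x | a.a g x = l}) (cocompact G1) (𝓝 0)) {b : ℕ → G1}
    (hb : Tendsto b (hyperfilter ℕ : Filter ℕ) (cocompact G1)) (φ : XL μ (L2 G)) :
    UE.map μ (mulop fun γ => (D.w1 v (η ^ 2 / 4) C γ : ℂ)) (KK μ a E b φ) ∈ XUa μ (R1 S) := by
  obtain ⟨k, hk⟩ := exists_nat_ge (2 * C * N)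
  have h0 : ∀ γ, D.w1 v (η ^ 2 / 4) C γ ≠ 0 → D.s1 γ ≤ Real.exp k := by
    intro γ hγ
    have h1 := (D.w1_ne hv hη hη1 hC hγ).2
    have h2 := D.one_le_s1 γ
    have h3 := nat_le_exp34 k
    nlinarith
  refine weight_mem (K1 N) (fun g => ?_) (n := k) (fun γ hγ => hD.mem_WC1.2 (h0 γ hγ)) (fun m => ?_) hF2 hb φ
  · rw [abs_of_nonneg (D.w1_mem v (η ^ 2 / 4) C g).1]
    exact (D.w1_mem v (η ^ 2 / 4) C g).2
  · obtain ⟨L, hL⟩ := hD.TC1 k m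
    refine (D.fin0 L).subset fun γ hγ => ?_
    by_contra hcon
    exact hγ.2 (hL γ (h0 γ hγ.1) (not_le.1 hcon).le)

private theorem mem2_34 (hD : RS D S) {η : ℝ} (hη : 0 < η) (hη1 : η ≤ 1) {v : EuclideanSpace ℝ (Fin N × Fin N)}
    (hv : ‖v‖ = 1) {C : ℝ} (hC : 0 < C)
    (hF2 : ∀ l : Λ, Tendsto (fun g : G1 => μ {x | a.a g x = l}) (cocompact G1) (𝓝 0)) {b : ℕ → G1}
    (hb : Tendsto b (hyperfilter ℕ : Filter ℕ) (cocompact G1)) (φ : XL μ (L2 G)) :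
    UE.map μ (mulop fun γ => (D.w2 v (η ^ 2 / 4) C γ : ℂ)) (KK μ a E b φ) ∈ XUa μ (R2 S) := by
  obtain ⟨k, hk⟩ := exists_nat_ge (2 * C * N ^ 2)
  have h0 : ∀ γ, D.w2 v (η ^ 2 / 4) C γ ≠ 0 → D.s0 γ ≤ Real.exp k * D.s1 γ := by
    intro γ hγ
    have h1 := (D.w2_ne hv hη hη1 hC hγ).2
    have h2 := D.s1_pos γ
    have h3 := nat_le_exp_sq34 k
    have h4 : D.s0 γ ^ 2 ≤ (Real.exp k * D.s1 γ) ^ 2 := by
      refine h1.trans ?_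
      rw [mul_pow]
      exact mul_le_mul_of_nonneg_right (hk.trans h3) (by positivity)
    exact (sq_le_sq₀ (D.s0_pos γ).le (by positivity)).1 h4
  refine weight_mem (K2 N) (fun g => ?_) (n := k) (fun γ hγ => hD.mem_WC2.2 (h0 γ hγ)) (fun m => ?_) hF2 hb φ
  · rw [abs_of_nonneg (D.w2_mem v (η ^ 2 / 4) C g).1]
    exact (D.w2_mem v (η ^ 2 / 4) C g).2
  · obtain ⟨L, hL⟩ := hD.TC2 k m
    refine (D.fin0 (Real.exp k * L)).subset fun γ hγ => ?_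
    have h1 := h0 γ hγ.1
    by_contra hcon
    refine hγ.2 (hL γ h1 ?_)
    by_contra hcon2
    apply hcon
    exact h1.trans (mul_le_mul_of_nonneg_left (not_le.1 hcon2).le (Real.exp_pos _).le)

theorem piece1 (hD : RS D S) (hF2 : ∀ l : Λ, Tendsto (fun g : G1 => μ {x | a.a g x = l}) (cocompact G1) (𝓝 0)) {b b' : ℕ → G1}
    (hb : Tendsto b (hyperfilter ℕ : Filter ℕ) (cocompact G1)) (hb' : Tendsto b' (hyperfilter ℕ : Filter ℕ) (cocompact G1))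
    (hreg : Reg2 μ a E S b b') {κ : ℝ} (hκ : 0 < κ) (hκ1 : κ ≤ 1) {v v' : EuclideanSpace ℝ (Fin N)} (hv : ‖v‖ = 1) (hv' : ‖v'‖ = 1)
    (hop : κ ≤ |inner ℝ v (op (JR N) v')|) {A B : Set G} (hA : ∀ γ ∈ A, 1 - ec κ / 2 ≤ inner ℝ v (D.vR γ) ^ 2)
    (hB : ∀ γ ∈ B, 1 - ec κ / 2 ≤ inner ℝ v' (D.vR γ) ^ 2) (x : XUa μ (R1 S)) :
    iUX (R1 S) A (Tb μ a E (R1 S) b (ContinuousLinearMap.adjoint (Tb μ a E (R1 S) b') (iUX (R1 S) B x))) = 0 := by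
  obtain ⟨hη, hη1⟩ := eta34 hκ hκ1
  have he := ec_pos34 hκ
  have hN : (0 : ℝ) < N := by
    have := D.hN
    exact_mod_cast (by omega : 0 < N)
  have hCp : ∀ n : ℕ, (0 : ℝ) < (N : ℝ) ^ 2 * Real.exp n ^ 2 := fun n => by positivity
  refine sets_of_weights (fun n => D.w1 v (ec κ) ((N : ℝ) ^ 2 * Real.exp n ^ 2))
    (fun n => D.w1 v' (ec κ) ((N : ℝ) ^ 2 * Real.exp n ^ 2)) (fun n g => D.w1_mem _ _ _ g) (fun n g => D.w1_mem _ _ _ g)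
    (fun n => one1_34 hD he hA n) (fun n => one1_34 hD he hB n) (fun n φ ψ => ?_) x
  obtain ⟨C', K, hT⟩ := D.tbi1 hκ hκ1 (hCp n) hv hv' hop
  have habs : ∀ u g, |D.w1 u (ec κ) ((N : ℝ) ^ 2 * Real.exp n ^ 2) g| ≤ 1 := by
    intro u g
    rw [abs_of_nonneg (D.w1_mem _ _ _ g).1]
    exact (D.w1_mem _ _ _ g).2
  refine tb_weights hT (habs v) (habs v') (fun φ => mem1_34 hD hη hη1 hv (hCp n) hF2 hb φ)
    (fun φ => mem1_34 hD hη hη1 hv' (hCp n) hF2 hb' φ) (fun ε hε => ?_) φ ψ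
  obtain ⟨k, hk⟩ := exists_nat_ge K
  filter_upwards [hreg k ε hε] with j hj
  refine (Pool.Agent.Helper43.TA.ms_mono ?_ _).trans hj
  intro γ hγ
  exact hD.WC1_sub (le_trans hγ (hk.trans (nat_le_exp34 k)))

theorem piece2 (hD : RS D S) (hF2 : ∀ l : Λ, Tendsto (fun g : G1 => μ {x | a.a g x = l}) (cocompact G1) (𝓝 0)) {b b' : ℕ → G1}
    (hb : Tendsto b (hyperfilter ℕ : Filter ℕ) (cocompact G1)) (hb' : Tendsto b' (hyperfilter ℕ : Filter ℕ) (cocompact G1))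
    (hreg : Reg2 μ a E S b b') {κ : ℝ} (hκ : 0 < κ) (hκ1 : κ ≤ 1) {v v' : EuclideanSpace ℝ (Fin N × Fin N)} (hv : ‖v‖ = 1)
    (hv' : ‖v'‖ = 1) (hop : κ ≤ |inner ℝ v (op (JK N) v')|) {A B : Set G} (hA : ∀ γ ∈ A, 1 - ec κ / 2 ≤ inner ℝ v (D.oR2 γ) ^ 2)
    (hB : ∀ γ ∈ B, 1 - ec κ / 2 ≤ inner ℝ v' (D.oR2 γ) ^ 2) (x : XUa μ (R2 S)) :
    iUX (R2 S) A (Tb μ a E (R2 S) b (ContinuousLinearMap.adjoint (Tb μ a E (R2 S) b') (iUX (R2 S) B x))) = 0 := by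
  obtain ⟨hη, hη1⟩ := eta34 hκ hκ1
  have he := ec_pos34 hκ
  have hN : (0 : ℝ) < N := by
    have := D.hN
    exact_mod_cast (by omega : 0 < N)
  have hCp : ∀ n : ℕ, (0 : ℝ) < (N : ℝ) ^ 2 * Real.exp n ^ 2 := fun n => by positivity
  refine sets_of_weights (fun n => D.w2 v (ec κ) ((N : ℝ) ^ 2 * Real.exp n ^ 2))
    (fun n => D.w2 v' (ec κ) ((N : ℝ) ^ 2 * Real.exp n ^ 2)) (fun n g => D.w2_mem _ _ _ g) (fun n g => D.w2_mem _ _ _ g)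
    (fun n => one2_34 hD he hA n) (fun n => one2_34 hD he hB n) (fun n φ ψ => ?_) x
  obtain ⟨C', K, hT⟩ := D.tbi2 hκ hκ1 (hCp n) hv hv' hop
  have habs : ∀ u g, |D.w2 u (ec κ) ((N : ℝ) ^ 2 * Real.exp n ^ 2) g| ≤ 1 := by
    intro u g
    rw [abs_of_nonneg (D.w2_mem _ _ _ g).1]
    exact (D.w2_mem _ _ _ g).2
  refine tb_weights hT (habs v) (habs v') (fun φ => mem2_34 hD hη hη1 hv (hCp n) hF2 hb φ)
    (fun φ => mem2_34 hD hη hη1 hv' (hCp n) hF2 hb' φ) (fun ε hε => ?_) φ ψ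
  obtain ⟨k, hk⟩ := exists_nat_ge K
  filter_upwards [hreg k ε hε] with j hj
  refine (Pool.Agent.Helper43.TA.ms_mono ?_ _).trans hj
  intro γ hγ
  exact hD.WC2_sub (le_trans hγ (mul_le_mul_of_nonneg_right (hk.trans (nat_le_exp34 k)) (D.s1_pos γ).le))

end Pool.Agent.Helper20.TB
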