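import Pool.Agent.Helper20.TB.Hs

/-!
# Project OB (MP_0f6f3f_an), layer TB, block TB-R1: the operators of the real data, first exterior power

`D.r g = kL diag(s) kRᵀ`, `kL`, `kR` orthogonal and `J`-orthogonal. `T1 g = op (D.r g)`, `vR g`, `vL g` = first columns (`col (D.kR g) D.i0 = op (D.kR g) e_0`).
PROOFS. `T1_vR`: `(D.r g) kR = kL diag(s)`, first column. `T1_adj_vL` the same with the transpose. `norm_T1`: `‖op (diag s) x‖ ≤ s_0 ‖x‖` (`s_i ≤ s_0`), orthogonal matrices are isometries (`norm_op_orth`), and `‖T1 vR‖ = s_0`. `T1_le`: `y = op (kRᵀ) x` has `y_0 = ⟪vR, x⟫ = 0`, so `‖op (diag s) y‖ ≤ s_1 ‖y‖`. `T1a_le` the same.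
`iso1`: `(kRᵀ J kR)_{00} = J_{00} = 0` (`fR`; `jj N 0 = N - 1 ≠ 0`). `form1`: `form`. `form1'`: `r J rᵀ = J`: `(J rᵀ J) r = 1`, so `r (J rᵀ J) = 1`. `T1_inv`: `r(g⁻¹) r(g) = ± r(1)`, `r(1) = ± r(1) r(1)`, `r(1)` is invertible, so `r(1) = ± 1`, `r(g⁻¹) = ± r(g)⁻¹ = ± J r(g)ᵀ J`. `s0_inv`: `‖T1 g⁻¹‖ = ‖J (T1 g)† J‖ = ‖T1 g‖`.
`one_le_s0`: `s_0 s_{N-1} = 1`, `s_0 ≥ s_{N-1}`; `s1 ≥ 1`: `s_1 s_{N-2} = 1`. `s_le`: for `i ≥ 2`: `s_i ≤ s_2 = 1`.
`r_inj_fin`: `{g | s0 g ≤ C}` is finite (`D.fin`, antitone).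
-/

set_option autoImplicit false

open Matrix

namespace Pool.Agent.Helper20.TB

open Pool.Agent.Helper55.OB

theorem norm_op_orth {m : Type} [Fintype m] [DecidableEq m] {U : Matrix m m ℝ} (hU : Uᵀ * U = 1) (x : EuclideanSpace ℝ m) :
    ‖op U x‖ = ‖x‖ := by
  have h : ‖op U x‖ ^ 2 = ‖x‖ ^ 2 := by
    rw [← real_inner_self_eq_norm_sq, ← real_inner_self_eq_norm_sq,
      ← ContinuousLinearMap.adjoint_inner_left (op U) x (op U x), op_adj, ← op_mul, hU, op_one]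
  exact (pow_left_inj₀ (norm_nonneg _) (norm_nonneg _) two_ne_zero).mp h

section Svd

variable {m : Type} [Fintype m] [DecidableEq m]

private theorem h44_col (A : Matrix m m ℝ) (i : m) : col A i = op A (EuclideanSpace.single i 1) := by
  ext j
  rw [op_apply, Finset.sum_eq_single i]
  · simp [col]
  · intro b _ hb
    simp [hb]
  · intro h
    exact absurd (Finset.mem_univ _) h

private theorem h44_norm_col {U : Matrix m m ℝ} (hU : Uᵀ * U = 1) (i : m) : ‖col U i‖ = 1 := by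
  rw [h44_col, norm_op_orth hU]
  simp

private theorem h44_inner_col (U : Matrix m m ℝ) (i : m) (x : EuclideanSpace ℝ m) :
    inner ℝ (col U i) x = op Uᵀ x i := by
  rw [h44_col, ← ContinuousLinearMap.adjoint_inner_right, op_adj]
  simp [EuclideanSpace.inner_single_left]

private theorem h44_diag (s : m → ℝ) (x : EuclideanSpace ℝ m) (i : m) :
    op (diagonal s) x i = s i * x i := by
  rw [op_apply, Finset.sum_eq_single i]
  · simp
  · intro b _ hb
    rw [diagonal_apply_ne _ (Ne.symm hb), zero_mul]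
  · intro h
    exact absurd (Finset.mem_univ _) h

private theorem h44_svd (U V : Matrix m m ℝ) (s : m → ℝ) (hV : Vᵀ * V = 1) (i : m) :
    op (U * diagonal s * Vᵀ) (col V i) = s i • col U i := by
  rw [h44_col V, ← op_mul, mul_assoc (U * diagonal s), hV, mul_one, op_mul]
  have : op (diagonal s) (EuclideanSpace.single i (1 : ℝ)) = s i • EuclideanSpace.single i (1 : ℝ) := by
    ext j
    rw [h44_diag]
    by_cases hj : j = i
    · subst hj
      simp
    · simp [hj]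
  rw [this, map_smul, ← h44_col]

private theorem h44_svd_le {U V : Matrix m m ℝ} {s : m → ℝ} (hU : Uᵀ * U = 1) (hV : Vᵀ * V = 1)
    {c : ℝ} (hc : 0 ≤ c) {x : EuclideanSpace ℝ m}
    (h : ∀ i, (s i * inner ℝ (col V i) x) ^ 2 ≤ (c * inner ℝ (col V i) x) ^ 2) :
    ‖op (U * diagonal s * Vᵀ) x‖ ≤ c * ‖x‖ := by
  have hV' : (Vᵀ)ᵀ * Vᵀ = 1 := by
    rw [transpose_transpose]
    exact mul_eq_one_comm.mp hV
  rw [mul_assoc, op_mul, norm_op_orth hU, op_mul, ← norm_op_orth hV' x]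
  refine abs_le_of_sq_le_sq' ?_ (by positivity) |>.2
  rw [mul_pow, EuclideanSpace.norm_sq_eq, EuclideanSpace.norm_sq_eq, Finset.mul_sum]
  refine Finset.sum_le_sum fun i _ => ?_
  rw [h44_diag, ← h44_inner_col, Real.norm_eq_abs, Real.norm_eq_abs, sq_abs, sq_abs, ← mul_pow]
  exact h i

end Svd

namespace RD

variable {G : Type} [Group G] {N : ℕ} (D : RD G N)

theorem s0_pos (g : G) : 0 < D.s0 g := D.pos g _

theorem s1_pos (g : G) : 0 < D.s1 g := D.pos g _

theorem s1_le_s0 (g : G) : D.s1 g ≤ D.s0 g := D.anti g (Fin.le_def.2 (Nat.zero_le 1))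

theorem one_le_s1 (g : G) : 1 ≤ D.s1 g := by
  have h1 := D.inv g D.i1
  have h2 : D.s g D.i1.rev ≤ D.s g D.i1 := by
    apply D.anti g
    rw [Fin.le_def, Fin.val_rev]
    have := D.hN
    simp only [i1]
    omega
  have h3 := D.pos g D.i1
  have h4 := D.pos g D.i1.rev
  unfold s1
  nlinarith

theorem s_le_one (g : G) (i : Fin N) (hi : 2 ≤ (i : ℕ)) : D.s g i ≤ 1 := by
  by_cases h : (i : ℕ) + 3 ≤ N
  · exact (D.mid g i hi h).le
  · have h1 := D.inv g i
    have h2 : D.s g i ≤ D.s g i.rev := by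
      apply D.anti g
      rw [Fin.le_def, Fin.val_rev]
      have := D.hN
      omega
    have h3 := D.pos g i
    have h4 := D.pos g i.rev
    nlinarith

private theorem h44_s_le (g : G) (i : Fin N) : D.s g i ≤ D.s0 g :=
  D.anti g (Fin.le_def.2 (Nat.zero_le _))

theorem fin0 (C : ℝ) : {g | D.s0 g ≤ C}.Finite :=
  (D.fin C).subset fun g hg i => (D.h44_s_le g i).trans hg

theorem norm_vR (g : G) : ‖D.vR g‖ = 1 := h44_norm_col (D.oR g) _

theorem norm_vL (g : G) : ‖D.vL g‖ = 1 := h44_norm_col (D.oL g) _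

private theorem h44_T1_vR (g : G) : D.T1 g (D.vR g) = D.s0 g • D.vL g := by
  unfold T1
  rw [D.spec g]
  exact h44_svd _ _ _ (D.oR g) _

private theorem h44_specT (g : G) : (D.r g)ᵀ = D.kR g * diagonal (D.s g) * (D.kL g)ᵀ := by
  rw [D.spec g, transpose_mul, transpose_mul, transpose_transpose, diagonal_transpose, mul_assoc]

private theorem h44_T1a_vL (g : G) :
    ContinuousLinearMap.adjoint (D.T1 g) (D.vL g) = D.s0 g • D.vR g := by
  unfold T1
  rw [op_adj, D.h44_specT g]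
  exact h44_svd _ _ _ (D.oL g) _

private theorem h44_sq {a b t : ℝ} (ha : 0 < a) (hab : a ≤ b) : (a * t) ^ 2 ≤ (b * t) ^ 2 := by
  rw [mul_pow, mul_pow]
  gcongr

private theorem h44_bd0 (g : G) (x : EuclideanSpace ℝ (Fin N)) : ‖D.T1 g x‖ ≤ D.s0 g * ‖x‖ := by
  unfold T1
  rw [D.spec g]
  exact h44_svd_le (D.oL g) (D.oR g) (D.s0_pos g).le fun i => h44_sq (D.pos g i) (D.h44_s_le g i)

theorem norm_T1 (g : G) : ‖D.T1 g‖ = D.s0 g := by
  apply le_antisymm
  · exact ContinuousLinearMap.opNorm_le_bound _ (D.s0_pos g).le (D.h44_bd0 g)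
  · have h := (D.T1 g).le_opNorm (D.vR g)
    rw [D.h44_T1_vR, norm_smul, D.norm_vL, D.norm_vR, mul_one, mul_one, Real.norm_eq_abs,
      abs_of_pos (D.s0_pos g)] at h
    exact h

theorem ts1 (g : G) : TS (D.T1 g) (D.vL g) (D.vR g) where
  pos := by rw [D.norm_T1]; exact D.s0_pos g
  nu := D.norm_vL g
  nv := D.norm_vR g
  Tv := by rw [D.norm_T1]; exact D.h44_T1_vR g
  Tu := by rw [D.norm_T1]; exact D.h44_T1a_vL g

private theorem h44_s_le1 (g : G) (i : Fin N) (hi : i ≠ D.i0) : D.s g i ≤ D.s1 g := by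
  apply D.anti g
  rw [Fin.le_def]
  have : (i : ℕ) ≠ 0 := fun h => hi (Fin.ext h)
  simp only [i1]
  omega

theorem T1_le (g : G) {x : EuclideanSpace ℝ (Fin N)} (hx : inner ℝ (D.vR g) x = 0) : ‖D.T1 g x‖ ≤ D.s1 g * ‖x‖ := by
  unfold T1
  rw [D.spec g]
  refine h44_svd_le (D.oL g) (D.oR g) (D.s1_pos g).le fun i => ?_
  by_cases hi : i = D.i0
  · subst hi
    have hx' : inner ℝ (col (D.kR g) D.i0) x = 0 := hx
    rw [hx']
    simp
  · exact h44_sq (D.pos g i) (D.h44_s_le1 g i hi)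

theorem T1a_le (g : G) {x : EuclideanSpace ℝ (Fin N)} (hx : inner ℝ (D.vL g) x = 0) :
    ‖ContinuousLinearMap.adjoint (D.T1 g) x‖ ≤ D.s1 g * ‖x‖ := by
  unfold T1
  rw [op_adj, D.h44_specT g]
  refine h44_svd_le (D.oR g) (D.oL g) (D.s1_pos g).le fun i => ?_
  by_cases hi : i = D.i0
  · subst hi
    have hx' : inner ℝ (col (D.kL g) D.i0) x = 0 := hx
    rw [hx']
    simp
  · exact h44_sq (D.pos g i) (D.h44_s_le1 g i hi)

theorem iso1 (g : G) : inner ℝ (D.vR g) (op (JR N) (D.vR g)) = 0 := by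
  have h : inner ℝ (D.vR g) (op (JR N) (D.vR g)) =
      op ((D.kR g)ᵀ * JR N * D.kR g) (EuclideanSpace.single D.i0 1) D.i0 := by
    unfold vR
    rw [h44_inner_col, h44_col (D.kR g) D.i0, ← op_mul, ← op_mul, mul_assoc]
  rw [h, D.fR, ← h44_col]
  have hne : D.i0 ≠ jj N D.i0 := by
    intro h0
    have h1 := congrArg Fin.val h0
    have h2 : jj N D.i0 = D.i0.rev := by
      unfold jj
      rw [if_pos (Or.inl (by simp only [i0]; omega))]
    rw [h2, Fin.val_rev] at h1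
    have := D.hN
    simp only [i0] at h1
    omega
  simp only [col, JR, of_apply]
  rw [if_neg hne]

theorem form1 (g : G) (x : EuclideanSpace ℝ (Fin N)) :
    ContinuousLinearMap.adjoint (D.T1 g) (op (JR N) (D.T1 g x)) = op (JR N) x := by
  unfold T1
  rw [op_adj, ← op_mul, ← op_mul, D.form]

private theorem h44_linv (g : G) : (JR N * (D.r g)ᵀ * JR N) * D.r g = 1 := by
  rw [mul_assoc, mul_assoc, ← mul_assoc (D.r g)ᵀ, D.form, JR_mul]

private theorem h44_rinv (g : G) : D.r g * (JR N * (D.r g)ᵀ * JR N) = 1 :=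
  mul_eq_one_comm.mp (D.h44_linv g)

private theorem h44_form' (g : G) : D.r g * JR N * (D.r g)ᵀ = JR N := by
  have e : D.r g * (JR N * (D.r g)ᵀ * JR N) * JR N = D.r g * JR N * (D.r g)ᵀ := by
    simp only [mul_assoc, JR_mul, mul_one]
  rw [← e, D.h44_rinv, one_mul]

theorem form1' (g : G) (x : EuclideanSpace ℝ (Fin N)) :
    D.T1 g (op (JR N) (ContinuousLinearMap.adjoint (D.T1 g) x)) = op (JR N) x := by
  unfold T1
  rw [op_adj, ← op_mul, ← op_mul, D.h44_form']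

theorem mul1 (g h : G) : (∀ x, D.T1 (g * h) x = D.T1 g (D.T1 h x)) ∨ ∀ x, D.T1 (g * h) x = -D.T1 g (D.T1 h x) := by
  unfold T1
  rcases D.mul g h with h1 | h1
  · left
    intro x
    rw [h1, op_mul]
  · right
    intro x
    rw [h1, op_neg, op_mul]

private theorem h44_one : D.r 1 = 1 ∨ D.r 1 = -1 := by
  have hl := D.h44_linv 1
  rcases D.mul 1 1 with h | h
  · left
    rw [mul_one] at h
    have h2 : (JR N * (D.r 1)ᵀ * JR N) * D.r 1 = (JR N * (D.r 1)ᵀ * JR N) * (D.r 1 * D.r 1) :=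
      congrArg (fun X => (JR N * (D.r 1)ᵀ * JR N) * X) h
    rw [← mul_assoc (JR N * (D.r 1)ᵀ * JR N) (D.r 1) (D.r 1), hl, one_mul] at h2
    exact h2.symm
  · right
    rw [mul_one] at h
    have h2 : (JR N * (D.r 1)ᵀ * JR N) * D.r 1 = (JR N * (D.r 1)ᵀ * JR N) * -(D.r 1 * D.r 1) :=
      congrArg (fun X => (JR N * (D.r 1)ᵀ * JR N) * X) h
    rw [mul_neg, ← mul_assoc (JR N * (D.r 1)ᵀ * JR N) (D.r 1) (D.r 1), hl, one_mul] at h2
    rw [h2, neg_neg]

private theorem h44_inv (g : G) : D.r g⁻¹ = JR N * (D.r g)ᵀ * JR N ∨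
    D.r g⁻¹ = -(JR N * (D.r g)ᵀ * JR N) := by
  have h1 : D.r g⁻¹ * D.r g = 1 ∨ D.r g⁻¹ * D.r g = -1 := by
    have h := D.mul g⁻¹ g
    rw [inv_mul_cancel] at h
    rcases h with h | h <;> rcases D.h44_one with h' | h'
    · left; rw [← h, h']
    · right; rw [← h, h']
    · right
      rw [h'] at h
      rw [h, neg_neg]
    · left
      rw [h'] at h
      exact (neg_injective h).symm
  have h2 : D.r g⁻¹ = D.r g⁻¹ * D.r g * (JR N * (D.r g)ᵀ * JR N) := by
    rw [mul_assoc, D.h44_rinv, mul_one]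
  rcases h1 with h | h
  · left
    rw [h2, h, one_mul]
  · right
    rw [h2, h, neg_mul, one_mul]

theorem inv1 (g : G) : (∀ x, D.T1 g⁻¹ x = op (JR N) (ContinuousLinearMap.adjoint (D.T1 g) (op (JR N) x))) ∨
    ∀ x, D.T1 g⁻¹ x = -op (JR N) (ContinuousLinearMap.adjoint (D.T1 g) (op (JR N) x)) := by
  unfold T1
  rw [op_adj]
  rcases D.h44_inv g with h | h
  · left
    intro x
    rw [h, op_mul, op_mul]
  · right
    intro x
    rw [h, op_neg, op_mul, op_mul]

private theorem h44_s0_inv_le (g : G) : D.s0 g⁻¹ ≤ D.s0 g := by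
  rw [← D.norm_T1 g⁻¹]
  refine ContinuousLinearMap.opNorm_le_bound _ (D.s0_pos g).le fun x => ?_
  have hb : ‖op (JR N) (ContinuousLinearMap.adjoint (D.T1 g) (op (JR N) x))‖ ≤ D.s0 g * ‖x‖ := by
    rw [norm_JR]
    refine ((ContinuousLinearMap.adjoint (D.T1 g)).le_opNorm _).trans ?_
    rw [norm_JR, LinearIsometryEquiv.norm_map, D.norm_T1]
  rcases D.inv1 g with h | h
  · rw [h]
    exact hb
  · rw [h, norm_neg]
    exact hb

theorem s0_inv (g : G) : D.s0 g⁻¹ = D.s0 g := by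
  apply le_antisymm (D.h44_s0_inv_le g)
  have h := D.h44_s0_inv_le g⁻¹
  rw [inv_inv] at h
  exact h

theorem s0_mul_le (g h : G) : D.s0 (g * h) ≤ D.s0 g * D.s0 h := by
  rw [← D.norm_T1 (g * h)]
  refine ContinuousLinearMap.opNorm_le_bound _
    (mul_pos (D.s0_pos g) (D.s0_pos h)).le fun x => ?_
  have hb : ‖D.T1 g (D.T1 h x)‖ ≤ D.s0 g * D.s0 h * ‖x‖ := by
    refine (D.h44_bd0 g _).trans ?_
    rw [mul_assoc]
    exact mul_le_mul_of_nonneg_left (D.h44_bd0 h x) (D.s0_pos g).le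
  rcases D.mul1 g h with e | e
  · rw [e]
    exact hb
  · rw [e, norm_neg]
    exact hb

end RD

end Pool.Agent.Helper20.TB
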