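import Pool.Agent.Helper20.TB.Defs
import Pool.Agent.Helper20.TB.Core

/-!
# Project OB (MP_0f6f3f_an), layer TB, block TB-B1: smooth functions of products of matrices

`fl2 A B`: the pair of matrices as a vector. PROOFS. `bn_pair`: `bn_schwartz` (`Core.lean`; `bq B x y = toLp 2 fun k => ∑ i, x i * ∑ j, B k i j * y j`) with `m = n = p = (m1 × m1) ⊕ (m2 × m2)`, `B k i j = A²` if `k = inl (a, b)`, `i = inl (a, c)`, `j = inl (c, b)` for some `a, b, c` (or the same with `inr`), `0` otherwise;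
`x g = A⁻¹ (entries of x1 g, x2 g)`, `y r = A⁻¹ (entries of y1 r, y2 r)` (`|..| ≤ 1`): `bq B (x g) (y r) = fl2 (x1 g * y1 r) (x2 g * y2 r)`.
-/

set_option autoImplicit false

open MeasureTheory Filter Topology
open scoped SchwartzMap ContDiff

namespace Pool.Agent.Helper20.TB

section Pair

variable {m1 m2 : Type} [Fintype m1] [DecidableEq m1] [Fintype m2] [DecidableEq m2]

/-- A pair of matrices as a vector. -/
noncomputable def fl2 (A : Matrix m1 m1 ℝ) (B : Matrix m2 m2 ℝ) : EuclideanSpace ℝ ((m1 × m1) ⊕ (m2 × m2)) :=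
  WithLp.toLp 2 (Sum.elim (fun p => A p.1 p.2) fun p => B p.1 p.2)

private def cB32 (A : ℝ) : ((m1 × m1) ⊕ (m2 × m2)) → ((m1 × m1) ⊕ (m2 × m2)) → ((m1 × m1) ⊕ (m2 × m2)) → ℝ
  | .inl p, .inl i, .inl j => if i.1 = p.1 then (if j.1 = i.2 then (if j.2 = p.2 then A ^ 2 else 0) else 0) else 0
  | .inr p, .inr i, .inr j => if i.1 = p.1 then (if j.1 = i.2 then (if j.2 = p.2 then A ^ 2 else 0) else 0) else 0
  | _, _, _ => 0

private theorem bq_eq32 {A : ℝ} (hA : 0 < A) (x1 y1 : Matrix m1 m1 ℝ) (x2 y2 : Matrix m2 m2 ℝ) :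
    bq (cB32 (m1 := m1) (m2 := m2) A) (Sum.elim (fun p => A⁻¹ * x1 p.1 p.2) fun p => A⁻¹ * x2 p.1 p.2)
      (Sum.elim (fun p => A⁻¹ * y1 p.1 p.2) fun p => A⁻¹ * y2 p.1 p.2) = fl2 (x1 * y1) (x2 * y2) := by
  unfold bq fl2
  congr 1
  funext k
  have hA2 : ∀ s t : ℝ, A⁻¹ * s * (A ^ 2 * (A⁻¹ * t)) = s * t := by
    intro s t
    field_simp
  rcases k with ⟨a, b⟩ | ⟨a, b⟩
  · simp only [Fintype.sum_sum_type, Fintype.sum_prod_type, cB32, Sum.elim_inl, Sum.elim_inr, zero_mul, Finset.sum_const_zero, mul_zero,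
      add_zero, ite_mul, Finset.sum_ite_eq', Finset.sum_ite_eq, Finset.mem_univ, if_true, Matrix.mul_apply, Finset.sum_ite_irrel,
      mul_ite, hA2]
  · simp only [Fintype.sum_sum_type, Fintype.sum_prod_type, cB32, Sum.elim_inl, Sum.elim_inr, zero_mul, Finset.sum_const_zero, mul_zero,
      zero_add, add_zero, ite_mul, Finset.sum_ite_eq', Finset.sum_ite_eq, Finset.mem_univ, if_true, Matrix.mul_apply, Finset.sum_ite_irrel,
      mul_ite, hA2]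

theorem bn_pair (Ψ : 𝓢(EuclideanSpace ℝ ((m1 × m1) ⊕ (m2 × m2)), ℂ)) {A : ℝ} (hA : 0 < A) : ∃ C : ℝ, ∀ (G : Type) [Group G]
    (x1 y1 : G → Matrix m1 m1 ℝ) (x2 y2 : G → Matrix m2 m2 ℝ), (∀ g i j, |x1 g i j| ≤ A) → (∀ g i j, |x2 g i j| ≤ A) →
      (∀ g i j, |y1 g i j| ≤ A) → (∀ g i j, |y2 g i j| ≤ A) →
      BN (fun g r => Ψ (fl2 (x1 g * y1 r) (x2 g * y2 r))) C := by
  obtain ⟨C, hC⟩ := bn_schwartz (cB32 (m1 := m1) (m2 := m2) A) Ψ
  refine ⟨C, fun G _ x1 y1 x2 y2 hx1 hx2 hy1 hy2 => ?_⟩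
  have hle : ∀ t : ℝ, |t| ≤ A → |A⁻¹ * t| ≤ 1 := by
    intro t ht
    rw [abs_mul, abs_of_pos (inv_pos.mpr hA), inv_mul_le_iff₀ hA, mul_one]
    exact ht
  have h := hC G (fun g => Sum.elim (fun p => A⁻¹ * x1 g p.1 p.2) fun p => A⁻¹ * x2 g p.1 p.2)
    (fun r => Sum.elim (fun p => A⁻¹ * y1 r p.1 p.2) fun p => A⁻¹ * y2 r p.1 p.2) ?_ ?_
  · simp only [bq_eq32 hA] at h
    exact h
  · rintro g (i | i)
    · exact hle _ (hx1 g _ _)
    · exact hle _ (hx2 g _ _)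
  · rintro g (i | i)
    · exact hle _ (hy1 g _ _)
    · exact hle _ (hy2 g _ _)

end Pair

end Pool.Agent.Helper20.TB
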