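import Pool.Agent.Helper20.TB.Rd2

/-!
# Project OB (MP_0f6f3f_an), layer TB, block TB-G2: the strata in terms of the first two singular values

`lg S γ i = log (s_i / s_{i+1})` for `i + 1 < N`, `0` for the last index (`Helper96/RK/Ty1.lean`: `gp`, `lg`, `one_le_gp`, `lg_nonneg`, `gp_eq_exp`), `WC S J n = {γ | ∀ i ∈ J, lg S γ i ≤ n}`, `TC S [J] m = {γ | ∀ j ∉ J, m (1 + ∑_{i ∈ J} lg S γ i) ≤ lg S γ j}` (`Ty2.lean`). With `s_i s_{N-1-i} = 1`, `s_i = 1` for `2 ≤ i ≤ N - 3` (`D.inv`, `D.mid`, `RS.s`), `N ≥ 5`: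
`lg 0 = lg (N-2) = log (s0 / s1)`, `lg 1 = lg (N-3) = log s1`, all the other gaps are `0`. `K1 N = {i | i ≠ 0, i ≠ N-2}`, `K2 N = {i | i ≠ 1, i ≠ N-3}`. So `∑_{i ∈ K1} lg = 2 log s1` (bounded by `N k` if all are at most `k`), `∑_{i ∈ K2} lg = 2 log (s0 / s1)`.
-/

set_option autoImplicit false

open Matrix

namespace Pool.Agent.Helper20.TB

open Pool.Agent.Helper55.OB Pool.Agent.Helper90.RK
open Pool.Agent.Helper96.RK hiding toReg

variable {G : Type} [Group G] {N : ℕ} {P : PH G N} {S : Sv P} {D : RD G N}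

private theorem RS.gp_eq (h : RS D S) (γ : G) (i : Fin N) :
    gp S γ i = if (i : ℕ) = 0 ∨ (i : ℕ) + 2 = N then D.s0 γ / D.s1 γ
      else if (i : ℕ) = 1 ∨ (i : ℕ) + 3 = N then D.s1 γ else 1 := by
  have hN := D.hN
  have p0 : 0 < D.s0 γ := D.pos γ _
  have p1 : 0 < D.s1 γ := D.pos γ _
  -- the last two singular values
  have e1 : ∀ (a : ℕ) (ha : a < N), a + 1 = N → D.s γ ⟨a, ha⟩ = (D.s0 γ)⁻¹ := by
    intro a ha h1
    have h2 := D.inv γ (D.i0)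
    have h3 : (D.i0).rev = ⟨a, ha⟩ := by
      apply Fin.ext
      rw [Fin.val_rev]
      change N - (0 + 1) = a
      omega
    rw [h3] at h2
    change D.s0 γ * _ = 1 at h2
    exact eq_inv_of_mul_eq_one_right h2
  have e2 : ∀ (a : ℕ) (ha : a < N), a + 2 = N → D.s γ ⟨a, ha⟩ = (D.s1 γ)⁻¹ := by
    intro a ha h1
    have h2 := D.inv γ (D.i1)
    have h3 : (D.i1).rev = ⟨a, ha⟩ := by
      apply Fin.ext
      rw [Fin.val_rev]
      change N - (1 + 1) = a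
      omega
    rw [h3] at h2
    change D.s1 γ * _ = 1 at h2
    exact eq_inv_of_mul_eq_one_right h2
  obtain ⟨i, hi⟩ := i
  unfold gp
  simp only
  by_cases hl : i + 1 < N
  · rw [dif_pos hl, ← h.s, ← h.s]
    by_cases c0 : i = 0
    · subst c0
      rw [if_pos (Or.inl rfl)]
      rfl
    · by_cases c1 : i + 2 = N
      · rw [if_pos (Or.inr c1), e2 i hi c1, e1 (i + 1) hl (by omega)]
        field_simp
      · rw [if_neg (by omega)]
        by_cases c2 : i = 1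
        · subst c2
          rw [if_pos (Or.inl rfl), D.mid γ ⟨1 + 1, hl⟩ (by simp) (by simp only; omega), div_one]
          rfl
        · by_cases c3 : i + 3 = N
          · rw [if_pos (Or.inr c3), D.mid γ ⟨i, hi⟩ (by simp only; omega) (by simp only; omega), e2 (i + 1) hl (by omega)]
            simp
          · rw [if_neg (by omega), D.mid γ ⟨i, hi⟩ (by simp only; omega) (by simp only; omega),
              D.mid γ ⟨i + 1, hl⟩ (by simp only; omega) (by simp only; omega), div_one]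
  · rw [dif_neg hl, if_neg (by omega), if_neg (by omega)]

private theorem RS.lg_eq (h : RS D S) (γ : G) (i : Fin N) :
    lg S γ i = if (i : ℕ) = 0 ∨ (i : ℕ) + 2 = N then Real.log (D.s0 γ / D.s1 γ)
      else if (i : ℕ) = 1 ∨ (i : ℕ) + 3 = N then Real.log (D.s1 γ) else 0 := by
  unfold lg
  rw [h.gp_eq]
  split_ifs <;> simp

private theorem RS.lg_a (h : RS D S) (γ : G) {i : Fin N} (hi : (i : ℕ) = 0 ∨ (i : ℕ) + 2 = N) :
    lg S γ i = Real.log (D.s0 γ / D.s1 γ) := by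
  rw [h.lg_eq, if_pos hi]

private theorem RS.lg_b (h : RS D S) (γ : G) {i : Fin N} (hi : (i : ℕ) = 1 ∨ (i : ℕ) + 3 = N) :
    lg S γ i = Real.log (D.s1 γ) := by
  have hN := D.hN
  rw [h.lg_eq, if_neg (by omega), if_pos hi]

private theorem RS.lg_c (h : RS D S) (γ : G) {i : Fin N} (h1 : ¬ ((i : ℕ) = 0 ∨ (i : ℕ) + 2 = N))
    (h2 : ¬ ((i : ℕ) = 1 ∨ (i : ℕ) + 3 = N)) : lg S γ i = 0 := by
  rw [h.lg_eq, if_neg h1, if_neg h2]

private theorem s0_pos (D : RD G N) (γ : G) : 0 < D.s0 γ := D.pos γ _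

private theorem s1_pos (D : RD G N) (γ : G) : 0 < D.s1 γ := D.pos γ _

private theorem lr_le (D : RD G N) (γ : G) (k : ℝ) : Real.log (D.s0 γ / D.s1 γ) ≤ k ↔ D.s0 γ ≤ Real.exp k * D.s1 γ := by
  rw [Real.log_le_iff_le_exp (div_pos (s0_pos D γ) (s1_pos D γ)), div_le_iff₀ (s1_pos D γ)]

private theorem le_lr (D : RD G N) (γ : G) (k : ℝ) : k ≤ Real.log (D.s0 γ / D.s1 γ) ↔ Real.exp k * D.s1 γ ≤ D.s0 γ := by
  rw [Real.le_log_iff_exp_le (div_pos (s0_pos D γ) (s1_pos D γ)), le_div_iff₀ (s1_pos D γ)]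

theorem RS.mem_WC1 (h : RS D S) {k : ℕ} {γ : G} : γ ∈ WC S (K1 N) k ↔ D.s1 γ ≤ Real.exp k := by
  have hN := D.hN
  unfold WC K1
  simp only [Set.mem_ofPred_eq, Finset.mem_filter, Finset.mem_univ, true_and]
  constructor
  · intro hw
    have h1 := hw D.i1 ⟨by change (1 : ℕ) ≠ 0; omega, by change (1 : ℕ) + 2 ≠ N; omega⟩
    rw [h.lg_b γ (Or.inl rfl)] at h1
    exact (Real.log_le_iff_le_exp (s1_pos D γ)).1 h1
  · rintro hs i ⟨a, b⟩
    by_cases c : (i : ℕ) = 1 ∨ (i : ℕ) + 3 = N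
    · rw [h.lg_b γ c]
      exact (Real.log_le_iff_le_exp (s1_pos D γ)).2 hs
    · rw [h.lg_c γ (by omega) c]
      exact Nat.cast_nonneg k

theorem RS.mem_WC2 (h : RS D S) {k : ℕ} {γ : G} : γ ∈ WC S (K2 N) k ↔ D.s0 γ ≤ Real.exp k * D.s1 γ := by
  have hN := D.hN
  unfold WC K2
  simp only [Set.mem_ofPred_eq, Finset.mem_filter, Finset.mem_univ, true_and]
  constructor
  · intro hw
    have h1 := hw D.i0 ⟨by change (0 : ℕ) ≠ 1; omega, by change (0 : ℕ) + 3 ≠ N; omega⟩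
    rw [h.lg_a γ (Or.inl rfl)] at h1
    exact (lr_le D γ k).1 h1
  · rintro hs i ⟨a, b⟩
    by_cases c : (i : ℕ) = 0 ∨ (i : ℕ) + 2 = N
    · rw [h.lg_a γ c]
      exact (lr_le D γ k).2 hs
    · rw [h.lg_c γ c (by omega)]
      exact Nat.cast_nonneg k

private theorem sum_lg_le {J : Finset (Fin N)} {γ : G} {k : ℕ} (hk : ∀ i ∈ J, lg S γ i ≤ k) :
    ∑ i ∈ J, lg S γ i ≤ N * k := by
  calc ∑ i ∈ J, lg S γ i ≤ ∑ i ∈ J, (k : ℝ) := Finset.sum_le_sum hk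
    _ = J.card * k := by rw [Finset.sum_const, nsmul_eq_mul]
    _ ≤ N * k := by
        have h1 : J.card ≤ N := by
          have := J.card_le_univ
          rwa [Fintype.card_fin] at this
        have h2 : (J.card : ℝ) ≤ N := by exact_mod_cast h1
        exact mul_le_mul_of_nonneg_right h2 (Nat.cast_nonneg k)

private theorem m_le {J : Finset (Fin N)} {γ : G} (m : ℕ) : (m : ℝ) ≤ m * (1 + ∑ i ∈ J, lg S γ i) := by
  have h1 : 0 ≤ ∑ i ∈ J, lg S γ i := Finset.sum_nonneg fun i _ => lg_nonneg S γ i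
  have h2 : (0 : ℝ) ≤ m := Nat.cast_nonneg m
  nlinarith

private theorem mem_TC_single {J : Finset (Fin N)} {m : ℕ} {γ : G} :
    γ ∈ TC S [J] m ↔ ∀ j, j ∉ J → (m : ℝ) * (1 + ∑ i ∈ J, lg S γ i) ≤ lg S γ j := by
  unfold Helper96.RK.TC
  simp only [List.mem_singleton, Set.mem_ofPred_eq]
  exact ⟨fun h j hj => h J rfl j hj, fun h I hI j hj => by subst hI; exact h j hj⟩

theorem RS.TC1 (h : RS D S) (k m : ℕ) : ∃ L : ℝ, ∀ γ, D.s1 γ ≤ Real.exp k → L ≤ D.s0 γ → γ ∈ TC S [K1 N] m := by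
  refine ⟨Real.exp (m * (1 + N * k)) * Real.exp k, fun γ hs hL => ?_⟩
  rw [mem_TC_single]
  intro j hj
  have hj' : (j : ℕ) = 0 ∨ (j : ℕ) + 2 = N := by
    unfold K1 at hj
    simp only [Finset.mem_filter, Finset.mem_univ, true_and] at hj
    omega
  rw [h.lg_a γ hj']
  have h1 : ∑ i ∈ K1 N, lg S γ i ≤ N * k := sum_lg_le (h.mem_WC1.2 hs)
  have h2 : (m : ℝ) * (1 + ∑ i ∈ K1 N, lg S γ i) ≤ m * (1 + N * k) :=
    mul_le_mul_of_nonneg_left (by linarith) (Nat.cast_nonneg m)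
  refine h2.trans ?_
  rw [le_lr]
  exact (mul_le_mul_of_nonneg_left hs (Real.exp_pos _).le).trans hL

theorem RS.TC1' (h : RS D S) {m : ℕ} {γ : G} (hγ : γ ∈ TC S [K1 N] m) : Real.exp m * D.s1 γ ≤ D.s0 γ := by
  rw [mem_TC_single] at hγ
  have h1 := hγ D.i0 (by
    unfold K1
    simp only [Finset.mem_filter, Finset.mem_univ, true_and]
    exact fun h => h.1 rfl)
  rw [h.lg_a γ (Or.inl rfl)] at h1
  exact (le_lr D γ m).1 ((m_le m).trans h1)

theorem RS.TC2 (h : RS D S) (k m : ℕ) : ∃ L : ℝ, ∀ γ, D.s0 γ ≤ Real.exp k * D.s1 γ → L ≤ D.s1 γ → γ ∈ TC S [K2 N] m := by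
  refine ⟨Real.exp (m * (1 + N * k)), fun γ hs hL => ?_⟩
  rw [mem_TC_single]
  intro j hj
  have hj' : (j : ℕ) = 1 ∨ (j : ℕ) + 3 = N := by
    unfold K2 at hj
    simp only [Finset.mem_filter, Finset.mem_univ, true_and] at hj
    omega
  rw [h.lg_b γ hj']
  have h1 : ∑ i ∈ K2 N, lg S γ i ≤ N * k := sum_lg_le (h.mem_WC2.2 hs)
  have h2 : (m : ℝ) * (1 + ∑ i ∈ K2 N, lg S γ i) ≤ m * (1 + N * k) :=
    mul_le_mul_of_nonneg_left (by linarith) (Nat.cast_nonneg m)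
  refine h2.trans ?_
  rw [Real.le_log_iff_exp_le (s1_pos D γ)]
  exact hL

theorem RS.TC2' (h : RS D S) {m : ℕ} {γ : G} (hγ : γ ∈ TC S [K2 N] m) : Real.exp m ≤ D.s1 γ := by
  rw [mem_TC_single] at hγ
  have h1 := hγ D.i1 (by
    unfold K2
    simp only [Finset.mem_filter, Finset.mem_univ, true_and]
    exact fun h => h.1 rfl)
  rw [h.lg_b γ (Or.inl rfl)] at h1
  exact (Real.le_log_iff_exp_le (s1_pos D γ)).1 ((m_le m).trans h1)

theorem RS.WC1_sub (h : RS D S) {k : ℕ} {γ : G} (hγ : D.s1 γ ≤ Real.exp k) : ∃ i : Fin N, (i : ℕ) < 2 ∧ lg S γ i ≤ k := by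
  refine ⟨D.i1, by change (1 : ℕ) < 2; omega, ?_⟩
  rw [h.lg_b γ (Or.inl rfl)]
  exact (Real.log_le_iff_le_exp (s1_pos D γ)).2 hγ

theorem RS.WC2_sub (h : RS D S) {k : ℕ} {γ : G} (hγ : D.s0 γ ≤ Real.exp k * D.s1 γ) :
    ∃ i : Fin N, (i : ℕ) < 2 ∧ lg S γ i ≤ k := by
  refine ⟨D.i0, by change (0 : ℕ) < 2; omega, ?_⟩
  rw [h.lg_a γ (Or.inl rfl)]
  exact (lr_le D γ k).2 hγ

end Pool.Agent.Helper20.TB
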