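import Pool.Agent.Helper20.TB.Star2a

/-!
# Project OB (MP_0f6f3f_an), layer TB, block TB-S3: the estimate at the second node, second part (steps (3), (4), (5): `star2_n`, `star2`; (1), (2) are `star2_a`, `star2_d` in Star2a.lean)

NOTATION. `R = T1 r` on `V = EuclideanSpace ℝ (Fin N)`, `J = op (JR N)`, `a0 = vR g`, `a1 = a1 g`, `b0 = vR h`, `b1 = a1 h` (right singular vectors, orthonormal pairs, isotropic: `iso1`, `iso01`, `iso11`), `lam = ‖T2 (g r)‖ / ‖T2 g‖`, `mu = ‖T2 (h r)‖ / ‖T2 h‖`, `‖T2 g‖ = s0 g s1 g` (`norm_T2`), near the wall: `s0 ≤ K s1` for `g, h, g r, h r`.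
(1) `R† a_i = ± s_i(g)⁻¹ (T1 (g r))† (vL g or c1 g)` (`T1_adj_vL`, `T1_adj_c1`, `mul1`), so `‖R† a_i‖ ≤ s0(g r) / s1(g) ≤ K √lam` (`s0 s1 (g r) ≥ s0(g r)² / K`, `s0 s1 (g) ≤ K s1(g)²`). In the same way `‖R† b_i‖ ≤ K √mu`.
(2) If `d` is `J`-orthogonal to `a0, a1, b0, b1` then `‖R† d‖ ≤ (12 / κ) ‖d‖`: `y = R† d` is `J`-orthogonal to `R† a_i`, `R† b_i` (`⟪R† d, J R† a⟫ = ⟪d, R J R† a⟫ = ⟪d, J a⟫`: `form1'`), these pairs are isotropic, `dfn` with `c = κ / 2` (`two_JR`): the hypothesis `hop` is `pq` for `p = T2(r)† oR2 g = √2 wd (R† a0) (R† a1)` (`op_r2_wd`, `op_adj`, `r2_transpose`), `‖p‖² = ‖R†a0‖² ‖R†a1‖² - ⟪..⟫²` (`norm_wd_sq`), `⟪p, JK p'⟫ = det ⟪R† a_i, J R† b_j⟫` (`JK_wd`, `inner_wd`);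
`p, p' ≠ 0` by `p1`, `q1`. So `‖y‖² ≤ (1 + 128 / κ²) ⟪y, J y⟫ = (..) ⟪d, J d⟫ ≤ (129 / κ²) ‖d‖²`.
(3) `s0 r = ‖R†‖ ≤ M (1 + √lam + √mu)`: decompose `x` by `dec2` (`hop` there: `k0` and `det_o2`). 
(4) For unit vectors `x, y` decompose `x = a + b + d`, `y = a' + b' + d'` (`a, a' ∈ span(a0, a1)`, ...). `⟪wd x y, JK (oR2 h)⟫ = √2 ⟪wd x y, wd (J b0) (J b1)⟫` only sees `wd a a'` (`⟪b, J b_j⟫ = 0`, `⟪d, J b_j⟫ = 0`), `wd a a' = (α0 α1' - α1 α0') wd a0 a1 = t • oR2 g`, so `⟪wd x y, JK oR2 h⟫ / ⟪oR2 g, JK oR2 h⟫ = t` and `T2(r)† (wd a a') = t p`. So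
`T2(r)† (wd x y) - t p = wd (R†x) (R†y) - wd (R†a) (R†a')` is the sum of the 8 other terms, each at most `‖R†·‖ ‖R†·‖ ≤ M' (√lam + √mu + 1)(√mu + 1)` (one factor is from `b, d, b', d'`).
(5) General `X`: `T2(r)† X = op (r2 (D.r r)ᵀ) X = ∑_p X p • wd (R† e_p.1) (R† e_p.2)` (`wd_repr`), `⟪X', JK oR2 h⟫` the same with `A = 1` (`oR2 h` is in the range of `op (r2 1)`; or: `⟪X, JK oR2 h⟫ = ⟪op (r2 1) X, JK oR2 h⟫`); `∑_p |X p| ≤ N ‖X‖`.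
-/

set_option autoImplicit false

open Matrix

namespace Pool.Agent.Helper20.TB

open Pool.Agent.Helper55.OB

namespace RD

variable {G : Type} [Group G] {N : ℕ} (D : RD G N)

private theorem cdec11 {v v' : EuclideanSpace ℝ (Fin N × Fin N)} {η κ K : ℝ} {g h r : G} (hκ : 0 < κ) (hκ1 : κ ≤ 1) (hK : 1 ≤ K)
    (H : D.H2 v v' η κ K g h r) (x : EuclideanSpace ℝ (Fin N)) :
    ∃ (α0 α1 : ℝ) (A B : EuclideanSpace ℝ (Fin N)), ContinuousLinearMap.adjoint (D.T1 r) x = A + B ∧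
      A = α0 • ContinuousLinearMap.adjoint (D.T1 r) (D.vR g) + α1 • ContinuousLinearMap.adjoint (D.T1 r) (D.a1 g) ∧
      ‖A‖ ≤ (8 * K / κ + 204 / κ ^ 2) * √(‖D.T2 (g * r)‖ / ‖D.T2 g‖) * ‖x‖ ∧
      ‖B‖ ≤ (8 * K / κ + 204 / κ ^ 2) * (1 + √(‖D.T2 (h * r)‖ / ‖D.T2 h‖)) * ‖x‖ ∧
      inner ℝ x (op (JR N) (D.vR h)) = α0 * inner ℝ (D.vR g) (op (JR N) (D.vR h)) + α1 * inner ℝ (D.a1 g) (op (JR N) (D.vR h)) ∧
      inner ℝ x (op (JR N) (D.a1 h)) = α0 * inner ℝ (D.vR g) (op (JR N) (D.a1 h)) + α1 * inner ℝ (D.a1 g) (op (JR N) (D.a1 h)) := by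
  have hc := partI H.cf
  have hk := hc.k0
  rw [D.det_o2 g h] at hk
  obtain ⟨α0, α1, β0, β1, d, hx, d0, d1, d2, d3, n0, n1, m0, m1, nd⟩ := dec2 (J := op (JR N)) (fun x => norm_JR x) (fun x y => inner_JR x y) hκ hκ1
    (D.norm_vR g) (D.norm_a1 g) (D.norm_vR h) (D.norm_a1 h) (D.iso1 g) (D.iso01 g) (D.iso11 g) (D.iso1 h) (D.iso01 h) (D.iso11 h) hk x
  obtain ⟨ea0, ea1, eb0, eb1⟩ := D.star2_a hK H
  have ed := D.star2_d hK H d0 d1 d2 d3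
  obtain ⟨L, hL⟩ : ∃ L : ℝ, L = √(‖D.T2 (g * r)‖ / ‖D.T2 g‖) := ⟨_, rfl⟩
  obtain ⟨U, hU⟩ : ∃ U : ℝ, U = √(‖D.T2 (h * r)‖ / ‖D.T2 h‖) := ⟨_, rfl⟩
  rw [← hL] at ea0 ea1
  rw [← hU] at eb0 eb1
  rw [← hL, ← hU]
  have hL0 : 0 ≤ L := hL ▸ Real.sqrt_nonneg _
  have hU0 : 0 ≤ U := hU ▸ Real.sqrt_nonneg _
  have hK0 : 0 < K := by linarith
  have hx0 : 0 ≤ ‖x‖ := norm_nonneg x
  have sm : ∀ (c t : ℝ) (w : EuclideanSpace ℝ (Fin N)), |c| ≤ 4 / κ * ‖x‖ → ‖w‖ ≤ K * t → ‖c • w‖ ≤ 4 * K / κ * t * ‖x‖ := by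
    intro c t w h1 h2
    rw [norm_smul, Real.norm_eq_abs]
    calc |c| * ‖w‖ ≤ (4 / κ * ‖x‖) * (K * t) := mul_le_mul h1 h2 (norm_nonneg _) (by positivity)
      _ = 4 * K / κ * t * ‖x‖ := by ring
  have hsw : inner ℝ (D.a1 h) (op (JR N) (D.vR h)) = (0 : ℝ) := by
    rw [real_inner_comm, inner_JR, D.iso01 h]
  refine ⟨α0, α1, α0 • ContinuousLinearMap.adjoint (D.T1 r) (D.vR g) + α1 • ContinuousLinearMap.adjoint (D.T1 r) (D.a1 g),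
    β0 • ContinuousLinearMap.adjoint (D.T1 r) (D.vR h) + β1 • ContinuousLinearMap.adjoint (D.T1 r) (D.a1 h) +
      ContinuousLinearMap.adjoint (D.T1 r) d, ?_, rfl, ?_, ?_, ?_, ?_⟩
  · conv_lhs => rw [hx]
    simp only [map_add, map_smul]
    abel
  · have h1 := sm α0 L _ n0 ea0
    have h2 := sm α1 L _ n1 ea1
    have h3 := norm_add_le (α0 • ContinuousLinearMap.adjoint (D.T1 r) (D.vR g)) (α1 • ContinuousLinearMap.adjoint (D.T1 r) (D.a1 g))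
    have h4 : 0 ≤ 204 / κ ^ 2 * L * ‖x‖ := by positivity
    have h5 : (8 * K / κ + 204 / κ ^ 2) * L * ‖x‖ = 4 * K / κ * L * ‖x‖ + 4 * K / κ * L * ‖x‖ + 204 / κ ^ 2 * L * ‖x‖ := by ring
    rw [h5]
    linarith
  · have h1 := sm β0 U _ m0 eb0
    have h2 := sm β1 U _ m1 eb1
    have h3 := norm_add_le (β0 • ContinuousLinearMap.adjoint (D.T1 r) (D.vR h)) (β1 • ContinuousLinearMap.adjoint (D.T1 r) (D.a1 h))
    have h3' := norm_add_le (β0 • ContinuousLinearMap.adjoint (D.T1 r) (D.vR h) + β1 • ContinuousLinearMap.adjoint (D.T1 r) (D.a1 h))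
      (ContinuousLinearMap.adjoint (D.T1 r) d)
    have h6 : ‖ContinuousLinearMap.adjoint (D.T1 r) d‖ ≤ 204 / κ ^ 2 * ‖x‖ := by
      refine ed.trans ?_
      calc 12 / κ * ‖d‖ ≤ 12 / κ * (17 / κ * ‖x‖) := mul_le_mul_of_nonneg_left nd (by positivity)
        _ = 204 / κ ^ 2 * ‖x‖ := by
          field_simp
          ring
    have h4 : 0 ≤ 204 / κ ^ 2 * U * ‖x‖ + 8 * K / κ * ‖x‖ := by positivity
    have h5 : (8 * K / κ + 204 / κ ^ 2) * (1 + U) * ‖x‖ = 4 * K / κ * U * ‖x‖ + 4 * K / κ * U * ‖x‖ + 204 / κ ^ 2 * ‖x‖ +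
        (204 / κ ^ 2 * U * ‖x‖ + 8 * K / κ * ‖x‖) := by ring
    rw [h5]
    linarith
  · conv_lhs => rw [hx]
    simp only [inner_add_left, real_inner_smul_left]
    rw [D.iso1 h, hsw, d2]
    ring
  · conv_lhs => rw [hx]
    simp only [inner_add_left, real_inner_smul_left]
    rw [D.iso01 h, D.iso11 h, d3]
    ring

private theorem adj_wd11 (r : G) (x y : EuclideanSpace ℝ (Fin N)) : ContinuousLinearMap.adjoint (D.T2 r) (wd x y) =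
    wd (ContinuousLinearMap.adjoint (D.T1 r) x) (ContinuousLinearMap.adjoint (D.T1 r) y) := by
  unfold T2 T1
  rw [op_adj, op_adj, ← r2_transpose, op_r2_wd]

private theorem adj_sum11 (r : G) (X : EuclideanSpace ℝ (Fin N × Fin N)) : ContinuousLinearMap.adjoint (D.T2 r) X =
    ∑ p : Fin N × Fin N, X p • wd (ContinuousLinearMap.adjoint (D.T1 r) (EuclideanSpace.single p.1 1))
      (ContinuousLinearMap.adjoint (D.T1 r) (EuclideanSpace.single p.2 1)) := by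
  unfold T2 T1
  rw [op_adj, op_adj, ← r2_transpose, wd_repr]

private theorem single_inner11 (i : Fin N) (c : EuclideanSpace ℝ (Fin N)) : inner ℝ (EuclideanSpace.single i (1 : ℝ)) c = c i := by
  rw [EuclideanSpace.inner_single_left]
  simp

private theorem inner_sum11 (X : EuclideanSpace ℝ (Fin N × Fin N)) (c c' : EuclideanSpace ℝ (Fin N)) :
    inner ℝ X (wd c c') = ∑ p : Fin N × Fin N, X p * inner ℝ (wd (EuclideanSpace.single p.1 1) (EuclideanSpace.single p.2 1)) (wd c c') := by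
  rw [PiLp.inner_apply]
  refine Finset.sum_congr rfl fun p _ => ?_
  rw [inner_wd, single_inner11, single_inner11, single_inner11, single_inner11]
  have h1 : wd c c' p = (c p.1 * c' p.2 - c p.2 * c' p.1) / 2 := rfl
  rw [h1]
  simp only [RCLike.inner_apply, conj_trivial]
  ring

/-- The estimate for `wd x y`. -/
private theorem star2_w11 {v v' : EuclideanSpace ℝ (Fin N × Fin N)} {η κ K : ℝ} {g h r : G} (hκ : 0 < κ) (hκ1 : κ ≤ 1) (hK : 1 ≤ K)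
    (H : D.H2 v v' η κ K g h r) {x y : EuclideanSpace ℝ (Fin N)} (hx : ‖x‖ = 1) (hy : ‖y‖ = 1) :
    ‖wd (ContinuousLinearMap.adjoint (D.T1 r) x) (ContinuousLinearMap.adjoint (D.T1 r) y) -
        (inner ℝ (wd x y) (op (JK N) (D.oR2 h)) / inner ℝ (D.oR2 g) (op (JK N) (D.oR2 h))) • ContinuousLinearMap.adjoint (D.T2 r) (D.oR2 g)‖ ≤
      2 * (8 * K / κ + 204 / κ ^ 2) ^ 2 * (1 + √(‖D.T2 (g * r)‖ / ‖D.T2 g‖) + √(‖D.T2 (h * r)‖ / ‖D.T2 h‖)) *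
        (1 + √(‖D.T2 (h * r)‖ / ‖D.T2 h‖)) := by
  obtain ⟨α0, α1, A, B, eA, eA', nA, nB, i0, i1⟩ := D.cdec11 hκ hκ1 hK H x
  obtain ⟨γ0, γ1, A', B', fA, fA', mA, mB, j0, j1⟩ := D.cdec11 hκ hκ1 hK H y
  have hc := partI H.cf
  have hk := hc.k0
  rw [hx, mul_one] at nA nB
  rw [hy, mul_one] at mA mB
  obtain ⟨L, hL⟩ : ∃ L : ℝ, L = √(‖D.T2 (g * r)‖ / ‖D.T2 g‖) := ⟨_, rfl⟩
  obtain ⟨U, hU⟩ : ∃ U : ℝ, U = √(‖D.T2 (h * r)‖ / ‖D.T2 h‖) := ⟨_, rfl⟩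
  obtain ⟨C, hC⟩ : ∃ C : ℝ, C = 8 * K / κ + 204 / κ ^ 2 := ⟨_, rfl⟩
  rw [← hL, ← hC] at nA mA
  rw [← hU, ← hC] at nB mB
  rw [← hL, ← hU, ← hC]
  have hL0 : 0 ≤ L := hL ▸ Real.sqrt_nonneg _
  have hU0 : 0 ≤ U := hU ▸ Real.sqrt_nonneg _
  have hK0 : 0 < K := by linarith
  have hC0 : 0 < C := by
    rw [hC]
    positivity
  -- the coefficient
  have hZ : op (JK N) (D.oR2 h) = √2 • wd (op (JR N) (D.vR h)) (op (JR N) (D.a1 h)) := by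
    rw [D.oR2_eq, map_smul, JK_wd]
  obtain ⟨k, hkd⟩ : ∃ k : ℝ, k = inner ℝ (D.oR2 g) (op (JK N) (D.oR2 h)) := ⟨_, rfl⟩
  rw [← hkd] at hk
  have hk0 : k ≠ 0 := by
    intro h0
    rw [h0, abs_zero] at hk
    linarith
  have hkdet := hkd
  rw [D.det_o2 g h] at hkdet
  have hco : inner ℝ (wd x y) (op (JK N) (D.oR2 h)) = √2 / 2 * (α0 * γ1 - α1 * γ0) * k := by
    rw [hZ, real_inner_smul_right, inner_wd, i0, i1, j0, j1, hkdet]
    ring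
  have h2 : √2 * √2 = (2 : ℝ) := Real.mul_self_sqrt (by norm_num)
  have e1 : (inner ℝ (wd x y) (op (JK N) (D.oR2 h)) / k) • ContinuousLinearMap.adjoint (D.T2 r) (D.oR2 g) = wd A A' := by
    rw [hco, mul_div_assoc, div_self hk0, mul_one, D.oR2_eq, map_smul, D.adj_wd11, smul_smul]
    have e2 : √2 / 2 * (α0 * γ1 - α1 * γ0) * √2 = α0 * γ1 - α1 * γ0 := by
      calc √2 / 2 * (α0 * γ1 - α1 * γ0) * √2 = (√2 * √2) / 2 * (α0 * γ1 - α1 * γ0) := by ring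
        _ = α0 * γ1 - α1 * γ0 := by rw [h2]; ring
    rw [e2, eA', fA', wd_add_left, wd_add_right, wd_add_right, wd_smul_left, wd_smul_left, wd_smul_left, wd_smul_left, wd_smul_right, wd_smul_right,
      wd_smul_right, wd_smul_right, wd_self, wd_self, smul_zero, smul_zero, smul_zero, smul_zero,
      wd_swap (ContinuousLinearMap.adjoint (D.T1 r) (D.vR g)) (ContinuousLinearMap.adjoint (D.T1 r) (D.a1 g)), zero_add, add_zero,
      smul_neg, smul_neg, smul_smul, smul_smul, sub_smul, sub_eq_add_neg]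
  rw [← hkd, e1, eA, fA, wd_add_left, wd_add_right, wd_add_right]
  have e3 : wd A A' + wd A B' + (wd B A' + wd B B') - wd A A' = wd A B' + (wd B A' + wd B B') := by abel
  rw [e3]
  have n1 : ‖wd A B'‖ ≤ C * L * (C * (1 + U)) := (norm_wd_le _ _).trans (mul_le_mul nA mB (norm_nonneg _) (by positivity))
  have n2 : ‖wd B A'‖ ≤ C * (1 + U) * (C * L) := (norm_wd_le _ _).trans (mul_le_mul nB mA (norm_nonneg _) (by positivity))
  have n3 : ‖wd B B'‖ ≤ C * (1 + U) * (C * (1 + U)) := (norm_wd_le _ _).trans (mul_le_mul nB mB (norm_nonneg _) (by positivity))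
  refine (norm_add_le _ _).trans ?_
  have n4 := norm_add_le (wd B A') (wd B B')
  have n5 : 0 ≤ C ^ 2 * (1 + U) * (1 + U) := by positivity
  have n6 : 2 * C ^ 2 * (1 + L + U) * (1 + U) = C * L * (C * (1 + U)) + C * (1 + U) * (C * L) + C * (1 + U) * (C * (1 + U)) +
      C ^ 2 * (1 + U) * (1 + U) := by ring
  rw [n6]
  linarith

theorem star2_n {κ K : ℝ} (hκ : 0 < κ) (hκ1 : κ ≤ 1) (hK : 1 ≤ K) : ∃ M : ℝ, 0 < M ∧
    ∀ (v v' : EuclideanSpace ℝ (Fin N × Fin N)) (η : ℝ) (g h r : G), D.H2 v v' η κ K g h r →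
      D.s0 r ≤ M * (1 + √(‖D.T2 (g * r)‖ / ‖D.T2 g‖) + √(‖D.T2 (h * r)‖ / ‖D.T2 h‖)) := by
  have hK0 : 0 < K := by linarith
  refine ⟨8 * K / κ + 204 / κ ^ 2, by positivity, fun v v' η g h r H => ?_⟩
  obtain ⟨L, hL⟩ : ∃ L : ℝ, L = √(‖D.T2 (g * r)‖ / ‖D.T2 g‖) := ⟨_, rfl⟩
  obtain ⟨U, hU⟩ : ∃ U : ℝ, U = √(‖D.T2 (h * r)‖ / ‖D.T2 h‖) := ⟨_, rfl⟩
  have hL0 : 0 ≤ L := hL ▸ Real.sqrt_nonneg _
  have hU0 : 0 ≤ U := hU ▸ Real.sqrt_nonneg _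
  have h1 : ‖ContinuousLinearMap.adjoint (D.T1 r)‖ = D.s0 r := by
    rw [LinearIsometryEquiv.norm_map, D.norm_T1]
  rw [← h1, ← hL, ← hU]
  refine ContinuousLinearMap.opNorm_le_bound _ (by positivity) fun x => ?_
  obtain ⟨α0, α1, A, B, eA, eA', nA, nB, -, -⟩ := D.cdec11 hκ hκ1 hK H x
  rw [← hL] at nA
  rw [← hU] at nB
  rw [eA]
  have h3 := norm_add_le A B
  have h4 : (8 * K / κ + 204 / κ ^ 2) * (1 + L + U) * ‖x‖ = (8 * K / κ + 204 / κ ^ 2) * L * ‖x‖ + (8 * K / κ + 204 / κ ^ 2) * (1 + U) * ‖x‖ := by ring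
  rw [h4]
  linarith

theorem star2 {κ K : ℝ} (hκ : 0 < κ) (hκ1 : κ ≤ 1) (hK : 1 ≤ K) : ∃ M : ℝ, 0 < M ∧
    ∀ (v v' : EuclideanSpace ℝ (Fin N × Fin N)) (η : ℝ) (g h r : G), D.H2 v v' η κ K g h r →
      ∀ X, ‖ContinuousLinearMap.adjoint (D.T2 r) X -
        (inner ℝ X (op (JK N) (D.oR2 h)) / inner ℝ (D.oR2 g) (op (JK N) (D.oR2 h))) • ContinuousLinearMap.adjoint (D.T2 r) (D.oR2 g)‖ ≤
        M * (1 + √(‖D.T2 (g * r)‖ / ‖D.T2 g‖) + √(‖D.T2 (h * r)‖ / ‖D.T2 h‖)) * (1 + √(‖D.T2 (h * r)‖ / ‖D.T2 h‖)) * ‖X‖ := by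
  have hK0 : 0 < K := by linarith
  have hN : 5 ≤ N := D.hN
  have hN0 : (0 : ℝ) < N := by
    have : (5 : ℝ) ≤ N := by exact_mod_cast hN
    linarith
  refine ⟨(N * N : ℝ) * (2 * (8 * K / κ + 204 / κ ^ 2) ^ 2), by positivity, fun v v' η g h r H X => ?_⟩
  have hZ : op (JK N) (D.oR2 h) = √2 • wd (op (JR N) (D.vR h)) (op (JR N) (D.a1 h)) := by
    rw [D.oR2_eq, map_smul, JK_wd]
  have h0 := fun (x y : EuclideanSpace ℝ (Fin N)) (hx : ‖x‖ = 1) (hy : ‖y‖ = 1) => D.star2_w11 hκ hκ1 hK H hx hy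
  obtain ⟨k, hk⟩ : ∃ k : ℝ, k = inner ℝ (D.oR2 g) (op (JK N) (D.oR2 h)) := ⟨_, rfl⟩
  obtain ⟨P, hP⟩ : ∃ P : ℝ, P = 2 * (8 * K / κ + 204 / κ ^ 2) ^ 2 * (1 + √(‖D.T2 (g * r)‖ / ‖D.T2 g‖) + √(‖D.T2 (h * r)‖ / ‖D.T2 h‖)) *
        (1 + √(‖D.T2 (h * r)‖ / ‖D.T2 h‖)) := ⟨_, rfl⟩
  rw [← hk, ← hP] at h0
  rw [← hk]
  have hP0 : 0 ≤ P := by
    rw [hP]
    positivity
  have e1 : ContinuousLinearMap.adjoint (D.T2 r) X - (inner ℝ X (op (JK N) (D.oR2 h)) / k) • ContinuousLinearMap.adjoint (D.T2 r) (D.oR2 g) =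
      ∑ p : Fin N × Fin N, X p • (wd (ContinuousLinearMap.adjoint (D.T1 r) (EuclideanSpace.single p.1 1))
        (ContinuousLinearMap.adjoint (D.T1 r) (EuclideanSpace.single p.2 1)) -
        (inner ℝ (wd (EuclideanSpace.single p.1 1) (EuclideanSpace.single p.2 1)) (op (JK N) (D.oR2 h)) / k) •
          ContinuousLinearMap.adjoint (D.T2 r) (D.oR2 g)) := by
    simp only [smul_sub, Finset.sum_sub_distrib]
    rw [← D.adj_sum11]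
    congr 1
    simp only [smul_smul]
    rw [← Finset.sum_smul]
    congr 1
    rw [hZ, real_inner_smul_right, inner_sum11, Finset.mul_sum, Finset.sum_div]
    refine Finset.sum_congr rfl fun p _ => ?_
    rw [real_inner_smul_right]
    ring
  rw [e1]
  have h3 : ∀ p : Fin N × Fin N, ‖X p • (wd (ContinuousLinearMap.adjoint (D.T1 r) (EuclideanSpace.single p.1 1))
        (ContinuousLinearMap.adjoint (D.T1 r) (EuclideanSpace.single p.2 1)) -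
        (inner ℝ (wd (EuclideanSpace.single p.1 1) (EuclideanSpace.single p.2 1)) (op (JK N) (D.oR2 h)) / k) •
          ContinuousLinearMap.adjoint (D.T2 r) (D.oR2 g))‖ ≤ ‖X‖ * P := by
    intro p
    rw [norm_smul]
    refine mul_le_mul (PiLp.norm_apply_le X p) (h0 _ _ ?_ ?_) (norm_nonneg _) (norm_nonneg _)
    · rw [EuclideanSpace.norm_single, norm_one]
    · rw [EuclideanSpace.norm_single, norm_one]
  refine (norm_sum_le _ _).trans ((Finset.sum_le_sum fun p _ => h3 p).trans (le_of_eq ?_))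
  rw [Finset.sum_const, Finset.card_univ, Fintype.card_prod, Fintype.card_fin, nsmul_eq_mul, hP]
  push_cast
  ring

end RD

end Pool.Agent.Helper20.TB
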