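import Pool.Agent.Helper20.TB.Wj
import Pool.Agent.Helper20.TB.Dfl

/-!
# Project OB (MP_0f6f3f_an), layer TB, block TB-W2: the form has two negative squares

`n0 = (e_0 - e_{N-1}) / √2`, `n1 = (e_1 - e_{N-2}) / √2` in `EuclideanSpace ℝ (Fin N)`, `N ≥ 5`; `op (JR N) x i = x (jj N i)`; check the formula coordinate by coordinate (`i = 0, 1, N-2, N-1` and the others).
-/

set_option autoImplicit false

open Matrix

namespace Pool.Agent.Helper20.TB

open Pool.Agent.Helper55.OB

/-- half of the difference of two unit vectors -/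
private noncomputable def nv36 {N : ℕ} (i j : Fin N) : EuclideanSpace ℝ (Fin N) :=
  (√2)⁻¹ • (EuclideanSpace.single i (1 : ℝ) - EuclideanSpace.single j (1 : ℝ))

private theorem nv_in36 {N : ℕ} (i j : Fin N) (x : EuclideanSpace ℝ (Fin N)) :
    inner ℝ (nv36 i j) x = (√2)⁻¹ * (x i - x j) := by
  unfold nv36
  rw [real_inner_smul_left, inner_sub_left, EuclideanSpace.inner_single_left, EuclideanSpace.inner_single_left]
  simp

private theorem nv_ap36 {N : ℕ} (i j k : Fin N) :
    nv36 i j k = (√2)⁻¹ * ((if k = i then 1 else 0) - (if k = j then 1 else 0)) := by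
  unfold nv36
  rw [PiLp.smul_apply, PiLp.sub_apply, PiLp.single_apply, PiLp.single_apply, smul_eq_mul]

private theorem sq36 : (√2)⁻¹ * (√2)⁻¹ = (1 / 2 : ℝ) := by
  rw [← mul_inv, Real.mul_self_sqrt (by norm_num)]
  norm_num

private theorem nv_nm36 {N : ℕ} {i j : Fin N} (h : i ≠ j) : ‖nv36 i j‖ = 1 := by
  have h1 : inner ℝ (nv36 i j) (nv36 i j) = (1 : ℝ) := by
    rw [nv_in36, nv_ap36, nv_ap36, if_pos rfl, if_neg h, if_neg h.symm, if_pos rfl]
    have := sq36
    linear_combination 2 * this
  rw [real_inner_self_eq_norm_sq] at h1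
  nlinarith [norm_nonneg (nv36 i j)]

theorem two_JR {N : ℕ} (hN : 5 ≤ N) : ∃ n0 n1 : EuclideanSpace ℝ (Fin N), Two (op (JR N)) n0 n1 := by
  obtain ⟨a, ha⟩ : ∃ a : Fin N, (a : ℕ) = 0 := ⟨⟨0, by omega⟩, rfl⟩
  obtain ⟨b, hb⟩ : ∃ b : Fin N, (b : ℕ) = 1 := ⟨⟨1, by omega⟩, rfl⟩
  obtain ⟨c, hc⟩ : ∃ c : Fin N, (c : ℕ) = N - 1 := ⟨⟨N - 1, by omega⟩, rfl⟩
  obtain ⟨d, hd⟩ : ∃ d : Fin N, (d : ℕ) = N - 2 := ⟨⟨N - 2, by omega⟩, rfl⟩
  have hab : a ≠ b := fun h => by
    have := congrArg Fin.val h
    omega
  have hac : a ≠ c := fun h => by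
    have := congrArg Fin.val h
    omega
  have had : a ≠ d := fun h => by
    have := congrArg Fin.val h
    omega
  have hbc : b ≠ c := fun h => by
    have := congrArg Fin.val h
    omega
  have hbd : b ≠ d := fun h => by
    have := congrArg Fin.val h
    omega
  have hcd : c ≠ d := fun h => by
    have := congrArg Fin.val h
    omega
  refine ⟨nv36 a c, nv36 b d, ⟨nv_nm36 hac, nv_nm36 hbd, ?_, fun x => ?_⟩⟩
  · rw [nv_in36, nv_ap36, nv_ap36, if_neg hab, if_neg had, if_neg hbc.symm, if_neg hcd]
    simp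
  · ext k
    have h1 : op (JR N) x k = x (jj N k) := by
      rw [op_apply]
      have h2 : ∀ j, JR N k j = if j = jj N k then 1 else 0 := fun _ => rfl
      simp only [h2, ite_mul, one_mul, zero_mul, Finset.sum_ite_eq', Finset.mem_univ, if_true]
    rw [h1, PiLp.sub_apply, PiLp.sub_apply, PiLp.smul_apply, PiLp.smul_apply, smul_eq_mul, smul_eq_mul, nv_in36, nv_in36,
      nv_ap36, nv_ap36]
    have hs := sq36
    have hjj : ∀ l : Fin N, ((jj N k : Fin N) : ℕ) = l → jj N k = l := fun l h => Fin.ext h
    by_cases ka : k = a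
    · subst ka
      have e : jj N k = c := by
        apply hjj
        unfold jj
        rw [if_pos (Or.inl (by omega)), Fin.val_rev]
        omega
      rw [e, if_pos rfl, if_neg hac, if_neg hab, if_neg had]
      linear_combination (2 * (x k - x c)) * hs
    by_cases kc : k = c
    · subst kc
      have e : jj N k = a := by
        apply hjj
        unfold jj
        rw [if_pos (Or.inr (by omega)), Fin.val_rev]
        omega
      rw [e, if_pos rfl, if_neg hac.symm, if_neg hbc.symm, if_neg hcd]
      linear_combination (2 * (x k - x a)) * hs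
    by_cases kb : k = b
    · subst kb
      have e : jj N k = d := by
        apply hjj
        unfold jj
        rw [if_pos (Or.inl (by omega)), Fin.val_rev]
        omega
      rw [e, if_pos rfl, if_neg hab.symm, if_neg hbc, if_neg hbd]
      linear_combination (2 * (x k - x d)) * hs
    by_cases kd : k = d
    · subst kd
      have e : jj N k = b := by
        apply hjj
        unfold jj
        rw [if_pos (Or.inr (by omega)), Fin.val_rev]
        omega
      rw [e, if_pos rfl, if_neg had.symm, if_neg hcd.symm, if_neg hbd.symm]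
      linear_combination (2 * (x k - x b)) * hs
    have e : jj N k = k := by
      unfold jj
      have e1 : (k : ℕ) ≠ 0 := fun h => ka (Fin.ext (by omega))
      have e2 : (k : ℕ) ≠ 1 := fun h => kb (Fin.ext (by omega))
      have e3 : (k : ℕ) ≠ N - 1 := fun h => kc (Fin.ext (by omega))
      have e4 : (k : ℕ) ≠ N - 2 := fun h => kd (Fin.ext (by omega))
      have := k.2
      rw [if_neg]
      omega
    rw [e, if_neg ka, if_neg kb, if_neg kc, if_neg kd]
    ring

end Pool.Agent.Helper20.TB
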