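import Pool.Agent.Helper20.TB.Cf
import Pool.Agent.Helper20.TB.Two

/-!
# Project OB (MP_0f6f3f_an), layer TB, block TB-S2: the estimate at the second node, first part (steps (1), (2): `star2_a`, `star2_d`)

NOTATION. `R = T1 r` on `V = EuclideanSpace ℝ (Fin N)`, `J = op (JR N)`, `a0 = vR g`, `a1 = a1 g`, `b0 = vR h`, `b1 = a1 h` (right singular vectors, orthonormal pairs, isotropic: `iso1`, `iso01`, `iso11`), `lam = ‖T2 (g r)‖ / ‖T2 g‖`, `mu = ‖T2 (h r)‖ / ‖T2 h‖`, `‖T2 g‖ = s0 g s1 g` (`norm_T2`), near the wall: `s0 ≤ K s1` for `g, h, g r, h r`.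
(1) `R† a_i = ± s_i(g)⁻¹ (T1 (g r))† (vL g or c1 g)` (`T1_adj_vL`, `T1_adj_c1`, `mul1`), so `‖R† a_i‖ ≤ s0(g r) / s1(g) ≤ K √lam` (`s0 s1 (g r) ≥ s0(g r)² / K`, `s0 s1 (g) ≤ K s1(g)²`). In the same way `‖R† b_i‖ ≤ K √mu`.
(2) If `d` is `J`-orthogonal to `a0, a1, b0, b1` then `‖R† d‖ ≤ (12 / κ) ‖d‖`: `y = R† d` is `J`-orthogonal to `R† a_i`, `R† b_i` (`⟪R† d, J R† a⟫ = ⟪d, R J R† a⟫ = ⟪d, J a⟫`: `form1'`), these pairs are isotropic, `dfn` with `c = κ / 2` (`two_JR`): the hypothesis `hop` is `pq` for `p = T2(r)† oR2 g = √2 wd (R† a0) (R† a1)` (`op_r2_wd`, `op_adj`, `r2_transpose`), `‖p‖² = ‖R†a0‖² ‖R†a1‖² - ⟪..⟫²` (`norm_wd_sq`), `⟪p, JK p'⟫ = det ⟪R† a_i, J R† b_j⟫` (`JK_wd`, `inner_wd`);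
`p, p' ≠ 0` by `p1`, `q1`. So `‖y‖² ≤ (1 + 128 / κ²) ⟪y, J y⟫ = (..) ⟪d, J d⟫ ≤ (129 / κ²) ‖d‖²`.
(3) `s0 r = ‖R†‖ ≤ M (1 + √lam + √mu)`: decompose `x` by `dec2` (`hop` there: `k0` and `det_o2`). 
(4) For unit vectors `x, y` decompose `x = a + b + d`, `y = a' + b' + d'` (`a, a' ∈ span(a0, a1)`, ...). `⟪wd x y, JK (oR2 h)⟫ = √2 ⟪wd x y, wd (J b0) (J b1)⟫` only sees `wd a a'` (`⟪b, J b_j⟫ = 0`, `⟪d, J b_j⟫ = 0`), `wd a a' = (α0 α1' - α1 α0') wd a0 a1 = t • oR2 g`, so `⟪wd x y, JK oR2 h⟫ / ⟪oR2 g, JK oR2 h⟫ = t` and `T2(r)† (wd a a') = t p`. So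
`T2(r)† (wd x y) - t p = wd (R†x) (R†y) - wd (R†a) (R†a')` is the sum of the 8 other terms, each at most `‖R†·‖ ‖R†·‖ ≤ M' (√lam + √mu + 1)(√mu + 1)` (one factor is from `b, d, b', d'`).
(5) General `X`: `T2(r)† X = op (r2 (D.r r)ᵀ) X = ∑_p X p • wd (R† e_p.1) (R† e_p.2)` (`wd_repr`), `⟪X', JK oR2 h⟫` the same with `A = 1` (`oR2 h` is in the range of `op (r2 1)`; or: `⟪X, JK oR2 h⟫ = ⟪op (r2 1) X, JK oR2 h⟫`); `∑_p |X p| ≤ N ‖X‖`.
-/

set_option autoImplicit false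

open Matrix

namespace Pool.Agent.Helper20.TB

open Pool.Agent.Helper55.OB

namespace RD

variable {G : Type} [Group G] {N : ℕ} (D : RD G N)

/-- The hypotheses at the second node. -/
structure H2 (v v' : EuclideanSpace ℝ (Fin N × Fin N)) (η κ K : ℝ) (g h r : G) : Prop where
  cf : Cfg (op (JK N)) (D.T2 g) (D.T2 h) (D.T2 r) (D.T2 (g * r)) (D.T2 (h * r)) v v' (D.oL2 g) (D.oR2 g) (D.oL2 h) (D.oR2 h)
      (D.oL2 (g * r)) (D.oR2 (g * r)) (D.oL2 (h * r)) (D.oR2 (h * r)) η κ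
  ng : D.s0 g ≤ K * D.s1 g
  nh : D.s0 h ≤ K * D.s1 h
  ngr : D.s0 (g * r) ≤ K * D.s1 (g * r)
  nhr : D.s0 (h * r) ≤ K * D.s1 (h * r)

private theorem adj_mul77 (g r : G) (w : EuclideanSpace ℝ (Fin N)) :
    ‖ContinuousLinearMap.adjoint (D.T1 r) (ContinuousLinearMap.adjoint (D.T1 g) w)‖ = ‖ContinuousLinearMap.adjoint (D.T1 (g * r)) w‖ := by
  rcases D.mul1 g r with h | h
  · have h1 : ContinuousLinearMap.adjoint (D.T1 (g * r)) w = ContinuousLinearMap.adjoint (D.T1 r) (ContinuousLinearMap.adjoint (D.T1 g) w) := by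
      refine ext_inner_right ℝ fun x => ?_
      rw [ContinuousLinearMap.adjoint_inner_left, ContinuousLinearMap.adjoint_inner_left, ContinuousLinearMap.adjoint_inner_left, h]
    rw [h1]
  · have h1 : ContinuousLinearMap.adjoint (D.T1 (g * r)) w = -ContinuousLinearMap.adjoint (D.T1 r) (ContinuousLinearMap.adjoint (D.T1 g) w) := by
      refine ext_inner_right ℝ fun x => ?_
      rw [ContinuousLinearMap.adjoint_inner_left, inner_neg_left, ContinuousLinearMap.adjoint_inner_left, ContinuousLinearMap.adjoint_inner_left, h,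
        inner_neg_right]
    rw [h1, norm_neg]

private theorem bound77 {K : ℝ} (hK : 1 ≤ K) {g r : G} (n1 : D.s0 g ≤ K * D.s1 g) (n2 : D.s0 (g * r) ≤ K * D.s1 (g * r))
    {w a : EuclideanSpace ℝ (Fin N)} (hw : ‖w‖ = 1) {t : ℝ} (ht : D.s1 g ≤ t) (hwa : ContinuousLinearMap.adjoint (D.T1 g) w = t • a) :
    ‖ContinuousLinearMap.adjoint (D.T1 r) a‖ ≤ K * √(‖D.T2 (g * r)‖ / ‖D.T2 g‖) := by
  have p0 := D.s0_pos g
  have p1 := D.s1_pos g
  have q0 := D.s0_pos (g * r)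
  have q1 := D.s1_pos (g * r)
  have ht0 : 0 < t := lt_of_lt_of_le p1 ht
  have e1 : t * ‖ContinuousLinearMap.adjoint (D.T1 r) a‖ ≤ D.s0 (g * r) := by
    have e2 : t * ‖ContinuousLinearMap.adjoint (D.T1 r) a‖ = ‖ContinuousLinearMap.adjoint (D.T1 r) (ContinuousLinearMap.adjoint (D.T1 g) w)‖ := by
      rw [hwa, map_smul, norm_smul, Real.norm_of_nonneg ht0.le]
    rw [e2, adj_mul77]
    refine (ContinuousLinearMap.le_opNorm _ _).trans ?_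
    rw [hw, mul_one, LinearIsometryEquiv.norm_map, D.norm_T1]
  have e3 : D.s1 g * ‖ContinuousLinearMap.adjoint (D.T1 r) a‖ ≤ D.s0 (g * r) :=
    (mul_le_mul_of_nonneg_right ht (norm_nonneg _)).trans e1
  have e4 : ‖ContinuousLinearMap.adjoint (D.T1 r) a‖ ≤ D.s0 (g * r) / D.s1 g := by
    rw [le_div_iff₀ p1]
    linarith
  refine e4.trans ?_
  rw [D.norm_T2, D.norm_T2]
  have e5 : (D.s0 (g * r) / D.s1 g / K) ^ 2 ≤ D.s0 (g * r) * D.s1 (g * r) / (D.s0 g * D.s1 g) := by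
    rw [div_pow, div_pow, div_div, div_le_div_iff₀ (by positivity) (by positivity)]
    have e6 : D.s0 (g * r) * D.s0 g ≤ K * D.s1 (g * r) * (K * D.s1 g) := mul_le_mul n2 n1 p0.le (by positivity)
    have e7 : 0 ≤ D.s0 (g * r) * D.s1 g := by positivity
    nlinarith [mul_le_mul_of_nonneg_left e6 e7]
  have e8 : D.s0 (g * r) / D.s1 g / K ≤ √(D.s0 (g * r) * D.s1 (g * r) / (D.s0 g * D.s1 g)) := Real.le_sqrt_of_sq_le e5
  have hK0 : 0 < K := by linarith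
  rw [div_le_iff₀ hK0] at e8
  linarith

theorem star2_a {v v' : EuclideanSpace ℝ (Fin N × Fin N)} {η κ K : ℝ} {g h r : G} (hK : 1 ≤ K) (H : D.H2 v v' η κ K g h r) :
    ‖ContinuousLinearMap.adjoint (D.T1 r) (D.vR g)‖ ≤ K * √(‖D.T2 (g * r)‖ / ‖D.T2 g‖) ∧
      ‖ContinuousLinearMap.adjoint (D.T1 r) (D.a1 g)‖ ≤ K * √(‖D.T2 (g * r)‖ / ‖D.T2 g‖) ∧
      ‖ContinuousLinearMap.adjoint (D.T1 r) (D.vR h)‖ ≤ K * √(‖D.T2 (h * r)‖ / ‖D.T2 h‖) ∧
      ‖ContinuousLinearMap.adjoint (D.T1 r) (D.a1 h)‖ ≤ K * √(‖D.T2 (h * r)‖ / ‖D.T2 h‖) :=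
  ⟨D.bound77 hK H.ng H.ngr (D.norm_vL g) (D.s1_le_s0 g) (D.T1_adj_vL g),
    D.bound77 hK H.ng H.ngr (D.norm_c1 g) le_rfl (D.T1_adj_c1 g),
    D.bound77 hK H.nh H.nhr (D.norm_vL h) (D.s1_le_s0 h) (D.T1_adj_vL h),
    D.bound77 hK H.nh H.nhr (D.norm_c1 h) le_rfl (D.T1_adj_c1 h)⟩

private theorem inner_R77 (r : G) (x y : EuclideanSpace ℝ (Fin N)) :
    inner ℝ (ContinuousLinearMap.adjoint (D.T1 r) x) (op (JR N) (ContinuousLinearMap.adjoint (D.T1 r) y)) = inner ℝ x (op (JR N) y) := by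
  rw [ContinuousLinearMap.adjoint_inner_left, D.form1']

private theorem T2_adj77 (r : G) (x y : EuclideanSpace ℝ (Fin N)) :
    ContinuousLinearMap.adjoint (D.T2 r) (√2 • wd x y) =
      √2 • wd (ContinuousLinearMap.adjoint (D.T1 r) x) (ContinuousLinearMap.adjoint (D.T1 r) y) := by
  rw [map_smul, RD.T2, RD.T1, op_adj, op_adj, ← r2_transpose, op_r2_wd]

private theorem sq277 (x y : EuclideanSpace ℝ (Fin N)) : ‖√2 • wd x y‖ ^ 2 = ‖x‖ ^ 2 * ‖y‖ ^ 2 - inner ℝ x y ^ 2 := by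
  rw [norm_smul, mul_pow, norm_wd_sq, Real.norm_of_nonneg (Real.sqrt_nonneg _), Real.sq_sqrt (by norm_num)]
  ring

theorem star2_d {v v' : EuclideanSpace ℝ (Fin N × Fin N)} {η κ K : ℝ} {g h r : G} (hK : 1 ≤ K) (H : D.H2 v v' η κ K g h r)
    {d : EuclideanSpace ℝ (Fin N)} (d0 : inner ℝ d (op (JR N) (D.vR g)) = 0) (d1 : inner ℝ d (op (JR N) (D.a1 g)) = 0)
    (d2 : inner ℝ d (op (JR N) (D.vR h)) = 0) (d3 : inner ℝ d (op (JR N) (D.a1 h)) = 0) :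
    ‖ContinuousLinearMap.adjoint (D.T1 r) d‖ ≤ 12 / κ * ‖d‖ := by
  obtain ⟨m0, m1, hJ⟩ := two_JR D.hN
  have c := partI H.cf
  have hκ := H.cf.κ0
  have hκ1 := H.cf.κ1
  rw [D.oR2_eq, D.oR2_eq, D.T2_adj77, D.T2_adj77] at c
  have hp1 : 0 < ‖√2 • wd (ContinuousLinearMap.adjoint (D.T1 r) (D.vR g)) (ContinuousLinearMap.adjoint (D.T1 r) (D.a1 g))‖ := by
    refine lt_of_lt_of_le ?_ c.p1
    have := H.cf.tT.pos
    have := H.cf.tT1.pos
    positivity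
  have hq1 : 0 < ‖√2 • wd (ContinuousLinearMap.adjoint (D.T1 r) (D.vR h)) (ContinuousLinearMap.adjoint (D.T1 r) (D.a1 h))‖ := by
    refine lt_of_lt_of_le ?_ c.q1
    have := H.cf.tS.pos
    have := H.cf.tS1.pos
    positivity
  have hp2 := pow_pos hp1 2
  have hq2 := pow_pos hq1 2
  rw [sq277] at hp2 hq2
  have hpq : (κ / 2) ^ 2 * ((‖ContinuousLinearMap.adjoint (D.T1 r) (D.vR g)‖ ^ 2 * ‖ContinuousLinearMap.adjoint (D.T1 r) (D.a1 g)‖ ^ 2 -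
        inner ℝ (ContinuousLinearMap.adjoint (D.T1 r) (D.vR g)) (ContinuousLinearMap.adjoint (D.T1 r) (D.a1 g)) ^ 2) *
      (‖ContinuousLinearMap.adjoint (D.T1 r) (D.vR h)‖ ^ 2 * ‖ContinuousLinearMap.adjoint (D.T1 r) (D.a1 h)‖ ^ 2 -
        inner ℝ (ContinuousLinearMap.adjoint (D.T1 r) (D.vR h)) (ContinuousLinearMap.adjoint (D.T1 r) (D.a1 h)) ^ 2)) ≤
      (inner ℝ (ContinuousLinearMap.adjoint (D.T1 r) (D.vR g)) (op (JR N) (ContinuousLinearMap.adjoint (D.T1 r) (D.vR h))) *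
        inner ℝ (ContinuousLinearMap.adjoint (D.T1 r) (D.a1 g)) (op (JR N) (ContinuousLinearMap.adjoint (D.T1 r) (D.a1 h))) -
        inner ℝ (ContinuousLinearMap.adjoint (D.T1 r) (D.vR g)) (op (JR N) (ContinuousLinearMap.adjoint (D.T1 r) (D.a1 h))) *
        inner ℝ (ContinuousLinearMap.adjoint (D.T1 r) (D.a1 g)) (op (JR N) (ContinuousLinearMap.adjoint (D.T1 r) (D.vR h)))) ^ 2 := by
    have e1 := pow_le_pow_left₀ (by positivity) c.pq 2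
    rw [mul_pow, mul_pow, sq277, sq277, sq_abs] at e1
    refine e1.trans (le_of_eq ?_)
    rw [map_smul, JK_wd, real_inner_smul_left, real_inner_smul_right, inner_wd]
    have h2 : √2 * √2 = 2 := Real.mul_self_sqrt (by norm_num)
    rw [← mul_assoc, h2]
    ring
  have hfin := dfn hJ (c := κ / 2) (by positivity) (by linarith) ((D.inner_R77 r _ _).trans (D.iso1 g)) ((D.inner_R77 r _ _).trans (D.iso01 g))
    ((D.inner_R77 r _ _).trans (D.iso11 g)) ((D.inner_R77 r _ _).trans (D.iso1 h)) ((D.inner_R77 r _ _).trans (D.iso01 h))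
    ((D.inner_R77 r _ _).trans (D.iso11 h)) hp2 hq2 hpq ((D.inner_R77 r _ _).trans d0) ((D.inner_R77 r _ _).trans d1)
    ((D.inner_R77 r _ _).trans d2) ((D.inner_R77 r _ _).trans d3)
  rw [D.inner_R77] at hfin
  have e2 : inner ℝ d (op (JR N) d) ≤ ‖d‖ ^ 2 := by
    refine (real_inner_le_norm _ _).trans (le_of_eq ?_)
    rw [norm_JR, sq]
  have e3 : ‖ContinuousLinearMap.adjoint (D.T1 r) d‖ ^ 2 ≤ (12 / κ * ‖d‖) ^ 2 := by
    refine hfin.trans ((mul_le_mul_of_nonneg_left e2 (by positivity)).trans ?_)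
    rw [mul_pow]
    refine mul_le_mul_of_nonneg_right ?_ (by positivity)
    have e4 : (12 / κ) ^ 2 = 144 / κ ^ 2 := by ring
    have e5 : (32 : ℝ) / (κ / 2) ^ 2 = 128 / κ ^ 2 := by
      field_simp
      norm_num
    rw [e4, e5]
    have e6 : (1 : ℝ) ≤ 16 / κ ^ 2 := by
      rw [le_div_iff₀ (by positivity)]
      nlinarith
    have e7 : (144 : ℝ) / κ ^ 2 = 16 / κ ^ 2 + 128 / κ ^ 2 := by ring
    linarith
  exact (sq_le_sq₀ (norm_nonneg _) (by positivity)).1 e3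

end RD

end Pool.Agent.Helper20.TB
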