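import Pool.Agent.Helper20.TB.Rd1

/-!
# Project OB (MP_0f6f3f_an), layer TB, block TB-R3: sizes

PROOFS. `hs_eq`: `D.r g = kL diag(s) kRᵀ`, `hs_orth_left`, `hs_orth_right`, `hs (diagonal s) = ∑ s_i²`. `e2_eq`: `r2 (D.r g) = r2 kL * r2 (diag s) * (r2 kR)ᵀ`; `e2 A = (hs(A)² - hs(Aᵀ A)) / 2` (both sides are `∑ (A_ik A_jl - A_il A_jk)² / 4`: expand: `= (2 ∑ A_ik² A_jl² - 2 ∑ A_ik A_jl A_il A_jk) / 4`, `∑_{ijkl} A_ik A_jl A_il A_jk = ∑_{kl} (∑_i A_ik A_il)² = hs(Aᵀ A)`), both are invariant: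
`hs ((U A V)ᵀ (U A V)) = hs (Vᵀ Aᵀ A V) = hs (Aᵀ A)`; for `A = diagonal s`: `((∑ s_i²)² - ∑ s_i⁴) / 2`. BOUNDS: `s_0² ≤ ∑ s_i² ≤ s_0² + N s_1²`, `≤ N s_0²`. `((∑ s_i²)² - ∑ s_i⁴) / 2 = (1/2) ∑_{i ≠ j} s_i² s_j²`: contains the two terms `(0,1)`, `(1,0)`, all the others have an index `≥ 2` with `s ≤ 1` (`s_le_one`) and the other index `≤ s_0`: at most `N² / 2`... each `≤ s_0²`;
all terms `i ≠ j` are `≤ s_0² s_1²`.
-/

set_option autoImplicit false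

open Matrix

namespace Pool.Agent.Helper20.TB

open Pool.Agent.Helper55.OB

private theorem dd38 {m : Type} [Fintype m] {f g : m → ℝ} : ∑ r : m × m, f r.1 * g r.2 = (∑ a, f a) * ∑ b, g b := by
  rw [Fintype.sum_prod_type, Finset.sum_mul_sum]

private theorem e2_form38 {m : Type} [Fintype m] [DecidableEq m] (A : Matrix m m ℝ) :
    e2 A = (hs A ^ 2 - hs (Aᵀ * A)) / 2 := by
  have h1 : ∑ p : m × m, ∑ q : m × m, A p.1 q.1 ^ 2 * A p.2 q.2 ^ 2 = hs A ^ 2 := by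
    have e : ∀ p : m × m, ∑ q : m × m, A p.1 q.1 ^ 2 * A p.2 q.2 ^ 2 = (∑ k, A p.1 k ^ 2) * ∑ l, A p.2 l ^ 2 := fun p =>
      dd38 (f := fun k => A p.1 k ^ 2) (g := fun l => A p.2 l ^ 2)
    simp only [e]
    rw [dd38 (f := fun i => ∑ k, A i k ^ 2) (g := fun i => ∑ k, A i k ^ 2), ← sq]
    rfl
  have h1' : ∑ p : m × m, ∑ q : m × m, A p.1 q.2 ^ 2 * A p.2 q.1 ^ 2 = hs A ^ 2 := by
    have e : ∀ p : m × m, ∑ q : m × m, A p.1 q.2 ^ 2 * A p.2 q.1 ^ 2 = (∑ k, A p.1 k ^ 2) * ∑ l, A p.2 l ^ 2 := fun p => by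
      rw [mul_comm (∑ k, A p.1 k ^ 2), ← dd38 (f := fun k => A p.2 k ^ 2) (g := fun l => A p.1 l ^ 2)]
      exact Finset.sum_congr rfl fun q _ => mul_comm _ _
    simp only [e]
    rw [dd38 (f := fun i => ∑ k, A i k ^ 2) (g := fun i => ∑ k, A i k ^ 2), ← sq]
    rfl
  have h2 : ∑ p : m × m, ∑ q : m × m, A p.1 q.1 * A p.1 q.2 * (A p.2 q.1 * A p.2 q.2) = hs (Aᵀ * A) := by
    rw [Finset.sum_comm]
    have e : ∀ q : m × m, ∑ p : m × m, A p.1 q.1 * A p.1 q.2 * (A p.2 q.1 * A p.2 q.2) = (Aᵀ * A) q.1 q.2 ^ 2 := fun q => by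
      rw [dd38 (f := fun i => A i q.1 * A i q.2) (g := fun i => A i q.1 * A i q.2), ← sq, Matrix.mul_apply]
      rfl
    simp only [e]
    unfold hs
    rw [Fintype.sum_prod_type]
  unfold e2
  change ∑ p : m × m, ∑ q : m × m, ((A p.1 q.1 * A p.2 q.2 - A p.1 q.2 * A p.2 q.1) / 2) ^ 2 = _
  have e3 : ∀ p q : m × m, ((A p.1 q.1 * A p.2 q.2 - A p.1 q.2 * A p.2 q.1) / 2) ^ 2 =
      (A p.1 q.1 ^ 2 * A p.2 q.2 ^ 2) / 4 + (A p.1 q.2 ^ 2 * A p.2 q.1 ^ 2) / 4 -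
        (A p.1 q.1 * A p.1 q.2 * (A p.2 q.1 * A p.2 q.2)) / 2 := fun p q => by ring
  simp only [e3, Finset.sum_sub_distrib, Finset.sum_add_distrib, ← Finset.sum_div]
  rw [h1, h1', h2]
  ring

private theorem hs_diag38 {N : ℕ} (s : Fin N → ℝ) : hs (diagonal s) = ∑ i, s i ^ 2 := by
  unfold hs
  refine Finset.sum_congr rfl fun i _ => ?_
  rw [Finset.sum_eq_single i]
  · rw [diagonal_apply_eq]
  · intro j _ hj
    rw [diagonal_apply_ne _ hj.symm]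
    norm_num
  · intro h
    exact absurd (Finset.mem_univ _) h

namespace RD

variable {G : Type} [Group G] {N : ℕ} (D : RD G N)

theorem hs_eq (g : G) : hs (D.r g) = ∑ i, D.s g i ^ 2 := by
  rw [D.spec g, hs_orth_right (by rw [transpose_transpose]; exact D.oR g), hs_orth_left (D.oL g), hs_diag38]

theorem e2_eq (g : G) : e2 (D.r g) = ((∑ i, D.s g i ^ 2) ^ 2 - ∑ i, D.s g i ^ 4) / 2 := by
  rw [e2_form38, D.hs_eq]
  have h : hs ((D.r g)ᵀ * D.r g) = ∑ i, D.s g i ^ 4 := by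
    have e : (D.r g)ᵀ * D.r g = D.kR g * (diagonal (fun i => D.s g i ^ 2) * (D.kR g)ᵀ) := by
      rw [D.spec g]
      simp only [transpose_mul, transpose_transpose, diagonal_transpose]
      have e1 : D.kR g * (diagonal (D.s g) * (D.kL g)ᵀ) * (D.kL g * diagonal (D.s g) * (D.kR g)ᵀ) =
          D.kR g * (diagonal (D.s g) * ((D.kL g)ᵀ * D.kL g) * diagonal (D.s g) * (D.kR g)ᵀ) := by
        simp only [Matrix.mul_assoc]
      rw [e1, D.oL g, Matrix.mul_one, diagonal_mul_diagonal]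
      simp only [sq]
    rw [e, hs_orth_left (D.oR g), hs_orth_right (by rw [transpose_transpose]; exact D.oR g), hs_diag38]
    exact Finset.sum_congr rfl fun i _ => by ring
  rw [h]

private theorem split38 (f : Fin N → ℝ) : ∑ i, f i = f D.i0 + f D.i1 + ∑ i ∈ (Finset.univ.erase D.i0).erase D.i1, f i := by
  have h01 : D.i1 ∈ Finset.univ.erase D.i0 := Finset.mem_erase.2 ⟨by
    unfold i0 i1
    intro h
    have := congrArg Fin.val h
    simp at this, Finset.mem_univ _⟩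
  rw [← Finset.add_sum_erase _ f (Finset.mem_univ D.i0), ← Finset.add_sum_erase _ f h01, add_assoc]

private theorem e2_split38 (g : G) : ∃ R R2 : ℝ, 0 ≤ R ∧ R ≤ N ∧ 0 ≤ R2 ∧ R2 ≤ R ^ 2 ∧
    e2 (D.r g) = (D.s0 g * D.s1 g) ^ 2 + (D.s0 g ^ 2 + D.s1 g ^ 2) * R + (R ^ 2 - R2) / 2 := by
  have h2 : ∀ i ∈ (Finset.univ.erase D.i0).erase D.i1, D.s g i ^ 2 ≤ 1 := by
    intro i hi
    rw [Finset.mem_erase, Finset.mem_erase] at hi
    have hi2 : 2 ≤ (i : ℕ) := by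
      by_contra hlt
      have h3 : (i : ℕ) = 0 ∨ (i : ℕ) = 1 := by omega
      rcases h3 with h3 | h3
      · exact hi.2.1 (Fin.ext h3)
      · exact hi.1 (Fin.ext h3)
    have h4 := D.s_le_one g i hi2
    have h5 := D.pos g i
    nlinarith
  refine ⟨∑ i ∈ (Finset.univ.erase D.i0).erase D.i1, D.s g i ^ 2, ∑ i ∈ (Finset.univ.erase D.i0).erase D.i1, (D.s g i ^ 2) ^ 2,
    Finset.sum_nonneg fun i _ => by positivity, ?_, Finset.sum_nonneg fun i _ => by positivity, ?_, ?_⟩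
  · refine (Finset.sum_le_sum h2).trans ?_
    rw [Finset.sum_const, nsmul_eq_mul, mul_one]
    have h6 := Finset.card_le_univ ((Finset.univ.erase D.i0).erase D.i1)
    rw [Fintype.card_fin] at h6
    exact_mod_cast h6
  · exact Finset.sum_sq_le_sq_sum_of_nonneg fun i _ => by positivity
  · rw [D.e2_eq, D.split38, D.split38 (fun i => D.s g i ^ 4)]
    have h7 : ∑ i ∈ (Finset.univ.erase D.i0).erase D.i1, D.s g i ^ 4 = ∑ i ∈ (Finset.univ.erase D.i0).erase D.i1, (D.s g i ^ 2) ^ 2 :=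
      Finset.sum_congr rfl fun i _ => by ring
    rw [h7]
    unfold s0 s1
    ring

theorem s0_sq_le_hs (g : G) : D.s0 g ^ 2 ≤ hs (D.r g) := by
  rw [D.hs_eq]
  exact Finset.single_le_sum (f := fun i => D.s g i ^ 2) (fun i _ => sq_nonneg _) (Finset.mem_univ D.i0)

theorem hs_le (g : G) : hs (D.r g) ≤ D.s0 g ^ 2 + N * D.s1 g ^ 2 := by
  rw [D.hs_eq]
  have h : ∀ i ∈ Finset.univ, D.s g i ^ 2 ≤ (if i = D.i0 then D.s0 g ^ 2 else 0) + D.s1 g ^ 2 := by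
    intro i _
    split_ifs with hi
    · rw [hi]
      unfold s0
      nlinarith [sq_nonneg (D.s1 g)]
    · have h1 : D.i1 ≤ i := by
        rw [Fin.le_def]
        unfold i1
        by_contra hlt
        refine hi (Fin.ext ?_)
        unfold i0
        simp only at hlt ⊢
        omega
      have h2 : D.s g i ≤ D.s1 g := D.anti g h1
      have h3 := D.pos g i
      nlinarith
  refine (Finset.sum_le_sum h).trans (le_of_eq ?_)
  rw [Finset.sum_add_distrib, Finset.sum_ite_eq' Finset.univ D.i0 (fun _ => D.s0 g ^ 2), if_pos (Finset.mem_univ _),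
    Finset.sum_const, nsmul_eq_mul, Finset.card_univ, Fintype.card_fin]

theorem hs_le' (g : G) : hs (D.r g) ≤ N * D.s0 g ^ 2 := by
  rw [D.hs_eq]
  have h : ∀ i ∈ Finset.univ, D.s g i ^ 2 ≤ D.s0 g ^ 2 := by
    intro i _
    have h1 : D.i0 ≤ i := Fin.le_def.2 (Nat.zero_le _)
    have h2 : D.s g i ≤ D.s0 g := D.anti g h1
    have h3 := D.pos g i
    nlinarith
  refine (Finset.sum_le_sum h).trans (le_of_eq ?_)
  rw [Finset.sum_const, nsmul_eq_mul, Finset.card_univ, Fintype.card_fin]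

theorem le_e2 (g : G) : (D.s0 g * D.s1 g) ^ 2 ≤ e2 (D.r g) := by
  obtain ⟨R, R2, h0, -, -, h2, he⟩ := D.e2_split38 g
  rw [he]
  have h3 : 0 ≤ (D.s0 g ^ 2 + D.s1 g ^ 2) * R := mul_nonneg (by positivity) h0
  linarith

theorem e2_le (g : G) : e2 (D.r g) ≤ (D.s0 g * D.s1 g) ^ 2 + N ^ 2 * D.s0 g ^ 2 := by
  obtain ⟨R, R2, h0, h1, h4, h2, he⟩ := D.e2_split38 g
  rw [he]
  have hN : (5 : ℝ) ≤ N := by exact_mod_cast D.hN
  have a1 := D.one_le_s1 g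
  have a0 := D.s1_le_s0 g
  have b1 : D.s1 g ^ 2 ≤ D.s0 g ^ 2 := by nlinarith
  have b0 : 1 ≤ D.s0 g ^ 2 := by nlinarith
  have h3 : (D.s0 g ^ 2 + D.s1 g ^ 2) * R ≤ (2 * D.s0 g ^ 2) * N :=
    mul_le_mul (by linarith) h1 h0 (by positivity)
  have h5 : R ^ 2 ≤ N ^ 2 := by nlinarith
  have h6 : (R ^ 2 - R2) / 2 ≤ N ^ 2 / 2 * D.s0 g ^ 2 := by nlinarith [sq_nonneg (N : ℝ)]
  have h7 : (2 * D.s0 g ^ 2) * N ≤ N ^ 2 / 2 * D.s0 g ^ 2 := by
    have : 2 * (N : ℝ) ≤ N ^ 2 / 2 := by nlinarith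
    nlinarith [mul_le_mul_of_nonneg_right this (sq_nonneg (D.s0 g))]
  linarith

theorem e2_le' (g : G) : e2 (D.r g) ≤ N ^ 2 * (D.s0 g * D.s1 g) ^ 2 := by
  obtain ⟨R, R2, h0, h1, h4, h2, he⟩ := D.e2_split38 g
  rw [he]
  have hN : (5 : ℝ) ≤ N := by exact_mod_cast D.hN
  have a1 := D.one_le_s1 g
  have a0 := D.s1_le_s0 g
  have b1 : D.s1 g ^ 2 ≤ D.s0 g ^ 2 := by nlinarith
  have b0 : 1 ≤ D.s1 g ^ 2 := by nlinarith
  have c0 : 0 ≤ D.s0 g ^ 2 := sq_nonneg _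
  have h3 : (D.s0 g ^ 2 + D.s1 g ^ 2) * R ≤ (2 * D.s0 g ^ 2) * N :=
    mul_le_mul (by linarith) h1 h0 (by positivity)
  have h5 : R ^ 2 ≤ N ^ 2 := by nlinarith
  have hX : (D.s0 g * D.s1 g) ^ 2 = D.s0 g ^ 2 * D.s1 g ^ 2 := by ring
  have hX0 : D.s0 g ^ 2 ≤ (D.s0 g * D.s1 g) ^ 2 := by
    rw [hX]
    nlinarith
  have hX1 : 1 ≤ (D.s0 g * D.s1 g) ^ 2 := by linarith
  set X := (D.s0 g * D.s1 g) ^ 2
  have h6 : (R ^ 2 - R2) / 2 ≤ N ^ 2 / 2 * X := by nlinarith [sq_nonneg (N : ℝ)]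
  have h7 : (2 * D.s0 g ^ 2) * N ≤ (2 * X) * N := mul_le_mul_of_nonneg_right (by linarith) (by positivity)
  have h8 : X + (2 * X) * N + N ^ 2 / 2 * X ≤ N ^ 2 * X := by
    have : 1 + 2 * (N : ℝ) ≤ N ^ 2 / 2 := by nlinarith
    nlinarith [mul_le_mul_of_nonneg_right this (by linarith : (0 : ℝ) ≤ X)]
  linarith

end RD

end Pool.Agent.Helper20.TB
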