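import Pool.Agent.Helper20.TB.KapU

/-!
# Project OB (MP_0f6f3f_an), layer TB, block TB-T1: the inequality on `L²(X; ℓ²(G))`

PROOF. `φ = xE D (cst (dl k))`, `ψ = xE D' (cst (dl k'))`. `WW_apply`: for almost all `x`: `WW g φ x = 1_D(g⁻¹ x) • E.U(a(g, g⁻¹ x)) (dl k⁻¹)` (`ivU G (dl k) = dl k⁻¹`; `xE_apply`, `cst_apply` at the point `g⁻¹ x`: `(measurePreserving_smul g⁻¹ μ).quasiMeasurePreserving.ae`, as in the proof of `KU_mem` in
`Helper9/S3X/Defs.lean`), `vg_apply`: `ZZ (g g'⁻¹) χ x = E.U(a(g g'⁻¹, (g g'⁻¹)⁻¹ x)) (χ ((g g'⁻¹)⁻¹ x))`, and `cl_apply`. So the inner product in `L²` (`L2.inner_def`, `integral`) is the integral of `conj (1_D ..) 1_D' ..` times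
`inner (mulop w (u (dl k⁻¹))) (U (mulop w' (u' (dl k'⁻¹))))` with `u = E.U(a(g, g⁻¹ x))`, `U = E.U(a(g g'⁻¹, (g g'⁻¹)⁻¹ x))`, `u' = E.U(a(g', g'⁻¹ (g g'⁻¹)⁻¹ x))`; by `tbi_unitary` (`E.comm`) the absolute value of the integrand is at most `C ‖ind W (zx (g g'⁻¹) x)‖`
(`zx (k) x = cf (E.U (a(k, k⁻¹ x)))`: `Helper66/FR/Zt3.lean`, `zx`, `zx_eq`, `cf U = U (dl 1)`), and `∫ ‖f‖ ≤ (∫ ‖f‖²)^(1/2) = ‖f‖` on a probability space (`xl_norm_sq`, `xl_int`, or `eLpNorm_le_eLpNorm_of_exponent_le`).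
-/

set_option autoImplicit false
set_option linter.unusedSectionVars false

open MeasureTheory Filter Topology
open scoped ComplexConjugate

namespace Pool.Agent.Helper20.TB

open Pool.Agent.Helper84 Pool.Agent.Helper84.GN Pool.Agent.Helper84.GN.S3 Pool.Agent.Helper84.GN.S3.X
open Pool.Agent.Helper84.NI Pool.Agent.Helper84.GVN Pool.Agent.Helper90.RK
open Pool.Agent.Helper96.RK Pool.Agent.Helper66.FR Pool.Agent.Helper84.FR Pool.Agent.Helper55.FR Pool.Agent.Helper78.BM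

variable {G1 X G Λ : Type} [Group G1] [TopologicalSpace G1] [IsTopologicalGroup G1] [MeasurableSpace X] [MulAction G1 X]
  [MeasurableConstSMul G1 X] [Group G] [Group Λ] [Countable Λ] {μ : Measure X} [SMulInvariantMeasure G1 X μ]
  [IsProbabilityMeasure μ] {a : Cocy G1 X Λ} {E : Emb Λ G}

private theorem l1_le96 {H : Type} [NormedAddCommGroup H] [InnerProductSpace ℂ H] (F : XL μ H) :
    Integrable (fun x => ‖F x‖) μ ∧ ∫ x, ‖F x‖ ∂μ ≤ ‖F‖ := by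
  have h1 : Integrable (fun x => ‖F x‖) μ := ((Lp.memLp F).integrable one_le_two).norm
  refine ⟨h1, ?_⟩
  have h2 := xl_int F
  have h3 := xl_norm_sq F
  set m : ℝ := ∫ x, ‖F x‖ ∂μ with hm
  have h4 : 0 ≤ ∫ x, (‖F x‖ - m) ^ 2 ∂μ := integral_nonneg fun x => sq_nonneg _
  have h5 : ∫ x, (‖F x‖ - m) ^ 2 ∂μ = ∫ x, (‖F x‖ ^ 2 - (2 * m) * ‖F x‖ + m ^ 2) ∂μ := by
    refine integral_congr_ae (Eventually.of_forall fun x => ?_)
    simp only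
    ring
  have h6 : ∫ x, (‖F x‖ ^ 2 - (2 * m) * ‖F x‖ + m ^ 2) ∂μ = ‖F‖ ^ 2 - (2 * m) * m + m ^ 2 := by
    have e1 : Integrable (fun x => (2 * m) * ‖F x‖) μ := h1.const_mul _
    have e2 : Integrable (fun x => ‖F x‖ ^ 2 - (2 * m) * ‖F x‖) μ := h2.sub e1
    rw [integral_add e2 (integrable_const _), integral_sub h2 e1, integral_const_mul, ← h3, ← hm]
    simp
  rw [h5, h6] at h4
  have h7 : m ^ 2 ≤ ‖F‖ ^ 2 := by nlinarith
  have h8 : 0 ≤ m := integral_nonneg fun x => norm_nonneg _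
  exact (sq_le_sq₀ h8 (norm_nonneg _)).1 h7

private theorem ind_norm96 (D : Set X) (x : X) : ‖D.indicator (fun _ => (1 : ℂ)) x‖ ≤ 1 := by
  by_cases h : x ∈ D <;> simp [h]

theorem tb_fin {w w' : G → ℝ} {W : Set G} {C : ℝ} (hT : TBI w w' W C) (hw : ∀ g, |w g| ≤ 1) (hw' : ∀ g, |w' g| ≤ 1)
    {D D' : Set X} (hD : MeasurableSet D) (hD' : MeasurableSet D') (k k' : G) (g g' : G1) :
    ‖(inner ℂ (cl μ (mulop fun γ => (w γ : ℂ)) (WW μ a E g (xE μ (L2 G) D (cst μ (dl k)))))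
      (ZZ μ a E (g * g'⁻¹) (cl μ (mulop fun γ => (w' γ : ℂ)) (WW μ a E g' (xE μ (L2 G) D' (cst μ (dl k')))))) : ℂ)‖ ≤
      C * ‖cl μ (ind ℂ W) (zx μ a E (g * g'⁻¹))‖ := by
  set p : G1 := g * g'⁻¹ with hp
  set ξ : XL μ (L2 G) := xE μ (L2 G) D (cst μ (dl k)) with hξ
  set ξ' : XL μ (L2 G) := xE μ (L2 G) D' (cst μ (dl k')) with hξ'
  set T : L2 G →L[ℂ] L2 G := mulop fun γ => (w γ : ℂ) with hT1
  set T' : L2 G →L[ℂ] L2 G := mulop fun γ => (w' γ : ℂ) with hT2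
  set F : XL μ (L2 G) := cl μ (ind ℂ W) (zx μ a E p) with hF
  have hiv : ∀ j : G, ivU G (dl j) = dl j⁻¹ := fun j => permU_dl _ _
  have hkey : ∀ᵐ x ∂μ, ‖(inner ℂ (cl μ T (WW μ a E g ξ) x) (ZZ μ a E p (cl μ T' (WW μ a E g' ξ')) x) : ℂ)‖ ≤ C * ‖F x‖ := by
    filter_upwards [cl_apply (μ := μ) T (WW μ a E g ξ), WW_apply (μ := μ) a E g ξ,
      (measurePreserving_smul g⁻¹ μ).quasiMeasurePreserving.ae (xE_apply hD (cst μ (dl k : L2 G))),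
      (measurePreserving_smul g⁻¹ μ).quasiMeasurePreserving.ae (cst_apply (μ := μ) (dl k : L2 G)),
      vg_apply a E.U p (cl μ T' (WW μ a E g' ξ')),
      (measurePreserving_smul p⁻¹ μ).quasiMeasurePreserving.ae (cl_apply (μ := μ) T' (WW μ a E g' ξ')),
      (measurePreserving_smul p⁻¹ μ).quasiMeasurePreserving.ae (WW_apply (μ := μ) a E g' ξ'),
      (measurePreserving_smul p⁻¹ μ).quasiMeasurePreserving.ae
        ((measurePreserving_smul g'⁻¹ μ).quasiMeasurePreserving.ae (xE_apply hD' (cst μ (dl k' : L2 G)))),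
      (measurePreserving_smul p⁻¹ μ).quasiMeasurePreserving.ae
        ((measurePreserving_smul g'⁻¹ μ).quasiMeasurePreserving.ae (cst_apply (μ := μ) (dl k' : L2 G))),
      cl_apply (μ := μ) (ind ℂ W) (zx μ a E p), zv_apply (μ := μ) (E := E) (mea_a (a := a) p p⁻¹)]
      with x h1 h2 h3 h4 h5 h6 h7 h8 h9 h10 h11
    rw [h1, h2, hξ, h3, h4, h5, h6, h7, hξ', h8, h9, hF, h10, zx_eq, h11]
    rw [map_smul, map_smul, map_smul, map_smul, map_smul, map_smul, map_smul, inner_smul_left, inner_smul_right, hiv, hiv]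
    rw [norm_mul, norm_mul, RCLike.norm_conj]
    have h12 := tbi_unitary hT hw hw' (E.comm (a.a g (g⁻¹ • x))) (E.comm (a.a g' (g'⁻¹ • p⁻¹ • x))) (E.comm (a.a p (p⁻¹ • x))) k⁻¹ k'⁻¹
    have h13 := ind_norm96 D (g⁻¹ • x)
    have h14 := ind_norm96 D' (g'⁻¹ • p⁻¹ • x)
    calc _ ≤ 1 * (1 * ‖(inner ℂ (T (E.U (a.a g (g⁻¹ • x)) (dl k⁻¹)))
          (E.U (a.a p (p⁻¹ • x)) (T' (E.U (a.a g' (g'⁻¹ • p⁻¹ • x)) (dl k'⁻¹)))) : ℂ)‖) := by
          gcongr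
      _ = ‖(inner ℂ (T (E.U (a.a g (g⁻¹ • x)) (dl k⁻¹)))
          (E.U (a.a p (p⁻¹ • x)) (T' (E.U (a.a g' (g'⁻¹ • p⁻¹ • x)) (dl k'⁻¹)))) : ℂ)‖ := by rw [one_mul, one_mul]
      _ ≤ _ := h12
  obtain ⟨i1, i2⟩ := l1_le96 F
  rw [xl_inner]
  calc _ ≤ ∫ x, ‖(inner ℂ (cl μ T (WW μ a E g ξ) x) (ZZ μ a E p (cl μ T' (WW μ a E g' ξ')) x) : ℂ)‖ ∂μ :=
        norm_integral_le_integral_norm _
    _ ≤ ∫ x, C * ‖F x‖ ∂μ := integral_mono_ae (xl_int_inner _ _).norm (i1.const_mul C) hkey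
    _ = C * ∫ x, ‖F x‖ ∂μ := integral_const_mul _ _
    _ ≤ C * ‖F‖ := mul_le_mul_of_nonneg_left i2 hT.1

end Pool.Agent.Helper20.TB
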