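import Pool.Agent.Helper20.TB.Defs

/-!
# Project OB (MP_0f6f3f_an), layer TB, block TB-W1: operators of matrices, the second exterior power

`op A = Matrix.toEuclideanCLM A` (a star algebra isomorphism: `map_mul`, `map_star`; `Matrix.toEuclideanCLM_toLp`: `op A (toLp x) = toLp (A *ᵥ x)`), `r2 A = P (A ⊗ A)` (`P` = antisymmetrizer), `wd x y = P (x ⊗ y)`. All statements are direct computations with finite sums:
`r2_mul`: `∑_{ab} (A_ia A_jb - A_ib A_ja) (B_ak B_bl - B_al B_bk) / 4 = (2 (AB)_ik (AB)_jl - 2 (AB)_il (AB)_jk) / 4` (`Fintype.sum_prod_type`, `Matrix.mul_apply`, `Finset.sum_mul_sum`, exchange `a, b`). `op_r2_wd` the same. `inner_wd`: `∑_{ij} (x_i y_j - x_j y_i)(z_i w_j - z_j w_i) / 4`.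
`JR_mul`: `jj N` is an involution (`jj`: `0 ↔ N-1`, `1 ↔ N-2`, `N ≥ 5`... true for all `N`? use `5 ≤ N`). `JK_mul`: from `JR_mul`. `r2_JR`: `op (r2 A) ∘ JK = op (r2 (A J))`: `(r2 A * JK N) = r2 (A * JR N)`: `∑_{ab} (A_ia A_jb - A_ib A_ja) J_ak J_bl / 2`.
`two_JR`: `n0 = (e_0 - e_{N-1}) / √2`, `n1 = (e_1 - e_{N-2}) / √2`. `wd_repr`: `r2 A X = ∑_{ij} X_ij • wd (A e_i) (A e_j)` for all `X` (`e_i = EuclideanSpace.single i 1`, `wd (A e_i) (A e_j) = op (r2 A) (wd e_i e_j)` and `∑_ij X_ij • wd e_i e_j = P X`, `r2 A = r2 A * r2 1`).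
-/

set_option autoImplicit false

open Matrix

namespace Pool.Agent.Helper20.TB

open Pool.Agent.Helper55.OB

variable {m : Type} [Fintype m] [DecidableEq m]

theorem op_mul (A B : Matrix m m ℝ) (x : EuclideanSpace ℝ m) : op (A * B) x = op A (op B x) := by
  unfold op
  rw [map_mul]
  rfl

theorem op_one (x : EuclideanSpace ℝ m) : op (1 : Matrix m m ℝ) x = x := by
  unfold op
  rw [map_one]
  rfl

theorem op_neg (A : Matrix m m ℝ) (x : EuclideanSpace ℝ m) : op (-A) x = -op A x := by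
  unfold op
  rw [map_neg]
  rfl

theorem op_adj (A : Matrix m m ℝ) : ContinuousLinearMap.adjoint (op A) = op Aᵀ := by
  unfold op
  rw [← Matrix.conjTranspose_eq_transpose_of_trivial A, ← ContinuousLinearMap.star_eq_adjoint,
    ← map_star, Matrix.star_eq_conjTranspose]

theorem op_apply (A : Matrix m m ℝ) (x : EuclideanSpace ℝ m) (i : m) : op A x i = ∑ j, A i j * x j := by
  unfold op
  rw [Matrix.ofLp_toEuclideanCLM]
  rfl

private theorem dd63 {f g : m → ℝ} : ∑ r : m × m, f r.1 * g r.2 = (∑ a, f a) * ∑ b, g b := by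
  rw [Fintype.sum_prod_type, Finset.sum_mul_sum]

private theorem four63 (a b c d a' b' c' d' : m → ℝ) :
    ∑ r : m × m, (a r.1 * b r.2 - c r.2 * d r.1) / 2 * ((a' r.1 * b' r.2 - c' r.1 * d' r.2) / 2) =
      ((∑ r, a r * a' r) * (∑ r, b r * b' r) - (∑ r, a r * c' r) * (∑ r, b r * d' r) -
        (∑ r, d r * a' r) * (∑ r, c r * b' r) + (∑ r, d r * c' r) * (∑ r, c r * d' r)) / 4 := by
  rw [← dd63, ← dd63, ← dd63, ← dd63, ← Finset.sum_sub_distrib, ← Finset.sum_sub_distrib,
    ← Finset.sum_add_distrib, Finset.sum_div]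
  refine Finset.sum_congr rfl fun r _ => ?_
  ring

theorem r2_mul (A B : Matrix m m ℝ) : r2 (A * B) = r2 A * r2 B := by
  ext p q
  rw [Matrix.mul_apply]
  simp only [r2, Matrix.of_apply]
  have h := four63 (fun r => A p.1 r) (fun r => A p.2 r) (fun r => A p.1 r) (fun r => A p.2 r)
    (fun r => B r q.1) (fun r => B r q.2) (fun r => B r q.2) (fun r => B r q.1)
  simp only [Matrix.mul_apply]
  rw [h]
  ring

theorem r2_transpose (A : Matrix m m ℝ) : r2 Aᵀ = (r2 A)ᵀ := by
  ext p q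
  simp only [r2, Matrix.of_apply, Matrix.transpose_apply]
  ring

theorem r2_neg (A : Matrix m m ℝ) : r2 (-A) = r2 A := by
  ext p q
  simp only [r2, Matrix.of_apply, Matrix.neg_apply]
  ring

private theorem wd_apply63 (x y : EuclideanSpace ℝ m) (p : m × m) :
    wd x y p = (x p.1 * y p.2 - x p.2 * y p.1) / 2 := rfl

theorem op_r2_wd (A : Matrix m m ℝ) (x y : EuclideanSpace ℝ m) : op (r2 A) (wd x y) = wd (op A x) (op A y) := by
  ext p
  rw [op_apply, wd_apply63, op_apply, op_apply, op_apply, op_apply]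
  have h := four63 (fun r => A p.1 r) (fun r => A p.2 r) (fun r => A p.1 r) (fun r => A p.2 r)
    (fun r => x r) (fun r => y r) (fun r => y r) (fun r => x r)
  have e : ∑ q : m × m, r2 A p q * wd x y q = ∑ r : m × m, (A p.1 r.1 * A p.2 r.2 -
      A p.1 r.2 * A p.2 r.1) / 2 * ((x r.1 * y r.2 - y r.1 * x r.2) / 2) := by
    refine Finset.sum_congr rfl fun r _ => ?_
    rw [wd_apply63]
    simp only [r2, Matrix.of_apply]
    ring
  rw [e, h]
  ring

private theorem inner63 {n : Type} [Fintype n] (x y : EuclideanSpace ℝ n) :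
    inner ℝ x y = ∑ i, x i * y i := by
  rw [PiLp.inner_apply]
  refine Finset.sum_congr rfl fun i _ => ?_
  simp [mul_comm]

theorem inner_wd (x y z w : EuclideanSpace ℝ m) :
    inner ℝ (wd x y) (wd z w) = (inner ℝ x z * inner ℝ y w - inner ℝ x w * inner ℝ y z) / 2 := by
  rw [inner63, inner63, inner63, inner63, inner63]
  have h := four63 (fun r => x r) (fun r => y r) (fun r => x r) (fun r => y r)
    (fun r => z r) (fun r => w r) (fun r => w r) (fun r => z r)
  have e : ∑ q : m × m, wd x y q * wd z w q = ∑ r : m × m, (x r.1 * y r.2 -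
      x r.2 * y r.1) / 2 * ((z r.1 * w r.2 - w r.1 * z r.2) / 2) := by
    refine Finset.sum_congr rfl fun r _ => ?_
    rw [wd_apply63, wd_apply63]
    ring
  rw [e, h]
  ring

theorem norm_wd_sq (x y : EuclideanSpace ℝ m) : ‖wd x y‖ ^ 2 = (‖x‖ ^ 2 * ‖y‖ ^ 2 - inner ℝ x y ^ 2) / 2 := by
  rw [← real_inner_self_eq_norm_sq, inner_wd, real_inner_self_eq_norm_sq,
    real_inner_self_eq_norm_sq, real_inner_comm x y]
  ring

theorem norm_wd_le (x y : EuclideanSpace ℝ m) : ‖wd x y‖ ≤ ‖x‖ * ‖y‖ := by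
  have h := norm_wd_sq x y
  have h1 : 0 ≤ inner ℝ x y ^ 2 := sq_nonneg _
  have h2 : 0 ≤ ‖x‖ ^ 2 * ‖y‖ ^ 2 := by positivity
  have h3 : ‖wd x y‖ ^ 2 ≤ (‖x‖ * ‖y‖) ^ 2 := by
    rw [h, mul_pow]
    linarith
  exact (pow_le_pow_iff_left₀ (norm_nonneg _) (by positivity) two_ne_zero).1 h3

theorem wd_add_left (x x' y : EuclideanSpace ℝ m) : wd (x + x') y = wd x y + wd x' y := by
  ext p
  rw [PiLp.add_apply, wd_apply63, wd_apply63, wd_apply63, PiLp.add_apply, PiLp.add_apply]
  ring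

theorem wd_add_right (x y y' : EuclideanSpace ℝ m) : wd x (y + y') = wd x y + wd x y' := by
  ext p
  rw [PiLp.add_apply, wd_apply63, wd_apply63, wd_apply63, PiLp.add_apply, PiLp.add_apply]
  ring

theorem wd_smul_left (c : ℝ) (x y : EuclideanSpace ℝ m) : wd (c • x) y = c • wd x y := by
  ext p
  rw [PiLp.smul_apply, wd_apply63, wd_apply63, PiLp.smul_apply, PiLp.smul_apply]
  simp only [smul_eq_mul]
  ring

theorem wd_smul_right (c : ℝ) (x y : EuclideanSpace ℝ m) : wd x (c • y) = c • wd x y := by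
  ext p
  rw [PiLp.smul_apply, wd_apply63, wd_apply63, PiLp.smul_apply, PiLp.smul_apply]
  simp only [smul_eq_mul]
  ring

theorem wd_self (x : EuclideanSpace ℝ m) : wd x x = 0 := by
  ext p
  rw [wd_apply63, PiLp.zero_apply]
  ring

theorem wd_swap (x y : EuclideanSpace ℝ m) : wd y x = -wd x y := by
  ext p
  rw [PiLp.neg_apply, wd_apply63, wd_apply63]
  ring

private theorem op_single63 (A : Matrix m m ℝ) (i j : m) :
    op A (EuclideanSpace.single j 1) i = A i j := by
  rw [op_apply, Finset.sum_eq_single j]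
  · rw [EuclideanSpace.single_apply, if_pos rfl, mul_one]
  · intro k _ hk
    rw [EuclideanSpace.single_apply, if_neg hk, mul_zero]
  · intro h
    exact absurd (Finset.mem_univ j) h

/-- Every element of the range is a combination of decomposable vectors. -/
theorem wd_repr (A : Matrix m m ℝ) (X : EuclideanSpace ℝ (m × m)) :
    op (r2 A) X = ∑ p : m × m, X p • wd (op A (EuclideanSpace.single p.1 1)) (op A (EuclideanSpace.single p.2 1)) := by
  ext q
  rw [op_apply, WithLp.ofLp_sum, Finset.sum_apply]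
  refine Finset.sum_congr rfl fun p _ => ?_
  rw [PiLp.smul_apply, wd_apply63, op_single63, op_single63, op_single63, op_single63, smul_eq_mul]
  simp only [r2, Matrix.of_apply]
  ring

end Pool.Agent.Helper20.TB
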