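import Pool.Agent.Helper20.TB.Wd

/-!
# Project OB (MP_0f6f3f_an), layer TB, block TB-W4: the form and its second tensor power

`JR N i j = 1` iff `j = jj N i`; `jj N` is an involution (for every `N`: `i < 2` gives `N ≤ i.rev + 2`, `N ≤ i + 2` gives `i.rev < 2`), so `JR * JR = 1`, `JR` is symmetric, `op (JR N) x i = x (jj N i)`. `JK N p q = JR p.1 q.1 * JR p.2 q.2`: `op (JK N) X p = X (jj p.1, jj p.2)`. `r2_JR`: `∑_{ab} (A_ia A_jb - A_ib A_ja) J_ak J_bl / 2`
`= ((A J)_ik (A J)_jl - (A J)_jk (A J)_il) / 2`.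
-/

set_option autoImplicit false

open Matrix

namespace Pool.Agent.Helper20.TB

open Pool.Agent.Helper55.OB

variable {N : ℕ}

private theorem jj_jj34 (i : Fin N) : jj N (jj N i) = i := by
  apply Fin.ext
  have h := i.2
  unfold jj
  split_ifs with h1 h2
  · simp
  · exfalso
    apply h2
    simp only [Fin.val_rev]
    omega
  · rfl

private theorem eq_jj34 (i j : Fin N) : j = jj N i ↔ i = jj N j := by
  constructor
  · rintro rfl
    rw [jj_jj34]
  · rintro rfl
    rw [jj_jj34]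

private theorem JR_apply34 (i j : Fin N) : JR N i j = if j = jj N i then 1 else 0 := rfl

private theorem JK_apply34 (p q : Fin N × Fin N) :
    JK N p q = if q = (jj N p.1, jj N p.2) then 1 else 0 := by
  change JR N p.1 q.1 * JR N p.2 q.2 = _
  rw [JR_apply34, JR_apply34]
  by_cases h1 : q.1 = jj N p.1
  · by_cases h2 : q.2 = jj N p.2
    · rw [if_pos h1, if_pos h2, if_pos (Prod.ext h1 h2), one_mul]
    · rw [if_neg h2, mul_zero, if_neg (fun h => h2 (congrArg Prod.snd h))]
  · rw [if_neg h1, zero_mul, if_neg (fun h => h1 (congrArg Prod.fst h))]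

private theorem op_JR34 (x : EuclideanSpace ℝ (Fin N)) (i : Fin N) : op (JR N) x i = x (jj N i) := by
  rw [op_apply]
  simp only [JR_apply34, ite_mul, one_mul, zero_mul, Finset.sum_ite_eq', Finset.mem_univ, if_true]

private theorem op_JK34 (x : EuclideanSpace ℝ (Fin N × Fin N)) (p : Fin N × Fin N) :
    op (JK N) x p = x (jj N p.1, jj N p.2) := by
  rw [op_apply]
  simp only [JK_apply34, ite_mul, one_mul, zero_mul, Finset.sum_ite_eq', Finset.mem_univ, if_true]

theorem JR_mul : JR N * JR N = 1 := by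
  ext i k
  rw [Matrix.mul_apply]
  simp only [JR_apply34, ite_mul, one_mul, zero_mul, Finset.sum_ite_eq', Finset.mem_univ, if_true, jj_jj34,
    Matrix.one_apply, eq_comm]

theorem JR_transpose : (JR N)ᵀ = JR N := by
  ext i j
  rw [Matrix.transpose_apply, JR_apply34, JR_apply34]
  simp only [eq_jj34 j i]

theorem op_JR_JR (x : EuclideanSpace ℝ (Fin N)) : op (JR N) (op (JR N) x) = x := by
  rw [← op_mul, JR_mul, op_one]

theorem inner_JR (x y : EuclideanSpace ℝ (Fin N)) : inner ℝ (op (JR N) x) y = inner ℝ x (op (JR N) y) := by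
  rw [← ContinuousLinearMap.adjoint_inner_left, op_adj, JR_transpose]

theorem norm_JR (x : EuclideanSpace ℝ (Fin N)) : ‖op (JR N) x‖ = ‖x‖ := by
  have h : ‖op (JR N) x‖ ^ 2 = ‖x‖ ^ 2 := by
    rw [← real_inner_self_eq_norm_sq, ← real_inner_self_eq_norm_sq, inner_JR, op_JR_JR]
  exact (pow_left_inj₀ (norm_nonneg _) (norm_nonneg _) two_ne_zero).1 h

theorem op_JK_JK (x : EuclideanSpace ℝ (Fin N × Fin N)) : op (JK N) (op (JK N) x) = x := by
  ext p
  rw [op_JK34, op_JK34, jj_jj34, jj_jj34]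

theorem inner_JK (x y : EuclideanSpace ℝ (Fin N × Fin N)) : inner ℝ (op (JK N) x) y = inner ℝ x (op (JK N) y) := by
  have ht : (JK N)ᵀ = JK N := by
    ext p q
    change JR N q.1 p.1 * JR N q.2 p.2 = JR N p.1 q.1 * JR N p.2 q.2
    have h : ∀ i j : Fin N, JR N j i = JR N i j := fun i j => congrFun (congrFun JR_transpose i) j
    rw [h p.1 q.1, h p.2 q.2]
  rw [← ContinuousLinearMap.adjoint_inner_left, op_adj, ht]

theorem norm_JK (x : EuclideanSpace ℝ (Fin N × Fin N)) : ‖op (JK N) x‖ = ‖x‖ := by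
  have h : ‖op (JK N) x‖ ^ 2 = ‖x‖ ^ 2 := by
    rw [← real_inner_self_eq_norm_sq, ← real_inner_self_eq_norm_sq, inner_JK, op_JK_JK]
  exact (pow_left_inj₀ (norm_nonneg _) (norm_nonneg _) two_ne_zero).1 h

theorem JK_wd (x y : EuclideanSpace ℝ (Fin N)) : op (JK N) (wd x y) = wd (op (JR N) x) (op (JR N) y) := by
  ext p
  rw [op_JK34]
  change (x (jj N p.1) * y (jj N p.2) - x (jj N p.2) * y (jj N p.1)) / 2 =
    (op (JR N) x p.1 * op (JR N) y p.2 - op (JR N) x p.2 * op (JR N) y p.1) / 2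
  rw [op_JR34, op_JR34, op_JR34, op_JR34]

theorem r2_JR (A : Matrix (Fin N) (Fin N) ℝ) : r2 A * JK N = r2 (A * JR N) := by
  have h1 : ∀ i k : Fin N, (A * JR N) i k = A i (jj N k) := by
    intro i k
    rw [Matrix.mul_apply]
    simp only [JR_apply34, eq_jj34 _ k, mul_ite, mul_one, mul_zero, Finset.sum_ite_eq', Finset.mem_univ, if_true]
  ext p q
  have h2 : (r2 A * JK N) p q = r2 A p (jj N q.1, jj N q.2) := by
    rw [Matrix.mul_apply, Finset.sum_eq_single (jj N q.1, jj N q.2)]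
    · rw [JK_apply34, jj_jj34, jj_jj34, if_pos rfl, mul_one]
    · intro r _ hr
      rw [JK_apply34, if_neg, mul_zero]
      intro h
      apply hr
      rw [h, jj_jj34, jj_jj34]
    · intro h
      exact absurd (Finset.mem_univ _) h
  rw [h2]
  change (A p.1 (jj N q.1) * A p.2 (jj N q.2) - A p.1 (jj N q.2) * A p.2 (jj N q.1)) / 2 =
    ((A * JR N) p.1 q.1 * (A * JR N) p.2 q.2 - (A * JR N) p.1 q.2 * (A * JR N) p.2 q.1) / 2
  rw [h1, h1, h1, h1]

theorem r2_JR' (A : Matrix (Fin N) (Fin N) ℝ) : JK N * r2 A = r2 (JR N * A) := by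
  have h1 : ∀ i k : Fin N, (JR N * A) i k = A (jj N i) k := by
    intro i k
    rw [Matrix.mul_apply]
    simp only [JR_apply34, ite_mul, one_mul, zero_mul, Finset.sum_ite_eq', Finset.mem_univ, if_true]
  ext p q
  have h2 : (JK N * r2 A) p q = r2 A (jj N p.1, jj N p.2) q := by
    rw [Matrix.mul_apply, Finset.sum_eq_single (jj N p.1, jj N p.2)]
    · rw [JK_apply34, if_pos rfl, one_mul]
    · intro r _ hr
      rw [JK_apply34, if_neg hr, zero_mul]
    · intro h
      exact absurd (Finset.mem_univ _) h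
  rw [h2]
  change (A (jj N p.1) q.1 * A (jj N p.2) q.2 - A (jj N p.1) q.2 * A (jj N p.2) q.1) / 2 =
    ((JR N * A) p.1 q.1 * (JR N * A) p.2 q.2 - (JR N * A) p.1 q.2 * (JR N * A) p.2 q.1) / 2
  rw [h1, h1, h1, h1]

end Pool.Agent.Helper20.TB
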